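import Pool.Agent.H6.RP.Core

/-! A0: elementary facts on the block-beta measure.

Proofs. `wt` is measurable: the set `{∀ i, bsq x i ≤ 1}` is closed, the product of `rpow`s of continuous functions is
measurable.  `wt ≤ 1` (each factor `(1 - s)^β ≤ 1` for `0 ≤ s ≤ 1`, `β ≥ 0`) and `wt = 0` outside the cube `[-1,1]^ι`, so
the integral is at most `2^D`.  On the box `|x l| ≤ ε` with `D ε² ≤ 1/2` we have `wt ≥ 2^{-∑β}`, so the integral is
positive.  Hence `muw`, `blockBeta` are probability measures; `ofLp : Sp d → (ι → ℝ)` is volume preserving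
(`EuclideanSpace.volume_preserving_...`), so it maps `blockBeta` to `muw`.  Symmetry: `wt (-x) = wt x` and `x ↦ -x`
preserves `volume`. -/

open MeasureTheory
open scoped ENNReal

namespace RP

variable {m : ℕ} {d : Fin m → ℕ} {β : Fin m → ℝ}

theorem a0_bsq_cont (i : Fin m) : Continuous fun x : Ix d → ℝ => bsq x i := by
  unfold bsq
  fun_prop

theorem a0_bsq_nonneg (x : Ix d → ℝ) (i : Fin m) : 0 ≤ bsq x i :=
  Finset.sum_nonneg fun _ _ => sq_nonneg _

theorem wt_measurable : Measurable (wt (d := d) β) := by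
  unfold wt
  refine Measurable.ite ?_ ?_ measurable_const
  · have : {x : Ix d → ℝ | ∀ i, bsq x i ≤ 1} = ⋂ i, {x : Ix d → ℝ | bsq x i ≤ 1} := by
      ext x
      simp
    rw [this]
    exact MeasurableSet.iInter fun i => measurableSet_le (a0_bsq_cont i).measurable measurable_const
  · refine Measurable.ennreal_ofReal ?_
    refine Finset.measurable_prod _ fun i _ => ?_
    exact (measurable_const.sub (a0_bsq_cont i).measurable).pow_const _

theorem wt_le_one (hβ : ∀ i, 0 ≤ β i) (x : Ix d → ℝ) : wt β x ≤ 1 := by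
  unfold wt
  split_ifs with h
  · rw [← ENNReal.ofReal_one]
    apply ENNReal.ofReal_le_ofReal
    refine Finset.prod_le_one (fun i _ => ?_) fun i _ => ?_
    · exact Real.rpow_nonneg (by linarith [h i]) _
    · exact Real.rpow_le_one (by linarith [h i]) (by linarith [a0_bsq_nonneg x i]) (hβ i)
  · exact bot_le

theorem wt_lintegral_pos (hβ : ∀ i, 0 ≤ β i) : 0 < ∫⁻ x : Ix d → ℝ, wt β x := by
  rw [lintegral_pos_iff_support wt_measurable]
  have hop : IsOpen {x : Ix d → ℝ | ∀ i, bsq x i < 1} := by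
    have : {x : Ix d → ℝ | ∀ i, bsq x i < 1} = ⋂ i, {x : Ix d → ℝ | bsq x i < 1} := by
      ext x
      simp
    rw [this]
    exact isOpen_iInter_of_finite fun i => isOpen_lt (a0_bsq_cont i) continuous_const
  have hne : {x : Ix d → ℝ | ∀ i, bsq x i < 1}.Nonempty := ⟨0, fun i => by simp [bsq]⟩
  refine lt_of_lt_of_le (hop.measure_pos volume hne) (measure_mono fun x hx => ?_)
  have hx' : ∀ i, bsq x i < 1 := hx
  rw [Function.mem_support]
  unfold wt
  rw [if_pos fun i => (hx' i).le]
  refine (ENNReal.ofReal_pos.2 ?_).ne'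
  exact Finset.prod_pos fun i _ => Real.rpow_pos_of_pos (by linarith [hx' i]) _

theorem a0_cube (x : Ix d → ℝ) (h : ∀ i, bsq x i ≤ 1) (l : Ix d) : x l ∈ Set.Icc (-1 : ℝ) 1 := by
  obtain ⟨i, j⟩ := l
  have h1 : x ⟨i, j⟩ ^ 2 ≤ 1 := by
    refine le_trans ?_ (h i)
    unfold bsq
    exact Finset.single_le_sum (f := fun j => x ⟨i, j⟩ ^ 2) (fun _ _ => sq_nonneg _)
      (Finset.mem_univ j)
  exact abs_le.1 ((sq_le_one_iff_abs_le_one _).1 h1)

theorem wt_lintegral_lt_top (hβ : ∀ i, 0 ≤ β i) : ∫⁻ x : Ix d → ℝ, wt β x < ⊤ := by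
  set K : Set (Ix d → ℝ) := Set.pi Set.univ fun _ => Set.Icc (-1 : ℝ) 1 with hK
  have hKm : MeasurableSet K := MeasurableSet.univ_pi fun _ => measurableSet_Icc
  have h1 : ∀ x : Ix d → ℝ, wt β x ≤ K.indicator 1 x := by
    intro x
    by_cases hx : x ∈ K
    · rw [Set.indicator_of_mem hx]
      exact wt_le_one hβ x
    · unfold wt
      rw [if_neg]
      · exact bot_le
      · intro h
        exact hx fun l _ => a0_cube x h l
  refine lt_of_le_of_lt (lintegral_mono h1) ?_
  rw [lintegral_indicator_one hKm, hK, volume_pi_pi]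
  refine ENNReal.prod_lt_top fun l _ => ?_
  rw [Real.volume_Icc]
  exact ENNReal.ofReal_lt_top

theorem muw_prob (hβ : ∀ i, 0 ≤ β i) : IsProbabilityMeasure (muw d β) := by
  refine ⟨?_⟩
  unfold muw
  rw [Measure.smul_apply, withDensity_apply _ MeasurableSet.univ, smul_eq_mul,
    Measure.restrict_univ]
  exact ENNReal.inv_mul_cancel (wt_lintegral_pos hβ).ne' (wt_lintegral_lt_top hβ).ne

theorem a0_mp {X Y : Type*} [MeasurableSpace X] [MeasurableSpace Y] {μ : Measure X} {ν : Measure Y}
    (e : X → Y) (he : MeasurePreserving e μ ν) (f : Y → ℝ≥0∞) (hf : Measurable f) (c : ℝ≥0∞) :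
    MeasurePreserving e (c • μ.withDensity fun x => f (e x)) (c • ν.withDensity f) := by
  refine ⟨he.measurable, ?_⟩
  ext s hs
  rw [Measure.map_apply he.measurable hs, Measure.smul_apply, Measure.smul_apply,
    withDensity_apply _ hs, withDensity_apply _ (he.measurable hs)]
  congr 1
  exact he.setLIntegral_comp_preimage hs hf

theorem ofLp_mp (hβ : ∀ i, 0 ≤ β i) : MeasurePreserving (fun x : Sp d => x.ofLp) (blockBeta d β) (muw d β) := by
  have he : MeasurePreserving (fun x : Sp d => x.ofLp) := PiLp.volume_preserving_ofLp (Ix d)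
  have hZ : ∫⁻ x : Sp d, wt β x.ofLp = ∫⁻ x : Ix d → ℝ, wt β x :=
    he.lintegral_comp wt_measurable
  unfold blockBeta muw
  rw [hZ]
  exact a0_mp _ he _ wt_measurable _

theorem blockBeta_prob (hβ : ∀ i, 0 ≤ β i) : IsProbabilityMeasure (blockBeta d β) := by
  have h := ofLp_mp (d := d) hβ
  have := muw_prob (d := d) hβ
  refine ⟨?_⟩
  have h1 := h.measure_preimage (s := Set.univ) MeasurableSet.univ.nullMeasurableSet
  rw [Set.preimage_univ] at h1
  rw [h1]
  exact measure_univ

theorem blockBeta_ac : blockBeta d β ≪ (volume : Measure (Sp d)) :=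
  Measure.AbsolutelyContinuous.smul_left (withDensity_absolutelyContinuous _ _) _

theorem muw_ac : muw d β ≪ (volume : Measure (Ix d → ℝ)) :=
  Measure.AbsolutelyContinuous.smul_left (withDensity_absolutelyContinuous _ _) _

theorem muw_neg (hβ : ∀ i, 0 ≤ β i) : MeasurePreserving (fun x : Ix d → ℝ => -x) (muw d β) (muw d β) := by
  have he : MeasurePreserving (fun x : Ix d → ℝ => -x) volume volume :=
    Measure.measurePreserving_neg _
  have h := a0_mp _ he _ (wt_measurable (d := d) (β := β)) (∫⁻ x : Ix d → ℝ, wt β x)⁻¹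
  have h1 : (fun x : Ix d → ℝ => wt β (-x)) = fun x => wt β x := by
    ext x
    unfold wt bsq
    simp
  rw [h1] at h
  exact h

end RP
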