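import Pool.Agent.H6.RP.A0

/-! A1: almost every configuration of independent points is in general position.

Proof. It is enough to treat one finset `s` with `D + 1` elements (finitely many).  If the family `x|s` is not affinely
independent, some `x i₀` lies in the affine span of the other `D` points, a proper affine subspace of `ℝ^D` (dimension at
most `D - 1`), a null set (`Measure.addHaar_affineSubspace`).  Fubini for the product measure (split off the coordinate
`i₀`).  For measurability you may replace affine dependence by the vanishing of the determinant of the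
`(D+1) × (D+1)` matrix with rows `(x k, 1)` (continuous in `x`), or use the fact that the zero set of a nonzero
polynomial is null (there are versions in `Pool/Agent`, e.g. `Pool/Agent/H85/MA/*`, `Pool/Agent/H78/SP/Final.lean`). -/

open MeasureTheory
open scoped ENNReal

namespace RP

variable {m : ℕ} {d : Fin m → ℕ} {β : Fin m → ℝ}

/-- general position: any `D + 1` of the points are affinely independent -/
def GP {n : ℕ} (x : Fin n → Sp d) : Prop :=
  ∀ s : Finset (Fin n), s.card = (∑ i, d i) + 1 → AffineIndependent ℝ (fun i : s => x i)

theorem A1_cons {c : ℕ} {E : Type*} [NormedAddCommGroup E] [NormedSpace ℝ E] (v : E) (y : Fin c → E)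
    (hy : AffineIndependent ℝ y) (hv : v ∉ affineSpan ℝ (Set.range y)) :
    AffineIndependent ℝ (Fin.cons v y : Fin (c + 1) → E) := by
  apply AffineIndependent.affineIndependent_of_notMem_span (i := 0)
  · let e : Fin c ≃ {k : Fin (c + 1) // k ≠ 0} :=
      Equiv.ofBijective (fun j => ⟨j.succ, Fin.succ_ne_zero j⟩)
        ⟨fun a b h => by simpa using h, fun ⟨k, hk⟩ => by
          obtain ⟨j, rfl⟩ := Fin.exists_succ_eq.mpr hk
          exact ⟨j, rfl⟩⟩
    rw [← affineIndependent_equiv e]
    exact hy
  · have : (Fin.cons v y : Fin (c + 1) → E) '' {k | k ≠ 0} = Set.range y := by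
      ext z
      constructor
      · rintro ⟨k, hk, rfl⟩
        obtain ⟨j, rfl⟩ := Fin.exists_succ_eq.mpr hk
        exact ⟨j, by simp⟩
      · rintro ⟨j, rfl⟩
        exact ⟨j.succ, Fin.succ_ne_zero j, by simp⟩
    rw [this]
    simpa using hv

theorem A1_fin {E : Type*} [NormedAddCommGroup E] [NormedSpace ℝ E] [FiniteDimensional ℝ E] [MeasurableSpace E]
    [BorelSpace E] (ν : Measure E) [ν.IsAddHaarMeasure] (μ : Measure E) [IsProbabilityMeasure μ] (hμ : μ ≪ ν) (c : ℕ)
    (hc : c ≤ Module.finrank ℝ E + 1) :
    ∀ᵐ x ∂(Measure.pi fun _ : Fin c => μ), AffineIndependent ℝ x := by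
  have : ProperSpace E := FiniteDimensional.proper_real E
  have : SecondCountableTopology E := inferInstance
  induction c with
  | zero => exact Filter.Eventually.of_forall fun x => affineIndependent_of_subsingleton ℝ x
  | succ c ih =>
    have ih' := ih (by omega)
    have hmp := measurePreserving_piFinSuccAbove (fun _ : Fin (c + 1) => μ) 0
    set e := MeasurableEquiv.piFinSuccAbove (fun _ : Fin (c + 1) => E) 0 with he
    set B : Set (Fin (c + 1) → E) := {x | AffineIndependent ℝ x}ᶜ with hB
    have hBm : MeasurableSet B := (isOpen_setOfPred_affineIndependent (𝕜 := ℝ)).measurableSet.compl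
    have h1 : (Measure.pi fun _ : Fin (c + 1) => μ) B = 0 := by
      have h2 := (hmp.symm e).measure_preimage hBm.nullMeasurableSet
      rw [← h2, Measure.prod_apply_symm (e.symm.measurable hBm)]
      rw [lintegral_eq_zero_iff' (by
        exact (measurable_measure_prodMk_right (e.symm.measurable hBm)).aemeasurable)]
      filter_upwards [ih'] with y hy
      apply measure_mono_null (t := (affineSpan ℝ (Set.range y) : Set E))
      · intro v hv
        by_contra hv2
        apply hv
        have := A1_cons v y hy hv2
        have e2 : e.symm (v, y) = Fin.cons v y := by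
          rw [he]
          simp [MeasurableEquiv.piFinSuccAbove]
          rfl
        show AffineIndependent ℝ (e.symm (v, y))
        rw [e2]
        exact this
      · apply hμ
        apply Measure.addHaar_affineSubspace
        intro htop
        rcases Nat.eq_zero_or_pos c with hc0 | hc0
        · subst hc0
          have : Set.range y = ∅ := Set.range_eq_empty y
          rw [this, AffineSubspace.span_empty] at htop
          exact (AffineSubspace.bot_ne_top ℝ E E) htop
        · obtain ⟨c', rfl⟩ : ∃ c', c = c' + 1 := ⟨c - 1, by omega⟩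
          have h3 := finrank_vectorSpan_range_le ℝ y (n := c') (by simp)
          rw [← direction_affineSpan, htop, AffineSubspace.direction_top, finrank_top] at h3
          omega
    exact h1

theorem A1_finset {E : Type*} [NormedAddCommGroup E] [NormedSpace ℝ E] [FiniteDimensional ℝ E] [MeasurableSpace E]
    [BorelSpace E] (ν : Measure E) [ν.IsAddHaarMeasure] (μ : Measure E) [IsProbabilityMeasure μ] (hμ : μ ≪ ν) (n : ℕ)
    (s : Finset (Fin n)) (hs : s.card ≤ Module.finrank ℝ E + 1) :
    ∀ᵐ x ∂(Measure.pi fun _ : Fin n => μ), AffineIndependent ℝ (fun i : s => x i) := by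
  have h1 := A1_fin ν μ hμ s.card hs
  let f : Fin s.card ≃ s := s.equivFin.symm
  have h2 := measurePreserving_piCongrLeft (fun _ : s => μ) f
  have h3 := measurePreserving_piEquivPiSubtypeProd (fun _ : Fin n => μ) (fun i => i ∈ s)
  have einst : (Subtype.fintype fun i => i ∈ s) = Finset.Subtype.fintype s := Subsingleton.elim _ _
  rw [einst] at h3
  have h4 : MeasurePreserving (Prod.fst : ((i : {i // i ∈ s}) → E) × ((i : {i // ¬ i ∈ s}) → E) → _)
      ((Measure.pi fun _ : {i // i ∈ s} => μ).prod (Measure.pi fun _ : {i // ¬ i ∈ s} => μ))
      (Measure.pi fun _ : {i // i ∈ s} => μ) := measurePreserving_fst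
  have h5 := h4.comp h3
  have h6 : ∀ᵐ x ∂(Measure.pi fun _ : s => μ), AffineIndependent ℝ x := by
    have h7 := (h2.symm _).quasiMeasurePreserving.ae h1
    filter_upwards [h7] with x hx
    have e1 : (MeasurableEquiv.piCongrLeft (fun _ : s => E) f).symm x = x ∘ f := by
      ext k
      rfl
    rw [e1] at hx
    exact (affineIndependent_equiv f).mp hx
  have h8 := h5.quasiMeasurePreserving.ae h6
  filter_upwards [h8] with x hx
  exact hx

theorem gen (hβ : ∀ i, 0 ≤ β i) (_hD : 1 ≤ ∑ i, d i) (n : ℕ) :
    ∀ᵐ x ∂(Measure.pi fun _ : Fin n => blockBeta d β), GP x := by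
  have hp : IsProbabilityMeasure (blockBeta d β) := blockBeta_prob hβ
  unfold GP
  rw [ae_all_iff]
  intro s
  by_cases hs : s.card = (∑ i, d i) + 1
  · have := A1_finset (volume : Measure (Sp d)) (blockBeta d β) blockBeta_ac n s (by
      rw [hs, finrank_euclideanSpace]
      simp)
    filter_upwards [this] with x hx _
    exact hx
  · exact Filter.Eventually.of_forall fun x h => absurd h hs

end RP
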