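import Pool.Agent.H6.RP.A1

/-! A2: the facets of the convex hull of points in general position.

Proof.  Let `P = convexHull (range x)`, `n ≥ D + 1`.
(1) Let `F` be a facet: `F = {z ∈ P | ∀ y ∈ P, l y ≤ l z}` for a continuous linear `l`.  Put `M = max_i l (x i)` (then
`l ≤ M` on `P`, `F = {z ∈ P | l z = M}`) and `I = {i | l (x i) = M}`.  Then `F = convexHull (x '' I)`: if `z = ∑ w_i x_i`
(weights `≥ 0`, sum `1`) and `l z = M` then `w_i = 0` whenever `l (x i) < M`.  `finrank (vectorSpan F) = D - 1`.  If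
`|I| ≥ D + 1`, a subset of `D + 1` points is affinely independent and `finrank ≥ D`, contradiction; so `|I| ≤ D`, and
`finrank ≤ |I| - 1` gives `|I| = D`.  So `Supp x I`.
(2) Let `|I| = D` and `Supp x I` with `l, r`.  Then `F = convexHull (x '' I) = {z ∈ P | l z = r}` is exposed, nonempty, and
`finrank (vectorSpan F) = D - 1` because `x|I` is affinely independent (it is contained in a set of `D + 1` indices, `n ≥ D+1`).
(3) If `Supp x I`, `Supp x I'` and the hulls are equal then `I = I'`: for `i ∈ I'`, `x i ∈ convexHull (x '' I)` gives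
`l (x i) = r`, so `i ∈ I`; symmetric.
So `I ↦ convexHull (x '' I)` is a bijection from `{I | card I = D, Supp x I}` to the facets; transport the `tsum`
(`Equiv.tsum_eq`, `tsum_fintype`, `Finset.sum_filter`); `affineSpan (convexHull S) = affineSpan S`. -/

open MeasureTheory
open scoped ENNReal

namespace RP

variable {m : ℕ} {d : Fin m → ℕ} {β : Fin m → ℝ}

/-- `x '' I` spans a supporting hyperplane which contains no other point -/
def Supp {n : ℕ} (x : Fin n → Sp d) (I : Finset (Fin n)) : Prop :=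
  ∃ (l : Sp d →L[ℝ] ℝ) (r : ℝ), (∀ i ∈ I, l (x i) = r) ∧ ∀ i ∉ I, l (x i) < r

/-- the points of the hull on a supporting hyperplane -/
theorem a2_face {n : ℕ} (x : Fin n → Sp d) (l : Sp d →L[ℝ] ℝ) (r : ℝ) (I : Finset (Fin n))
    (h1 : ∀ i ∈ I, l (x i) = r) (h2 : ∀ i ∉ I, l (x i) < r) :
    {z ∈ convexHull ℝ (Set.range x) | l z = r} = convexHull ℝ (x '' (I : Set (Fin n))) := by
  classical
  apply Set.Subset.antisymm
  · rintro z ⟨hz, hlz⟩
    rw [mem_convexHull_iff_exists_fintype] at hz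
    obtain ⟨ι, _, w, y, hw0, hw1, hy, hsum⟩ := hz
    have hle : ∀ i, l (y i) ≤ r := by
      intro i
      obtain ⟨j, hj⟩ := hy i
      rw [← hj]
      by_cases hjI : j ∈ I
      · exact (h1 j hjI).le
      · exact (h2 j hjI).le
    have hz2 : ∑ i, w i * (r - l (y i)) = 0 := by
      have e1 : ∑ i, w i * l (y i) = r := by
        rw [← hlz, ← hsum, map_sum]
        refine Finset.sum_congr rfl fun i _ => ?_
        rw [map_smul, smul_eq_mul]
      calc ∑ i, w i * (r - l (y i)) = (∑ i, w i) * r - ∑ i, w i * l (y i) := by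
            rw [Finset.sum_mul, ← Finset.sum_sub_distrib]
            refine Finset.sum_congr rfl fun i _ => ?_
            ring
        _ = 0 := by rw [hw1, e1]; ring
    have hz3 := (Finset.sum_eq_zero_iff_of_nonneg
      (fun i _ => mul_nonneg (hw0 i) (sub_nonneg.2 (hle i)))).1 hz2
    have hmem : ∀ i ∈ Finset.univ.filter (fun i => w i ≠ 0), y i ∈ convexHull ℝ (x '' (I : Set (Fin n))) := by
      intro i hi
      rw [Finset.mem_filter] at hi
      have h3 := hz3 i (Finset.mem_univ i)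
      rcases mul_eq_zero.1 h3 with h4 | h4
      · exact absurd h4 hi.2
      · obtain ⟨j, hj⟩ := hy i
        have hjI : j ∈ I := by
          by_contra hn
          have := h2 j hn
          rw [hj] at this
          linarith
        exact subset_convexHull ℝ _ ⟨j, hjI, hj⟩
    have hs1 : ∑ i ∈ Finset.univ.filter (fun i => w i ≠ 0), w i = 1 := by
      rw [Finset.sum_filter_ne_zero, hw1]
    have hs2 : ∑ i ∈ Finset.univ.filter (fun i => w i ≠ 0), w i • y i = z := by
      rw [← hsum]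
      refine Finset.sum_subset (Finset.filter_subset _ _) fun i _ hi => ?_
      have : w i = 0 := by
        by_contra hne
        exact hi (Finset.mem_filter.2 ⟨Finset.mem_univ _, hne⟩)
      rw [this, zero_smul]
    rw [← hs2]
    exact (convex_convexHull ℝ _).sum_mem (fun i _ => hw0 i) hs1 hmem
  · have hconv : Convex ℝ {z ∈ convexHull ℝ (Set.range x) | l z = r} := by
      have : {z ∈ convexHull ℝ (Set.range x) | l z = r}
          = convexHull ℝ (Set.range x) ∩ {z | l z = r} := rfl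
      rw [this]
      refine (convex_convexHull ℝ _).inter ?_
      exact (convex_hyperplane (f := fun z => l z) (IsLinearMap.mk (map_add l) (map_smul l)) r)
    refine convexHull_min ?_ hconv
    rintro _ ⟨i, hi, rfl⟩
    exact ⟨subset_convexHull ℝ _ ⟨i, rfl⟩, h1 i hi⟩

theorem a2_le {n : ℕ} (x : Fin n → Sp d) (l : Sp d →L[ℝ] ℝ) (r : ℝ)
    (h : ∀ i, l (x i) ≤ r) : ∀ z ∈ convexHull ℝ (Set.range x), l z ≤ r := by
  have hc : Convex ℝ {z : Sp d | l z ≤ r} :=
    convex_halfSpace_le (f := fun z => l z) (IsLinearMap.mk (map_add l) (map_smul l)) r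
  have := convexHull_min (s := Set.range x) (t := {z : Sp d | l z ≤ r})
    (by rintro _ ⟨i, rfl⟩; exact h i) hc
  exact fun z hz => this hz

/-- small subfamilies are affinely independent -/
theorem a2_ai {n : ℕ} (hn : (∑ i, d i) + 1 ≤ n) (x : Fin n → Sp d) (hx : GP x)
    (J : Finset (Fin n)) (hJ : J.card ≤ (∑ i, d i) + 1) :
    AffineIndependent ℝ (fun i : J => x i) := by
  obtain ⟨s, hs, hc⟩ := Finset.exists_superset_card_eq hJ (by simpa using hn)
  have h1 := hx s hc
  exact h1.comp_embedding ⟨fun i : J => (⟨i.1, hs i.2⟩ : s), fun a b h => by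
    simp only [Subtype.mk.injEq] at h
    exact Subtype.ext h⟩

theorem a2_finrank {n : ℕ} (hn : (∑ i, d i) + 1 ≤ n) (x : Fin n → Sp d) (hx : GP x)
    (J : Finset (Fin n)) (hJ : J.card ≤ (∑ i, d i) + 1) (hJ1 : 1 ≤ J.card) :
    Module.finrank ℝ (vectorSpan ℝ (x '' (J : Set (Fin n)))) + 1 = J.card := by
  have h1 := a2_ai hn x hx J hJ
  have h2 := h1.finrank_vectorSpan (n := J.card - 1) (by rw [Fintype.card_coe]; omega)
  have h3 : Set.range (fun i : J => x i) = x '' (J : Set (Fin n)) := by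
    ext z
    constructor
    · rintro ⟨i, rfl⟩
      exact ⟨i.1, i.2, rfl⟩
    · rintro ⟨i, hi, rfl⟩
      exact ⟨⟨i, hi⟩, rfl⟩
  rw [h3] at h2
  omega

theorem a2_span (S : Set (Sp d)) : vectorSpan ℝ (convexHull ℝ S) = vectorSpan ℝ S := by
  rw [← direction_affineSpan, ← direction_affineSpan, affineSpan_convexHull]

/-- supporting sets of `D` points give facets -/
theorem a2_facet (hD : 1 ≤ ∑ i, d i) {n : ℕ} (hn : (∑ i, d i) + 1 ≤ n) (x : Fin n → Sp d) (hx : GP x)
    (I : Finset (Fin n)) (hI : I.card = ∑ i, d i) (hs : Supp x I) :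
    IsFacet (convexHull ℝ (Set.range x)) (convexHull ℝ (x '' (I : Set (Fin n)))) := by
  obtain ⟨l, r, h1, h2⟩ := hs
  have hIne : I.Nonempty := by
    rw [← Finset.card_pos, hI]
    omega
  obtain ⟨i0, hi0⟩ := hIne
  have hle : ∀ i, l (x i) ≤ r := by
    intro i
    by_cases hi : i ∈ I
    · exact (h1 i hi).le
    · exact (h2 i hi).le
  refine ⟨fun _ => ⟨l, ?_⟩, ?_, ?_⟩
  · rw [← a2_face x l r I h1 h2]
    ext z
    constructor
    · rintro ⟨hz, hlz⟩
      exact ⟨hz, fun y hy => by rw [hlz]; exact a2_le x l r hle y hy⟩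
    · rintro ⟨hz, hlz⟩
      refine ⟨hz, le_antisymm (a2_le x l r hle z hz) ?_⟩
      have := hlz (x i0) (subset_convexHull ℝ _ ⟨i0, rfl⟩)
      rwa [h1 i0 hi0] at this
  · exact ⟨x i0, subset_convexHull ℝ _ ⟨i0, hi0, rfl⟩⟩
  · rw [a2_span, a2_finrank hn x hx I (by omega) (by omega), hI]

/-- every facet is of this form -/
theorem a2_surj {n : ℕ} (hn : (∑ i, d i) + 1 ≤ n) (x : Fin n → Sp d) (hx : GP x)
    (F : Set (Sp d)) (hF : IsFacet (convexHull ℝ (Set.range x)) F) :
    ∃ I : Finset (Fin n), I.card = ∑ i, d i ∧ Supp x I ∧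
      F = convexHull ℝ (x '' (I : Set (Fin n))) := by
  classical
  obtain ⟨hexp, hne, hfr⟩ := hF
  obtain ⟨l, hl⟩ := hexp hne
  obtain ⟨z0, hz0⟩ := hne
  have hz0' := hz0
  rw [hl] at hz0'
  obtain ⟨hz0P, hz0l⟩ := hz0'
  set r := l z0 with hr
  have hle : ∀ i, l (x i) ≤ r := fun i => hz0l _ (subset_convexHull ℝ _ ⟨i, rfl⟩)
  set I : Finset (Fin n) := Finset.univ.filter (fun i => l (x i) = r) with hI
  have h1 : ∀ i ∈ I, l (x i) = r := fun i hi => (Finset.mem_filter.1 hi).2
  have h2 : ∀ i ∉ I, l (x i) < r := by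
    intro i hi
    refine lt_of_le_of_ne (hle i) fun h => hi ?_
    exact Finset.mem_filter.2 ⟨Finset.mem_univ _, h⟩
  have hFeq : F = convexHull ℝ (x '' (I : Set (Fin n))) := by
    rw [← a2_face x l r I h1 h2, hl]
    ext z
    constructor
    · rintro ⟨hz, hlz⟩
      exact ⟨hz, le_antisymm (hz0l z hz) (hlz z0 hz0P)⟩
    · rintro ⟨hz, hlz⟩
      exact ⟨hz, fun y hy => by rw [hlz]; exact hz0l y hy⟩
  refine ⟨I, ?_, ⟨l, r, h1, h2⟩, hFeq⟩
  rw [hFeq, a2_span] at hfr
  have hI1 : 1 ≤ I.card := by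
    rw [Nat.one_le_iff_ne_zero, Ne, Finset.card_eq_zero]
    intro h0
    rw [hFeq, h0] at hz0
    simp at hz0
  by_cases hc : I.card ≤ (∑ i, d i) + 1
  · have := a2_finrank hn x hx I hc hI1
    omega
  · exfalso
    push Not at hc
    obtain ⟨J, hJ, hJc⟩ := Finset.exists_subset_card_eq hc.le
    have h3 := a2_finrank hn x hx J (by omega) (by omega)
    have h4 : vectorSpan ℝ (x '' (J : Set (Fin n))) ≤ vectorSpan ℝ (x '' (I : Set (Fin n))) :=
      vectorSpan_mono ℝ (Set.image_mono (by exact_mod_cast hJ))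
    have h5 := Submodule.finrank_mono h4
    omega

theorem a2_inj {n : ℕ} (x : Fin n → Sp d) (I I' : Finset (Fin n)) (hs : Supp x I)
    (h : convexHull ℝ (x '' (I : Set (Fin n))) = convexHull ℝ (x '' (I' : Set (Fin n)))) :
    I' ⊆ I := by
  obtain ⟨l, r, h1, h2⟩ := hs
  intro i hi
  by_contra hn
  have h3 : x i ∈ convexHull ℝ (x '' (I : Set (Fin n))) := by
    rw [h]
    exact subset_convexHull ℝ _ ⟨i, hi, rfl⟩
  rw [← a2_face x l r I h1 h2] at h3
  have := h2 i hn
  rw [h3.2] at this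
  exact lt_irrefl _ this

open Classical in
theorem fac (hD : 1 ≤ ∑ i, d i) (a b : ℝ) {n : ℕ} (hn : (∑ i, d i) + 1 ≤ n) (x : Fin n → Sp d) (hx : GP x) :
    Tfun a b (convexHull ℝ (Set.range x)) =
      ∑ I ∈ (Finset.univ : Finset (Fin n)).powersetCard (∑ i, d i),
        if Supp x I then
          ENNReal.ofReal (Metric.infDist 0 (affineSpan ℝ (x '' (I : Set (Fin n))) : Set (Sp d))) ^ a *
            (kvol ((∑ i, d i) - 1) (convexHull ℝ (x '' (I : Set (Fin n))))) ^ b
        else 0 := by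
  set P := convexHull ℝ (Set.range x) with hP
  let φ : {I : Finset (Fin n) // I.card = ∑ i, d i ∧ Supp x I} → {F : Set (Sp d) // IsFacet P F} :=
    fun I => ⟨convexHull ℝ (x '' (I.1 : Set (Fin n))), a2_facet hD hn x hx I.1 I.2.1 I.2.2⟩
  have hφ : Function.Bijective φ := by
    constructor
    · rintro ⟨I, hI, hs⟩ ⟨I', hI', hs'⟩ h
      have h' : convexHull ℝ (x '' (I : Set (Fin n))) = convexHull ℝ (x '' (I' : Set (Fin n))) :=
        congrArg Subtype.val h
      exact Subtype.ext (Finset.Subset.antisymm (a2_inj x I' I hs' h'.symm) (a2_inj x I I' hs h'))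
    · rintro ⟨F, hF⟩
      obtain ⟨I, hI, hs, hFI⟩ := a2_surj hn x hx F hF
      exact ⟨⟨I, hI, hs⟩, Subtype.ext hFI.symm⟩
  unfold Tfun
  rw [← (Equiv.ofBijective φ hφ).tsum_eq, tsum_fintype, ← Finset.sum_filter]
  symm
  rw [Finset.sum_subtype (p := fun I : Finset (Fin n) => I.card = ∑ i, d i ∧ Supp x I)]
  · refine Finset.sum_congr rfl fun I _ => ?_
    simp only [Equiv.ofBijective_apply, φ, affineSpan_convexHull]
  · intro I
    rw [Finset.mem_filter, Finset.mem_powersetCard]
    simp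

end RP
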