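import Pool.Agent.H6.RP.Core

/-! A3: hyperplanes through `D` points: span, height.

Proof.  Let `z : ι → ι → ℝ` (`D = |ι|` points of `ℝ^ι`), `Dt o z ≠ 0`, `y = Yof o z`.  Then `Mt o z *ᵥ y = (z · o)`, i.e.
(`Mt_mulVec`) `z k = gp o (z k) y`, so all points lie in the hyperplane `H = {x | dotProduct (Nv o y) x = y o}` (`Nv_gp`).
The points are affinely independent (if `∑ w_k = 0`, `∑ w_k z k = 0` then `w ᵥ* Mt o z = 0`, so `w = 0`), so their affine span has
dimension `D - 1`, the dimension of `H` (as `Nv o y ≠ 0`), hence equals `H`.  The distance from `0` to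
`{x | ⟪N, x⟫ = c}` is `|c| / ‖N‖` (Cauchy-Schwarz; attained at `c N / ‖N‖²`). -/

open MeasureTheory
open scoped ENNReal

namespace RP

variable {ι : Type*} [Fintype ι] [DecidableEq ι]

theorem A3_unit (o : ι) (z : ι → ι → ℝ) (h : Dt o z ≠ 0) : IsUnit (Mt o z).det :=
  isUnit_iff_ne_zero.2 h

theorem gp_Yof (o : ι) (z : ι → ι → ℝ) (h : Dt o z ≠ 0) (k : ι) : gp o (z k) (Yof o z) = z k := by
  have h1 : gp o (z k) (Yof o z) o = z k o := by
    rw [← Mt_mulVec]
    unfold Yof
    rw [Matrix.mulVec_mulVec, Matrix.mul_nonsing_inv _ (A3_unit o z h), Matrix.one_mulVec]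
  funext l
  by_cases hl : l = o
  · rw [hl, h1]
  · unfold gp
    rw [Function.update_of_ne hl]

theorem A3_Mt_gp (o : ι) (z : ι → ι → ℝ) (y : ι → ℝ) : Mt o (fun k => gp o (z k) y) = Mt o z := by
  funext k l
  unfold Mt gp
  by_cases hl : l = o
  · rw [if_pos hl, if_pos hl]
  · rw [if_neg hl, if_neg hl]
    exact Function.update_of_ne hl _ _

theorem Yof_gp (o : ι) (z : ι → ι → ℝ) (y : ι → ℝ) (h : Dt o z ≠ 0) : Yof o (fun k => gp o (z k) y) = y := by
  unfold Yof
  rw [A3_Mt_gp]
  have h1 : (fun k => gp o (z k) y o) = (Mt o z).mulVec y := by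
    funext k
    rw [Mt_mulVec]
  rw [h1, Matrix.mulVec_mulVec, Matrix.nonsing_inv_mul _ (A3_unit o z h), Matrix.one_mulVec]

theorem Dt_gp (o : ι) (z : ι → ι → ℝ) (y : ι → ℝ) : Dt o (fun k => gp o (z k) y) = Dt o z := by
  unfold Dt
  rw [A3_Mt_gp]

theorem affInd_of_Dt (o : ι) (z : ι → ι → ℝ) (h : Dt o z ≠ 0) :
    AffineIndependent ℝ (fun k : ι => (WithLp.toLp 2 (z k) : EuclideanSpace ℝ ι)) := by
  rw [affineIndependent_iff]
  intro s w hw0 hw1 e he
  set v : ι → ℝ := fun k => if k ∈ s then w k else 0 with hv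
  have hs : ∀ g : ι → ℝ, ∑ k, v k * g k = ∑ k ∈ s, w k * g k := by
    intro g
    rw [← Finset.sum_subset (Finset.subset_univ s)]
    · apply Finset.sum_congr rfl
      intro k hk
      simp only [hv]
      rw [if_pos hk]
    · intro k _ hk
      simp only [hv]
      rw [if_neg hk, zero_mul]
  have hz : Matrix.vecMul v (Mt o z) = 0 := by
    funext l
    rw [Matrix.vecMul, dotProduct, hs, Pi.zero_apply]
    by_cases hl : l = o
    · rw [← hw0]
      apply Finset.sum_congr rfl
      intro k _
      simp [Mt, hl]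
    · have h2 := congrArg (fun x : EuclideanSpace ℝ ι => x.ofLp l) hw1
      simp only [WithLp.ofLp_sum, WithLp.ofLp_smul, WithLp.ofLp_zero, Finset.sum_apply, Pi.smul_apply,
        Pi.zero_apply, smul_eq_mul] at h2
      rw [← h2]
      apply Finset.sum_congr rfl
      intro k _
      simp [Mt, hl]
  have h0 := Matrix.eq_zero_of_vecMul_eq_zero h hz
  have h3 := congrFun h0 e
  simp only [hv] at h3
  rw [if_pos he] at h3
  exact h3

theorem span_eq (o : ι) (z : ι → ι → ℝ) (h : Dt o z ≠ 0) :
    (affineSpan ℝ (Set.range fun k : ι => (WithLp.toLp 2 (z k) : EuclideanSpace ℝ ι)) : Set (EuclideanSpace ℝ ι)) =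
      {x | dotProduct (Nv o (Yof o z)) x.ofLp = Yof o z o} := by
  apply Set.Subset.antisymm
  · intro x hx
    refine affineSpan_induction (p := fun x : EuclideanSpace ℝ ι =>
      dotProduct (Nv o (Yof o z)) x.ofLp = Yof o z o) hx ?_ ?_
    · rintro _ ⟨k, rfl⟩
      have h1 := Nv_gp o (z k) (Yof o z)
      rw [gp_Yof o z h k] at h1
      exact h1
    · intro c u v w hu hv hw
      simp only [vsub_eq_sub, vadd_eq_add, WithLp.ofLp_add, WithLp.ofLp_smul, WithLp.ofLp_sub, dotProduct_add,
        dotProduct_smul, dotProduct_sub]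
      rw [hu, hv, hw]
      simp
  · intro x hx
    simp only [Set.mem_ofPred_eq] at hx
    set y := Yof o z with hy
    set r : ι → ℝ := fun l => if l = o then 1 else x.ofLp l with hr
    set w : ι → ℝ := Matrix.vecMul r (Mt o z)⁻¹ with hw
    have hwM : Matrix.vecMul w (Mt o z) = r := by
      rw [hw, Matrix.vecMul_vecMul, Matrix.nonsing_inv_mul _ (A3_unit o z h), Matrix.vecMul_one]
    have hsum : ∑ k, w k = 1 := by
      have h1 := congrFun hwM o
      simp only [Matrix.vecMul, dotProduct, Mt, hr, if_true, mul_one] at h1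
      exact h1
    have hcoord : ∀ l, l ≠ o → ∑ k, w k * z k l = x.ofLp l := by
      intro l hl
      have h1 := congrFun hwM l
      simp only [Matrix.vecMul, dotProduct, Mt, hr, if_neg hl] at h1
      exact h1
    have hpt : ∀ u : ι → ℝ, dotProduct (Nv o y) u = u o - ∑ l ∈ Finset.univ.erase o, y l * u l := by
      intro u
      rw [dotProduct, ← Finset.add_sum_erase _ _ (Finset.mem_univ o)]
      have h1 : ∑ l ∈ Finset.univ.erase o, Nv o y l * u l = - ∑ l ∈ Finset.univ.erase o, y l * u l := by
        rw [← Finset.sum_neg_distrib]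
        apply Finset.sum_congr rfl
        intro l hl
        simp [Nv, Finset.ne_of_mem_erase hl]
      rw [h1]
      simp [Nv]
      ring
    have hzo : ∀ k, z k o = y o + ∑ l ∈ Finset.univ.erase o, y l * z k l := by
      intro k
      have h1 := Nv_gp o (z k) y
      rw [hy, gp_Yof o z h k, ← hy, hpt] at h1
      linarith
    have hxo : x.ofLp o = y o + ∑ l ∈ Finset.univ.erase o, y l * x.ofLp l := by
      have h1 := hpt x.ofLp
      rw [hx] at h1
      linarith
    have hco : ∑ k, w k * z k o = x.ofLp o := by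
      rw [hxo]
      calc ∑ k, w k * z k o = ∑ k, (w k * y o + ∑ l ∈ Finset.univ.erase o, y l * (w k * z k l)) := by
            apply Finset.sum_congr rfl
            intro k _
            rw [hzo k, mul_add, Finset.mul_sum]
            congr 1
            apply Finset.sum_congr rfl
            intro l _
            ring
        _ = (∑ k, w k) * y o + ∑ l ∈ Finset.univ.erase o, y l * ∑ k, w k * z k l := by
            rw [Finset.sum_add_distrib, ← Finset.sum_mul, Finset.sum_comm]
            congr 1
            apply Finset.sum_congr rfl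
            intro l _
            rw [Finset.mul_sum]
        _ = y o + ∑ l ∈ Finset.univ.erase o, y l * x.ofLp l := by
            rw [hsum, one_mul]
            congr 1
            apply Finset.sum_congr rfl
            intro l hl
            rw [hcoord l (Finset.ne_of_mem_erase hl)]
    have hx2 : x = ∑ k, w k • (WithLp.toLp 2 (z k) : EuclideanSpace ℝ ι) := by
      ext l
      simp only [WithLp.ofLp_sum, WithLp.ofLp_smul, Finset.sum_apply, Pi.smul_apply, smul_eq_mul]
      by_cases hl : l = o
      · rw [hl, hco]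
      · rw [hcoord l hl]
    have h2 := affineCombination_mem_affineSpan (s := (Finset.univ : Finset ι)) (w := w) hsum
      (fun k : ι => (WithLp.toLp 2 (z k) : EuclideanSpace ℝ ι))
    rw [Finset.affineCombination_eq_linear_combination _ _ _ hsum] at h2
    rw [hx2]
    exact h2

theorem height (o : ι) (z : ι → ι → ℝ) (h : Dt o z ≠ 0) :
    Metric.infDist 0
        (affineSpan ℝ (Set.range fun k : ι => (WithLp.toLp 2 (z k) : EuclideanSpace ℝ ι)) : Set (EuclideanSpace ℝ ι)) =
      |Yof o z o| / Real.sqrt (∑ l, (Nv o (Yof o z) l) ^ 2) := by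
  rw [span_eq o z h]
  set y := Yof o z with hy
  set N : EuclideanSpace ℝ ι := WithLp.toLp 2 (Nv o y) with hN
  have hnorm : Real.sqrt (∑ l, (Nv o y l) ^ 2) = ‖N‖ := by
    rw [EuclideanSpace.norm_eq]
    congr 1
    apply Finset.sum_congr rfl
    intro l _
    rw [Real.norm_eq_abs, sq_abs]
  have hinner : ∀ x : EuclideanSpace ℝ ι, dotProduct (Nv o y) x.ofLp = inner ℝ N x := by
    intro x
    rw [PiLp.inner_apply]
    unfold dotProduct
    apply Finset.sum_congr rfl
    intro l _
    simp [hN, mul_comm]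
  have hpos : 0 < ‖N‖ := by
    rw [norm_pos_iff]
    intro h0
    have h1 := congrArg (fun x : EuclideanSpace ℝ ι => x.ofLp o) h0
    simp [hN, Nv] at h1
  rw [hnorm]
  have hmem : ((y o / ‖N‖ ^ 2) • N) ∈ {x : EuclideanSpace ℝ ι | dotProduct (Nv o y) x.ofLp = y o} := by
    simp only [Set.mem_ofPred_eq]
    rw [hinner, inner_smul_right, real_inner_self_eq_norm_sq]
    field_simp
  apply le_antisymm
  · refine le_trans (Metric.infDist_le_dist_of_mem hmem) ?_
    rw [dist_zero_left, norm_smul, Real.norm_eq_abs, abs_div, abs_of_pos (by positivity : 0 < ‖N‖ ^ 2)]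
    apply le_of_eq
    field_simp
  · rw [Metric.le_infDist ⟨_, hmem⟩]
    intro x hx
    simp only [Set.mem_ofPred_eq] at hx
    rw [dist_zero_left, div_le_iff₀ hpos, ← hx, hinner, mul_comm]
    exact abs_real_inner_le_norm N x

end RP
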