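import Pool.Agent.H6.RP.A3

/-! A4b: volume of a full-dimensional simplex in `ℝ^{ι'}`, `ι' = {l // l ≠ o}`, `|ι'| = |ι| - 1`.

Proof.  The `|ι|` points are `z' k` (`k : ι`), `z' k l = z k l`.  Put `k₀ = o`.  The affine map
`A : ({k // k ≠ o} → ℝ) → ({l // l ≠ o} → ℝ)`, `A w = z' o + ∑_{k ≠ o} w k • (z' k - z' o)`, maps the standard simplex
`Δ = {w | 0 ≤ w, ∑ w ≤ 1}` onto `convexHull {z' k}`.  Its linear part has the square matrix
`B k l = z k l - z o l` (rows and columns indexed by `{· ≠ o}`), and `|det B| = |Dt o z|`: subtract row `o` of `Mt o z` from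
the other rows (determinant unchanged), then column `o` is the unit vector at row `o`; expand
(e.g. `Matrix.det_fromBlocks_zero₂₁` / `Matrix.twoBlockTriangular_det`).  `Measure.addHaar_image_linearMap` (degenerate case included).
`c = volume Δ`: positive (`Δ` has interior points) and finite (bounded). -/

open MeasureTheory
open scoped ENNReal

namespace RP

theorem A4b_det {ι : Type*} [Fintype ι] [DecidableEq ι] (o : ι) (z : ι → ι → ℝ) :
    (Matrix.of fun (k l : {l // l ≠ o}) => z k l - z o l : Matrix {l // l ≠ o} {l // l ≠ o} ℝ).det = Dt o z := by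
  set A : Matrix ι ι ℝ := fun k l => Mt o z k l + (if k = o then 0 else -1) * Mt o z o l with hA
  have h1 : A.det = (Mt o z).det :=
    Matrix.det_eq_of_forall_row_eq_smul_add_const (fun k => if k = o then 0 else -1) o (by simp)
      (fun i j => rfl)
  have hblk := Matrix.twoBlockTriangular_det A (fun i => i = o) (by
    intro i hi j hj
    simp only [hA, Mt, if_neg hi, if_pos hj]
    ring)
  have hM1 : (Matrix.toSquareBlockProp A fun i => i = o) = 1 := by
    ext ⟨i, hi⟩ ⟨j, hj⟩
    have hij : (⟨i, hi⟩ : {i // i = o}) = ⟨j, hj⟩ := by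
      apply Subtype.ext
      exact hi.trans hj.symm
    rw [hij, Matrix.one_apply_eq]
    show A j j = 1
    simp only [hA, Mt, hj, if_true]
    ring
  have hM2 : (Matrix.toSquareBlockProp A fun i => ¬ i = o) =
      (Matrix.of fun (k l : {l // l ≠ o}) => z k l - z o l : Matrix {l // l ≠ o} {l // l ≠ o} ℝ) := by
    ext ⟨i, hi⟩ ⟨j, hj⟩
    show A i j = z i j - z o j
    simp only [hA, Mt]
    rw [if_neg hi, if_neg hj, if_neg hj]
    ring
  rw [hM1, hM2] at hblk
  have h5 : ∀ (α : Type _) (i1 : Fintype α) (i2 : DecidableEq α),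
      (1 : Matrix α α ℝ).det = 1 := fun α _ _ => Matrix.det_one
  rw [h5, one_mul] at hblk
  unfold Dt
  rw [← h1, hblk]

theorem simplex_vol (ι : Type) [Fintype ι] [DecidableEq ι] (o : ι) :
    ∃ c : ℝ, 0 < c ∧ ∀ (z : ι → ι → ℝ),
      volume (convexHull ℝ (Set.range fun (k : ι) (l : {l // l ≠ o}) => z k l)) = ENNReal.ofReal (c * |Dt o z|) := by
  classical
  set Δ : Set ({l // l ≠ o} → ℝ) := {w | (∀ k, 0 ≤ w k) ∧ ∑ k, w k ≤ 1} with hΔ
  have hΔconv : Convex ℝ Δ := by
    intro x hx y hy a b ha hb hab
    refine ⟨fun k => ?_, ?_⟩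
    · have := hx.1 k
      have := hy.1 k
      simp only [Pi.add_apply, Pi.smul_apply, smul_eq_mul]
      positivity
    · simp only [Pi.add_apply, Pi.smul_apply, smul_eq_mul]
      rw [Finset.sum_add_distrib, ← Finset.mul_sum, ← Finset.mul_sum]
      nlinarith [hx.2, hy.2]
  have hfin : volume Δ ≠ ∞ := by
    have hsub : Δ ⊆ Set.Icc 0 1 := by
      intro w hw
      refine ⟨fun k => hw.1 k, fun k => ?_⟩
      have : w k ≤ ∑ k, w k := Finset.single_le_sum (fun i _ => hw.1 i) (Finset.mem_univ k)
      exact this.trans hw.2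
    exact ((measure_mono hsub).trans_lt isCompact_Icc.measure_lt_top).ne
  have hpos : 0 < volume Δ := by
    set n : ℕ := Fintype.card {l // l ≠ o} with hn
    have hn1 : (0:ℝ) < (n:ℝ) + 1 := by positivity
    have hsub : Set.Icc (0 : {l // l ≠ o} → ℝ) (fun _ => 1 / ((n:ℝ) + 1)) ⊆ Δ := by
      intro w hw
      refine ⟨fun k => hw.1 k, ?_⟩
      calc ∑ k, w k ≤ ∑ k : {l // l ≠ o}, 1 / ((n:ℝ) + 1) := Finset.sum_le_sum fun k _ => hw.2 k
        _ = n * (1 / ((n:ℝ) + 1)) := by simp [hn]
        _ ≤ 1 := by
          rw [mul_one_div, div_le_one hn1]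
          linarith
    refine lt_of_lt_of_le ?_ (measure_mono hsub)
    rw [Real.volume_Icc_pi]
    simp only [Pi.zero_apply, sub_zero]
    rw [← ENNReal.ofReal_prod_of_nonneg fun i _ => by positivity, ENNReal.ofReal_pos]
    exact Finset.prod_pos fun i _ => by positivity
  refine ⟨(volume Δ).toReal, ENNReal.toReal_pos hpos.ne' hfin, fun z => ?_⟩
  set B : Matrix {l // l ≠ o} {l // l ≠ o} ℝ := Matrix.of fun k l => z k l - z o l with hB
  set L : ({l // l ≠ o} → ℝ) →ₗ[ℝ] ({l // l ≠ o} → ℝ) := Matrix.toLin' B.transpose with hL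
  have hLapp : ∀ w l, L w l = ∑ k, w k * (z k l - z o l) := by
    intro w l
    rw [hL, Matrix.toLin'_apply]
    simp only [Matrix.mulVec, dotProduct, Matrix.transpose_apply, hB, Matrix.of_apply]
    exact Finset.sum_congr rfl fun k _ => mul_comm _ _
  set zo : {l // l ≠ o} → ℝ := fun l => z o l with hzo
  have hset : convexHull ℝ (Set.range fun (k : ι) (l : {l // l ≠ o}) => z k l) =
      (fun x => zo + x) '' (L '' Δ) := by
    apply Set.Subset.antisymm
    · apply convexHull_min
      · rintro _ ⟨k, rfl⟩
        by_cases hk : k = o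
        · refine ⟨0, ⟨0, ⟨fun _ => le_rfl, by simp⟩, by simp⟩, ?_⟩
          ext l
          simp [hzo, hk]
        · refine ⟨L (Pi.single ⟨k, hk⟩ 1), ⟨_, ⟨fun j => ?_, ?_⟩, rfl⟩, ?_⟩
          · by_cases hj : j = ⟨k, hk⟩
            · rw [hj, Pi.single_eq_same]
              norm_num
            · rw [Pi.single_eq_of_ne hj]
          · simp
          · funext l
            simp only [Pi.add_apply, hLapp, hzo]
            rw [Finset.sum_eq_single ⟨k, hk⟩]
            · rw [Pi.single_eq_same]
              ring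
            · intro j _ hj
              rw [Pi.single_eq_of_ne hj, zero_mul]
            · intro h
              exact absurd (Finset.mem_univ _) h
      · have h1 : Convex ℝ (L '' Δ) := hΔconv.linear_image L
        exact h1.translate zo
    · rintro _ ⟨_, ⟨w, hw, rfl⟩, rfl⟩
      set v : ι → ℝ := fun k => if h : k = o then 1 - ∑ k, w k else w ⟨k, h⟩ with hv
      have hsum : ∀ f : ι → ℝ, ∑ k, v k * f k = (1 - ∑ k, w k) * f o + ∑ k : {l // l ≠ o}, w k * f k := by
        intro f
        rw [← Finset.add_sum_erase _ _ (Finset.mem_univ o)]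
        congr 1
        · simp [hv]
        · rw [Finset.sum_subtype (Finset.univ.erase o) (p := fun l => l ≠ o) (by simp)]
          apply Finset.sum_congr rfl
          intro k _
          simp only [hv]
          rw [dif_neg k.2]
      have hv0 : ∀ k, 0 ≤ v k := by
        intro k
        simp only [hv]
        split_ifs with h
        · linarith [hw.2]
        · exact hw.1 _
      have hv1 : ∑ k, v k = 1 := by
        have := hsum fun _ => 1
        simp only [mul_one] at this
        rw [this]
        ring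
      have hmem := (convex_convexHull ℝ (Set.range fun (k : ι) (l : {l // l ≠ o}) => z k l)).sum_mem
        (t := Finset.univ) (w := v) (z := fun (k : ι) (l : {l // l ≠ o}) => z k l)
        (fun k _ => hv0 k) hv1 (fun k _ => subset_convexHull ℝ _ ⟨k, rfl⟩)
      have heq : zo + L w = ∑ k, v k • (fun (l : {l // l ≠ o}) => z k l) := by
        funext l
        rw [Finset.sum_apply]
        simp only [Pi.add_apply, hLapp, hzo, Pi.smul_apply, smul_eq_mul]
        rw [hsum fun k => z k l]
        simp only [mul_sub]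
        rw [Finset.sum_sub_distrib, ← Finset.sum_mul]
        ring
      show zo + L w ∈ _
      rw [heq]
      exact hmem
  rw [hset]
  rw [Set.image_add_left, measure_preimage_add, Measure.addHaar_image_linearMap]
  have hdet : LinearMap.det L = Dt o z := by
    rw [hL, LinearMap.det_toLin', Matrix.det_transpose, hB]
    exact A4b_det o z
  rw [hdet, mul_comm ((volume Δ).toReal), ENNReal.ofReal_mul (abs_nonneg _), ENNReal.ofReal_toReal hfin]

end RP
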