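import Pool.Agent.H6.RP.A4a
import Pool.Agent.H6.RP.A4b

/-! A4: the (D-1)-volume of a simplex in a graph hyperplane is comparable with the determinant. -/

open MeasureTheory
open scoped ENNReal

namespace RP

theorem vol_general (ι : Type) [Fintype ι] [DecidableEq ι] (o : ι) (R : ℝ) (hR : 0 ≤ R) :
    ∃ c C : ℝ, 0 < c ∧ 0 < C ∧ ∀ (z : ι → ι → ℝ), Dt o z ≠ 0 → (∀ l, |Nv o (Yof o z) l| ≤ R) →
      ENNReal.ofReal (c * |Dt o z|) ≤
          Measure.hausdorffMeasure ((Fintype.card ι - 1 : ℕ) : ℝ)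
              (convexHull ℝ (Set.range fun k : ι => (WithLp.toLp 2 (z k) : EuclideanSpace ℝ ι))) /
            Measure.hausdorffMeasure ((Fintype.card ι - 1 : ℕ) : ℝ)
              {x : EuclideanSpace ℝ (Fin (Fintype.card ι - 1)) | ∀ i, x i ∈ Set.Icc (0 : ℝ) 1} ∧
        Measure.hausdorffMeasure ((Fintype.card ι - 1 : ℕ) : ℝ)
              (convexHull ℝ (Set.range fun k : ι => (WithLp.toLp 2 (z k) : EuclideanSpace ℝ ι))) /
            Measure.hausdorffMeasure ((Fintype.card ι - 1 : ℕ) : ℝ)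
              {x : EuclideanSpace ℝ (Fin (Fintype.card ι - 1)) | ∀ i, x i ∈ Set.Icc (0 : ℝ) 1} ≤
          ENNReal.ofReal (C * |Dt o z|) := by
  obtain ⟨c, hc, h1⟩ := simplex_vol ι o
  obtain ⟨C, hC, h2⟩ := haus_proj ι o R hR
  refine ⟨c, C * c, hc, by positivity, ?_⟩
  intro z hz hl
  obtain ⟨h3, h4⟩ := h2 z hz hl
  rw [h1 z] at h3 h4
  refine ⟨h3, h4.trans ?_⟩
  rw [← ENNReal.ofReal_mul hC.le, mul_assoc]

variable {m : ℕ} {d : Fin m → ℕ}

theorem kvol_bounds (o : Ix d) :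
    ∃ c C : ℝ, 0 < c ∧ 0 < C ∧ ∀ (z : Ix d → Ix d → ℝ), Dt o z ≠ 0 → Yof o z ∈ Yreg o →
      ENNReal.ofReal (c * |Dt o z|) ≤
          kvol ((∑ i, d i) - 1) (convexHull ℝ (Set.range fun k : Ix d => (WithLp.toLp 2 (z k) : Sp d))) ∧
        kvol ((∑ i, d i) - 1) (convexHull ℝ (Set.range fun k : Ix d => (WithLp.toLp 2 (z k) : Sp d))) ≤
          ENNReal.ofReal (C * |Dt o z|) := by
  obtain ⟨c, C, hc, hC, h⟩ := vol_general (Ix d) o (Real.sqrt (d o.1)) (Real.sqrt_nonneg _)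
  refine ⟨c, C, hc, hC, ?_⟩
  intro z hz hy
  have hcard : Fintype.card (Ix d) = ∑ i, d i := by simp [Ix, Fintype.card_sigma]
  have hR : ∀ l, |Nv o (Yof o z) l| ≤ Real.sqrt (d o.1) := by
    intro l
    apply Real.abs_le_sqrt
    have h1 : (Nv o (Yof o z) l) ^ 2 ≤ bsq (Nv o (Yof o z)) l.1 := by
      unfold bsq
      have := Finset.single_le_sum (f := fun j : Fin (d l.1) => (Nv o (Yof o z) ⟨l.1, j⟩) ^ 2)
        (fun j _ => sq_nonneg _) (Finset.mem_univ l.2)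
      simpa using this
    have h2 : bsq (Nv o (Yof o z)) o.1 ≤ d o.1 := by
      unfold bsq
      calc ∑ j : Fin (d o.1), (Nv o (Yof o z) ⟨o.1, j⟩) ^ 2 ≤ ∑ j : Fin (d o.1), (1 : ℝ) := by
            apply Finset.sum_le_sum
            intro j _
            have := hy.1 j
            nlinarith [abs_nonneg (Nv o (Yof o z) ⟨o.1, j⟩), sq_abs (Nv o (Yof o z) ⟨o.1, j⟩)]
        _ = d o.1 := by simp
    exact h1.trans ((hy.2 l.1).trans h2)
  have := h z hz hR
  unfold kvol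
  rw [hcard] at this
  exact this

end RP
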