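import Pool.Agent.H6.RP.A3

/-! A4a: the normalised Hausdorff measure of a subset of a graph hyperplane is comparable with the volume of its projection.

Proof.  `K = |ι| - 1 = |ι'|`, `ι' = {l // l ≠ o}`.  `F = convexHull {z k}` is contained in the graph
`H = {x | dotProduct (Nv o y) x = y o}`, `y = Yof o z` (`gp_Yof`, `Nv_gp`, `H` is convex).  Let
`π : EuclideanSpace ℝ ι → EuclideanSpace ℝ ι'` be the restriction (1-Lipschitz) and
`σ : EuclideanSpace ℝ ι' → EuclideanSpace ℝ ι`, `σ v = gp o (ext0 o v) y` the graph map, `sqrt (1 + K R²)`-Lipschitz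
(its coordinate `o` is the affine function `y o + ∑ y l v l`, Cauchy-Schwarz), `σ (π x) = x` on `H`.  So
`μH[K] (π '' F) ≤ μH[K] F ≤ (1 + K R²)^{K/2} μH[K] (π '' F)` (`LipschitzWith.hausdorffMeasure_image_le`).
`μH[K]` on `EuclideanSpace ℝ ι'` is a Haar measure (`isAddHaarMeasure_hausdorffMeasure`; `finrank = K`), so `κ • volume` with
`0 < κ < ∞`; the same `κ` for `EuclideanSpace ℝ (Fin K)`, because reindexing is an isometry which preserves `volume`; the unit
cube of `EuclideanSpace ℝ (Fin K)` has volume `1`.  So the quotient below is between `volume (π '' F)` and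
`(1 + K R²)^{K/2} volume (π '' F)`; and `ofLp` is volume preserving and linear (`π '' F` = convex hull of the projected
points). -/

open MeasureTheory
open scoped ENNReal

namespace RP

private lemma A4a_quot (K : ℕ) {X : Type*} [EMetricSpace X] [MeasurableSpace X] [BorelSpace X] (S : Set X) :
    Measure.hausdorffMeasure (K : ℝ) S /
      Measure.hausdorffMeasure (K : ℝ) {x : EuclideanSpace ℝ (Fin K) | ∀ i, x i ∈ Set.Icc (0 : ℝ) 1} =
    Measure.euclideanHausdorffMeasure K S := by
  set c := Measure.addHaarScalarFactor (volume : Measure (EuclideanSpace ℝ (Fin K)))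
    (Measure.hausdorffMeasure (K : ℝ)) with hcdef
  have hc : c ≠ 0 := Measure.addHaarScalarFactor_volume_hausdorffMeasure_ne_zero K
  have h1 : (Measure.euclideanHausdorffMeasure K : Measure (EuclideanSpace ℝ (Fin K)))
      {x : EuclideanSpace ℝ (Fin K) | ∀ i, x i ∈ Set.Icc (0 : ℝ) 1} = 1 := by
    rw [EuclideanSpace.euclideanHausdorffMeasure_eq_volume]
    have h2 : {x : EuclideanSpace ℝ (Fin K) | ∀ i, x i ∈ Set.Icc (0 : ℝ) 1} =
        (MeasurableEquiv.toLp 2 (Fin K → ℝ)).symm ⁻¹' (Set.pi Set.univ fun _ => Set.Icc (0 : ℝ) 1) := by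
      ext x
      constructor
      · intro h i _
        exact h i
      · intro h i
        exact h i (Set.mem_univ i)
    rw [h2, (EuclideanSpace.volume_preserving_symm_measurableEquiv_toLp (Fin K)).measure_preimage_equiv]
    rw [volume_pi_pi]
    simp
  rw [Measure.euclideanHausdorffMeasure_def, Measure.smul_apply] at h1
  rw [Measure.euclideanHausdorffMeasure_def, Measure.smul_apply]
  rw [ENNReal.smul_def, smul_eq_mul] at h1 ⊢
  rw [← hcdef] at h1 ⊢
  have hc' : (c : ℝ≥0∞) ≠ 0 := by simpa using hc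
  have h3 : Measure.hausdorffMeasure (K : ℝ) {x : EuclideanSpace ℝ (Fin K) | ∀ i, x i ∈ Set.Icc (0 : ℝ) 1} =
      (c : ℝ≥0∞)⁻¹ := by
    rw [← one_div, ENNReal.eq_div_iff hc' ENNReal.coe_ne_top]
    exact h1
  rw [h3, div_eq_mul_inv, inv_inv, mul_comm]

private lemma A4a_lip (K : ℕ) {X Y : Type*} [EMetricSpace X] [MeasurableSpace X] [BorelSpace X]
    [EMetricSpace Y] [MeasurableSpace Y] [BorelSpace Y] {L : NNReal} {f : X → Y} (hf : LipschitzWith L f)
    (S : Set X) :
    (Measure.euclideanHausdorffMeasure K : Measure Y) (f '' S) ≤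
      (L : ℝ≥0∞) ^ K * Measure.euclideanHausdorffMeasure K S := by
  rw [Measure.euclideanHausdorffMeasure_def, Measure.smul_apply, Measure.euclideanHausdorffMeasure_def,
    Measure.smul_apply, ENNReal.smul_def, ENNReal.smul_def, smul_eq_mul, smul_eq_mul]
  have h := hf.hausdorffMeasure_image_le (d := (K : ℝ)) (Nat.cast_nonneg K) S
  rw [ENNReal.rpow_natCast] at h
  calc _ ≤ _ := mul_le_mul_right h _
    _ = _ := by ring

section

variable {ι : Type*} [Fintype ι] [DecidableEq ι]

private lemma A4a_gp_of_mem (o : ι) (x y : ι → ℝ) (h : dotProduct (Nv o y) x = y o) :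
    gp o (ext0 o fun l : {l // l ≠ o} => x l) y = x := by
  funext l
  by_cases hl : l = o
  · subst hl
    unfold gp
    rw [Function.update_self, ← Finset.add_sum_erase _ _ (Finset.mem_univ l)]
    have h1 : dotProduct (Nv l y) x = x l + ∑ i ∈ Finset.univ.erase l, - y i * x i := by
      unfold dotProduct
      rw [← Finset.add_sum_erase _ _ (Finset.mem_univ l)]
      congr 1
      · simp [Nv]
      · apply Finset.sum_congr rfl
        intro i hi
        simp [Nv, Finset.ne_of_mem_erase hi]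
    rw [h1] at h
    have h2 : ∑ i ∈ Finset.univ.erase l, (if i = l then 1 else ext0 l (fun l' : {l' // l' ≠ l} => x l') i) * y i =
        - ∑ i ∈ Finset.univ.erase l, - y i * x i := by
      rw [← Finset.sum_neg_distrib]
      apply Finset.sum_congr rfl
      intro i hi
      have hne := Finset.ne_of_mem_erase hi
      simp [hne, ext0, mul_comm]
    rw [h2]
    simp only [if_true, one_mul]
    linarith
  · unfold gp
    rw [Function.update_of_ne hl]
    simp [ext0, hl]

private lemma A4a_norm (o : ι) (v : ι → ℝ) :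
    ∑ l, v l ^ 2 = v o ^ 2 + ∑ l : {l // l ≠ o}, v l ^ 2 := by
  rw [← Finset.add_sum_erase _ _ (Finset.mem_univ o)]
  congr 1
  rw [Finset.sum_subtype (Finset.univ.erase o) (p := fun l => l ≠ o) (by intro x; simp)]

private lemma A4a_gp_o (o : ι) (v : {l // l ≠ o} → ℝ) (y : ι → ℝ) :
    gp o (ext0 o v) y o = y o + ∑ l : {l // l ≠ o}, v l * y l := by
  unfold gp
  rw [Function.update_self, ← Finset.add_sum_erase _ _ (Finset.mem_univ o)]
  congr 1
  · simp
  · rw [Finset.sum_subtype (Finset.univ.erase o) (p := fun l => l ≠ o) (by intro x; simp)]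
    apply Finset.sum_congr rfl
    intro l _
    simp [ext0, l.2]

private lemma A4a_gp_ne (o : ι) (v : {l // l ≠ o} → ℝ) (y : ι → ℝ) (l : {l // l ≠ o}) :
    gp o (ext0 o v) y l = v l := by
  unfold gp
  rw [Function.update_of_ne l.2]
  simp [ext0, l.2]

end

theorem haus_proj (ι : Type) [Fintype ι] [DecidableEq ι] (o : ι) (R : ℝ) (hR : 0 ≤ R) :
    ∃ C : ℝ, 0 < C ∧ ∀ (z : ι → ι → ℝ), Dt o z ≠ 0 → (∀ l, |Nv o (Yof o z) l| ≤ R) →
      volume (convexHull ℝ (Set.range fun (k : ι) (l : {l // l ≠ o}) => z k l)) ≤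
          Measure.hausdorffMeasure ((Fintype.card ι - 1 : ℕ) : ℝ)
              (convexHull ℝ (Set.range fun k : ι => (WithLp.toLp 2 (z k) : EuclideanSpace ℝ ι))) /
            Measure.hausdorffMeasure ((Fintype.card ι - 1 : ℕ) : ℝ)
              {x : EuclideanSpace ℝ (Fin (Fintype.card ι - 1)) | ∀ i, x i ∈ Set.Icc (0 : ℝ) 1} ∧
        Measure.hausdorffMeasure ((Fintype.card ι - 1 : ℕ) : ℝ)
              (convexHull ℝ (Set.range fun k : ι => (WithLp.toLp 2 (z k) : EuclideanSpace ℝ ι))) /
            Measure.hausdorffMeasure ((Fintype.card ι - 1 : ℕ) : ℝ)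
              {x : EuclideanSpace ℝ (Fin (Fintype.card ι - 1)) | ∀ i, x i ∈ Set.Icc (0 : ℝ) 1} ≤
          ENNReal.ofReal C * volume (convexHull ℝ (Set.range fun (k : ι) (l : {l // l ≠ o}) => z k l)) := by
  set K := Fintype.card ι - 1 with hK
  have hcard : Fintype.card {l // l ≠ o} = K := by
    rw [Fintype.card_subtype_compl]
    simp [hK]
  -- the Lipschitz constant
  set L : ℝ := Real.sqrt (1 + K * R ^ 2) with hL
  have hL0 : 0 < L := Real.sqrt_pos.mpr (by positivity)
  refine ⟨L ^ K, by positivity, ?_⟩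
  intro z hz hN
  rw [A4a_quot]
  set y := Yof o z with hy
  set F : Set (EuclideanSpace ℝ ι) :=
    convexHull ℝ (Set.range fun k : ι => (WithLp.toLp 2 (z k) : EuclideanSpace ℝ ι)) with hF
  set G : Set ({l // l ≠ o} → ℝ) := convexHull ℝ (Set.range fun (k : ι) (l : {l // l ≠ o}) => z k l) with hG
  -- the projection
  let π₁ : EuclideanSpace ℝ ι →ₗ[ℝ] ({l // l ≠ o} → ℝ) :=
    { toFun := fun x l => x.ofLp l
      map_add' := by intro x y; rfl
      map_smul' := by intro c x; rfl }
  let π : EuclideanSpace ℝ ι → EuclideanSpace ℝ {l // l ≠ o} := fun x => WithLp.toLp 2 (π₁ x)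
  let σ : EuclideanSpace ℝ {l // l ≠ o} → EuclideanSpace ℝ ι := fun v => WithLp.toLp 2 (gp o (ext0 o v.ofLp) y)
  have hy2 : ∀ l : {l // l ≠ o}, |y l| ≤ R := by
    intro l
    have := hN l
    simpa [Nv, l.2] using this
  -- F is in the graph
  have hFH : ∀ x ∈ F, dotProduct (Nv o y) x.ofLp = y o := by
    have hconv : Convex ℝ {x : EuclideanSpace ℝ ι | dotProduct (Nv o y) x.ofLp = y o} := by
      intro a ha b hb s t hs ht hst
      simp only [Set.mem_ofPred_eq] at ha hb ⊢
      have : (s • a + t • b).ofLp = s • a.ofLp + t • b.ofLp := rfl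
      rw [this, dotProduct_add, dotProduct_smul, dotProduct_smul, ha, hb, ← add_smul, hst, one_smul]
    have hsub : (Set.range fun k : ι => (WithLp.toLp 2 (z k) : EuclideanSpace ℝ ι)) ⊆
        {x : EuclideanSpace ℝ ι | dotProduct (Nv o y) x.ofLp = y o} := by
      rintro _ ⟨k, rfl⟩
      have h1 := gp_Yof o z hz k
      have h2 := Nv_gp o (z k) (Yof o z)
      rw [h1] at h2
      exact h2
    exact fun x hx => convexHull_min hsub hconv hx
  have hσπ : σ '' (π '' F) = F := by
    rw [Set.image_image]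
    have : ∀ x ∈ F, σ (π x) = x := by
      intro x hx
      have := A4a_gp_of_mem o x.ofLp y (hFH x hx)
      show WithLp.toLp 2 (gp o (ext0 o fun l : {l // l ≠ o} => x.ofLp l) y) = x
      rw [this]
    ext x
    constructor
    · rintro ⟨w, hw, rfl⟩
      simp only
      rw [this w hw]; exact hw
    · intro hx
      exact ⟨x, hx, this x hx⟩
  have hπlip : LipschitzWith 1 π := by
    apply LipschitzWith.of_dist_le_mul
    intro a b
    rw [NNReal.coe_one, one_mul, EuclideanSpace.dist_eq, EuclideanSpace.dist_eq]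
    apply Real.sqrt_le_sqrt
    simp only [Real.dist_eq, sq_abs]
    have h1 := A4a_norm o (fun l => a.ofLp l - b.ofLp l)
    rw [h1]
    have h2 : ∑ l : {l // l ≠ o}, ((π a).ofLp l - (π b).ofLp l) ^ 2 =
        ∑ l : {l // l ≠ o}, (a.ofLp l - b.ofLp l) ^ 2 := rfl
    rw [h2]
    nlinarith [sq_nonneg (a.ofLp o - b.ofLp o)]
  have hσlip : LipschitzWith L.toNNReal σ := by
    apply LipschitzWith.of_dist_le_mul
    intro a b
    rw [Real.coe_toNNReal L hL0.le, EuclideanSpace.dist_eq, EuclideanSpace.dist_eq, hL,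
      ← Real.sqrt_mul (by positivity)]
    apply Real.sqrt_le_sqrt
    simp only [Real.dist_eq, sq_abs]
    have h1 := A4a_norm o (fun l => (σ a).ofLp l - (σ b).ofLp l)
    rw [h1]
    have h2 : ∑ l : {l // l ≠ o}, ((σ a).ofLp l - (σ b).ofLp l) ^ 2 =
        ∑ l : {l // l ≠ o}, (a.ofLp l - b.ofLp l) ^ 2 := by
      apply Finset.sum_congr rfl
      intro l _
      have e1 : (σ a).ofLp l = a.ofLp l := A4a_gp_ne o a.ofLp y l
      have e2 : (σ b).ofLp l = b.ofLp l := A4a_gp_ne o b.ofLp y l
      rw [e1, e2]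
    have h3 : (σ a).ofLp o - (σ b).ofLp o = ∑ l : {l // l ≠ o}, (a.ofLp l - b.ofLp l) * y l := by
      have e1 : (σ a).ofLp o = y o + ∑ l : {l // l ≠ o}, a.ofLp l * y l := A4a_gp_o o a.ofLp y
      have e2 : (σ b).ofLp o = y o + ∑ l : {l // l ≠ o}, b.ofLp l * y l := A4a_gp_o o b.ofLp y
      rw [e1, e2, add_sub_add_left_eq_sub, ← Finset.sum_sub_distrib]
      apply Finset.sum_congr rfl
      intro l _
      ring
    rw [h2, h3]
    have h4 := Finset.sum_mul_sq_le_sq_mul_sq Finset.univ (fun l : {l // l ≠ o} => a.ofLp l - b.ofLp l)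
      (fun l : {l // l ≠ o} => y l)
    have h5 : ∑ l : {l // l ≠ o}, (y l) ^ 2 ≤ K * R ^ 2 := by
      calc ∑ l : {l // l ≠ o}, (y l) ^ 2 ≤ ∑ l : {l // l ≠ o}, R ^ 2 := by
            apply Finset.sum_le_sum
            intro l _
            exact sq_le_sq' (abs_le.mp (hy2 l)).1 (abs_le.mp (hy2 l)).2
        _ = K * R ^ 2 := by
            rw [Finset.sum_const, Finset.card_univ, hcard, nsmul_eq_mul]
    have h6 : 0 ≤ ∑ l : {l // l ≠ o}, (a.ofLp l - b.ofLp l) ^ 2 := Finset.sum_nonneg fun _ _ => sq_nonneg _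
    have h7 := mul_le_mul_of_nonneg_left h5 h6
    linarith
  -- the image of F
  have hπF : (π '' F : Set (EuclideanSpace ℝ {l // l ≠ o})) =
      (MeasurableEquiv.toLp 2 ({l // l ≠ o} → ℝ)).symm ⁻¹' G := by
    have e1 : G = π₁ '' F := by
      rw [hG, hF, π₁.image_convexHull, ← Set.range_comp]
      rfl
    ext x
    constructor
    · rintro ⟨w, hw, rfl⟩
      show π₁ w ∈ G
      rw [e1]
      exact ⟨w, hw, rfl⟩
    · intro hx
      have hx' : x.ofLp ∈ G := hx
      rw [e1] at hx'
      obtain ⟨w, hw, hw2⟩ := hx'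
      refine ⟨w, hw, ?_⟩
      show WithLp.toLp 2 (π₁ w) = x
      rw [hw2]
  have hvol : (Measure.euclideanHausdorffMeasure K : Measure (EuclideanSpace ℝ {l // l ≠ o})) (π '' F) =
      volume G := by
    have h1 : (Measure.euclideanHausdorffMeasure K : Measure (EuclideanSpace ℝ {l // l ≠ o})) = volume := by
      have := InnerProductSpace.euclideanHausdorffMeasure_eq_volume (V := EuclideanSpace ℝ {l // l ≠ o})
      rwa [finrank_euclideanSpace, hcard] at this
    rw [h1, hπF]
    exact (EuclideanSpace.volume_preserving_symm_measurableEquiv_toLp {l // l ≠ o}).measure_preimage_equiv G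
  constructor
  · have h1 := A4a_lip K hπlip F
    rw [hvol] at h1
    simpa using h1
  · have h1 := A4a_lip K hσlip (π '' F)
    rw [hσπ, hvol] at h1
    refine h1.trans (le_of_eq ?_)
    congr 1
    rw [ENNReal.ofReal_pow hL0.le]
    rfl

end RP
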