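import Pool.Agent.H6.RP.A2
import Pool.Agent.H6.RP.A3

/-! A5: the supporting condition in coordinates.

Proof.  `z k = (x (e k)).ofLp`, `y = Yof o z`, `N = Nv o y`; by `gp_Yof`, `Nv_gp`: `dotProduct N (z k) = y o`.
(←) take `l = ∓ dotProduct N ·`, `r = ∓ y o`.  (→) `l` (given by a vector `L`) is constant `= r` on the `D` points, so on their affine
span, which is the hyperplane `{dotProduct N x = y o}` (`span_eq`); hence `L = λ N`, `r = λ y o` (e.g. the vector `λ N - L`,
`λ = L o`, has coordinate `o` zero; Mt o z times the vector (its other coordinates, constant at `o`) is zero, and `Mt o z` is invertible).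
If there is no `i ∉ I` everything is vacuous; otherwise `λ ≠ 0` (else `0 < 0`), and the sign of `λ` decides. -/

open MeasureTheory
open scoped ENNReal

namespace RP

variable {m : ℕ} {d : Fin m → ℕ} {β : Fin m → ℝ}

/-- the coordinates of the points with indices in `I` -/
def zz {n : ℕ} {I : Finset (Fin n)} (e : Ix d ≃ I) (x : Fin n → Sp d) : Ix d → Ix d → ℝ := fun k => (x (e k)).ofLp

/-- all points with index outside `I` lie strictly on one side -/
def OneSide {n : ℕ} (I : Finset (Fin n)) (o : Ix d) (y : Ix d → ℝ) (x : Fin n → Sp d) : Prop :=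
  (∀ i ∉ I, y o < dotProduct (Nv o y) (x i).ofLp) ∨ (∀ i ∉ I, dotProduct (Nv o y) (x i).ofLp < y o)

theorem a5_lin (N : Ix d → ℝ) : ∃ l : Sp d →L[ℝ] ℝ, ∀ v : Sp d, l v = dotProduct N v.ofLp := by
  refine ⟨innerSL ℝ (WithLp.toLp 2 N : Sp d), fun v => ?_⟩
  rw [innerSL_apply_apply, EuclideanSpace.inner_eq_star_dotProduct]
  rw [dotProduct_comm]
  rfl

theorem a5_vec (l : Sp d →L[ℝ] ℝ) : ∃ L : Ix d → ℝ, ∀ v : Sp d, l v = dotProduct L v.ofLp := by
  refine ⟨((InnerProductSpace.toDual ℝ (Sp d)).symm l).ofLp, fun v => ?_⟩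
  rw [← InnerProductSpace.toDual_symm_apply (𝕜 := ℝ) (y := l),
    EuclideanSpace.inner_eq_star_dotProduct]
  rw [dotProduct_comm]
  rfl

theorem a5_on {n : ℕ} (x : Fin n → Sp d) (I : Finset (Fin n)) (e : Ix d ≃ I) (o : Ix d)
    (h : Dt o (zz e x) ≠ 0) (k : Ix d) :
    dotProduct (Nv o (Yof o (zz e x))) (zz e x k) = Yof o (zz e x) o := by
  have h1 := Nv_gp o (zz e x k) (Yof o (zz e x))
  rw [gp_Yof o (zz e x) h k] at h1
  exact h1

theorem supp_iff {n : ℕ} (x : Fin n → Sp d) (I : Finset (Fin n)) (e : Ix d ≃ I) (o : Ix d) (h : Dt o (zz e x) ≠ 0) :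
    Supp x I ↔ OneSide I o (Yof o (zz e x)) x := by
  have hI : ∀ i ∈ I, dotProduct (Nv o (Yof o (zz e x))) (x i).ofLp = Yof o (zz e x) o := by
    intro i hi
    have h1 := a5_on x I e o h (e.symm ⟨i, hi⟩)
    unfold zz at h1
    rw [Equiv.apply_symm_apply] at h1
    exact h1
  constructor
  · rintro ⟨l, r, hl1, hl2⟩
    obtain ⟨L, hL⟩ := a5_vec l
    have h1 : ∀ k, dotProduct L (zz e x k) = r := by
      intro k
      rw [← hl1 (e k) (e k).2, hL]
      rfl
    have hN : ∀ k, dotProduct (Nv o (Yof o (zz e x))) (zz e x k) = Yof o (zz e x) o :=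
      a5_on x I e o h
    obtain ⟨N, hNdef⟩ : ∃ N, N = Nv o (Yof o (zz e x)) := ⟨_, rfl⟩
    obtain ⟨y, hy⟩ : ∃ y, y = Yof o (zz e x) o := ⟨_, rfl⟩
    obtain ⟨lam, hlam⟩ : ∃ lam, lam = L o := ⟨_, rfl⟩
    rw [← hNdef, ← hy] at hN
    have hNo : N o = 1 := by
      rw [hNdef]
      simp [Nv]
    have hw : (Mt o (zz e x)).mulVec
        (fun l => if l = o then -(lam * y - r) else lam * N l - L l) = 0 := by
      funext k
      have h2 : ∑ l, (lam * N l - L l) * zz e x k l = lam * y - r := by
        have h3 := hN k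
        have h4 := h1 k
        unfold dotProduct at h3 h4
        rw [← h3, ← h4, Finset.mul_sum, ← Finset.sum_sub_distrib]
        refine Finset.sum_congr rfl fun l _ => ?_
        ring
      have h5 : (Mt o (zz e x)).mulVec
          (fun l => if l = o then -(lam * y - r) else lam * N l - L l) k =
          ∑ l, ((lam * N l - L l) * zz e x k l + if l = o then -(lam * y - r) else 0) := by
        unfold Matrix.mulVec dotProduct Mt
        refine Finset.sum_congr rfl fun l _ => ?_
        by_cases hl : l = o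
        · subst hl
          simp only [if_true, hNo, ← hlam]
          ring
        · simp only [if_neg hl]
          ring
      rw [h5, Finset.sum_add_distrib, h2, Finset.sum_ite_eq' Finset.univ o,
        if_pos (Finset.mem_univ o)]
      simp
    have hw0 := Matrix.eq_zero_of_mulVec_eq_zero h hw
    have hr : r = lam * y := by
      have h6 := congrFun hw0 o
      simp only [if_true, Pi.zero_apply] at h6
      linarith
    have hLN : ∀ l, L l = lam * N l := by
      intro l
      by_cases hl : l = o
      · rw [hl, hNo, hlam, mul_one]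
      · have h6 := congrFun hw0 l
        simp only [if_neg hl, Pi.zero_apply] at h6
        linarith
    have hLd : ∀ v : Sp d, dotProduct L v.ofLp = lam * dotProduct N v.ofLp := by
      intro v
      unfold dotProduct
      rw [Finset.mul_sum]
      refine Finset.sum_congr rfl fun l _ => ?_
      rw [hLN l, mul_assoc]
    have hout : ∀ i ∉ I, lam * dotProduct N (x i).ofLp < lam * y := by
      intro i hi
      rw [← hLd, ← hr, ← hL]
      exact hl2 i hi
    unfold OneSide
    rw [← hNdef, ← hy]
    rcases lt_trichotomy lam 0 with h7 | h7 | h7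
    · left
      intro i hi
      nlinarith [hout i hi]
    · left
      intro i hi
      have h8 := hout i hi
      rw [h7, zero_mul, zero_mul] at h8
      exact absurd h8 (lt_irrefl _)
    · right
      intro i hi
      exact lt_of_mul_lt_mul_left (hout i hi) h7.le
  · rintro (h1 | h1)
    · obtain ⟨l, hl⟩ := a5_lin (d := d) (-(Nv o (Yof o (zz e x))))
      refine ⟨l, -(Yof o (zz e x) o), ?_, ?_⟩
      · intro i hi
        rw [hl, neg_dotProduct, hI i hi]
      · intro i hi
        rw [hl, neg_dotProduct]
        exact neg_lt_neg (h1 i hi)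
    · obtain ⟨l, hl⟩ := a5_lin (d := d) (Nv o (Yof o (zz e x)))
      refine ⟨l, Yof o (zz e x) o, ?_, ?_⟩
      · intro i hi
        rw [hl, hI i hi]
      · intro i hi
        rw [hl]
        exact h1 i hi

end RP
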