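import Pool.Agent.H6.RP.A3

/-! A6: every hyperplane belongs to some class.

Proof.  `D = |Ix d|` affinely independent points `z k` of `ℝ^D` span a hyperplane, so there are `N ≠ 0`, `c` with
`dotProduct N (z k) = c` for all `k`.  Choose a block `j` with `bsq N j` maximal (so `> 0`) and in it an index `o = ⟨j, l⟩` with
`|N o|` maximal; `N o ≠ 0`.  `Mt o z` is invertible: if `w ᵥ* Mt o z = 0` then `∑ w k = 0` and `∑ w k * z k l = 0` for
`l ≠ o`, and then for `l = o` by the relation `N`; so `w = 0` by affine independence.  The vector `y l = - N l / N o` (`l ≠ o`),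
`y o = c / N o` satisfies `Mt o z *ᵥ y = (z · o)`, so `y = Yof o z`, and `Nv o y = N / N o`; so `y ∈ Yreg o`. -/

open MeasureTheory
open scoped ENNReal

namespace RP

theorem A6_exists_normal {ι : Type*} [Fintype ι] [Nonempty ι] (z : ι → ι → ℝ) :
    ∃ (N : ι → ℝ) (c : ℝ), N ≠ 0 ∧ ∀ k, dotProduct N (z k) = c := by
  classical
  let L : ((ι → ℝ) × ℝ) →ₗ[ℝ] (ι → ℝ) :=
    { toFun := fun p k => dotProduct p.1 (z k) - p.2
      map_add' := by
        intro p q
        funext k
        simp only [Prod.fst_add, Prod.snd_add, add_dotProduct, Pi.add_apply]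
        ring
      map_smul' := by
        intro a p
        funext k
        simp only [Prod.smul_fst, Prod.smul_snd, smul_dotProduct, smul_eq_mul, Pi.smul_apply,
          RingHom.id_apply]
        ring }
  have hni : ¬ Function.Injective L := by
    intro hinj
    have h := LinearMap.finrank_le_finrank_of_injective hinj
    rw [Module.finrank_prod, Module.finrank_self] at h
    omega
  have hker : LinearMap.ker L ≠ ⊥ := fun h => hni (LinearMap.ker_eq_bot.1 h)
  obtain ⟨p, hp, hp0⟩ := (Submodule.ne_bot_iff _).1 hker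
  have hpk : ∀ k, dotProduct p.1 (z k) = p.2 := by
    intro k
    have := congrFun (LinearMap.mem_ker.1 hp) k
    have h2 : dotProduct p.1 (z k) - p.2 = 0 := this
    linarith
  refine ⟨p.1, p.2, ?_, hpk⟩
  intro h1
  apply hp0
  have h2 : p.2 = 0 := by
    rw [← hpk (Classical.arbitrary ι), h1, zero_dotProduct]
  exact Prod.ext h1 h2

theorem A6_det_ne_zero {ι : Type*} [Fintype ι] [DecidableEq ι] (z : ι → ι → ℝ)
    (h : AffineIndependent ℝ (fun k : ι => (WithLp.toLp 2 (z k) : EuclideanSpace ℝ ι)))
    (N : ι → ℝ) (c : ℝ) (hN : ∀ k, dotProduct N (z k) = c) (o : ι) (ho : N o ≠ 0) :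
    Dt o z ≠ 0 := by
  intro hdet
  obtain ⟨w, hw0, hw⟩ := Matrix.exists_vecMul_eq_zero_iff.2 hdet
  apply hw0
  have hcol : ∀ l, ∑ k, w k * Mt o z k l = 0 := by
    intro l
    have := congrFun hw l
    simpa [Matrix.vecMul, dotProduct] using this
  have hsum : ∑ k, w k = 0 := by
    have := hcol o
    simpa [Mt] using this
  have hl : ∀ l, l ≠ o → ∑ k, w k * z k l = 0 := by
    intro l hlo
    have := hcol l
    simpa [Mt, hlo] using this
  have hlo : ∑ k, w k * z k o = 0 := by
    have h1 : ∑ k, w k * dotProduct N (z k) = 0 := by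
      simp only [hN]
      rw [← Finset.sum_mul, hsum, zero_mul]
    have h2 : ∑ k, w k * dotProduct N (z k) = ∑ l, N l * ∑ k, w k * z k l := by
      simp only [dotProduct, Finset.mul_sum]
      rw [Finset.sum_comm]
      refine Finset.sum_congr rfl fun l _ => Finset.sum_congr rfl fun k _ => ?_
      ring
    rw [h2, Finset.sum_eq_single o] at h1
    · exact (mul_eq_zero.1 h1).resolve_left ho
    · intro l _ hne
      rw [hl l hne, mul_zero]
    · intro hh
      exact absurd (Finset.mem_univ o) hh
  have hall : ∀ l, ∑ k, w k * z k l = 0 := by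
    intro l
    by_cases hl' : l = o
    · rw [hl']; exact hlo
    · exact hl l hl'
  rw [affineIndependent_iff] at h
  have := h Finset.univ w hsum (by
    ext l
    have := hall l
    simpa using this)
  funext k
  exact this k (Finset.mem_univ k)

variable {m : ℕ} {d : Fin m → ℕ} {β : Fin m → ℝ}

theorem norm_class (hD : 1 ≤ ∑ i, d i) (z : Ix d → Ix d → ℝ)
    (h : AffineIndependent ℝ (fun k : Ix d => (WithLp.toLp 2 (z k) : Sp d))) :
    ∃ o : Ix d, Dt o z ≠ 0 ∧ Yof o z ∈ Yreg o := by
  classical
  have hne : Nonempty (Ix d) := by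
    rw [← Fintype.card_pos_iff]
    have : Fintype.card (Ix d) = ∑ i, d i := by simp [Ix]
    omega
  obtain ⟨N, c, hN0, hN⟩ := A6_exists_normal z
  have hm : Nonempty (Fin m) := ⟨(Classical.arbitrary (Ix d)).1⟩
  obtain ⟨j, hj⟩ := Finite.exists_max (fun i => bsq N i)
  have hpos : 0 < bsq N j := by
    obtain ⟨l, hl⟩ := Function.ne_iff.1 hN0
    refine lt_of_lt_of_le ?_ (hj l.1)
    have h1 : (N l) ^ 2 ≤ bsq N l.1 := by
      unfold bsq
      exact Finset.single_le_sum (f := fun i => (N ⟨l.1, i⟩) ^ 2) (fun _ _ => sq_nonneg _)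
        (Finset.mem_univ l.2)
    have h2 : 0 < (N l) ^ 2 := by
      have : N l ≠ 0 := hl
      positivity
    linarith
  have hblock : Nonempty (Fin (d j)) := by
    by_contra hcon
    rw [not_nonempty_iff] at hcon
    have : bsq N j = 0 := by
      unfold bsq
      exact Finset.sum_of_isEmpty _
    linarith
  obtain ⟨l, hl⟩ := Finite.exists_max (fun i : Fin (d j) => |N ⟨j, i⟩|)
  have hNo : N ⟨j, l⟩ ≠ 0 := by
    intro h0
    have : bsq N j = 0 := by
      unfold bsq
      apply Finset.sum_eq_zero
      intro i _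
      have h1 := hl i
      simp only [h0, abs_zero] at h1
      have h2 : N ⟨j, i⟩ = 0 := abs_eq_zero.1 (le_antisymm h1 (abs_nonneg _))
      rw [h2]; ring
    linarith
  refine ⟨⟨j, l⟩, ?_⟩
  have hdet := A6_det_ne_zero z h N c hN ⟨j, l⟩ hNo
  refine ⟨hdet, ?_⟩
  set o : Ix d := ⟨j, l⟩ with ho
  have hy : Yof o z = fun i => if i = o then c / N o else - N i / N o := by
    have h1 : (Mt o z).mulVec (fun i => if i = o then c / N o else - N i / N o) = fun k => z k o := by
      funext k
      have h2 := hN k
      simp only [Matrix.mulVec, dotProduct, Mt]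
      unfold dotProduct at h2
      rw [← Finset.add_sum_erase _ _ (Finset.mem_univ o)] at h2 ⊢
      simp only [if_true]
      have h3 : ∑ x ∈ Finset.univ.erase o, (if x = o then (1 : ℝ) else z k x) *
          (if x = o then c / N o else - N x / N o) =
          - (∑ x ∈ Finset.univ.erase o, N x * z k x) / N o := by
        rw [← Finset.sum_neg_distrib, Finset.sum_div]
        refine Finset.sum_congr rfl fun x hx => ?_
        have : x ≠ o := Finset.ne_of_mem_erase hx
        simp only [this, if_false]
        ring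
      rw [h3]
      field_simp
      linarith
    unfold Yof
    rw [← h1, Matrix.mulVec_mulVec, Matrix.nonsing_inv_mul _ (isUnit_iff_ne_zero.2 hdet),
      Matrix.one_mulVec]
  have hNv : Nv o (Yof o z) = fun i => N i / N o := by
    funext i
    rw [hy]
    unfold Nv
    by_cases hi : i = o
    · simp only [hi, if_true]
      rw [div_self hNo]
    · simp only [hi, if_false]
      ring
  have hbs : ∀ i, bsq (Nv o (Yof o z)) i = bsq N i / (N o) ^ 2 := by
    intro i
    rw [hNv]
    unfold bsq
    rw [Finset.sum_div]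
    refine Finset.sum_congr rfl fun x _ => ?_
    rw [div_pow]
  refine ⟨?_, ?_⟩
  · intro i
    rw [hNv]
    simp only
    rw [abs_div]
    apply div_le_one_of_le₀ _ (abs_nonneg _)
    exact hl i
  · intro i
    rw [hbs, hbs]
    exact div_le_div_of_nonneg_right (hj i) (sq_nonneg _)

end RP
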