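import Pool.Agent.H6.RP.Core

/-! A7: the change of variables (affine Blaschke-Petkantschin formula in graph coordinates).

Proof.  (null) `Dt o (ext0 ∘ x')` is a polynomial in the entries `x' k l`, not identically zero (e.g. `x' k l = δ_{kl}` gives
determinant `1`), so its zero set is null (or Fubini/induction); for `|ι| = 1` it is constantly `1`.
(cv) `ι → ι → ℝ` is identified with `(ι → {l // l ≠ o} → ℝ) × (ι → ℝ)` (`x ↦ (x', (x k o)_k)`), measure preserving
(`volume_preserving_piEquivPiSubtypeProd`, `volume_measurePreserving_arrowProdEquivProdArrow`, `MeasurableEquiv.funUnique`...).  Tonelli.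
For fixed `x'` with `Dt ≠ 0` the linear map `y ↦ Mt o x *ᵥ y` (`x k = ext0 o (x' k)`; `Mt` does not depend on the column `o`) of
`ι → ℝ` has determinant `Dt`, and `Mt_mulVec` says that its value is the column `o` of the graph points;
`∫⁻ v, F' v = ofReal |Dt| * ∫⁻ y, F' (Mt *ᵥ y)` (`Measure.map_linearMap_addHaar_eq_smul_addHaar`, `Real.map_matrix_volume_pi_eq_smul_volume_pi`). -/

open MeasureTheory
open scoped ENNReal

namespace RP

/-- A measurable set which meets every line in a fixed direction in a null set is null. -/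
theorem null_of_lines {E : Type*} [AddCommGroup E] [Module ℝ E] [MeasurableSpace E] [MeasurableAdd₂ E]
    [MeasurableSMul₂ ℝ E] (μ : Measure E) [SFinite μ] [μ.IsAddRightInvariant] (Z : Set E) (hZ : MeasurableSet Z) (e : E)
    (h : ∀ x : E, volume {t : ℝ | x + t • e ∈ Z} = 0) : μ Z = 0 := by
  have hm : Measurable fun p : ℝ × E => p.2 + p.1 • e :=
    measurable_snd.add (measurable_fst.smul_const e)
  have hS : MeasurableSet {p : ℝ × E | p.2 + p.1 • e ∈ Z} := hm hZ
  have h1 : ((volume.restrict (Set.Icc (0 : ℝ) 1)).prod μ) {p : ℝ × E | p.2 + p.1 • e ∈ Z} = 0 := by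
    rw [Measure.prod_apply_symm hS, lintegral_eq_zero_iff (measurable_measure_prodMk_right hS)]
    refine Filter.Eventually.of_forall fun x => ?_
    have : (volume.restrict (Set.Icc (0 : ℝ) 1)) ((fun t => (t, x)) ⁻¹' {p : ℝ × E | p.2 + p.1 • e ∈ Z}) ≤
        volume {t : ℝ | x + t • e ∈ Z} := Measure.restrict_apply_le _ _
    rw [h x] at this
    exact le_antisymm this zero_le
  have h2 : ((volume.restrict (Set.Icc (0 : ℝ) 1)).prod μ) {p : ℝ × E | p.2 + p.1 • e ∈ Z} = μ Z := by
    rw [Measure.prod_apply hS]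
    have : ∀ t : ℝ, μ (Prod.mk t ⁻¹' {p : ℝ × E | p.2 + p.1 • e ∈ Z}) = μ Z := by
      intro t
      have := measure_preimage_add_right μ (t • e) Z
      exact this
    simp only [this]
    simp
  rw [← h2, h1]

theorem Dt_line (ι : Type) [Fintype ι] [DecidableEq ι] (o : ι) (x : ι → {l // l ≠ o} → ℝ) :
    {t : ℝ | Dt o (fun k => ext0 o ((x + t • fun (k : ι) (l : {l // l ≠ o}) => if k = l.1 then (1 : ℝ) else 0) k)) = 0}.Finite := by
  classical
  set A : Matrix ι ι ℝ := fun k l => if l = o then 1 else if k = l then 1 else 0 with hA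
  set B : Matrix ι ι ℝ := fun k l => if h : l = o then 0 else x k ⟨l, h⟩ with hB
  have hdetA : A.det = 1 := by
    have : A = (1 : Matrix ι ι ℝ).updateCol o (fun _ => 1) := by
      ext k l
      by_cases h : l = o
      · subst h; simp [hA, Matrix.updateCol_apply]
      · simp [hA, Matrix.updateCol_apply, h, Matrix.one_apply]
    rw [this, ← Matrix.cramer_apply, Matrix.cramer_one]
    rfl
  set P : Polynomial ℝ := Matrix.det ((Polynomial.X : Polynomial ℝ) • A.map Polynomial.C + B.map Polynomial.C) with hP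
  have hP0 : P ≠ 0 := by
    intro h
    have := Polynomial.coeff_det_X_add_C_card A B
    rw [← hP, h, hdetA] at this
    simp at this
  refine (P.roots.toFinset.finite_toSet).subset ?_
  intro t ht
  simp only [Set.mem_ofPred_eq] at ht
  simp only [Finset.mem_coe, Multiset.mem_toFinset]
  rw [Polynomial.mem_roots hP0, Polynomial.IsRoot.def]
  have h1 : P.eval t = (t • A + B).det := by
    rw [hP, ← Polynomial.coe_evalRingHom, RingHom.map_det]
    congr 1
    ext k l
    simp [Matrix.map_apply]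
    ring
  rw [h1]
  have h2 : (t • A + B) = (Mt o (fun k => ext0 o ((x + t • fun (k : ι) (l : {l // l ≠ o}) =>
      if k = l.1 then (1 : ℝ) else 0) k))).updateCol o (t • fun k => Mt o (fun k => ext0 o ((x + t • fun (k : ι) (l : {l // l ≠ o}) =>
      if k = l.1 then (1 : ℝ) else 0) k)) k o) := by
    ext k l
    rw [Matrix.add_apply, Matrix.smul_apply, Matrix.updateCol_apply]
    by_cases h : l = o
    · subst h; simp [hA, hB, Mt]
    · by_cases h' : k = l
      · simp [hA, hB, Mt, h, ext0, h', add_comm]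
      · simp [hA, hB, Mt, h, ext0, h']
  rw [h2, Matrix.det_updateCol_smul]
  have h3 : ((Mt o (fun k => ext0 o ((x + t • fun (k : ι) (l : {l // l ≠ o}) =>
      if k = l.1 then (1 : ℝ) else 0) k))).updateCol o (fun k => Mt o (fun k => ext0 o ((x + t • fun (k : ι) (l : {l // l ≠ o}) =>
      if k = l.1 then (1 : ℝ) else 0) k)) k o)) = (Mt o (fun k => ext0 o ((x + t • fun (k : ι) (l : {l // l ≠ o}) =>
      if k = l.1 then (1 : ℝ) else 0) k))) := by
    exact Matrix.updateCol_eq_self _ _
  rw [h3]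
  unfold Dt at ht
  rw [ht, mul_zero]

theorem continuous_ext0 {ι : Type} [Fintype ι] [DecidableEq ι] (o : ι) : Continuous (ext0 o) := by
  refine continuous_pi fun l => ?_
  by_cases h : l = o
  · have : (fun x : {l // l ≠ o} → ℝ => ext0 o x l) = fun _ => 0 := by funext x; simp [ext0, h]
    rw [this]; exact continuous_const
  · have : (fun x : {l // l ≠ o} → ℝ => ext0 o x l) = fun x => x ⟨l, h⟩ := by funext x; simp [ext0, h]
    rw [this]; exact continuous_apply _

theorem continuous_Mt_ext0 {ι : Type} [Fintype ι] [DecidableEq ι] (o : ι) :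
    Continuous fun x : ι → {l // l ≠ o} → ℝ => Mt o (fun k => ext0 o (x k)) := by
  refine continuous_pi fun k => continuous_pi fun l => ?_
  by_cases h : l = o
  · simp only [Mt, h, if_true]; exact continuous_const
  · simp only [Mt, h, if_false]
    exact (continuous_apply l).comp ((continuous_ext0 o).comp (continuous_apply k))

theorem continuous_Dt_ext0 {ι : Type} [Fintype ι] [DecidableEq ι] (o : ι) :
    Continuous fun x : ι → {l // l ≠ o} → ℝ => Dt o (fun k => ext0 o (x k)) :=
  (continuous_Mt_ext0 o).matrix_det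

theorem Dt_null (ι : Type) [Fintype ι] [DecidableEq ι] (o : ι) :
    volume {x : ι → {l // l ≠ o} → ℝ | Dt o (fun k => ext0 o (x k)) = 0} = 0 := by
  refine null_of_lines volume _ ?_ (fun (k : ι) (l : {l // l ≠ o}) => if k = l.1 then (1 : ℝ) else 0) ?_
  · exact (isClosed_eq (continuous_Dt_ext0 o) continuous_const).measurableSet
  · intro x
    exact (Dt_line ι o x).measure_zero _

theorem funUnique_mp (α : Type) [Unique α] [i1 : Fintype α] :
    MeasurePreserving (MeasurableEquiv.funUnique α ℝ) (volume : Measure (α → ℝ)) volume := by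
  have h : i1 = Unique.fintype := Subsingleton.elim _ _
  subst h
  exact volume_preserving_funUnique α ℝ

/-- The splitting of the coordinate `o`. -/
theorem split_mp (ι : Type) [Fintype ι] [DecidableEq ι] (o : ι) :
    MeasurePreserving (fun x : ι → ι → ℝ =>
      ((fun k (l : {l // l ≠ o}) => x k l.1, fun k => x k o) : (ι → {l // l ≠ o} → ℝ) × (ι → ℝ))) volume volume := by
  have u : Unique {l : ι // ¬ l ≠ o} := ⟨⟨⟨o, by simp⟩⟩, fun a => Subtype.ext (by simpa using a.2)⟩
  have h1 : MeasurePreserving (fun (x : ι → ι → ℝ) (k : ι) =>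
      (MeasurableEquiv.piEquivPiSubtypeProd (fun _ : ι => ℝ) (fun l => l ≠ o)) (x k)) volume volume :=
    volume_preserving_pi fun _ => volume_preserving_piEquivPiSubtypeProd (fun _ => ℝ) _
  have h2 := volume_measurePreserving_arrowProdEquivProdArrow ({l : ι // l ≠ o} → ℝ) ({l : ι // ¬ l ≠ o} → ℝ) ι
  have h3' : MeasurePreserving (MeasurableEquiv.funUnique {l : ι // ¬ l ≠ o} ℝ) volume volume :=
    funUnique_mp {l : ι // ¬ l ≠ o}
  have h3 : MeasurePreserving (fun (x : ι → {l : ι // ¬ l ≠ o} → ℝ) (k : ι) =>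
      (MeasurableEquiv.funUnique {l : ι // ¬ l ≠ o} ℝ) (x k)) volume volume :=
    volume_preserving_pi fun _ => h3'
  have h4 : MeasurePreserving (Prod.map (id : (ι → {l : ι // l ≠ o} → ℝ) → (ι → {l : ι // l ≠ o} → ℝ))
      (fun (x : ι → {l : ι // ¬ l ≠ o} → ℝ) (k : ι) =>
      (MeasurableEquiv.funUnique {l : ι // ¬ l ≠ o} ℝ) (x k))) (volume.prod volume) (volume.prod volume) :=
    (MeasurePreserving.id volume).prod h3
  have h5 := h4.comp (h2.comp h1)
  refine ⟨?_, ?_⟩
  · fun_prop
  · have h6 : (fun x : ι → ι → ℝ =>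
      ((fun k (l : {l // l ≠ o}) => x k l.1, fun k => x k o) : (ι → {l // l ≠ o} → ℝ) × (ι → ℝ))) =
        (Prod.map (id : (ι → {l : ι // l ≠ o} → ℝ) → (ι → {l : ι // l ≠ o} → ℝ))
      (fun (x : ι → {l : ι // ¬ l ≠ o} → ℝ) (k : ι) =>
      (MeasurableEquiv.funUnique {l : ι // ¬ l ≠ o} ℝ) (x k))) ∘ ((MeasurableEquiv.arrowProdEquivProdArrow
        ({l : ι // l ≠ o} → ℝ) ({l : ι // ¬ l ≠ o} → ℝ) ι) ∘ (fun (x : ι → ι → ℝ) (k : ι) =>
      (MeasurableEquiv.piEquivPiSubtypeProd (fun _ : ι => ℝ) (fun l => l ≠ o)) (x k))) := by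
      funext x
      refine Prod.ext rfl ?_
      funext k
      have h7 : (default : {l : ι // ¬ l ≠ o}) = ⟨o, by simp⟩ := Subtype.ext (by simpa using (default : {l : ι // ¬ l ≠ o}).2)
      change x k o = x k (default : {l : ι // ¬ l ≠ o}).1
      rw [h7]
    rw [h6]
    exact h5.map_eq

theorem lin_cv {ι : Type} [Fintype ι] [DecidableEq ι] (M : Matrix ι ι ℝ) (hM : M.det ≠ 0) (f : (ι → ℝ) → ℝ≥0∞)
    (hf : Measurable f) : ∫⁻ v, f v = ∫⁻ y, ENNReal.ofReal |M.det| * f (M.mulVec y) := by
  have h := Real.map_matrix_volume_pi_eq_smul_volume_pi hM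
  have hm : Measurable fun y : ι → ℝ => M.mulVec y :=
    (Continuous.matrix_mulVec continuous_const continuous_id).measurable
  have h1 : ∫⁻ y, f (M.mulVec y) = ENNReal.ofReal |(M.det)⁻¹| * ∫⁻ v, f v := by
    have : ∫⁻ y, f (M.mulVec y) = ∫⁻ v, f v ∂(Measure.map (Matrix.toLin' M) volume) := by
      rw [lintegral_map hf]
      · rfl
      · exact hm
    rw [this, h, lintegral_smul_measure]
    rfl
  have h2 : ∫⁻ y, ENNReal.ofReal |M.det| * f (M.mulVec y) = ENNReal.ofReal |M.det| * ∫⁻ y, f (M.mulVec y) :=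
    lintegral_const_mul _ (hf.comp hm)
  rw [h2, h1, ← mul_assoc, ← ENNReal.ofReal_mul (abs_nonneg _), ← abs_mul,
    mul_inv_cancel₀ hM]
  simp

theorem cv (ι : Type) [Fintype ι] [DecidableEq ι] (o : ι) (F : (ι → ι → ℝ) → ℝ≥0∞) (hF : Measurable F) :
    ∫⁻ x, F x = ∫⁻ x : ι → {l // l ≠ o} → ℝ, ∫⁻ y : ι → ℝ,
      ENNReal.ofReal |Dt o (fun k => ext0 o (x k))| * F (fun k => gp o (ext0 o (x k)) y) := by
  have hmG : Measurable fun p : (ι → {l // l ≠ o} → ℝ) × (ι → ℝ) =>
      (fun k => Function.update (ext0 o (p.1 k)) o (p.2 k) : ι → ι → ℝ) := by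
    refine measurable_pi_iff.mpr fun k => measurable_pi_iff.mpr fun l => ?_
    by_cases h : l = o
    · subst h
      simp only [Function.update_self]
      exact (measurable_pi_apply k).comp measurable_snd
    · simp only [Function.update_of_ne h]
      exact (((continuous_apply l).comp ((continuous_ext0 o).comp
        (continuous_apply k : Continuous fun x : ι → {l // l ≠ o} → ℝ => x k))).measurable).comp measurable_fst
  have hG : Measurable fun p : (ι → {l // l ≠ o} → ℝ) × (ι → ℝ) =>
      F (fun k => Function.update (ext0 o (p.1 k)) o (p.2 k)) := hF.comp hmG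
  have h1 : ∫⁻ x, F x = ∫⁻ p : (ι → {l // l ≠ o} → ℝ) × (ι → ℝ), F (fun k => Function.update (ext0 o (p.1 k)) o (p.2 k)) := by
    rw [← (split_mp ι o).lintegral_comp hG]
    refine lintegral_congr fun x => ?_
    congr 1
    funext k l
    by_cases h : l = o
    · subst h; simp
    · simp [Function.update_of_ne h, ext0, h]
  have h2 : ∫⁻ p : (ι → {l // l ≠ o} → ℝ) × (ι → ℝ), F (fun k => Function.update (ext0 o (p.1 k)) o (p.2 k)) =
      ∫⁻ x : ι → {l // l ≠ o} → ℝ, ∫⁻ v : ι → ℝ, F (fun k => Function.update (ext0 o (x k)) o (v k)) :=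
    lintegral_prod _ hG.aemeasurable
  rw [h1, h2]
  refine lintegral_congr_ae ?_
  have h3 : ∀ᵐ x : ι → {l // l ≠ o} → ℝ, Dt o (fun k => ext0 o (x k)) ≠ 0 := by
    rw [ae_iff]
    simpa using Dt_null ι o
  filter_upwards [h3] with x hx
  have h4 := lin_cv (Mt o (fun k => ext0 o (x k))) hx (fun v => F (fun k => Function.update (ext0 o (x k)) o (v k)))
    (hG.comp measurable_prodMk_left)
  rw [h4]
  rfl

end RP
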