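import Pool.Agent.H6.RP.A5
import Pool.Agent.H6.RP.A7

/-! A8: the expectation of one facet term.

A8 proof.  Measurability of `Dt`, `Yof` (inverse = `det⁻¹ • adjugate`), `gp`, `Nv`, `Yreg` (closed), `Qn` (the measure of a
section of a measurable set depends measurably on the parameter: `measurable_measure_prodMk_left`).
Splitting: `Measure.pi` on `Fin n → Sp d` is the product of the parts over `I` and over the complement
(`measurePreserving_piEquivPiSubtypeProd`), `I ≃ Ix d` by `e` (`measurePreserving_piCongrLeft`), `ofLp` (`ofLp_mp`).  For fixed points `z` over `I`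
(with `y = Yof o z`) the event `OneSide` for the `n - D ≥ 1` others is the disjoint union of two boxes, of probability
`muw{y o < N·x}^{n-D} + muw{N·x < y o}^{n-D} = Qn`. -/

open MeasureTheory
open scoped ENNReal

namespace RP

variable {m : ℕ} {d : Fin m → ℕ} {β : Fin m → ℝ}

open Classical in
/-- one facet term -/
noncomputable def Gt (a b : ℝ) (o : Ix d) {n : ℕ} {I : Finset (Fin n)} (e : Ix d ≃ I) (x : Fin n → Sp d) : ℝ≥0∞ :=
  if Dt o (zz e x) ≠ 0 ∧ Yof o (zz e x) ∈ Yreg o ∧ OneSide I o (Yof o (zz e x)) x then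
    ENNReal.ofReal |Yof o (zz e x) o| ^ a * ENNReal.ofReal |Dt o (zz e x)| ^ b
  else 0

open Classical in
/-- the reduced term -/
noncomputable def Gz (β : Fin m → ℝ) (a b : ℝ) (n : ℕ) (o : Ix d) (z : Ix d → Ix d → ℝ) : ℝ≥0∞ :=
  if Dt o z ≠ 0 ∧ Yof o z ∈ Yreg o then
    ENNReal.ofReal |Yof o z o| ^ a * ENNReal.ofReal |Dt o z| ^ b * Qn β n o (Yof o z)
  else 0

theorem A8_Mt_continuous (o : Ix d) : Continuous fun z : Ix d → Ix d → ℝ => Mt o z := by
  refine continuous_pi fun k => continuous_pi fun l => ?_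
  unfold Mt
  by_cases h : l = o
  · simp only [h, if_true]
    exact continuous_const
  · simp only [h, if_false]
    exact (continuous_apply l).comp (continuous_apply k)

theorem Dt_measurable (o : Ix d) : Measurable fun z : Ix d → Ix d → ℝ => Dt o z := by
  have h : Continuous fun z : Ix d → Ix d → ℝ => Dt o z := (A8_Mt_continuous o).matrix_det
  exact h.measurable

theorem Yof_measurable (o : Ix d) : Measurable fun z : Ix d → Ix d → ℝ => Yof o z := by
  refine measurable_pi_iff.2 fun k => ?_
  have h : (fun z : Ix d → Ix d → ℝ => Yof o z k) =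
      fun z => ∑ l, (Dt o z)⁻¹ * (Mt o z).adjugate k l * z l o := by
    funext z
    unfold Yof Dt
    rw [Matrix.inv_def, Ring.inverse_eq_inv']
    simp only [Matrix.mulVec, dotProduct, Matrix.smul_apply, smul_eq_mul]
  rw [h]
  refine Finset.measurable_sum _ fun l _ => ?_
  refine ((Dt_measurable o).inv.mul ?_).mul ?_
  · have h2 : Continuous fun z : Ix d → Ix d → ℝ => (Mt o z).adjugate := (A8_Mt_continuous o).matrix_adjugate
    have h3 : Continuous fun z : Ix d → Ix d → ℝ => (Mt o z).adjugate k l :=
      h2.matrix_elem k l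
    exact h3.measurable
  · exact (measurable_pi_apply o).comp (measurable_pi_apply l)

theorem A8_Nv_continuous (o : Ix d) : Continuous fun y : Ix d → ℝ => Nv o y := by
  refine continuous_pi fun l => ?_
  unfold Nv
  by_cases h : l = o
  · simp only [h, if_true]
    exact continuous_const
  · simp only [h, if_false]
    exact (continuous_apply l).neg

theorem A8_bsq_continuous (i : Fin m) : Continuous fun x : Ix d → ℝ => bsq x i := by
  unfold bsq
  exact continuous_finsetSum _ fun j _ => (continuous_apply _).pow 2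

theorem Yreg_measurable (o : Ix d) : MeasurableSet (Yreg o) := by
  have hN := A8_Nv_continuous o
  have h : IsClosed (Yreg o) := by
    unfold Yreg
    refine IsClosed.inter ?_ ?_
    · have : {y : Ix d → ℝ | ∀ j, |Nv o y ⟨o.1, j⟩| ≤ 1} =
          ⋂ j, {y : Ix d → ℝ | |Nv o y ⟨o.1, j⟩| ≤ 1} := by
        ext y; simp
      show IsClosed {y : Ix d → ℝ | ∀ j, |Nv o y ⟨o.1, j⟩| ≤ 1}
      rw [this]
      exact isClosed_iInter fun j =>
        isClosed_le (((continuous_apply _).comp hN).abs) continuous_const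
    · have : {y : Ix d → ℝ | ∀ i, bsq (Nv o y) i ≤ bsq (Nv o y) o.1} =
          ⋂ i, {y : Ix d → ℝ | bsq (Nv o y) i ≤ bsq (Nv o y) o.1} := by
        ext y; simp
      show IsClosed {y : Ix d → ℝ | ∀ i, bsq (Nv o y) i ≤ bsq (Nv o y) o.1}
      rw [this]
      exact isClosed_iInter fun i =>
        isClosed_le ((A8_bsq_continuous i).comp hN) ((A8_bsq_continuous o.1).comp hN)
  exact h.measurableSet

theorem A8_dot_continuous (o : Ix d) :
    Continuous fun p : (Ix d → ℝ) × (Ix d → ℝ) => dotProduct (Nv o p.1) p.2 := by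
  unfold dotProduct
  refine continuous_finsetSum _ fun l _ => ?_
  exact ((continuous_apply l).comp ((A8_Nv_continuous o).comp continuous_fst)).mul
    ((continuous_apply l).comp continuous_snd)

theorem A8_meas_gt (o : Ix d) :
    MeasurableSet {p : (Ix d → ℝ) × (Ix d → ℝ) | p.1 o < dotProduct (Nv o p.1) p.2} :=
  (isOpen_lt ((continuous_apply o).comp continuous_fst) (A8_dot_continuous o)).measurableSet

theorem A8_meas_lt (o : Ix d) :
    MeasurableSet {p : (Ix d → ℝ) × (Ix d → ℝ) | dotProduct (Nv o p.1) p.2 < p.1 o} :=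
  (isOpen_lt (A8_dot_continuous o) ((continuous_apply o).comp continuous_fst)).measurableSet

theorem Qn_measurable (hβ : ∀ i, 0 ≤ β i) (n : ℕ) (o : Ix d) : Measurable fun y : Ix d → ℝ => Qn β n o y := by
  have hp : IsProbabilityMeasure (muw d β) := muw_prob hβ
  have e1 : ∀ y : Ix d → ℝ, {x : Ix d → ℝ | y o < dotProduct (Nv o y) x} =
      Prod.mk y ⁻¹' {p : (Ix d → ℝ) × (Ix d → ℝ) | p.1 o < dotProduct (Nv o p.1) p.2} := by
    intro y; ext x; simp only [Set.mem_preimage, Set.mem_ofPred_eq]
  have e2 : ∀ y : Ix d → ℝ, {x : Ix d → ℝ | dotProduct (Nv o y) x < y o} =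
      Prod.mk y ⁻¹' {p : (Ix d → ℝ) × (Ix d → ℝ) | dotProduct (Nv o p.1) p.2 < p.1 o} := by
    intro y; ext x; simp only [Set.mem_preimage, Set.mem_ofPred_eq]
  have h1 := measurable_measure_prodMk_left (ν := muw d β) (A8_meas_gt o)
  have h2 := measurable_measure_prodMk_left (ν := muw d β) (A8_meas_lt o)
  simp_rw [← e1] at h1
  simp_rw [← e2] at h2
  exact (h1.pow_const _).add (h2.pow_const _)

theorem Gz_measurable (hβ : ∀ i, 0 ≤ β i) (a b : ℝ) (n : ℕ) (o : Ix d) : Measurable (Gz β a b n o) := by
  unfold Gz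
  refine Measurable.ite ?_ ?_ measurable_const
  · exact (Dt_measurable o (measurableSet_singleton 0)).compl.inter
      (Yof_measurable o (Yreg_measurable o))
  · refine Measurable.mul (Measurable.mul ?_ ?_) ((Qn_measurable hβ n o).comp (Yof_measurable o))
    · exact ((((measurable_pi_apply o).comp (Yof_measurable o)).norm).ennreal_ofReal).pow_const a
    · exact (((Dt_measurable o).norm).ennreal_ofReal).pow_const b

theorem A8_zz_measurable {n : ℕ} {I : Finset (Fin n)} (e : Ix d ≃ I) :
    Measurable fun x : Fin n → Sp d => zz e x := by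
  unfold zz
  refine measurable_pi_iff.2 fun k => ?_
  exact (WithLp.measurable_ofLp 2 _).comp (measurable_pi_apply _)

theorem A8_gt_measurable (o : Ix d) {n : ℕ} {I : Finset (Fin n)} (e : Ix d ≃ I) (i : Fin n) :
    MeasurableSet {x : Fin n → Sp d |
      Yof o (zz e x) o < dotProduct (Nv o (Yof o (zz e x))) (x i).ofLp} := by
  have h : Measurable fun x : Fin n → Sp d => (Yof o (zz e x), (x i).ofLp) :=
    ((Yof_measurable o).comp (A8_zz_measurable e)).prodMk
      ((WithLp.measurable_ofLp 2 _).comp (measurable_pi_apply _))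
  exact h (A8_meas_gt o)

theorem A8_lt_measurable (o : Ix d) {n : ℕ} {I : Finset (Fin n)} (e : Ix d ≃ I) (i : Fin n) :
    MeasurableSet {x : Fin n → Sp d |
      dotProduct (Nv o (Yof o (zz e x))) (x i).ofLp < Yof o (zz e x) o} := by
  have h : Measurable fun x : Fin n → Sp d => (Yof o (zz e x), (x i).ofLp) :=
    ((Yof_measurable o).comp (A8_zz_measurable e)).prodMk
      ((WithLp.measurable_ofLp 2 _).comp (measurable_pi_apply _))
  exact h (A8_meas_lt o)

theorem Gt_measurable (a b : ℝ) (o : Ix d) {n : ℕ} {I : Finset (Fin n)} (e : Ix d ≃ I) :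
    Measurable (Gt a b o e) := by
  have hz := A8_zz_measurable (d := d) e
  have hY := (Yof_measurable o).comp hz
  have hD := (Dt_measurable o).comp hz
  unfold Gt
  refine Measurable.ite ?_ ?_ measurable_const
  · refine (hD (measurableSet_singleton 0)).compl.inter ((hY (Yreg_measurable o)).inter ?_)
    have h1 : {x : Fin n → Sp d | OneSide I o (Yof o (zz e x)) x} =
        (⋂ i, ⋂ _ : i ∉ I, {x : Fin n → Sp d |
          Yof o (zz e x) o < dotProduct (Nv o (Yof o (zz e x))) (x i).ofLp}) ∪
        (⋂ i, ⋂ _ : i ∉ I, {x : Fin n → Sp d |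
          dotProduct (Nv o (Yof o (zz e x))) (x i).ofLp < Yof o (zz e x) o}) := by
      ext x
      simp [OneSide]
    show MeasurableSet {x : Fin n → Sp d | OneSide I o (Yof o (zz e x)) x}
    rw [h1]
    refine MeasurableSet.union ?_ ?_
    · exact MeasurableSet.iInter fun i => MeasurableSet.iInter fun _ => A8_gt_measurable o e i
    · exact MeasurableSet.iInter fun i => MeasurableSet.iInter fun _ => A8_lt_measurable o e i
  · refine Measurable.mul ?_ ?_
    · exact ((((measurable_pi_apply o).comp hY).norm).ennreal_ofReal).pow_const a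
    · exact ((hD.norm).ennreal_ofReal).pow_const b

theorem A8_side (hβ : ∀ i, 0 ≤ β i) (o : Ix d) {n : ℕ} (hn : (∑ i, d i) + 1 ≤ n) {I : Finset (Fin n)}
    (e : Ix d ≃ I) (y : Ix d → ℝ) :
    (Measure.pi fun _ : {i : Fin n // ¬ i ∈ I} => blockBeta d β)
      {v | (∀ i, y o < dotProduct (Nv o y) (v i).ofLp) ∨ (∀ i, dotProduct (Nv o y) (v i).ofLp < y o)} =
      Qn β n o y := by
  classical
  have hp : IsProbabilityMeasure (blockBeta d β) := blockBeta_prob hβ
  have hcardI : I.card = ∑ i, d i := by
    have h1 := Fintype.card_congr e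
    rw [Fintype.card_coe] at h1
    rw [← h1]
    simp
  have hcard : Fintype.card {i : Fin n // ¬ i ∈ I} = n - ∑ i, d i := by
    rw [Fintype.card_subtype_compl, Fintype.card_fin]
    simp [hcardI]
  have hne : Nonempty {i : Fin n // ¬ i ∈ I} := by
    rw [← Fintype.card_pos_iff, hcard]
    omega
  obtain ⟨i0⟩ := hne
  have hm1 : MeasurableSet {w : Sp d | y o < dotProduct (Nv o y) w.ofLp} := by
    have h : Measurable fun w : Sp d => (y, w.ofLp) :=
      measurable_const.prodMk (WithLp.measurable_ofLp 2 _)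
    exact h (A8_meas_gt o)
  have hm2 : MeasurableSet {w : Sp d | dotProduct (Nv o y) w.ofLp < y o} := by
    have h : Measurable fun w : Sp d => (y, w.ofLp) :=
      measurable_const.prodMk (WithLp.measurable_ofLp 2 _)
    exact h (A8_meas_lt o)
  have hset : {v : {i : Fin n // ¬ i ∈ I} → Sp d | (∀ i, y o < dotProduct (Nv o y) (v i).ofLp) ∨
      (∀ i, dotProduct (Nv o y) (v i).ofLp < y o)} =
      (Set.univ.pi fun _ => {w : Sp d | y o < dotProduct (Nv o y) w.ofLp}) ∪
      (Set.univ.pi fun _ => {w : Sp d | dotProduct (Nv o y) w.ofLp < y o}) := by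
    ext v
    simp [Set.mem_pi]
  rw [hset, measure_union]
  · rw [Measure.pi_pi, Measure.pi_pi]
    simp only [Finset.prod_const, Finset.card_univ]
    rw [hcard]
    unfold Qn
    have hmp := ofLp_mp (d := d) (β := β) hβ
    have e1 : blockBeta d β {w : Sp d | y o < dotProduct (Nv o y) w.ofLp} =
        muw d β {x | y o < dotProduct (Nv o y) x} := by
      have hm : MeasurableSet {x : Ix d → ℝ | y o < dotProduct (Nv o y) x} := by
        have h : Measurable fun x : Ix d → ℝ => (y, x) := measurable_const.prodMk measurable_id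
        exact h (A8_meas_gt o)
      have hpre : {w : Sp d | y o < dotProduct (Nv o y) w.ofLp} =
          (fun x : Sp d => x.ofLp) ⁻¹' {x : Ix d → ℝ | y o < dotProduct (Nv o y) x} := by
        ext w; simp only [Set.mem_preimage, Set.mem_ofPred_eq]
      rw [hpre]
      exact hmp.measure_preimage hm.nullMeasurableSet
    have e2 : blockBeta d β {w : Sp d | dotProduct (Nv o y) w.ofLp < y o} =
        muw d β {x | dotProduct (Nv o y) x < y o} := by
      have hm : MeasurableSet {x : Ix d → ℝ | dotProduct (Nv o y) x < y o} := by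
        have h : Measurable fun x : Ix d → ℝ => (y, x) := measurable_const.prodMk measurable_id
        exact h (A8_meas_lt o)
      have hpre : {w : Sp d | dotProduct (Nv o y) w.ofLp < y o} =
          (fun x : Sp d => x.ofLp) ⁻¹' {x : Ix d → ℝ | dotProduct (Nv o y) x < y o} := by
        ext w; simp only [Set.mem_preimage, Set.mem_ofPred_eq]
      rw [hpre]
      exact hmp.measure_preimage hm.nullMeasurableSet
    rw [e1, e2]
  · rw [Set.disjoint_left]
    intro v h1 h2
    have h1' := h1 i0 (Set.mem_univ _)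
    have h2' := h2 i0 (Set.mem_univ _)
    simp only [Set.mem_ofPred_eq] at h1' h2'
    exact lt_asymm h1' h2'
  · exact MeasurableSet.univ_pi fun _ => hm2

theorem Gt_split (hβ : ∀ i, 0 ≤ β i) (a b : ℝ) (o : Ix d) {n : ℕ} (hn : (∑ i, d i) + 1 ≤ n) {I : Finset (Fin n)}
    (e : Ix d ≃ I) :
    ∫⁻ x, Gt a b o e x ∂(Measure.pi fun _ : Fin n => blockBeta d β) =
      ∫⁻ z, Gz β a b n o z ∂(Measure.pi fun _ : Ix d => muw d β) := by
  classical
  have hp : IsProbabilityMeasure (blockBeta d β) := blockBeta_prob hβ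
  have hp2 : IsProbabilityMeasure (muw d β) := muw_prob hβ
  -- first split
  have h1 := (measurePreserving_piEquivPiSubtypeProd (fun _ : Fin n => blockBeta d β)
    (fun i => i ∈ I)).symm
  rw [← h1.lintegral_comp (Gt_measurable a b o e)]
  have hGm : Measurable fun p : ({i : Fin n // i ∈ I} → Sp d) × ({i : Fin n // ¬ i ∈ I} → Sp d) =>
      Gt a b o e ((MeasurableEquiv.piEquivPiSubtypeProd (fun _ : Fin n => Sp d)
        (fun i => i ∈ I)).symm p) := (Gt_measurable a b o e).comp (MeasurableEquiv.measurable _)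
  rw [lintegral_prod _ hGm.aemeasurable]
  -- inner integral
  have hval : ∀ (u : {i : Fin n // i ∈ I} → Sp d) (v : {i : Fin n // ¬ i ∈ I} → Sp d),
      Gt a b o e ((MeasurableEquiv.piEquivPiSubtypeProd (fun _ : Fin n => Sp d)
        (fun i => i ∈ I)).symm (u, v)) =
      if Dt o (fun k => (u (e k)).ofLp) ≠ 0 ∧ Yof o (fun k => (u (e k)).ofLp) ∈ Yreg o then
        ENNReal.ofReal |Yof o (fun k => (u (e k)).ofLp) o| ^ a *
          ENNReal.ofReal |Dt o (fun k => (u (e k)).ofLp)| ^ b *
          ({v : {i : Fin n // ¬ i ∈ I} → Sp d |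
            (∀ i, Yof o (fun k => (u (e k)).ofLp) o <
              dotProduct (Nv o (Yof o (fun k => (u (e k)).ofLp))) (v i).ofLp) ∨
            (∀ i, dotProduct (Nv o (Yof o (fun k => (u (e k)).ofLp))) (v i).ofLp <
              Yof o (fun k => (u (e k)).ofLp) o)}).indicator 1 v
      else 0 := by
    intro u v
    set x := (MeasurableEquiv.piEquivPiSubtypeProd (fun _ : Fin n => Sp d)
        (fun i => i ∈ I)).symm (u, v) with hx
    have hxI : ∀ i : {i : Fin n // i ∈ I}, x i = u i := by
      intro i
      rw [hx]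
      show (if h : (i : Fin n) ∈ I then u ⟨i, h⟩ else v ⟨i, h⟩) = u i
      rw [dif_pos i.2]
    have hxc : ∀ i : {i : Fin n // ¬ i ∈ I}, x i = v i := by
      intro i
      rw [hx]
      show (if h : (i : Fin n) ∈ I then u ⟨i, h⟩ else v ⟨i, h⟩) = v i
      rw [dif_neg i.2]
    have hzz : zz e x = fun k => (u (e k)).ofLp := by
      funext k
      show (x (e k)).ofLp = _
      rw [hxI (e k)]
    have hside : OneSide I o (Yof o (fun k => (u (e k)).ofLp)) x ↔
        v ∈ {v : {i : Fin n // ¬ i ∈ I} → Sp d |
            (∀ i, Yof o (fun k => (u (e k)).ofLp) o <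
              dotProduct (Nv o (Yof o (fun k => (u (e k)).ofLp))) (v i).ofLp) ∨
            (∀ i, dotProduct (Nv o (Yof o (fun k => (u (e k)).ofLp))) (v i).ofLp <
              Yof o (fun k => (u (e k)).ofLp) o)} := by
      simp only [OneSide, Set.mem_ofPred_eq]
      constructor
      · rintro (h | h)
        · left; intro i; rw [← hxc i]; exact h i i.2
        · right; intro i; rw [← hxc i]; exact h i i.2
      · rintro (h | h)
        · left; intro i hi; rw [hxc ⟨i, hi⟩]; exact h ⟨i, hi⟩
        · right; intro i hi; rw [hxc ⟨i, hi⟩]; exact h ⟨i, hi⟩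
    unfold Gt
    rw [hzz]
    by_cases hc : Dt o (fun k => (u (e k)).ofLp) ≠ 0 ∧ Yof o (fun k => (u (e k)).ofLp) ∈ Yreg o
    · rw [if_pos hc]
      by_cases hs : OneSide I o (Yof o (fun k => (u (e k)).ofLp)) x
      · rw [if_pos ⟨hc.1, hc.2, hs⟩, Set.indicator_of_mem (hside.1 hs)]
        simp
      · rw [if_neg (fun h => hs h.2.2), Set.indicator_of_notMem (fun h => hs (hside.2 h))]
        simp
    · rw [if_neg hc, if_neg (fun h => hc ⟨h.1, h.2.1⟩)]
  have hinner : ∀ u : {i : Fin n // i ∈ I} → Sp d,
      ∫⁻ v, Gt a b o e ((MeasurableEquiv.piEquivPiSubtypeProd (fun _ : Fin n => Sp d)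
        (fun i => i ∈ I)).symm (u, v)) ∂(Measure.pi fun _ : {i : Fin n // ¬ i ∈ I} => blockBeta d β) =
      Gz β a b n o (fun k => (u (e k)).ofLp) := by
    intro u
    simp_rw [hval u]
    unfold Gz
    by_cases hc : Dt o (fun k => (u (e k)).ofLp) ≠ 0 ∧ Yof o (fun k => (u (e k)).ofLp) ∈ Yreg o
    · simp only [if_pos hc]
      have hmeas : MeasurableSet {v : {i : Fin n // ¬ i ∈ I} → Sp d |
            (∀ i, Yof o (fun k => (u (e k)).ofLp) o <
              dotProduct (Nv o (Yof o (fun k => (u (e k)).ofLp))) (v i).ofLp) ∨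
            (∀ i, dotProduct (Nv o (Yof o (fun k => (u (e k)).ofLp))) (v i).ofLp <
              Yof o (fun k => (u (e k)).ofLp) o)} := by
        set y := Yof o (fun k => (u (e k)).ofLp)
        have hm1 : MeasurableSet {w : Sp d | y o < dotProduct (Nv o y) w.ofLp} := by
          have h : Measurable fun w : Sp d => (y, w.ofLp) :=
            measurable_const.prodMk (WithLp.measurable_ofLp 2 _)
          exact h (A8_meas_gt o)
        have hm2 : MeasurableSet {w : Sp d | dotProduct (Nv o y) w.ofLp < y o} := by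
          have h : Measurable fun w : Sp d => (y, w.ofLp) :=
            measurable_const.prodMk (WithLp.measurable_ofLp 2 _)
          exact h (A8_meas_lt o)
        have hset : {v : {i : Fin n // ¬ i ∈ I} → Sp d |
            (∀ i, y o < dotProduct (Nv o y) (v i).ofLp) ∨
            (∀ i, dotProduct (Nv o y) (v i).ofLp < y o)} =
            (Set.univ.pi fun _ => {w : Sp d | y o < dotProduct (Nv o y) w.ofLp}) ∪
            (Set.univ.pi fun _ => {w : Sp d | dotProduct (Nv o y) w.ofLp < y o}) := by
          ext v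
          simp [Set.mem_pi]
        rw [hset]
        exact (MeasurableSet.univ_pi fun _ => hm1).union (MeasurableSet.univ_pi fun _ => hm2)
      rw [lintegral_const_mul _ (measurable_one.indicator hmeas), lintegral_indicator_one hmeas,
        A8_side hβ o hn e]
    · simp only [if_neg hc, lintegral_zero]
  simp_rw [hinner]
  -- second change of variables
  have h2 : MeasurePreserving (fun u : I → Sp d => fun k : Ix d => u (e k))
      (Measure.pi fun _ : I => blockBeta d β) (Measure.pi fun _ : Ix d => blockBeta d β) := by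
    have := (measurePreserving_piCongrLeft (fun _ : I => blockBeta d β) e).symm
    exact this
  have h3 : MeasurePreserving (fun (w : Ix d → Sp d) (k : Ix d) => (w k).ofLp)
      (Measure.pi fun _ : Ix d => blockBeta d β) (Measure.pi fun _ : Ix d => muw d β) :=
    measurePreserving_pi (fun _ : Ix d => blockBeta d β) (fun _ : Ix d => muw d β)
      (f := fun _ x => x.ofLp) (fun _ => ofLp_mp hβ)
  have h4 := h3.comp h2
  have h5 := h4.lintegral_comp (Gz_measurable hβ a b n o)
  have hf : (Subtype.fintype fun i => i ∈ I) = Finset.Subtype.fintype I := Subsingleton.elim _ _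
  rw [hf]
  exact h5

end RP
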