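import Pool.Agent.H6.RP.A8

/-! A8c: the reduced expectation is the facet integral.

Proof.  `Measure.pi (muw)` is `(∫⁻ wt)^{-D}` times `volume.withDensity (∏ k, wt (z k))` on `Ix d → Ix d → ℝ`
(`Measure.pi` of scaled measures; product of densities: Fubini on boxes / `Measure.pi_eq`; you may also prove
`∫⁻ z, F z ∂pi = Z^{-D} ∫⁻ z, (∏ wt (z k)) F z` by uniqueness of product measures).  Then `cv` with
`F z = (∏ wt (z k)) * Gz z`; at a graph point with `Dt ≠ 0` (almost every `x'`, `Dt_null`) `Yof = y`, `Dt = Dt` (`Yof_gp`, `Dt_gp`), so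
the integrand is `1_{Yreg} (y) Qn(y) |y o|^a |Dt|^{1+b} ∏ wt (gp ..)`; exchange the integrals. -/

open MeasureTheory
open scoped ENNReal

namespace RP

section Tonelli

variable {E : Type*} [MeasurableSpace E] (μ : Measure E) [SigmaFinite μ]

theorem a8c_fin {n : ℕ} (f : Fin n → E → ℝ≥0∞) (hf : ∀ i, Measurable (f i)) :
    ∫⁻ x : Fin n → E, ∏ i, f i (x i) ∂(Measure.pi fun _ => μ) = ∏ i, ∫⁻ x, f i x ∂μ := by
  induction n with
  | zero => simp
  | succ n ih =>
    have hm : Measurable fun x : Fin (n + 1) → E => ∏ i, f i (x i) :=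
      Finset.measurable_prod _ fun i _ => (hf i).comp (measurable_pi_apply i)
    have h1 : ∫⁻ x : Fin (n + 1) → E, ∏ i, f i (x i) ∂(Measure.pi fun _ => μ) =
        ∫⁻ x : E × (Fin n → E), f 0 x.1 * ∏ i : Fin n, f i.succ (x.2 i)
          ∂(μ.prod (Measure.pi fun _ => μ)) := by
      rw [← ((measurePreserving_piFinSuccAbove (fun _ : Fin (n + 1) => μ) 0).symm).lintegral_comp hm]
      refine lintegral_congr fun x => ?_
      rw [Fin.prod_univ_succ]
      rfl
    have hm2 : Measurable fun x : Fin n → E => ∏ i : Fin n, f i.succ (x i) :=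
      Finset.measurable_prod _ fun i _ => (hf i.succ).comp (measurable_pi_apply i)
    rw [h1, lintegral_prod_mul (hf 0).aemeasurable hm2.aemeasurable,
      ih (fun i => f i.succ) (fun i => hf i.succ), Fin.prod_univ_succ]

theorem a8c_pi {ι : Type*} [Fintype ι] (f : ι → E → ℝ≥0∞) (hf : ∀ i, Measurable (f i)) :
    ∫⁻ x : ι → E, ∏ i, f i (x i) ∂(Measure.pi fun _ => μ) = ∏ i, ∫⁻ x, f i x ∂μ := by
  have hm : Measurable fun x : ι → E => ∏ i, f i (x i) :=
    Finset.measurable_prod _ fun i _ => (hf i).comp (measurable_pi_apply i)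
  let e := (Fintype.equivFin ι).symm
  rw [← (measurePreserving_piCongrLeft (fun _ : ι => μ) e).lintegral_comp hm]
  have h1 : ∀ x : Fin (Fintype.card ι) → E,
      ∏ i, f i (MeasurableEquiv.piCongrLeft (fun _ : ι => E) e x i) =
        ∏ i, f (e i) (x i) := by
    intro x
    rw [← e.prod_comp]
    refine Finset.prod_congr rfl fun i _ => ?_
    rw [MeasurableEquiv.coe_piCongrLeft, Equiv.piCongrLeft_apply_apply]
  rw [lintegral_congr h1, a8c_fin μ (fun i => f (e i)) (fun i => hf (e i)),
    e.prod_comp (fun i => ∫⁻ x, f i x ∂μ)]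

end Tonelli

variable {m : ℕ} {d : Fin m → ℕ} {β : Fin m → ℝ}

theorem a8c_card : Fintype.card (Ix d) = ∑ i, d i := by
  simp [Ix]

theorem a8c_muw (hβ : ∀ i, 0 ≤ β i) :
    (Measure.pi fun _ : Ix d => muw d β) = ((∫⁻ x : Ix d → ℝ, wt β x)⁻¹) ^ (∑ i, d i) •
      ((volume : Measure (Ix d → Ix d → ℝ)).withDensity fun z => ∏ k, wt β (z k)) := by
  classical
  have := muw_prob (d := d) hβ
  apply Measure.pi_eq
  intro s hs
  have hpi : MeasurableSet (Set.univ.pi s) := MeasurableSet.univ_pi hs
  rw [Measure.smul_apply, withDensity_apply _ hpi, smul_eq_mul]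
  have h1 : ∫⁻ z in Set.univ.pi s, ∏ k, wt β (z k) =
      ∏ k, ∫⁻ x in s k, wt β x := by
    rw [← lintegral_indicator hpi]
    have h2 : ∀ z : Ix d → Ix d → ℝ, (Set.univ.pi s).indicator (fun z => ∏ k, wt β (z k)) z =
        ∏ k, (s k).indicator (wt β) (z k) := by
      intro z
      by_cases hz : z ∈ Set.univ.pi s
      · rw [Set.indicator_of_mem hz]
        refine Finset.prod_congr rfl fun k _ => ?_
        rw [Set.indicator_of_mem (hz k (Set.mem_univ k))]
      · rw [Set.indicator_of_notMem hz]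
        rw [Set.mem_univ_pi] at hz
        push Not at hz
        obtain ⟨k, hk⟩ := hz
        symm
        exact Finset.prod_eq_zero (Finset.mem_univ k) (Set.indicator_of_notMem hk _)
    rw [lintegral_congr h2, volume_pi,
      a8c_pi volume (fun k => (s k).indicator (wt β)) (fun k => wt_measurable.indicator (hs k))]
    refine Finset.prod_congr rfl fun k _ => ?_
    rw [lintegral_indicator (hs k)]
  rw [h1, ← a8c_card, ← Finset.card_univ, ← Finset.prod_const, ← Finset.prod_mul_distrib]
  refine Finset.prod_congr rfl fun k _ => ?_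
  rw [muw, Measure.smul_apply, withDensity_apply _ (hs k), smul_eq_mul]

theorem a8c_ext0 (o : Ix d) : Measurable fun x : {l : Ix d // l ≠ o} → ℝ => ext0 o x := by
  rw [measurable_pi_iff]
  intro l
  unfold ext0
  by_cases h : l = o
  · simp [h]
  · simp only [h, dif_neg, not_false_eq_true]
    exact measurable_pi_apply _

theorem a8c_gp (o : Ix d) {X : Type*} [MeasurableSpace X] (f g : X → Ix d → ℝ)
    (hf : Measurable f) (hg : Measurable g) : Measurable fun p => gp o (f p) (g p) := by
  rw [measurable_pi_iff]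
  intro l
  unfold gp
  by_cases h : l = o
  · subst h
    simp only [Function.update_self]
    apply Finset.measurable_sum
    intro i _
    apply Measurable.mul
    · by_cases h1 : i = l
      · simp only [h1, if_true]
        exact measurable_const
      · simp only [h1, if_false]
        exact (measurable_pi_apply i).comp hf
    · exact (measurable_pi_apply i).comp hg
  · simp only [Function.update_of_ne h]
    exact (measurable_pi_apply l).comp hf

theorem Gz_lintegral (hβ : ∀ i, 0 ≤ β i) (hD : 1 ≤ ∑ i, d i) (a b : ℝ) (o : Ix d) {n : ℕ} (hn : (∑ i, d i) + 1 ≤ n) :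
    ∫⁻ z, Gz β a b n o z ∂(Measure.pi fun _ : Ix d => muw d β) =
      ((∫⁻ x : Ix d → ℝ, wt β x)⁻¹) ^ (∑ i, d i) * Fint β a b n o := by
  classical
  have hwt : Measurable (wt (d := d) β) := wt_measurable
  have hprod : Measurable fun z : Ix d → Ix d → ℝ => ∏ k, wt β (z k) :=
    Finset.measurable_prod _ fun k _ => hwt.comp (measurable_pi_apply k)
  have hG := Gz_measurable hβ a b n o
  rw [a8c_muw hβ, lintegral_smul_measure, smul_eq_mul,
    lintegral_withDensity_eq_lintegral_mul _ hprod hG]
  congr 1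
  have hF : Measurable (fun z : Ix d → Ix d → ℝ => (∏ k, wt β (z k)) * Gz β a b n o z) :=
    hprod.mul hG
  have h0 : ∫⁻ z, ((fun z : Ix d → Ix d → ℝ => ∏ k, wt β (z k)) * Gz β a b n o) z =
      ∫⁻ z : Ix d → Ix d → ℝ, (∏ k, wt β (z k)) * Gz β a b n o z := rfl
  rw [h0, cv (Ix d) o _ hF]
  -- the integrand at a graph point
  have hS : Measurable fun y : Ix d → ℝ => (Yreg o).indicator
      (fun y => Qn β n o y * ENNReal.ofReal |y o| ^ a) y := by
    apply Measurable.indicator _ (Yreg_measurable o)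
    apply (Qn_measurable hβ n o).mul
    apply Measurable.pow_const
    exact ((measurable_pi_apply o).abs).ennreal_ofReal
  have hae : ∀ᵐ x : Ix d → {l : Ix d // l ≠ o} → ℝ, Dt o (fun k => ext0 o (x k)) ≠ 0 := by
    rw [ae_iff]
    simp only [ne_eq, not_not]
    exact Dt_null (Ix d) o
  have hDt : Measurable fun x : Ix d → {l : Ix d // l ≠ o} → ℝ =>
      ENNReal.ofReal |Dt o (fun k => ext0 o (x k))| ^ (1 + b) := by
    apply Measurable.pow_const
    apply Measurable.ennreal_ofReal
    apply Measurable.abs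
    apply (Dt_measurable o).comp
    rw [measurable_pi_iff]
    intro k
    exact (a8c_ext0 o).comp (measurable_pi_apply k)
  have hgp : ∀ k : Ix d, Measurable fun p : (Ix d → {l : Ix d // l ≠ o} → ℝ) × (Ix d → ℝ) =>
      wt β (gp o (ext0 o (p.1 k)) p.2) := by
    intro k
    apply hwt.comp
    exact a8c_gp o _ _ ((a8c_ext0 o).comp ((measurable_pi_apply k).comp measurable_fst))
      measurable_snd
  have hgp2 : ∀ (k : Ix d) (y : Ix d → ℝ), Measurable fun x : Ix d → {l : Ix d // l ≠ o} → ℝ =>
      wt β (gp o (ext0 o (x k)) y) := by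
    intro k y
    have h := a8c_gp o (fun x : Ix d → {l : Ix d // l ≠ o} → ℝ => ext0 o (x k)) (fun _ => y)
      ((a8c_ext0 o).comp (measurable_pi_apply k)) measurable_const
    exact hwt.comp h
  have h1 : ∫⁻ x : Ix d → {l : Ix d // l ≠ o} → ℝ, ∫⁻ y : Ix d → ℝ,
      ENNReal.ofReal |Dt o (fun k => ext0 o (x k))| *
        ((∏ k, wt β (gp o (ext0 o (x k)) y)) * Gz β a b n o (fun k => gp o (ext0 o (x k)) y)) =
      ∫⁻ x : Ix d → {l : Ix d // l ≠ o} → ℝ, ∫⁻ y : Ix d → ℝ,
        (Yreg o).indicator (fun y => Qn β n o y * ENNReal.ofReal |y o| ^ a) y *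
        (ENNReal.ofReal |Dt o (fun k => ext0 o (x k))| ^ (1 + b) *
          ∏ k, wt β (gp o (ext0 o (x k)) y)) := by
    apply lintegral_congr_ae
    filter_upwards [hae] with x hx
    refine lintegral_congr fun y => ?_
    have e1 : Dt o (fun k => gp o (ext0 o (x k)) y) = Dt o (fun k => ext0 o (x k)) :=
      Dt_gp o (fun k => ext0 o (x k)) y
    have e2 : Yof o (fun k => gp o (ext0 o (x k)) y) = y := Yof_gp o (fun k => ext0 o (x k)) y hx
    have e3 : ENNReal.ofReal |Dt o (fun k => ext0 o (x k))| ^ (1 + b) =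
        ENNReal.ofReal |Dt o (fun k => ext0 o (x k))| *
          ENNReal.ofReal |Dt o (fun k => ext0 o (x k))| ^ b := by
      rw [ENNReal.rpow_add _ _ _ ENNReal.ofReal_ne_top, ENNReal.rpow_one]
      rw [ne_eq, ENNReal.ofReal_eq_zero, not_le]
      exact abs_pos.2 hx
    rw [Gz, e1, e2, e3]
    by_cases hy : y ∈ Yreg o
    · rw [if_pos ⟨hx, hy⟩, Set.indicator_of_mem hy]
      ring
    · rw [if_neg (fun h => hy h.2), Set.indicator_of_notMem hy, mul_zero, mul_zero, zero_mul]
  rw [h1, lintegral_lintegral_swap]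
  · rw [Fint, ← lintegral_indicator (Yreg_measurable o)]
    refine lintegral_congr fun y => ?_
    have hm3 : Measurable fun x : Ix d → {l : Ix d // l ≠ o} → ℝ =>
        ENNReal.ofReal |Dt o (fun k => ext0 o (x k))| ^ (1 + b) *
          ∏ k, wt β (gp o (ext0 o (x k)) y) :=
      hDt.mul (Finset.measurable_prod _ fun k _ => hgp2 k y)
    rw [lintegral_const_mul _ hm3]
    by_cases hy : y ∈ Yreg o
    · rw [Set.indicator_of_mem hy, Set.indicator_of_mem hy]
      rfl
    · rw [Set.indicator_of_notMem hy, Set.indicator_of_notMem hy, zero_mul]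
  · apply Measurable.aemeasurable
    exact (hS.comp measurable_snd).mul ((hDt.comp measurable_fst).mul
      (Finset.measurable_prod _ fun k _ => hgp k))

end RP
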