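import Pool.Agent.H6.RP.A4
import Pool.Agent.H6.RP.A6
import Pool.Agent.H6.RP.A8c

/-! A9: `ET` is comparable with `n^D ∑_o Fint`.

Proof.  `D = ∑ d i = card (Ix d)`; for `I` with `D` elements fix `e_I : Ix d ≃ I`.  For `x` in general position (`gen`) `fac` writes
`Tfun` as a sum over `I` of `[Supp x I] h^a V^b`.  With `z = zz e_I x`, `x '' I = range (toLp ∘ z)`.  The points are affinely
independent (subfamily of `D+1` affinely independent points, `D + 1 ≤ n`), so by `norm_class` there is `o` with `Dt o z ≠ 0`,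
`Yof o z ∈ Yreg o`; for such `o`: `Supp ↔ OneSide` (`supp_iff`), `height`: `h = |y o| / ‖Nv‖` with `1 ≤ ‖Nv‖ ≤ m √D`, and
`kvol_bounds`: `c |Dt| ≤ V ≤ C |Dt|`; so `h^a V^b` is comparable (constants depending on `a, b, d`; both signs of `a`, `b`; also when `y o = 0`) with
`|y o|^a |Dt|^b`, i.e. `[Supp] h^a V^b ≤ C' ∑_o Gt a b o e_I x`, and `c' Gt a b o e_I x ≤ [Supp] h^a V^b` for every `o`.
Integrate (`Gt_split`, `Gz_lintegral`: all terms equal `Z^{-D} Fint`), and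
`(n/D)^D ≤ choose n D ≤ n^D`. -/

open MeasureTheory
open scoped ENNReal

namespace RP

variable {m : ℕ} {d : Fin m → ℕ} {β : Fin m → ℝ}

theorem A9_rpow (a : ℝ) {p q : ℝ} (hp : 0 < p) (hpq : p ≤ q) :
    ∃ c C : ℝ, 0 < c ∧ 0 < C ∧ ∀ t : ℝ, p ≤ t → t ≤ q → c ≤ t ^ a ∧ t ^ a ≤ C := by
  have hq : 0 < q := lt_of_lt_of_le hp hpq
  rcases le_total 0 a with ha | ha
  · refine ⟨p ^ a, q ^ a, Real.rpow_pos_of_pos hp a, Real.rpow_pos_of_pos hq a, ?_⟩
    intro t h1 h2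
    exact ⟨Real.rpow_le_rpow hp.le h1 ha, Real.rpow_le_rpow (hp.le.trans h1) h2 ha⟩
  · refine ⟨q ^ a, p ^ a, Real.rpow_pos_of_pos hq a, Real.rpow_pos_of_pos hp a, ?_⟩
    intro t h1 h2
    exact ⟨Real.rpow_le_rpow_of_nonpos (lt_of_lt_of_le hp h1) h2 ha,
      Real.rpow_le_rpow_of_nonpos hp h1 ha⟩

theorem A9_norm (o : Ix d) {y : Ix d → ℝ} (hy : y ∈ Yreg o) :
    1 ≤ Real.sqrt (∑ l, (Nv o y l) ^ 2) ∧
      Real.sqrt (∑ l, (Nv o y l) ^ 2) ≤ max 1 (Real.sqrt (m * d o.1)) := by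
  constructor
  · rw [Real.one_le_sqrt]
    have h1 := Finset.single_le_sum (f := fun l => (Nv o y l) ^ 2) (fun l _ => sq_nonneg _)
      (Finset.mem_univ o)
    have h2 : Nv o y o = 1 := by simp [Nv]
    simp only [h2] at h1
    linarith
  · refine le_max_of_le_right (Real.sqrt_le_sqrt ?_)
    have h1 : ∑ l, (Nv o y l) ^ 2 = ∑ i, bsq (Nv o y) i := by
      unfold bsq
      rw [Fintype.sum_sigma]
    have h2 : bsq (Nv o y) o.1 ≤ d o.1 := by
      unfold bsq
      calc ∑ j : Fin (d o.1), (Nv o y ⟨o.1, j⟩) ^ 2 ≤ ∑ j : Fin (d o.1), (1 : ℝ) := by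
            apply Finset.sum_le_sum
            intro j _
            have := hy.1 j
            nlinarith [abs_nonneg (Nv o y ⟨o.1, j⟩), sq_abs (Nv o y ⟨o.1, j⟩)]
        _ = d o.1 := by simp
    rw [h1]
    calc ∑ i, bsq (Nv o y) i ≤ ∑ i : Fin m, (d o.1 : ℝ) :=
          Finset.sum_le_sum fun i _ => (hy.2 i).trans h2
      _ = m * d o.1 := by simp

theorem A9_range {n : ℕ} {I : Finset (Fin n)} (e : Ix d ≃ I) (x : Fin n → Sp d) :
    Set.range (fun k : Ix d => (WithLp.toLp 2 (zz e x k) : Sp d)) = x '' (I : Set (Fin n)) := by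
  ext v
  constructor
  · rintro ⟨k, rfl⟩
    exact ⟨e k, (e k).2, rfl⟩
  · rintro ⟨i, hi, rfl⟩
    refine ⟨e.symm ⟨i, hi⟩, ?_⟩
    simp [zz]

theorem A9_vol (b c C : ℝ) (hc : 0 < c) (hC : 0 < C) :
    ∃ c' C' : ℝ, 0 < c' ∧ 0 < C' ∧ ∀ (t : ℝ) (V : ℝ≥0∞), 0 < t → ENNReal.ofReal (c * t) ≤ V →
      V ≤ ENNReal.ofReal (C * t) → ENNReal.ofReal c' * ENNReal.ofReal t ^ b ≤ V ^ b ∧
        V ^ b ≤ ENNReal.ofReal C' * ENNReal.ofReal t ^ b := by
  obtain ⟨c', C', hc', hC', h⟩ := A9_rpow b hc (le_max_left c C)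
  refine ⟨c', C', hc', hC', ?_⟩
  intro t V ht h1 h2
  have hVtop : V ≠ ⊤ := ne_top_of_le_ne_top ENNReal.ofReal_ne_top h2
  obtain ⟨v, hv⟩ : ∃ v : ℝ, v = V.toReal := ⟨_, rfl⟩
  have hV : V = ENNReal.ofReal v := by rw [hv, ENNReal.ofReal_toReal hVtop]
  have h3 : c * t ≤ v := by
    rw [hv]
    exact (ENNReal.ofReal_le_iff_le_toReal hVtop).1 h1
  have hv0 : 0 < v := lt_of_lt_of_le (by positivity) h3
  have h4 : v ≤ C * t := by
    rw [hV] at h2
    exact (ENNReal.ofReal_le_ofReal_iff (by positivity)).1 h2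
  have h5 : c ≤ v / t := by rw [le_div_iff₀ ht]; exact h3
  have h6 : v / t ≤ max c C := le_max_of_le_right (by rw [div_le_iff₀ ht]; exact h4)
  obtain ⟨h7, h8⟩ := h (v / t) h5 h6
  have h9 : v ^ b = (v / t) ^ b * t ^ b := by
    rw [← Real.mul_rpow (by positivity) ht.le, div_mul_cancel₀ _ ht.ne']
  have htb : 0 < t ^ b := Real.rpow_pos_of_pos ht b
  rw [hV, ENNReal.ofReal_rpow_of_pos hv0, ENNReal.ofReal_rpow_of_pos ht,
    ← ENNReal.ofReal_mul hc'.le, ← ENNReal.ofReal_mul hC'.le, h9]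
  exact ⟨ENNReal.ofReal_le_ofReal (mul_le_mul_of_nonneg_right h7 htb.le),
    ENNReal.ofReal_le_ofReal (mul_le_mul_of_nonneg_right h8 htb.le)⟩

theorem A9_height (a R : ℝ) (hR : 1 ≤ R) :
    ∃ c' C' : ℝ, 0 < c' ∧ 0 < C' ∧ ∀ (t s : ℝ), 0 ≤ t → 1 ≤ s → s ≤ R →
      ENNReal.ofReal c' * ENNReal.ofReal t ^ a ≤ ENNReal.ofReal (t / s) ^ a ∧
        ENNReal.ofReal (t / s) ^ a ≤ ENNReal.ofReal C' * ENNReal.ofReal t ^ a := by
  have hR0 : 0 < R := lt_of_lt_of_le one_pos hR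
  obtain ⟨c', C', hc', hC', h⟩ := A9_rpow a (p := 1 / R) (q := 1) (by positivity)
    (by rw [div_le_one hR0]; exact hR)
  refine ⟨c', C', hc', hC', ?_⟩
  intro t s ht hs1 hs2
  have hs0 : 0 < s := lt_of_lt_of_le one_pos hs1
  obtain ⟨h7, h8⟩ := h (1 / s) (one_div_le_one_div_of_le hs0 hs2) (by rw [div_le_one hs0]; exact hs1)
  have h9 : ENNReal.ofReal (t / s) ^ a = ENNReal.ofReal ((1 / s) ^ a) * ENNReal.ofReal t ^ a := by
    rw [← ENNReal.ofReal_rpow_of_pos (by positivity),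
      ← ENNReal.mul_rpow_of_ne_top ENNReal.ofReal_ne_top ENNReal.ofReal_ne_top,
      ← ENNReal.ofReal_mul (by positivity)]
    congr 2
    ring
  rw [h9]
  exact ⟨mul_le_mul_left (ENNReal.ofReal_le_ofReal h7) _, mul_le_mul_left (ENNReal.ofReal_le_ofReal h8) _⟩

/-- comparison of one facet term -/
theorem A9_key (a b : ℝ) (o : Ix d) :
    ∃ c C : ℝ, 0 < c ∧ 0 < C ∧ ∀ (n : ℕ) (x : Fin n → Sp d) (I : Finset (Fin n)) (e : Ix d ≃ I),
      Dt o (zz e x) ≠ 0 → Yof o (zz e x) ∈ Yreg o →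
      ENNReal.ofReal c *
          (ENNReal.ofReal |Yof o (zz e x) o| ^ a * ENNReal.ofReal |Dt o (zz e x)| ^ b) ≤
        ENNReal.ofReal (Metric.infDist 0 (affineSpan ℝ (x '' (I : Set (Fin n))) : Set (Sp d))) ^ a *
            (kvol ((∑ i, d i) - 1) (convexHull ℝ (x '' (I : Set (Fin n))))) ^ b ∧
        ENNReal.ofReal (Metric.infDist 0 (affineSpan ℝ (x '' (I : Set (Fin n))) : Set (Sp d))) ^ a *
            (kvol ((∑ i, d i) - 1) (convexHull ℝ (x '' (I : Set (Fin n))))) ^ b ≤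
        ENNReal.ofReal C *
          (ENNReal.ofReal |Yof o (zz e x) o| ^ a * ENNReal.ofReal |Dt o (zz e x)| ^ b) := by
  obtain ⟨c, C, hc, hC, hvol⟩ := kvol_bounds o
  obtain ⟨c1, C1, hc1, hC1, h1⟩ := A9_vol b c C hc hC
  obtain ⟨c2, C2, hc2, hC2, h2⟩ := A9_height a (max 1 (Real.sqrt (m * d o.1))) (le_max_left _ _)
  refine ⟨c2 * c1, C2 * C1, by positivity, by positivity, ?_⟩
  intro n x I e hD hY
  obtain ⟨h3, h4⟩ := hvol (zz e x) hD hY
  obtain ⟨h5, h6⟩ := h1 _ _ (abs_pos.2 hD) h3 h4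
  have h7 := height o (zz e x) hD
  obtain ⟨h8, h9⟩ := A9_norm o hY
  obtain ⟨h10, h11⟩ := h2 |Yof o (zz e x) o| _ (abs_nonneg _) h8 h9
  rw [← h7] at h10 h11
  rw [A9_range e x] at h5 h6 h10 h11
  rw [ENNReal.ofReal_mul hc2.le, ENNReal.ofReal_mul hC2.le]
  constructor
  · calc _ = (ENNReal.ofReal c2 * ENNReal.ofReal |Yof o (zz e x) o| ^ a) *
          (ENNReal.ofReal c1 * ENNReal.ofReal |Dt o (zz e x)| ^ b) := by ring
      _ ≤ _ := mul_le_mul' h10 h5
  · calc _ ≤ (ENNReal.ofReal C2 * ENNReal.ofReal |Yof o (zz e x) o| ^ a) *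
          (ENNReal.ofReal C1 * ENNReal.ofReal |Dt o (zz e x)| ^ b) := mul_le_mul' h11 h6
      _ = _ := by ring

theorem A9_class (hD : 1 ≤ ∑ i, d i) {n : ℕ} (hn : (∑ i, d i) + 1 ≤ n) (x : Fin n → Sp d)
    (hx : GP x) {I : Finset (Fin n)} (e : Ix d ≃ I) :
    ∃ o : Ix d, Dt o (zz e x) ≠ 0 ∧ Yof o (zz e x) ∈ Yreg o := by
  apply norm_class hD
  have hcard : I.card = ∑ i, d i := by
    have h1 : Fintype.card (Ix d) = ∑ i, d i := by simp [Ix, Fintype.card_sigma]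
    have h2 := Fintype.card_congr e
    rw [Fintype.card_coe] at h2
    omega
  obtain ⟨s, hIs, hs⟩ := Finset.exists_superset_card_eq (s := I) (n := (∑ i, d i) + 1)
    (by omega) (by rw [Fintype.card_fin]; exact hn)
  have h3 := hx s hs
  let f : Ix d ↪ s := ⟨fun k => ⟨e k, hIs (e k).2⟩, fun k l hkl => by
    apply e.injective
    apply Subtype.ext
    exact congrArg (fun t : s => (t : Fin n)) hkl⟩
  exact h3.comp_embedding f

/-- the fixed bijections -/
noncomputable def A9_e {n : ℕ} (I : Finset (Fin n)) (h : I.card = ∑ i, d i) : Ix d ≃ I :=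
  Fintype.equivOfCardEq (by
    rw [Fintype.card_coe, h]; simp [Ix, Fintype.card_sigma])

open Classical in
theorem A9_lintegral (hβ : ∀ i, 0 ≤ β i) (hD : 1 ≤ ∑ i, d i) (a b : ℝ) (o : Ix d) {n : ℕ}
    (hn : (∑ i, d i) + 1 ≤ n) (K : ℝ≥0∞) :
    ∫⁻ x, ∑ I ∈ (Finset.univ : Finset (Fin n)).powersetCard (∑ i, d i),
        (if h : I.card = ∑ i, d i then K * Gt a b o (A9_e I h) x else 0)
        ∂(Measure.pi fun _ : Fin n => blockBeta d β) =
      (n.choose (∑ i, d i) : ℝ≥0∞) * (K * (((∫⁻ x : Ix d → ℝ, wt β x)⁻¹) ^ (∑ i, d i) *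
        Fint β a b n o)) := by
  rw [lintegral_finsetSum]
  · rw [Finset.sum_congr rfl (g := fun _ => K * (((∫⁻ x : Ix d → ℝ, wt β x)⁻¹) ^ (∑ i, d i) *
        Fint β a b n o))]
    · rw [Finset.sum_const, Finset.card_powersetCard, Finset.card_univ, Fintype.card_fin,
        nsmul_eq_mul]
    · intro I hI
      have h := (Finset.mem_powersetCard.1 hI).2
      simp only [dif_pos h]
      rw [lintegral_const_mul _ (Gt_measurable a b o _), Gt_split hβ a b o hn,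
        Gz_lintegral hβ hD a b o hn]
  · intro I _
    by_cases h : I.card = ∑ i, d i
    · simp only [dif_pos h]
      exact (Gt_measurable a b o _).const_mul K
    · simp only [dif_neg h]
      exact measurable_const

theorem star_upper (hβ : ∀ i, 0 ≤ β i) (hD : 1 ≤ ∑ i, d i) (a b : ℝ) :
    ∃ C : ℝ, 0 < C ∧ ∀ n : ℕ, (∑ i, d i) + 1 ≤ n →
      ET d β a b n ≤ ENNReal.ofReal (C * (n : ℝ) ^ (∑ i, d i)) * ∑ o : Ix d, Fint β a b n o := by
  classical
  choose c C hc hC hkey using fun o : Ix d => A9_key a b o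
  set CC : ℝ := 1 + ∑ o, C o with hCC
  have hCC0 : 0 < CC := by
    have : 0 ≤ ∑ o, C o := Finset.sum_nonneg fun o _ => (hC o).le
    linarith
  have hCle : ∀ o, C o ≤ CC := by
    intro o
    have := Finset.single_le_sum (f := C) (fun o _ => (hC o).le) (Finset.mem_univ o)
    linarith
  set W : ℝ≥0∞ := ((∫⁻ x : Ix d → ℝ, wt β x)⁻¹) ^ (∑ i, d i) with hW
  have hWtop : W ≠ ⊤ := by
    rw [hW]
    exact ENNReal.pow_ne_top (ENNReal.inv_ne_top.2 (wt_lintegral_pos hβ).ne')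
  have hW0 : W ≠ 0 := by
    rw [hW]
    exact pow_ne_zero _ (ENNReal.inv_ne_zero.2 (wt_lintegral_lt_top hβ).ne)
  have hWpos : 0 < W.toReal := ENNReal.toReal_pos hW0 hWtop
  refine ⟨CC * W.toReal, by positivity, ?_⟩
  intro n hn
  have hstep : ET d β a b n ≤ ∫⁻ x, ∑ o : Ix d,
      ∑ I ∈ (Finset.univ : Finset (Fin n)).powersetCard (∑ i, d i),
        (if h : I.card = ∑ i, d i then ENNReal.ofReal CC * Gt a b o (A9_e I h) x else 0)
        ∂(Measure.pi fun _ : Fin n => blockBeta d β) := by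
    unfold ET
    refine lintegral_mono_ae ?_
    filter_upwards [gen hβ hD n] with x hx
    rw [fac hD a b hn x hx, Finset.sum_comm]
    refine Finset.sum_le_sum fun I hI => ?_
    have h := (Finset.mem_powersetCard.1 hI).2
    simp only [dif_pos h]
    obtain ⟨o, ho1, ho2⟩ := A9_class hD hn x hx (A9_e I h)
    split_ifs with hS
    · have h1 := (hkey o n x I (A9_e I h) ho1 ho2).2
      have h2 : OneSide I o (Yof o (zz (A9_e I h) x)) x := (supp_iff x I (A9_e I h) o ho1).1 hS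
      have h3 : Gt a b o (A9_e I h) x = ENNReal.ofReal |Yof o (zz (A9_e I h) x) o| ^ a *
          ENNReal.ofReal |Dt o (zz (A9_e I h) x)| ^ b := by
        unfold Gt
        rw [if_pos ⟨ho1, ho2, h2⟩]
      rw [← h3] at h1
      refine h1.trans ?_
      refine le_trans ?_ (Finset.single_le_sum
        (f := fun o => ENNReal.ofReal CC * Gt a b o (A9_e I h) x) (fun _ _ => zero_le)
        (Finset.mem_univ o))
      exact mul_le_mul_left (ENNReal.ofReal_le_ofReal (hCle o)) _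
    · exact zero_le
  refine hstep.trans ?_
  rw [lintegral_finsetSum]
  · rw [Finset.sum_congr rfl fun o _ => A9_lintegral hβ hD a b o hn (ENNReal.ofReal CC)]
    rw [Finset.mul_sum]
    refine Finset.sum_le_sum fun o _ => ?_
    rw [← hW]
    have h1 : (n.choose (∑ i, d i) : ℝ≥0∞) ≤ ENNReal.ofReal ((n : ℝ) ^ (∑ i, d i)) := by
      rw [ENNReal.ofReal_pow (Nat.cast_nonneg n), ENNReal.ofReal_natCast]
      exact_mod_cast Nat.choose_le_pow n (∑ i, d i)
    calc (n.choose (∑ i, d i) : ℝ≥0∞) * (ENNReal.ofReal CC * (W * Fint β a b n o))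
        ≤ ENNReal.ofReal ((n : ℝ) ^ (∑ i, d i)) * (ENNReal.ofReal CC * (W * Fint β a b n o)) :=
          mul_le_mul_left h1 _
      _ = ENNReal.ofReal (CC * W.toReal * (n : ℝ) ^ (∑ i, d i)) * Fint β a b n o := by
          rw [ENNReal.ofReal_mul (by positivity), ENNReal.ofReal_mul hCC0.le,
            ENNReal.ofReal_toReal hWtop]
          ring
  · intro o _
    refine Finset.measurable_sum _ fun I _ => ?_
    by_cases h : I.card = ∑ i, d i
    · simp only [dif_pos h]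
      exact (Gt_measurable a b o _).const_mul _
    · simp only [dif_neg h]
      exact measurable_const

theorem star_lower (hβ : ∀ i, 0 ≤ β i) (hD : 1 ≤ ∑ i, d i) (a b : ℝ) (o : Ix d) :
    ∃ c : ℝ, 0 < c ∧ ∀ n : ℕ, (∑ i, d i) + 1 ≤ n →
      ENNReal.ofReal (c * (n : ℝ) ^ (∑ i, d i)) * Fint β a b n o ≤ ET d β a b n := by
  classical
  obtain ⟨c, C, hc, hC, hkey⟩ := A9_key a b o
  set W : ℝ≥0∞ := ((∫⁻ x : Ix d → ℝ, wt β x)⁻¹) ^ (∑ i, d i) with hW
  have hWtop : W ≠ ⊤ := by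
    rw [hW]
    exact ENNReal.pow_ne_top (ENNReal.inv_ne_top.2 (wt_lintegral_pos hβ).ne')
  have hW0 : W ≠ 0 := by
    rw [hW]
    exact pow_ne_zero _ (ENNReal.inv_ne_zero.2 (wt_lintegral_lt_top hβ).ne)
  have hWpos : 0 < W.toReal := ENNReal.toReal_pos hW0 hWtop
  set D : ℕ := ∑ i, d i with hDdef
  set L : ℝ := 1 / ((D : ℝ) ^ D * (Nat.factorial D : ℝ)) with hL
  have hDpos : (0 : ℝ) < D := by exact_mod_cast hD
  have hLpos : 0 < L := by positivity
  refine ⟨L * (c * W.toReal), by positivity, ?_⟩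
  intro n hn
  have hstep : ∫⁻ x, ∑ I ∈ (Finset.univ : Finset (Fin n)).powersetCard (∑ i, d i),
        (if h : I.card = ∑ i, d i then ENNReal.ofReal c * Gt a b o (A9_e I h) x else 0)
        ∂(Measure.pi fun _ : Fin n => blockBeta d β) ≤ ET d β a b n := by
    unfold ET
    refine lintegral_mono_ae ?_
    filter_upwards [gen hβ hD n] with x hx
    rw [fac hD a b hn x hx]
    refine Finset.sum_le_sum fun I hI => ?_
    have h := (Finset.mem_powersetCard.1 hI).2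
    simp only [dif_pos h]
    by_cases hcond : Dt o (zz (A9_e I h) x) ≠ 0 ∧ Yof o (zz (A9_e I h) x) ∈ Yreg o ∧
        OneSide I o (Yof o (zz (A9_e I h) x)) x
    · have hS : Supp x I := (supp_iff x I (A9_e I h) o hcond.1).2 hcond.2.2
      rw [if_pos hS]
      have h3 : Gt a b o (A9_e I h) x = ENNReal.ofReal |Yof o (zz (A9_e I h) x) o| ^ a *
          ENNReal.ofReal |Dt o (zz (A9_e I h) x)| ^ b := by
        unfold Gt
        rw [if_pos hcond]
      rw [h3]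
      exact (hkey n x I (A9_e I h) hcond.1 hcond.2.1).1
    · have h3 : Gt a b o (A9_e I h) x = 0 := by
        unfold Gt
        rw [if_neg hcond]
      rw [h3, mul_zero]
      exact zero_le
  refine le_trans ?_ hstep
  rw [A9_lintegral hβ hD a b o hn (ENNReal.ofReal c), ← hW]
  have h1 : ENNReal.ofReal (L * (n : ℝ) ^ D) ≤ (n.choose D : ℝ≥0∞) := by
    rw [← ENNReal.ofReal_natCast]
    apply ENNReal.ofReal_le_ofReal
    refine le_trans ?_ (Nat.pow_le_choose D n)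
    have h2 : (n : ℝ) / D ≤ ((n + 1 - D : ℕ) : ℝ) := by
      rw [div_le_iff₀ hDpos]
      have h3 : n ≤ (n + 1 - D) * D := by
        obtain ⟨k, rfl⟩ : ∃ k, n = D + k := ⟨n - D, by omega⟩
        have h4 : D + k + 1 - D = k + 1 := by omega
        rw [h4]
        nlinarith
      exact_mod_cast h3
    rw [hL]
    have h5 : ((n : ℝ) / D) ^ D ≤ ((n + 1 - D : ℕ) : ℝ) ^ D :=
      pow_le_pow_left₀ (by positivity) h2 D
    rw [div_pow] at h5
    have h6 : (1 : ℝ) / ((D : ℝ) ^ D * (Nat.factorial D : ℝ)) * (n : ℝ) ^ D =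
        ((n : ℝ) ^ D / (D : ℝ) ^ D) / (Nat.factorial D : ℝ) := by
      field_simp
    rw [h6]
    exact div_le_div_of_nonneg_right h5 (by positivity)
  calc ENNReal.ofReal (L * (c * W.toReal) * (n : ℝ) ^ D) * Fint β a b n o
      = ENNReal.ofReal (L * (n : ℝ) ^ D) * (ENNReal.ofReal c * (W * Fint β a b n o)) := by
        rw [show L * (c * W.toReal) * (n : ℝ) ^ D = (L * (n : ℝ) ^ D) * (c * W.toReal) by ring,
          ENNReal.ofReal_mul (by positivity), ENNReal.ofReal_mul hc.le, ENNReal.ofReal_toReal hWtop]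
        ring
    _ ≤ _ := mul_le_mul_left h1 _

end RP
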