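import Pool.Agent.H6.RP.Core

/-! B1: block rotations.

Proof.  For one block of dimension `k ≥ 1` and `u ∈ ℝ^k` there is a linear isometry `R` of `ℝ^k` with
`dotProduct u (R x) = ‖u‖ x_0` (i.e. `R e_0 = u/‖u‖`: identity if `u = 0`; otherwise e.g. the reflection
`x ↦ x - 2 ⟨x, v⟩ v / ‖v‖²`, `v = u/‖u‖ - e_0`, or the identity if `v = 0`).  Determinant `±1` (isometries preserve volume), it preserves
`∑ x_l²`.  Do this in every block (`rot`), respectively in every block except `o.1` (`rot'`, identity on the remaining coordinates of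
the block `o.1`): block diagonal maps, e.g. composition over the blocks of the maps which act on one block only. -/

open MeasureTheory
open scoped ENNReal

namespace RP

variable {m : ℕ} {d : Fin m → ℕ} {β : Fin m → ℝ}

/-- Householder reflection in one block. -/
theorem rot1 (k : ℕ) (hk : 0 < k) (u : Fin k → ℝ) : ∃ R : (Fin k → ℝ) →ₗ[ℝ] (Fin k → ℝ), (∀ x, R (R x) = x) ∧
    (∀ x, ∑ j, (R x j) ^ 2 = ∑ j, (x j) ^ 2) ∧ ∀ x, ∑ j, u j * R x j = Real.sqrt (∑ j, (u j) ^ 2) * x ⟨0, hk⟩ := by
  have hsq : ∀ w : Fin k → ℝ, ∑ j, (w j) ^ 2 = dotProduct w w := by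
    intro w; simp only [dotProduct, sq]
  have hdp : ∀ w w' : Fin k → ℝ, ∑ j, w j * w' j = dotProduct w w' := fun _ _ => rfl
  simp only [hsq, hdp]
  set s : ℝ := Real.sqrt (dotProduct u u) with hs
  have hs2 : s * s = dotProduct u u := Real.mul_self_sqrt (by
    rw [← hsq]; exact Finset.sum_nonneg fun _ _ => sq_nonneg _)
  set e : Fin k → ℝ := Pi.single ⟨0, hk⟩ 1 with he
  have hee : dotProduct e e = 1 := by simp [he]
  have hex : ∀ x : Fin k → ℝ, dotProduct e x = x ⟨0, hk⟩ := by intro x; simp [he]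
  set v : Fin k → ℝ := u - s • e with hv
  have hvv : dotProduct v v = 2 * dotProduct v u := by
    have h1 : dotProduct u e = dotProduct e u := dotProduct_comm _ _
    simp only [hv, dotProduct_sub, sub_dotProduct, smul_dotProduct, dotProduct_smul, smul_eq_mul, hee, h1]
    rw [← hs2]; ring
  let R : (Fin k → ℝ) →ₗ[ℝ] (Fin k → ℝ) :=
    { toFun := fun x => x - (2 * dotProduct v x / dotProduct v v) • v
      map_add' := by
        intro x y
        rw [dotProduct_add]
        ext j
        simp only [Pi.sub_apply, Pi.add_apply, Pi.smul_apply, smul_eq_mul]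
        ring
      map_smul' := by
        intro c x
        rw [dotProduct_smul]
        ext j
        simp only [Pi.sub_apply, Pi.smul_apply, smul_eq_mul, RingHom.id_apply]
        ring }
  have hR : ∀ x, R x = x - (2 * dotProduct v x / dotProduct v v) • v := fun x => rfl
  refine ⟨R, ?_, ?_, ?_⟩
  · intro x
    by_cases h0 : dotProduct v v = 0
    · simp [hR, h0]
    · have h1 : dotProduct v (R x) = - dotProduct v x := by
        rw [hR, dotProduct_sub, dotProduct_smul, smul_eq_mul, div_mul_cancel₀ _ h0]; ring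
      rw [hR (R x), h1, hR x]
      ext j
      simp only [Pi.sub_apply, Pi.smul_apply, smul_eq_mul]
      ring
  · intro x
    by_cases h0 : dotProduct v v = 0
    · simp [hR, h0]
    · have h1 : dotProduct x v = dotProduct v x := dotProduct_comm _ _
      simp only [hR, dotProduct_sub, sub_dotProduct, smul_dotProduct, dotProduct_smul, smul_eq_mul, h1]
      field_simp
      ring
  · intro x
    by_cases h0 : dotProduct v v = 0
    · have hv0 : v = 0 := dotProduct_self_eq_zero.mp h0
      have hu : u = s • e := by rwa [hv, sub_eq_zero] at hv0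
      rw [hR, h0, div_zero, zero_smul, sub_zero]
      conv_lhs => rw [hu]
      rw [smul_dotProduct, hex, smul_eq_mul]
    · have h1 : dotProduct u v = dotProduct v v / 2 := by rw [dotProduct_comm, hvv]; ring
      rw [hR, dotProduct_sub, dotProduct_smul, h1, smul_eq_mul]
      have h2 : 2 * dotProduct v x / dotProduct v v * (dotProduct v v / 2) = dotProduct v x := by
        field_simp
      rw [h2, hv, sub_dotProduct, smul_dotProduct, hex, smul_eq_mul]
      ring

/-- A linear map which preserves the sum of squares has determinant `±1`. -/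
theorem det_of_sq {ι : Type*} [Fintype ι] [DecidableEq ι] (L : (ι → ℝ) →ₗ[ℝ] (ι → ℝ))
    (h : ∀ x, ∑ l, (L x l) ^ 2 = ∑ l, (x l) ^ 2) : |LinearMap.det L| = 1 := by
  have h1 : ∀ x y, dotProduct (L x) (L y) = dotProduct x y := by
    intro x y
    have hsq : ∀ w : ι → ℝ, ∑ j, (w j) ^ 2 = dotProduct w w := by
      intro w; simp only [dotProduct, sq]
    simp only [hsq] at h
    have h2 := h (x + y)
    rw [map_add] at h2
    simp only [add_dotProduct, dotProduct_add] at h2
    rw [h x, h y, dotProduct_comm (L y) (L x), dotProduct_comm y x] at h2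
    linarith
  have h2 : (LinearMap.toMatrix' L).transpose * LinearMap.toMatrix' L = 1 := by
    ext i j
    have : ((LinearMap.toMatrix' L).transpose * LinearMap.toMatrix' L) i j =
        dotProduct (L (Pi.single i 1)) (L (Pi.single j 1)) := by
      simp only [Matrix.mul_apply, Matrix.transpose_apply, LinearMap.toMatrix'_apply, dotProduct]
    rw [this, h1]
    simp [Matrix.one_apply, Pi.single_apply, eq_comm]
  have h3 : LinearMap.det L * LinearMap.det L = 1 := by
    have := congrArg Matrix.det h2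
    rw [Matrix.det_mul, Matrix.det_transpose, Matrix.det_one, LinearMap.det_toMatrix'] at this
    exact this
  have h4 : |LinearMap.det L| * |LinearMap.det L| = 1 := by rw [← abs_mul, h3, abs_one]
  nlinarith [abs_nonneg (LinearMap.det L)]

theorem mp_of_det {ι : Type*} [Fintype ι] [DecidableEq ι] (L : (ι → ℝ) →ₗ[ℝ] (ι → ℝ))
    (h : |LinearMap.det L| = 1) : MeasurePreserving L volume volume := by
  have h0 : LinearMap.det L ≠ 0 := by
    intro h'; rw [h'] at h; simp at h
  refine ⟨(LinearMap.continuous_of_finiteDimensional L).measurable, ?_⟩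
  rw [Real.map_linearMap_volume_pi_eq_smul_volume_pi h0, abs_inv, h]
  simp

theorem rot (hd : ∀ i, 1 ≤ d i) (N : Ix d → ℝ) :
    ∃ R : (Ix d → ℝ) ≃ₗ[ℝ] (Ix d → ℝ), MeasurePreserving R volume volume ∧ (∀ x i, bsq (R x) i = bsq x i) ∧
      ∀ x, dotProduct N (R x) = ∑ i, sN N i * x ⟨i, ⟨0, hd i⟩⟩ := by
  choose R hinv hsq hdot using fun i : Fin m => rot1 (d i) (hd i) (fun j => N ⟨i, j⟩)
  let F : (Ix d → ℝ) →ₗ[ℝ] (Ix d → ℝ) :=
    { toFun := fun x l => R l.1 (fun j => x ⟨l.1, j⟩) l.2
      map_add' := by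
        intro x y
        ext l
        have : (fun j => (x + y) ⟨l.1, j⟩) = (fun j => x ⟨l.1, j⟩) + (fun j => y ⟨l.1, j⟩) := rfl
        rw [this, map_add]
        rfl
      map_smul' := by
        intro c x
        ext l
        have : (fun j => (c • x) ⟨l.1, j⟩) = c • (fun j => x ⟨l.1, j⟩) := rfl
        rw [this, map_smul]
        rfl }
  have hF : ∀ x i j, F x ⟨i, j⟩ = R i (fun j => x ⟨i, j⟩) j := fun _ _ _ => rfl
  have hFinv : Function.Involutive F := by
    intro x
    ext ⟨i, j⟩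
    rw [hF]
    have : (fun j => F x ⟨i, j⟩) = R i (fun j => x ⟨i, j⟩) := by
      funext j; rw [hF]
    rw [this, hinv]
  have hb : ∀ x i, bsq (F x) i = bsq x i := by
    intro x i
    unfold bsq
    simp only [hF]
    exact hsq i _
  have hdet : |LinearMap.det F| = 1 := by
    apply det_of_sq
    intro x
    have : ∀ y : Ix d → ℝ, ∑ l, (y l) ^ 2 = ∑ i, bsq y i := by
      intro y
      rw [Fintype.sum_sigma]
      rfl
    rw [this, this]
    exact Finset.sum_congr rfl fun i _ => hb x i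
  refine ⟨LinearEquiv.ofInvolutive F hFinv, mp_of_det F hdet, hb, ?_⟩
  intro x
  have : ∀ y : Ix d → ℝ, dotProduct N y = ∑ i, ∑ j, N ⟨i, j⟩ * y ⟨i, j⟩ := by
    intro y
    unfold dotProduct
    rw [Fintype.sum_sigma]
  rw [this]
  refine Finset.sum_congr rfl fun i _ => ?_
  exact hdot i (fun j => x ⟨i, j⟩)

theorem rot' (hd : ∀ i, 1 ≤ d i) (o : Ix d) (N : Ix d → ℝ) :
    ∃ R : ({l : Ix d // l ≠ o} → ℝ) ≃ₗ[ℝ] ({l : Ix d // l ≠ o} → ℝ),
      |LinearMap.det (R : ({l : Ix d // l ≠ o} → ℝ) →ₗ[ℝ] ({l : Ix d // l ≠ o} → ℝ))| = 1 ∧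
      (∀ x i, i ≠ o.1 → bsq (ext0 o (R x)) i = bsq (ext0 o x) i ∧
        ∑ j, N ⟨i, j⟩ * ext0 o (R x) ⟨i, j⟩ = sN N i * ext0 o x ⟨i, ⟨0, hd i⟩⟩) ∧
      ∀ x j, ext0 o (R x) ⟨o.1, j⟩ = ext0 o x ⟨o.1, j⟩ := by
  classical
  choose R hinv hsq hdot using fun i : Fin m => rot1 (d i) (hd i) (fun j => N ⟨i, j⟩)
  have hadd : ∀ x y : {l : Ix d // l ≠ o} → ℝ, ext0 o (x + y) = ext0 o x + ext0 o y := by
    intro x y
    ext l
    by_cases h : l = o <;> simp [ext0, h]
  have hsmul : ∀ (c : ℝ) (x : {l : Ix d // l ≠ o} → ℝ), ext0 o (c • x) = c • ext0 o x := by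
    intro c x
    ext l
    by_cases h : l = o <;> simp [ext0, h]
  let F : ({l : Ix d // l ≠ o} → ℝ) →ₗ[ℝ] ({l : Ix d // l ≠ o} → ℝ) :=
    { toFun := fun x l => if l.1.1 = o.1 then x l else R l.1.1 (fun j => ext0 o x ⟨l.1.1, j⟩) l.1.2
      map_add' := by
        intro x y
        ext l
        have : (fun j => ext0 o (x + y) ⟨l.1.1, j⟩) = (fun j => ext0 o x ⟨l.1.1, j⟩) + (fun j => ext0 o y ⟨l.1.1, j⟩) := by
          rw [hadd]; rfl
        rw [this, map_add]
        by_cases h : l.1.1 = o.1 <;> simp [h]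
      map_smul' := by
        intro c x
        ext l
        have : (fun j => ext0 o (c • x) ⟨l.1.1, j⟩) = c • (fun j => ext0 o x ⟨l.1.1, j⟩) := by
          rw [hsmul]; rfl
        rw [this, map_smul]
        by_cases h : l.1.1 = o.1 <;> simp [h] }
  have hne : ∀ (i : Fin m) (j : Fin (d i)), i ≠ o.1 → (⟨i, j⟩ : Ix d) ≠ o := by
    intro i j hi h
    exact hi (congrArg Sigma.fst h)
  have hF : ∀ x i j, i ≠ o.1 → ext0 o (F x) ⟨i, j⟩ = R i (fun j => ext0 o x ⟨i, j⟩) j := by
    intro x i j hi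
    have h1 : ext0 o (F x) ⟨i, j⟩ = F x ⟨⟨i, j⟩, hne i j hi⟩ := by simp only [ext0, hne i j hi, dif_neg, not_false_iff]
    rw [h1]
    exact if_neg hi
  have hFo : ∀ x j, ext0 o (F x) ⟨o.1, j⟩ = ext0 o x ⟨o.1, j⟩ := by
    intro x j
    by_cases h : (⟨o.1, j⟩ : Ix d) = o
    · simp only [ext0, h, dif_pos]
    · simp only [ext0, h, dif_neg, not_false_iff]
      exact if_pos rfl
  have hFinv : Function.Involutive F := by
    intro x
    ext ⟨⟨i, j⟩, h⟩
    have h1 : ∀ y : {l : Ix d // l ≠ o} → ℝ, y ⟨⟨i, j⟩, h⟩ = ext0 o y ⟨i, j⟩ := by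
      intro y
      simp only [ext0, h, dif_neg, not_false_iff]
    rw [h1 (F (F x)), h1 x]
    by_cases hi : i = o.1
    · subst hi
      rw [hFo, hFo]
    · rw [hF _ _ _ hi]
      have : (fun j => ext0 o (F x) ⟨i, j⟩) = R i (fun j => ext0 o x ⟨i, j⟩) := by
        funext j; rw [hF _ _ _ hi]
      rw [this, hinv]
  have hb : ∀ x i, i ≠ o.1 → bsq (ext0 o (F x)) i = bsq (ext0 o x) i := by
    intro x i hi
    unfold bsq
    simp only [hF x i _ hi]
    exact hsq i _
  have hdet : |LinearMap.det F| = 1 := by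
    apply det_of_sq
    intro x
    have : ∀ y : {l : Ix d // l ≠ o} → ℝ, ∑ l, (y l) ^ 2 = ∑ i, bsq (ext0 o y) i := by
      intro y
      have h1 : ∑ i, bsq (ext0 o y) i = ∑ l : Ix d, (ext0 o y l) ^ 2 := by
        rw [Fintype.sum_sigma]
        rfl
      have h2 : ext0 o y o = 0 := by simp [ext0]
      rw [h1, ← Finset.add_sum_erase _ _ (Finset.mem_univ o), h2, zero_pow two_ne_zero, zero_add,
        Finset.sum_subtype (Finset.univ.erase o) (p := fun l => l ≠ o) (by simp)]
      refine Finset.sum_congr rfl fun l _ => ?_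
      simp only [ext0, l.2, dif_neg, not_false_iff, Subtype.coe_eta]
    rw [this, this]
    refine Finset.sum_congr rfl fun i _ => ?_
    by_cases hi : i = o.1
    · subst hi
      unfold bsq
      simp only [hFo]
    · exact hb x i hi
  refine ⟨LinearEquiv.ofInvolutive F hFinv, hdet, ?_, hFo⟩
  intro x i hi
  refine ⟨hb x i hi, ?_⟩
  have h1 : ∀ j, ext0 o ((LinearEquiv.ofInvolutive F hFinv) x) ⟨i, j⟩ = R i (fun j => ext0 o x ⟨i, j⟩) j :=
    fun j => hF x i j hi
  simp only [h1]
  exact hdot i (fun j => ext0 o x ⟨i, j⟩)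

end RP
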