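import Pool.Agent.H6.RP.A7

/-! B12: scaling of the determinant integral under affine maps.

Proof.  `A u = v + L u`.  `Dt o (ext0 (A x_k)) = ± ... `: precisely `Mt o (ext0 ∘ A ∘ x) = Mt o (ext0 ∘ x) * P` with the square matrix `P`
which has column `o` equal to the unit vector `e_o`, and for `l ≠ o` column `l` = (`v l` at row `o`, `L`-matrix entry at the
rows `≠ o`); `det P = det L` (expand along column `o`).  So `|Dt (A x)| = |det L| |Dt x|`.  The map `x ↦ (A (x k))_k` of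
`ι → {l // l ≠ o} → ℝ` scales `volume` by `|det L|^{card ι}` (product measure of `Measure.map` of `volume` under an affine isomorphism:
`Measure.addHaar_image_linearMap`, `MeasureTheory.measurePreserving..`, or `volume_pi` and `Measure.pi_map`). -/

open MeasureTheory
open scoped ENNReal

namespace RP

/-- the matrix `P` -/
noncomputable def B12_P {ι : Type} [Fintype ι] [DecidableEq ι] (o : ι)
    (L : ({l : ι // l ≠ o} → ℝ) →ₗ[ℝ] ({l : ι // l ≠ o} → ℝ)) (v : {l : ι // l ≠ o} → ℝ) :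
    Matrix ι ι ℝ := fun i l =>
  if h : l = o then (if i = o then 1 else 0)
  else if h' : i = o then v ⟨l, h⟩ else LinearMap.toMatrix' L ⟨l, h⟩ ⟨i, h'⟩

theorem B12_mul {ι : Type} [Fintype ι] [DecidableEq ι] (o : ι)
    (L : ({l : ι // l ≠ o} → ℝ) →ₗ[ℝ] ({l : ι // l ≠ o} → ℝ)) (v : {l : ι // l ≠ o} → ℝ)
    (x : ι → {l : ι // l ≠ o} → ℝ) :
    Mt o (fun k => ext0 o (v + L (x k))) = Mt o (fun k => ext0 o (x k)) * B12_P o L v := by
  ext k l
  rw [Matrix.mul_apply]
  by_cases hl : l = o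
  · subst hl
    simp [Mt, B12_P]
  · have h1 : L (x k) ⟨l, hl⟩ = ∑ i : {l : ι // l ≠ o}, LinearMap.toMatrix' L ⟨l, hl⟩ i * x k i := by
      conv_lhs => rw [← Matrix.toLin'_toMatrix' L]
      rw [Matrix.toLin'_apply]
      rfl
    have h2 : Mt o (fun k => ext0 o (v + L (x k))) k l = v ⟨l, hl⟩ + L (x k) ⟨l, hl⟩ := by
      simp [Mt, ext0, hl]
    rw [h2, h1, ← Finset.add_sum_erase _ _ (Finset.mem_univ o)]
    congr 1
    · simp [Mt, B12_P, hl]
    · have e : ∑ i ∈ Finset.univ.erase o, Mt o (fun k => ext0 o (x k)) k i * B12_P o L v i l =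
          ∑ i : {l : ι // l ≠ o}, Mt o (fun k => ext0 o (x k)) k i * B12_P o L v i l :=
        Finset.sum_subtype (Finset.univ.erase o) (by simp) _
      refine Eq.trans ?_ e.symm
      refine Finset.sum_congr rfl fun i _ => ?_
      obtain ⟨i, hi⟩ := i
      simp [Mt, B12_P, hl, hi, ext0]
      ring

theorem B12_det_inst {n : Type} (i1 i2 : Fintype n) (d1 d2 : DecidableEq n) (M : Matrix n n ℝ) :
    @Matrix.det n d1 i1 ℝ _ M = @Matrix.det n d2 i2 ℝ _ M := by
  obtain rfl : i1 = i2 := Subsingleton.elim _ _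
  obtain rfl : d1 = d2 := Subsingleton.elim _ _
  rfl

theorem B12_det {ι : Type} [Fintype ι] [DecidableEq ι] (o : ι)
    (L : ({l : ι // l ≠ o} → ℝ) →ₗ[ℝ] ({l : ι // l ≠ o} → ℝ)) (v : {l : ι // l ≠ o} → ℝ) :
    (B12_P o L v).det = LinearMap.det L := by
  rw [Matrix.twoBlockTriangular_det (B12_P o L v) (fun i => i = o) (by
    intro i hi j hj
    simp [B12_P, hi, hj])]
  have h1 : (Matrix.toSquareBlockProp (B12_P o L v) fun i => i = o).det = 1 := by
    haveI : Unique {i : ι // i = o} := ⟨⟨⟨o, rfl⟩⟩, fun a => Subtype.ext a.2⟩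
    rw [Matrix.det_unique]
    have : ((default : {i : ι // i = o}) : ι) = o := (default : {i : ι // i = o}).2
    simp [Matrix.toSquareBlockProp_def, B12_P, this]
  have h2 : (Matrix.toSquareBlockProp (B12_P o L v) fun i => ¬ i = o) =
      (LinearMap.toMatrix' L).transpose := by
    ext i j
    have hi : (i : ι) ≠ o := i.2
    have hj : (j : ι) ≠ o := j.2
    simp [Matrix.toSquareBlockProp_def, B12_P, hi, hj, Matrix.transpose_apply]
  have h3 : (Matrix.toSquareBlockProp (B12_P o L v) fun i => ¬ i = o).det = LinearMap.det L := by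
    rw [h2, Matrix.det_transpose, LinearMap.det_toMatrix']
  refine Eq.trans (congrArg₂ (· * ·) (?_ : _ = (1 : ℝ)) (?_ : _ = LinearMap.det L)) (one_mul _)
  · exact (B12_det_inst _ _ _ _ _).trans h1
  · exact (B12_det_inst _ _ _ _ _).trans h3

theorem Dt_affine (ι : Type) [Fintype ι] [DecidableEq ι] (o : ι)
    (L : ({l : ι // l ≠ o} → ℝ) →ₗ[ℝ] ({l : ι // l ≠ o} → ℝ)) (v : {l : ι // l ≠ o} → ℝ)
    (x : ι → {l : ι // l ≠ o} → ℝ) :
    Dt o (fun k => ext0 o (v + L (x k))) = LinearMap.det L * Dt o (fun k => ext0 o (x k)) := by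
  unfold Dt
  rw [B12_mul, Matrix.det_mul, B12_det, mul_comm]

theorem dt_scale (ι : Type) [Fintype ι] [DecidableEq ι] (o : ι)
    (L : ({l : ι // l ≠ o} → ℝ) ≃ₗ[ℝ] ({l : ι // l ≠ o} → ℝ)) (v : {l : ι // l ≠ o} → ℝ)
    (S : Set ({l : ι // l ≠ o} → ℝ)) (hS : MeasurableSet S) (s : ℝ) :
    ∫⁻ x in {x : ι → {l : ι // l ≠ o} → ℝ | ∀ k, x k ∈ (fun u => v + L u) '' S},
        ENNReal.ofReal |Dt o (fun k => ext0 o (x k))| ^ s =
      ENNReal.ofReal (|LinearMap.det (L : ({l : ι // l ≠ o} → ℝ) →ₗ[ℝ] ({l : ι // l ≠ o} → ℝ))| ^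
          ((Fintype.card ι : ℝ) + s)) *
        ∫⁻ x in {x : ι → {l : ι // l ≠ o} → ℝ | ∀ k, x k ∈ S}, ENNReal.ofReal |Dt o (fun k => ext0 o (x k))| ^ s := by
  classical
  let E := {l : ι // l ≠ o} → ℝ
  set D : ℝ := LinearMap.det (L : ({l : ι // l ≠ o} → ℝ) →ₗ[ℝ] ({l : ι // l ≠ o} → ℝ)) with hD
  have hD0 : D ≠ 0 := (LinearEquiv.isUnit_det' L).ne_zero
  let Lc : E →L[ℝ] E := LinearMap.toContinuousLinearMap (L : E →ₗ[ℝ] E)
  let Λ : (ι → E) →L[ℝ] (ι → E) := ContinuousLinearMap.pi fun k => Lc.comp (ContinuousLinearMap.proj k)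
  let Φ : (ι → E) → (ι → E) := fun x k => v + L (x k)
  have hΛdet : Λ.det = D ^ Fintype.card ι := by
    have h1 : Λ.det = ∏ _k : ι, Lc.det := ContinuousLinearMap.det_pi fun _ => Lc
    rw [h1, Finset.prod_const, Finset.card_univ]
    rfl
  have hΦ' : ∀ x, HasFDerivAt Φ Λ x := by
    intro x
    have h1 : Φ = fun x => (fun _ => v) + Λ x := by
      funext x k
      rfl
    rw [h1]
    exact Λ.hasFDerivAt.const_add _
  have hinj : Function.Injective Φ := by
    intro x y hxy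
    funext k
    have h1 : v + L (x k) = v + L (y k) := congrFun hxy k
    exact L.injective (add_left_cancel h1)
  have himg : {x : ι → E | ∀ k, x k ∈ (fun u => v + L u) '' S} = Φ '' {x : ι → E | ∀ k, x k ∈ S} := by
    ext x
    constructor
    · intro hx
      choose y hy hyx using hx
      exact ⟨y, hy, funext hyx⟩
    · rintro ⟨y, hy, rfl⟩ k
      exact ⟨y k, hy k, rfl⟩
  have hmeas : MeasurableSet {x : ι → E | ∀ k, x k ∈ S} := by
    have : {x : ι → E | ∀ k, x k ∈ S} = ⋂ k, (fun x : ι → E => x k) ⁻¹' S := by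
      ext x; simp
    rw [this]
    exact MeasurableSet.iInter fun k => (measurable_pi_apply k) hS
  rw [himg, lintegral_image_eq_lintegral_abs_det_fderiv_mul volume hmeas
    (fun x _ => (hΦ' x).hasFDerivWithinAt) hinj.injOn]
  have hpt : ∀ x : ι → E, ENNReal.ofReal |Λ.det| *
      ENNReal.ofReal |Dt o (fun k => ext0 o (Φ x k))| ^ s =
      ENNReal.ofReal (|D| ^ ((Fintype.card ι : ℝ) + s)) *
        ENNReal.ofReal |Dt o (fun k => ext0 o (x k))| ^ s := by
    intro x
    have h1 : Dt o (fun k => ext0 o (Φ x k)) = D * Dt o (fun k => ext0 o (x k)) :=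
      Dt_affine ι o (L : E →ₗ[ℝ] E) v x
    have hDp : 0 < |D| := abs_pos.2 hD0
    rw [h1, hΛdet, abs_mul, abs_pow, ENNReal.ofReal_mul (abs_nonneg _), Real.rpow_add hDp,
      Real.rpow_natCast, ENNReal.ofReal_mul (by positivity),
      ENNReal.mul_rpow_of_ne_top ENNReal.ofReal_ne_top ENNReal.ofReal_ne_top, mul_assoc,
      ENNReal.ofReal_rpow_of_pos hDp]
  simp_rw [hpt]
  rw [lintegral_const_mul' _ _ ENNReal.ofReal_ne_top]

end RP
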