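import Pool.Agent.H6.RP.A0
import Pool.Agent.H6.RP.B1

/-! B2: lower bound for the mass of caps.

Proof.  `t = tN N r > 0`, `s_i = sN N i`, `p_i = pN N r i = t / max s_i t ∈ (0, 1]`, `s_i p_i ≤ t`.  By `rot` (it preserves volume and
`wt`, hence `muw`) we may replace `dotProduct N x` by `∑ s_i x_{i,0}`.  Since `|r| = r = ∑ s_i - t`: `r < ∑ s_i x_{i0}` iff
`∑ s_i (1 - x_{i0}) < t`.  Box: `1 - x_{i0} ∈ [p_i/(4m), p_i/(2m)]`, `|x_{il}| ≤ ε √p_i` for `l ≥ 1` with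
`D ε² ≤ 1/(8m)`.  On it `∑ s_i (1 - x_{i0}) ≤ t/2 < t`, and
`1 - bsq x i ≥ (1 - x_{i0})(1 + x_{i0}) - D ε² p_i ≥ p_i/(4m) - p_i/(8m) = p_i/(8m) > 0`, so the box lies in the domain of `wt` and
`wt ≥ ∏ (p_i/(8m))^{β_i}`.  Volume of the box: `∏ (p_i/(4m)) (2ε√p_i)^{d_i - 1} = c ∏ p_i^{(d_i+1)/2}`. -/

open MeasureTheory
open scoped ENNReal

namespace RP

variable {m : ℕ} {d : Fin m → ℕ} {β : Fin m → ℝ}

theorem b2_p (N : Ix d → ℝ) (r : ℝ) (ht : 0 < tN N r) (i : Fin m) :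
    0 < pN N r i ∧ pN N r i ≤ 1 ∧ sN N i * pN N r i ≤ tN N r := by
  have h0 : 0 < max (sN N i) (tN N r) := lt_of_lt_of_le ht (le_max_right _ _)
  have hs : 0 ≤ sN N i := Real.sqrt_nonneg _
  unfold pN
  refine ⟨div_pos ht h0, (div_le_one h0).2 (le_max_right _ _), ?_⟩
  rw [← mul_div_assoc, div_le_iff₀ h0, mul_comm]
  exact mul_le_mul_of_nonneg_left (le_max_left _ _) ht.le

/-- the box -/
def b2_S (d : Fin m → ℕ) (hd : ∀ i, 1 ≤ d i) (p : Fin m → ℝ) (M ε : ℝ) (l : Ix d) : Set ℝ :=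
  if l.2 = ⟨0, hd l.1⟩ then Set.Icc (1 - p l.1 / (2 * M)) (1 - p l.1 / (4 * M))
  else Set.Icc (-(ε * Real.sqrt (p l.1))) (ε * Real.sqrt (p l.1))

theorem b2_vol (hd : ∀ i, 1 ≤ d i) (p : Fin m → ℝ) (hp : ∀ i, 0 < p i) (M ε : ℝ) (hM : 0 < M)
    (hε : 0 < ε) :
    volume (Set.pi Set.univ (b2_S d hd p M ε)) =
      ENNReal.ofReal (∏ i, (p i / (4 * M) * (2 * ε * Real.sqrt (p i)) ^ (d i - 1))) := by
  rw [volume_pi_pi, Fintype.prod_sigma, ENNReal.ofReal_prod_of_nonneg]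
  · refine Finset.prod_congr rfl fun i _ => ?_
    have hpi := hp i
    rw [← Finset.mul_prod_erase Finset.univ _ (Finset.mem_univ (⟨0, hd i⟩ : Fin (d i)))]
    rw [ENNReal.ofReal_mul (by positivity)]
    congr 1
    · unfold b2_S
      rw [if_pos rfl, Real.volume_Icc]
      congr 1
      field_simp
      ring
    · have : ∀ j ∈ Finset.univ.erase (⟨0, hd i⟩ : Fin (d i)),
          volume (b2_S d hd p M ε ⟨i, j⟩) = ENNReal.ofReal (2 * ε * Real.sqrt (p i)) := by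
        intro j hj
        unfold b2_S
        rw [if_neg (Finset.ne_of_mem_erase hj), Real.volume_Icc]
        congr 1
        ring
      rw [Finset.prod_congr rfl this, Finset.prod_const, Finset.card_erase_of_mem (Finset.mem_univ _),
        Finset.card_univ, Fintype.card_fin, ENNReal.ofReal_pow (by positivity)]
  · intro i _
    have hpi := hp i
    positivity

theorem b2_bsq (hd : ∀ i, 1 ≤ d i) (p : Fin m → ℝ) (hp : ∀ i, 0 < p i) (hp1 : ∀ i, p i ≤ 1)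
    (M ε : ℝ) (hM : 1 ≤ M) (hε : 0 < ε) (hε2 : ∀ i, (d i : ℝ) * ε ^ 2 ≤ 1 / (8 * M))
    (x : Ix d → ℝ) (hx : x ∈ Set.pi Set.univ (b2_S d hd p M ε)) (i : Fin m) :
    bsq x i ≤ 1 - p i / (8 * M) := by
  have hpi := hp i
  have hM0 : 0 < M := by linarith
  unfold bsq
  rw [← Finset.add_sum_erase Finset.univ _ (Finset.mem_univ (⟨0, hd i⟩ : Fin (d i)))]
  have h1 : x ⟨i, ⟨0, hd i⟩⟩ ∈ Set.Icc (1 - p i / (2 * M)) (1 - p i / (4 * M)) := by
    have := hx ⟨i, ⟨0, hd i⟩⟩ (Set.mem_univ _)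
    unfold b2_S at this
    rwa [if_pos rfl] at this
  have h2 : ∑ j ∈ Finset.univ.erase (⟨0, hd i⟩ : Fin (d i)), x ⟨i, j⟩ ^ 2 ≤ p i / (8 * M) := by
    have h3 : ∀ j ∈ Finset.univ.erase (⟨0, hd i⟩ : Fin (d i)), x ⟨i, j⟩ ^ 2 ≤ ε ^ 2 * p i := by
      intro j hj
      have := hx ⟨i, j⟩ (Set.mem_univ _)
      unfold b2_S at this
      rw [if_neg (Finset.ne_of_mem_erase hj)] at this
      have h4 : |x ⟨i, j⟩| ≤ ε * Real.sqrt (p i) := abs_le.2 this
      calc x ⟨i, j⟩ ^ 2 = |x ⟨i, j⟩| ^ 2 := (sq_abs _).symm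
        _ ≤ (ε * Real.sqrt (p i)) ^ 2 := pow_le_pow_left₀ (abs_nonneg _) h4 2
        _ = ε ^ 2 * p i := by rw [mul_pow, Real.sq_sqrt hpi.le]
    refine (Finset.sum_le_card_nsmul _ _ _ h3).trans ?_
    rw [Finset.card_erase_of_mem (Finset.mem_univ _), Finset.card_univ, Fintype.card_fin, nsmul_eq_mul]
    have h5 : ((d i - 1 : ℕ) : ℝ) ≤ d i := by exact_mod_cast Nat.sub_le _ _
    calc ((d i - 1 : ℕ) : ℝ) * (ε ^ 2 * p i) ≤ (d i : ℝ) * (ε ^ 2 * p i) :=
          mul_le_mul_of_nonneg_right h5 (by positivity)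
      _ = ((d i : ℝ) * ε ^ 2) * p i := by ring
      _ ≤ 1 / (8 * M) * p i := mul_le_mul_of_nonneg_right (hε2 i) hpi.le
      _ = p i / (8 * M) := by ring
  set u := x ⟨i, ⟨0, hd i⟩⟩ with hu
  have h6 : p i / (2 * M) ≤ 1 / 2 := by
    rw [div_le_iff₀ (by positivity)]
    nlinarith [hp1 i]
  have h7 : p i / (4 * M) = 2 * (p i / (8 * M)) := by
    field_simp
    ring
  have h8 : u ^ 2 ≤ 1 - p i / (4 * M) := by
    have h9 : 0 < p i / (4 * M) := by positivity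
    have h10 := h1.1
    have h11 := h1.2
    nlinarith
  linarith

theorem cap_low (hm : 0 < m) (hd : ∀ i, 1 ≤ d i) (hβ : ∀ i, 0 ≤ β i) :
    ∃ c : ℝ, 0 < c ∧ ∀ (N : Ix d → ℝ) (r : ℝ), 0 ≤ r → 0 < tN N r →
      ENNReal.ofReal (c * ∏ i, (pN N r i) ^ (ga d β i)) ≤ muw d β {x | r < dotProduct N x} := by
  classical
  set Z := ∫⁻ x : Ix d → ℝ, wt β x with hZ
  have Z0 : 0 < Z := wt_lintegral_pos hβ
  have Zt : Z < ⊤ := wt_lintegral_lt_top hβ
  have Zr : 0 < Z.toReal := ENNReal.toReal_pos Z0.ne' Zt.ne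
  set D : ℝ := ((∑ i, d i : ℕ) : ℝ) with hD
  have hDi : ∀ i, (d i : ℝ) ≤ D := fun i => by
    rw [hD]
    exact_mod_cast Finset.single_le_sum (f := d) (fun _ _ => Nat.zero_le _) (Finset.mem_univ i)
  have hD1 : 1 ≤ D := by
    refine le_trans ?_ (hDi ⟨0, hm⟩)
    exact_mod_cast hd ⟨0, hm⟩
  set M : ℝ := (m : ℝ) with hM
  have hM1 : 1 ≤ M := by rw [hM]; exact_mod_cast hm
  have hM0 : 0 < M := by linarith
  set ε := (Real.sqrt (8 * M * D))⁻¹ with hε
  have hε0 : 0 < ε := by positivity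
  have hε2 : ε ^ 2 = 1 / (8 * M * D) := by
    rw [hε, inv_pow, Real.sq_sqrt (by positivity), one_div]
  have hε3 : ∀ i, (d i : ℝ) * ε ^ 2 ≤ 1 / (8 * M) := fun i => by
    rw [hε2]
    have : 1 / (8 * M) = D * (1 / (8 * M * D)) := by
      field_simp
    rw [this]
    exact mul_le_mul_of_nonneg_right (hDi i) (by positivity)
  set cc : ℝ := ∏ i, ((1 / (8 * M)) ^ (β i) * ((1 / (4 * M)) * (2 * ε) ^ (d i - 1))) with hcc
  have hcc0 : 0 < cc := Finset.prod_pos fun i _ => by positivity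
  refine ⟨(Z.toReal)⁻¹ * cc, by positivity, ?_⟩
  intro N r hr ht
  obtain ⟨R, hR, hRb, hRN⟩ := rot hd N
  set p : Fin m → ℝ := fun i => pN N r i with hp
  have hp0 : ∀ i, 0 < p i := fun i => (b2_p N r ht i).1
  have hp1 : ∀ i, p i ≤ 1 := fun i => (b2_p N r ht i).2.1
  have hps : ∀ i, sN N i * p i ≤ tN N r := fun i => (b2_p N r ht i).2.2
  set Bx : Set (Ix d → ℝ) := Set.pi Set.univ (b2_S d hd p M ε) with hBx
  have hBm : MeasurableSet Bx := by
    refine MeasurableSet.univ_pi fun l => ?_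
    unfold b2_S
    split_ifs
    · exact measurableSet_Icc
    · exact measurableSet_Icc
  have hSm : MeasurableSet {x : Ix d → ℝ | r < dotProduct N x} := by
    refine measurableSet_lt measurable_const ?_
    unfold dotProduct
    fun_prop
  -- the box is inside the cap
  have hsub : Bx ⊆ {x : Ix d → ℝ | r < dotProduct N (R x)} := by
    intro x hx
    show r < dotProduct N (R x)
    rw [hRN]
    have h1 : ∀ i, sN N i * (1 - x ⟨i, ⟨0, hd i⟩⟩) ≤ tN N r / (2 * M) := by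
      intro i
      have h2 := hx ⟨i, ⟨0, hd i⟩⟩ (Set.mem_univ _)
      unfold b2_S at h2
      rw [if_pos rfl] at h2
      have h3 : 1 - x ⟨i, ⟨0, hd i⟩⟩ ≤ p i / (2 * M) := by linarith [h2.1]
      have hs : 0 ≤ sN N i := Real.sqrt_nonneg _
      calc sN N i * (1 - x ⟨i, ⟨0, hd i⟩⟩) ≤ sN N i * (p i / (2 * M)) :=
            mul_le_mul_of_nonneg_left h3 hs
        _ = sN N i * p i / (2 * M) := by ring
        _ ≤ tN N r / (2 * M) := div_le_div_of_nonneg_right (hps i) (by positivity)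
    have h4 : ∑ i, sN N i * (1 - x ⟨i, ⟨0, hd i⟩⟩) ≤ tN N r / 2 := by
      refine (Finset.sum_le_sum fun i _ => h1 i).trans (le_of_eq ?_)
      rw [Finset.sum_const, Finset.card_univ, Fintype.card_fin, nsmul_eq_mul, ← hM]
      field_simp
    have h5 : ∑ i, sN N i * (1 - x ⟨i, ⟨0, hd i⟩⟩)
        = ∑ i, sN N i - ∑ i, sN N i * x ⟨i, ⟨0, hd i⟩⟩ := by
      rw [← Finset.sum_sub_distrib]
      exact Finset.sum_congr rfl fun i _ => by ring
    have h6 : tN N r = ∑ i, sN N i - r := by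
      unfold tN
      rw [abs_of_nonneg hr]
    linarith
  -- the weight on the box
  have hw : ∀ x ∈ Bx, ENNReal.ofReal (∏ i, (p i / (8 * M)) ^ (β i)) ≤ wt β x := by
    intro x hx
    have h1 := b2_bsq hd p hp0 hp1 M ε hM1 hε0 hε3 x hx
    have h2 : ∀ i, bsq x i ≤ 1 := fun i => by
      have := hp0 i
      have h3 : 0 ≤ p i / (8 * M) := by positivity
      linarith [h1 i]
    unfold wt
    rw [if_pos h2]
    apply ENNReal.ofReal_le_ofReal
    refine Finset.prod_le_prod (fun i _ => ?_) fun i _ => ?_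
    · have := hp0 i
      positivity
    · have := hp0 i
      exact Real.rpow_le_rpow (by positivity) (by linarith [h1 i]) (hβ i)
  have hwR : ∀ x, wt β (R x) = wt β x := by
    intro x
    unfold wt
    simp only [hRb]
  -- assemble
  have h1 : muw d β {x | r < dotProduct N x} = Z⁻¹ * ∫⁻ x in {x | r < dotProduct N x}, wt β x := by
    unfold muw
    rw [Measure.smul_apply, withDensity_apply _ hSm, smul_eq_mul]
  have h2 : ∫⁻ x in {x | r < dotProduct N x}, wt β x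
      = ∫⁻ x in {x | r < dotProduct N (R x)}, wt β x := by
    have h3 := hR.setLIntegral_comp_preimage hSm (wt_measurable (d := d) (β := β))
    rw [← h3]
    show ∫⁻ x in R ⁻¹' {x | r < dotProduct N x}, wt β (R x) = _
    simp only [hwR]
    rfl
  have h3 : ENNReal.ofReal (∏ i, (p i / (8 * M)) ^ (β i)) * volume Bx ≤
      ∫⁻ x in {x | r < dotProduct N (R x)}, wt β x := by
    refine le_trans ?_ (lintegral_mono_set hsub)
    rw [← setLIntegral_const]
    exact setLIntegral_mono' hBm hw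
  rw [h1, h2]
  refine le_trans ?_ (mul_le_mul_right h3 _)
  rw [hBx, b2_vol hd p hp0 M ε hM0 hε0, ← ENNReal.ofReal_mul (Finset.prod_nonneg fun i _ => by
    have := hp0 i
    positivity)]
  have hZi : Z⁻¹ = ENNReal.ofReal (Z.toReal)⁻¹ := by
    rw [ENNReal.ofReal_inv_of_pos Zr, ENNReal.ofReal_toReal Zt.ne]
  rw [hZi, ← ENNReal.ofReal_mul (by positivity)]
  apply ENNReal.ofReal_le_ofReal
  rw [mul_assoc]
  refine le_of_eq ?_
  congr 1
  rw [hcc, ← Finset.prod_mul_distrib, ← Finset.prod_mul_distrib]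
  refine Finset.prod_congr rfl fun i _ => ?_
  have hpi := hp0 i
  show (1 / (8 * M)) ^ (β i) * ((1 / (4 * M)) * (2 * ε) ^ (d i - 1)) * (p i) ^ (ga d β i) = _
  have h4 : (p i) ^ (ga d β i) = (p i) ^ (β i) * (p i * (Real.sqrt (p i)) ^ (d i - 1)) := by
    have h5 : (Real.sqrt (p i)) ^ (d i - 1) = (p i) ^ ((((d i : ℝ) - 1)) / 2) := by
      rw [Real.sqrt_eq_rpow, ← Real.rpow_natCast, ← Real.rpow_mul hpi.le]
      congr 1
      rw [Nat.cast_sub (hd i), Nat.cast_one]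
      ring
    have h6 : p i * (p i) ^ ((((d i : ℝ) - 1)) / 2) = (p i) ^ (((d i : ℝ) + 1) / 2) := by
      nth_rewrite 1 [← Real.rpow_one (p i)]
      rw [← Real.rpow_add hpi]
      congr 1
      ring
    rw [h5, h6, ← Real.rpow_add hpi]
    unfold ga
    congr 1
    ring
  rw [h4]
  have h7 : (p i / (8 * M)) ^ (β i) = (1 / (8 * M)) ^ (β i) * (p i) ^ (β i) := by
    rw [← Real.mul_rpow (by positivity) hpi.le]
    congr 1
    ring
  rw [h7, mul_pow]
  ring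

end RP
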