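import Pool.Agent.H6.RP.A0
import Pool.Agent.H6.RP.B1

/-! B3: upper bound for the mass of caps.

Proof.  As in B2 replace `dotProduct N x` by `∑ s_i x_{i,0}` (`rot`).  Where `wt x ≠ 0`: `bsq x i ≤ 1`, so `x_{i0} ≤ 1`, all
`s_i (1 - x_{i0}) ≥ 0`, and `r ≤ ∑ s_i x_{i0}` gives `∑ s_i (1 - x_{i0}) ≤ t`, hence `s_i (1 - x_{i0}) ≤ t`; also `1 - x_{i0} ≤ 2`; so
`0 ≤ 1 - x_{i0} ≤ 2 p_i` (`p_i = t / max s_i t`).  Then `∑_{l ≥ 1} x_{il}² ≤ 1 - x_{i0}² ≤ 2 (1 - x_{i0}) ≤ 4 p_i`, so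
`|x_{il}| ≤ 2 √p_i`, and `1 - bsq x i ≤ 1 - x_{i0}² ≤ 4 p_i`, `wt ≤ ∏ (4 p_i)^{β_i}`.  Volume of the box
`∏ (2 p_i) (4 √p_i)^{d_i - 1} = C ∏ p_i^{(d_i + 1)/2}`. -/

open MeasureTheory
open scoped ENNReal

namespace RP

variable {m : ℕ} {d : Fin m → ℕ} {β : Fin m → ℝ}

theorem b3_ptw (hd : ∀ i, 1 ≤ d i) (s : Fin m → ℝ) (t : ℝ) (ht : 0 < t) (hs : ∀ i, 0 ≤ s i)
    (x : Ix d → ℝ) (hx : ∀ i, bsq x i ≤ 1)
    (hsum : (∑ i, s i) - t ≤ ∑ i, s i * x ⟨i, ⟨0, hd i⟩⟩) (i : Fin m) :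
    (1 - 2 * (t / max (s i) t) ≤ x ⟨i, ⟨0, hd i⟩⟩ ∧ x ⟨i, ⟨0, hd i⟩⟩ ≤ 1) ∧
      1 - bsq x i ≤ 4 * (t / max (s i) t) ∧
      ∀ l : Fin (d i), l ≠ ⟨0, hd i⟩ → |x ⟨i, l⟩| ≤ 2 * Real.sqrt (t / max (s i) t) := by
  have h0 : ∀ k, (x ⟨k, ⟨0, hd k⟩⟩) ^ 2 ≤ bsq x k := by
    intro k
    unfold bsq
    exact Finset.single_le_sum (f := fun j : Fin (d k) => (x ⟨k, j⟩) ^ 2)
      (fun j _ => sq_nonneg _) (Finset.mem_univ _)
  have habs : ∀ k, |x ⟨k, ⟨0, hd k⟩⟩| ≤ 1 := by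
    intro k
    exact (sq_le_one_iff_abs_le_one _).mp ((h0 k).trans (hx k))
  have hle : ∀ k, x ⟨k, ⟨0, hd k⟩⟩ ≤ 1 := fun k => (abs_le.mp (habs k)).2
  have hge : ∀ k, -1 ≤ x ⟨k, ⟨0, hd k⟩⟩ := fun k => (abs_le.mp (habs k)).1
  have hterm : s i * (1 - x ⟨i, ⟨0, hd i⟩⟩) ≤ t := by
    have h1 : s i * (1 - x ⟨i, ⟨0, hd i⟩⟩) ≤ ∑ k, s k * (1 - x ⟨k, ⟨0, hd k⟩⟩) :=
      Finset.single_le_sum (f := fun k => s k * (1 - x ⟨k, ⟨0, hd k⟩⟩))
        (fun k _ => mul_nonneg (hs k) (sub_nonneg.mpr (hle k))) (Finset.mem_univ i)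
    have h2 : ∑ k, s k * (1 - x ⟨k, ⟨0, hd k⟩⟩) =
        (∑ k, s k) - ∑ k, s k * x ⟨k, ⟨0, hd k⟩⟩ := by
      rw [← Finset.sum_sub_distrib]
      exact Finset.sum_congr rfl fun k _ => by ring
    linarith
  have hmax : 0 < max (s i) t := lt_max_of_lt_right ht
  have hkey : 1 - x ⟨i, ⟨0, hd i⟩⟩ ≤ 2 * (t / max (s i) t) := by
    rw [← mul_div_assoc, le_div_iff₀ hmax]
    rcases le_total (s i) t with h | h
    · rw [max_eq_right h]
      have h1 := hge i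
      nlinarith
    · rw [max_eq_left h]
      linarith
  have hsq : 1 - (x ⟨i, ⟨0, hd i⟩⟩) ^ 2 ≤ 4 * (t / max (s i) t) := by
    have h1 := hle i
    have h2 := hge i
    nlinarith
  refine ⟨⟨by linarith, hle i⟩, ?_, ?_⟩
  · have := h0 i
    linarith
  · intro l hl
    have h1 : (x ⟨i, l⟩) ^ 2 + (x ⟨i, ⟨0, hd i⟩⟩) ^ 2 ≤ bsq x i := by
      unfold bsq
      rw [← Finset.sum_pair (f := fun j : Fin (d i) => (x ⟨i, j⟩) ^ 2) hl]
      exact Finset.sum_le_sum_of_subset_of_nonneg (Finset.subset_univ _)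
        (fun j _ _ => sq_nonneg _)
    have h2 : (x ⟨i, l⟩) ^ 2 ≤ 4 * (t / max (s i) t) := by
      have := hx i
      linarith
    have h3 := Real.abs_le_sqrt h2
    have h4 : Real.sqrt (4 * (t / max (s i) t)) = 2 * Real.sqrt (t / max (s i) t) := by
      rw [Real.sqrt_mul (by norm_num)]
      congr 1
      rw [show (4 : ℝ) = 2 ^ 2 by norm_num]
      exact Real.sqrt_sq (by norm_num)
    rw [h4] at h3
    exact h3

/-- the box which contains the cap -/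
noncomputable def b3Lo (hd : ∀ i, 1 ≤ d i) (p : Fin m → ℝ) : Ix d → ℝ :=
  fun q => if q.2 = ⟨0, hd q.1⟩ then 1 - 2 * p q.1 else -(2 * Real.sqrt (p q.1))

/-- the box which contains the cap -/
noncomputable def b3Hi (hd : ∀ i, 1 ≤ d i) (p : Fin m → ℝ) : Ix d → ℝ :=
  fun q => if q.2 = ⟨0, hd q.1⟩ then 1 else 2 * Real.sqrt (p q.1)

theorem b3_vol (hd : ∀ i, 1 ≤ d i) (p : Fin m → ℝ) (hp : ∀ i, 0 < p i) :
    volume (Set.Icc (b3Lo hd p) (b3Hi hd p)) =
      ENNReal.ofReal (∏ i, (2 * 4 ^ (d i - 1) * (p i) ^ ((((d i : ℕ) : ℝ) + 1) / 2))) := by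
  rw [Real.volume_Icc_pi, ← ENNReal.ofReal_prod_of_nonneg, Fintype.prod_sigma]
  · congr 1
    refine Finset.prod_congr rfl fun i _ => ?_
    have h1 : ∀ j : Fin (d i), b3Hi hd p ⟨i, j⟩ - b3Lo hd p ⟨i, j⟩ =
        if j = ⟨0, hd i⟩ then 2 * p i else 4 * Real.sqrt (p i) := by
      intro j
      unfold b3Hi b3Lo
      by_cases hj : j = ⟨0, hd i⟩
      · simp only [if_pos hj]
        ring
      · simp only [if_neg hj]
        ring
    rw [Finset.prod_congr rfl fun j _ => h1 j,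
      ← Finset.mul_prod_erase Finset.univ _ (Finset.mem_univ (⟨0, hd i⟩ : Fin (d i))), if_pos rfl]
    have h2 : ∏ j ∈ Finset.univ.erase (⟨0, hd i⟩ : Fin (d i)),
        (if j = ⟨0, hd i⟩ then 2 * p i else 4 * Real.sqrt (p i)) =
        (4 * Real.sqrt (p i)) ^ (d i - 1) := by
      rw [Finset.prod_congr rfl fun j hj => if_neg (Finset.ne_of_mem_erase hj), Finset.prod_const,
        Finset.card_erase_of_mem (Finset.mem_univ _), Finset.card_univ, Fintype.card_fin]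
    rw [h2, mul_pow]
    have h3 : p i * (Real.sqrt (p i)) ^ (d i - 1) = (p i) ^ ((((d i : ℕ) : ℝ) + 1) / 2) := by
      rw [Real.sqrt_eq_rpow, ← Real.rpow_natCast, ← Real.rpow_mul (hp i).le]
      nth_rw 1 [← Real.rpow_one (p i)]
      rw [← Real.rpow_add (hp i)]
      congr 1
      rw [Nat.cast_sub (hd i)]
      push_cast
      ring
    rw [← h3]
    ring
  · rintro ⟨i, j⟩ _
    unfold b3Hi b3Lo
    have := hp i
    by_cases hj : j = ⟨0, hd i⟩
    · simp only [if_pos hj]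
      linarith
    · simp only [if_neg hj]
      have := Real.sqrt_nonneg (p i)
      linarith

theorem cap_up (hm : 0 < m) (hd : ∀ i, 1 ≤ d i) (hβ : ∀ i, 0 ≤ β i) :
    ∃ C : ℝ, 0 < C ∧ ∀ (N : Ix d → ℝ) (r : ℝ), 0 ≤ r → 0 < tN N r →
      muw d β {x | r ≤ dotProduct N x} ≤ ENNReal.ofReal (C * ∏ i, (pN N r i) ^ (ga d β i)) := by
  obtain ⟨I0, hI0⟩ : ∃ I0 : ℝ≥0∞, I0 = ∫⁻ x : Ix d → ℝ, wt β x := ⟨_, rfl⟩
  have hpos : 0 < I0 := hI0 ▸ wt_lintegral_pos hβ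
  have hfin : I0 < ⊤ := hI0 ▸ wt_lintegral_lt_top hβ
  have hposR : 0 < I0.toReal := ENNReal.toReal_pos hpos.ne' hfin.ne
  refine ⟨I0.toReal⁻¹ * ∏ i, ((4 : ℝ) ^ (β i) * (2 * 4 ^ (d i - 1))), by positivity, ?_⟩
  intro N r hr ht
  obtain ⟨R, hR1, hR2, hR3⟩ := rot hd N
  obtain ⟨p, hp⟩ : ∃ p : Fin m → ℝ, p = pN N r := ⟨_, rfl⟩
  have hp0 : ∀ i, 0 < p i := by
    intro i
    rw [hp]
    unfold pN
    exact div_pos ht (lt_max_of_lt_right ht)
  rw [← hp]
  have hset : MeasurableSet {x : Ix d → ℝ | r ≤ dotProduct N x} := by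
    apply measurableSet_le measurable_const
    unfold dotProduct
    fun_prop
  have hmu : muw d β {x | r ≤ dotProduct N x} =
      I0⁻¹ * ∫⁻ x : Ix d → ℝ, {x : Ix d → ℝ | r ≤ dotProduct N x}.indicator (wt β) x := by
    unfold muw
    rw [← hI0, Measure.smul_apply, withDensity_apply _ hset, lintegral_indicator hset]
    rfl
  have hrot : ∫⁻ x : Ix d → ℝ, {x : Ix d → ℝ | r ≤ dotProduct N x}.indicator (wt β) x =
      ∫⁻ x : Ix d → ℝ, {x : Ix d → ℝ | r ≤ dotProduct N x}.indicator (wt β) (R x) :=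
    (hR1.lintegral_comp (wt_measurable.indicator hset)).symm
  have hptw : ∀ x : Ix d → ℝ, {x : Ix d → ℝ | r ≤ dotProduct N x}.indicator (wt β) (R x) ≤
      (Set.Icc (b3Lo hd p) (b3Hi hd p)).indicator
        (fun _ => ENNReal.ofReal (∏ i, (4 * p i) ^ (β i))) x := by
    intro x
    by_cases h1 : r ≤ dotProduct N (R x)
    · have h2 : R x ∈ {x : Ix d → ℝ | r ≤ dotProduct N x} := h1
      rw [Set.indicator_of_mem h2]
      by_cases h3 : ∀ i, bsq (R x) i ≤ 1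
      · have h4 : ∀ i, bsq x i ≤ 1 := fun i => (hR2 x i) ▸ (h3 i)
        rw [hR3] at h1
        have hsum : (∑ i, sN N i) - tN N r ≤ ∑ i, sN N i * x ⟨i, ⟨0, hd i⟩⟩ := by
          unfold tN
          rw [abs_of_nonneg hr]
          linarith
        have h5 := b3_ptw hd (sN N) (tN N r) ht (fun i => Real.sqrt_nonneg _) x h4 hsum
        have h6 : x ∈ Set.Icc (b3Lo hd p) (b3Hi hd p) := by
          constructor
          · rintro ⟨i, j⟩
            unfold b3Lo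
            by_cases hj : j = ⟨0, hd i⟩
            · simp only [if_pos hj]
              subst hj
              rw [hp]
              exact (h5 i).1.1
            · simp only [if_neg hj]
              rw [hp]
              exact (abs_le.mp ((h5 i).2.2 j hj)).1
          · rintro ⟨i, j⟩
            unfold b3Hi
            by_cases hj : j = ⟨0, hd i⟩
            · simp only [if_pos hj]
              subst hj
              exact (h5 i).1.2
            · simp only [if_neg hj]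
              rw [hp]
              exact (abs_le.mp ((h5 i).2.2 j hj)).2
        rw [Set.indicator_of_mem h6]
        unfold wt
        rw [if_pos h3]
        apply ENNReal.ofReal_le_ofReal
        refine Finset.prod_le_prod ?_ ?_
        · intro i _
          exact Real.rpow_nonneg (sub_nonneg.mpr (h3 i)) _
        · intro i _
          refine Real.rpow_le_rpow (sub_nonneg.mpr (h3 i)) ?_ (hβ i)
          rw [hR2, hp]
          exact (h5 i).2.1
      · unfold wt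
        rw [if_neg h3]
        exact zero_le
    · have h2 : R x ∉ {x : Ix d → ℝ | r ≤ dotProduct N x} := h1
      rw [Set.indicator_of_notMem h2]
      exact zero_le
  rw [hmu, hrot]
  refine (mul_le_mul_right (lintegral_mono hptw) _).trans ?_
  rw [lintegral_indicator measurableSet_Icc, setLIntegral_const, b3_vol hd p hp0,
    ← ENNReal.ofReal_mul (Finset.prod_nonneg fun i _ => Real.rpow_nonneg (by have := hp0 i; linarith) _)]
  have hI : I0⁻¹ = ENNReal.ofReal (I0.toReal⁻¹) := by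
    rw [ENNReal.ofReal_inv_of_pos hposR, ENNReal.ofReal_toReal hfin.ne]
  rw [hI, ← ENNReal.ofReal_mul (inv_nonneg.mpr hposR.le)]
  apply le_of_eq
  congr 1
  rw [mul_assoc, ← Finset.prod_mul_distrib, ← Finset.prod_mul_distrib]
  congr 1
  refine Finset.prod_congr rfl fun i _ => ?_
  have h7 : (p i) ^ (ga d β i) = (p i) ^ ((((d i : ℕ) : ℝ) + 1) / 2) * (p i) ^ (β i) := by
    unfold ga
    rw [Real.rpow_add (hp0 i)]
  rw [h7, Real.mul_rpow (by norm_num) (hp0 i).le]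
  ring

end RP
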