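import Pool.Agent.H6.RP.B2
import Pool.Agent.H6.RP.B3

/-! B4: the one-sided probabilities.

Proof.  `N = Nv o y`, `r = |y o|`, `μ = muw`.  `sN (-N) = sN N`, `tN`, `pN` depend on `|y o|` and `sN N` only.
Upper bound: let `G` be the mass of the cap not containing the origin: `{y o < N·x}` if `y o ≥ 0`, `{N·x < y o} = {|y o| < (-N)·x}` if
`y o < 0`; `G ≥ c ∏ p_i^{γ_i}` (`cap_low` for `N`, `-N`).  `G ≤ 1/2` because the cap and its mirror image (same mass, `muw_neg`) are
disjoint.  So both summands of `Qn` are at most `(1 - G)^{n-D} ≤ exp (-(n-D) G) ≤ exp (-n G/(D+1))`.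
Lower bound (`0 < y o`): `G' = μ {y o ≤ N·x} ≤ C ∏ p_i^{γ_i}` (`cap_up`) and `G' ≤ 1/2`, and
`μ {N·x < y o} = 1 - G' ≥ exp (-2 G')`.  `q_pos`: the cap `{1/4 < x o}` has positive mass and lies (up to a null set) in
`{y o < N·x}` when all `|y l|` are small. -/

open MeasureTheory
open scoped ENNReal

namespace RP

variable {m : ℕ} {d : Fin m → ℕ} {β : Fin m → ℝ}

theorem B4_sN_neg (N : Ix d → ℝ) (i : Fin m) : sN (-N) i = sN N i := by
  simp [sN, bsq]

theorem B4_tN_neg (N : Ix d → ℝ) (r : ℝ) : tN (-N) r = tN N r := by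
  simp [tN, B4_sN_neg]

theorem B4_pN_neg (N : Ix d → ℝ) (r : ℝ) (i : Fin m) : pN (-N) r i = pN N r i := by
  simp [pN, B4_sN_neg, B4_tN_neg]

theorem B4_tN_abs (N : Ix d → ℝ) (r : ℝ) : tN N |r| = tN N r := by
  simp [tN]

theorem B4_pN_abs (N : Ix d → ℝ) (r : ℝ) (i : Fin m) : pN N |r| i = pN N r i := by
  simp [pN, B4_tN_abs]

theorem B4_meas_dot (N : Ix d → ℝ) : Measurable fun x : Ix d → ℝ => dotProduct N x := by
  unfold dotProduct
  exact Finset.measurable_sum _ fun i _ => (measurable_pi_apply i).const_mul _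

theorem B4_half (hβ : ∀ i, 0 ≤ β i) (S : Set (Ix d → ℝ)) (hS : MeasurableSet S)
    (hd : ∀ x ∈ S, -x ∉ S) : muw d β S ≤ 1 / 2 := by
  have := muw_prob (d := d) hβ
  have h1 : muw d β ((fun x : Ix d → ℝ => -x) ⁻¹' S) = muw d β S :=
    (muw_neg (d := d) hβ).measure_preimage hS.nullMeasurableSet
  have hS' : MeasurableSet ((fun x : Ix d → ℝ => -x) ⁻¹' S) := measurable_neg hS
  have hdis : Disjoint S ((fun x : Ix d → ℝ => -x) ⁻¹' S) := by
    rw [Set.disjoint_left]
    intro x hx hx'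
    exact hd x hx hx'
  have h2 : muw d β S + muw d β S ≤ 1 := by
    calc muw d β S + muw d β S = muw d β (S ∪ ((fun x : Ix d → ℝ => -x) ⁻¹' S)) := by
          rw [measure_union hdis hS', h1]
      _ ≤ 1 := prob_le_one
  rw [ENNReal.le_div_iff_mul_le (Or.inl (by norm_num)) (Or.inl (by norm_num)), mul_two]
  exact h2

theorem B4_exp_low {x : ℝ} (h0 : 0 ≤ x) (h1 : x ≤ 1 / 2) : Real.exp (-(2 * x)) ≤ 1 - x := by
  have hp : (0 : ℝ) < 1 - x := by linarith
  have h := Real.one_sub_inv_le_log_of_pos hp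
  have h2 : -(2 * x) ≤ 1 - (1 - x)⁻¹ := by
    have : 1 - (1 - x)⁻¹ = -x / (1 - x) := by
      field_simp
      ring
    rw [this, le_div_iff₀ hp]
    nlinarith
  calc Real.exp (-(2 * x)) ≤ Real.exp (Real.log (1 - x)) := Real.exp_le_exp.2 (h2.trans h)
    _ = 1 - x := Real.exp_log hp

/-- one half space and its complement -/
theorem B4_up (hβ : ∀ i, 0 ≤ β i) (G H : Set (Ix d → ℝ)) (hG : MeasurableSet G)
    (hneg : ∀ x ∈ G, -x ∉ G) (hdis : Disjoint H G) (k : ℕ) (q : ℝ) (hq : 0 ≤ q)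
    (hlow : ENNReal.ofReal q ≤ muw d β G) :
    muw d β G ^ k ≤ ENNReal.ofReal (Real.exp (-(k * q))) ∧
      muw d β H ^ k ≤ ENNReal.ofReal (Real.exp (-(k * q))) := by
  have := muw_prob (d := d) hβ
  set g : ℝ := (muw d β G).toReal with hg
  have hgf : muw d β G ≠ ⊤ := measure_ne_top _ _
  have hG' : muw d β G = ENNReal.ofReal g := (ENNReal.ofReal_toReal hgf).symm
  have hg0 : 0 ≤ g := ENNReal.toReal_nonneg
  have hhalf : g ≤ 1 / 2 := by
    have := ENNReal.toReal_mono (by norm_num) (B4_half hβ G hG hneg)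
    simpa using this
  have hqg : q ≤ g := by
    rw [hG'] at hlow
    exact (ENNReal.ofReal_le_ofReal_iff hg0).1 hlow
  have key : (1 - g) ^ k ≤ Real.exp (-(k * q)) := by
    have h1 : 1 - g ≤ Real.exp (-q) := by
      calc 1 - g ≤ 1 - q := by linarith
        _ ≤ Real.exp (-q) := by
          have := Real.add_one_le_exp (-q)
          linarith
    calc (1 - g) ^ k ≤ (Real.exp (-q)) ^ k := pow_le_pow_left₀ (by linarith) h1 k
      _ = Real.exp (-(k * q)) := by
        rw [← Real.exp_nat_mul]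
        congr 1
        ring
  constructor
  · calc muw d β G ^ k ≤ (ENNReal.ofReal (1 - g)) ^ k := by
          refine pow_le_pow_left' ?_ k
          rw [hG']
          exact ENNReal.ofReal_le_ofReal (by linarith)
      _ = ENNReal.ofReal ((1 - g) ^ k) := (ENNReal.ofReal_pow (by linarith) k).symm
      _ ≤ _ := ENNReal.ofReal_le_ofReal key
  · have hH : muw d β H ≤ ENNReal.ofReal (1 - g) := by
      have h1 : muw d β H ≤ muw d β Gᶜ := measure_mono (Set.subset_compl_iff_disjoint_right.2 hdis)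
      have h2 : muw d β Gᶜ = 1 - muw d β G := prob_compl_eq_one_sub hG
      rw [h2, hG', ← ENNReal.ofReal_one, ← ENNReal.ofReal_sub _ hg0] at h1
      exact h1
    calc muw d β H ^ k ≤ (ENNReal.ofReal (1 - g)) ^ k := pow_le_pow_left' hH k
      _ = ENNReal.ofReal ((1 - g) ^ k) := (ENNReal.ofReal_pow (by linarith) k).symm
      _ ≤ _ := ENNReal.ofReal_le_ofReal key

theorem B4_pN_nonneg (N : Ix d → ℝ) (r : ℝ) (h : 0 < tN N r) (i : Fin m) : 0 ≤ pN N r i :=
  div_nonneg h.le (h.le.trans (le_max_right _ _))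

theorem B4_prod_nonneg (N : Ix d → ℝ) (r : ℝ) (h : 0 < tN N r) :
    0 ≤ ∏ i, (pN N r i) ^ (ga d β i) :=
  Finset.prod_nonneg fun i _ => Real.rpow_nonneg (B4_pN_nonneg N r h i) _

theorem q_up (hm : 0 < m) (hd : ∀ i, 1 ≤ d i) (hβ : ∀ i, 0 ≤ β i) :
    ∃ c : ℝ, 0 < c ∧ ∀ n : ℕ, (∑ i, d i) + 1 ≤ n → ∀ (o : Ix d) (y : Ix d → ℝ), 0 < tN (Nv o y) (y o) →
      Qn β n o y ≤ 2 * ENNReal.ofReal (Real.exp (-(c * n * ∏ i, (pN (Nv o y) (y o) i) ^ (ga d β i)))) := by
  obtain ⟨c, hc, hcap⟩ := cap_low (d := d) (β := β) hm hd hβ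
  refine ⟨c / ((∑ i, d i : ℕ) + 1), by positivity, ?_⟩
  intro n hn o y ht
  set N := Nv o y with hN
  set pr : ℝ := ∏ i, (pN N (y o) i) ^ (ga d β i) with hpi
  have hpi0 : 0 ≤ pr := B4_prod_nonneg N (y o) ht
  set k : ℕ := n - ∑ i, d i with hk
  have hkn : (n : ℝ) / ((∑ i, d i : ℕ) + 1) ≤ k := by
    have h1 : ((n - ∑ i, d i : ℕ) : ℝ) = (n : ℝ) - ((∑ i, d i : ℕ) : ℝ) := by
      rw [Nat.cast_sub (by omega)]
    rw [hk, h1, div_le_iff₀ (by positivity)]
    have h2 : ((∑ i, d i : ℕ) : ℝ) + 1 ≤ n := by exact_mod_cast hn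
    have h3 : (0 : ℝ) ≤ ((∑ i, d i : ℕ) : ℝ) := by positivity
    nlinarith
  have hexp : Real.exp (-(k * (c * pr))) ≤ Real.exp (-(c / ((∑ i, d i : ℕ) + 1) * n * pr)) := by
    apply Real.exp_le_exp.2
    apply neg_le_neg
    have : c / ((∑ i, d i : ℕ) + 1) * n * pr = ((n : ℝ) / ((∑ i, d i : ℕ) + 1)) * (c * pr) := by ring
    rw [this]
    exact mul_le_mul_of_nonneg_right hkn (by positivity)
  have hmeas1 : ∀ (N' : Ix d → ℝ) (r : ℝ), MeasurableSet {x : Ix d → ℝ | r < dotProduct N' x} := fun N' r =>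
    measurableSet_lt measurable_const (B4_meas_dot N')
  have hneg1 : ∀ (N' : Ix d → ℝ) (r : ℝ), 0 ≤ r → ∀ x ∈ {x : Ix d → ℝ | r < dotProduct N' x},
      -x ∉ {x : Ix d → ℝ | r < dotProduct N' x} := by
    intro N' r hr x hx hx'
    simp only [Set.mem_setOf_eq, dotProduct_neg] at hx hx'
    linarith
  have hprod : ∀ N' : Ix d → ℝ, (∀ i, pN N' |y o| i = pN N (y o) i) →
      ∏ i, (pN N' |y o| i) ^ (ga d β i) = pr := by
    intro N' h
    rw [hpi]
    exact Finset.prod_congr rfl fun i _ => by rw [h i]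
  rw [two_mul]
  unfold Qn
  by_cases hy : 0 ≤ y o
  · have habs : |y o| = y o := abs_of_nonneg hy
    have hlow := hcap N |y o| (abs_nonneg _) (by rw [B4_tN_abs]; exact ht)
    rw [hprod N (fun i => B4_pN_abs N (y o) i), habs] at hlow
    obtain ⟨h1, h2⟩ := B4_up (d := d) hβ {x | y o < dotProduct N x} {x | dotProduct N x < y o}
      (hmeas1 N (y o)) (hneg1 N (y o) hy)
      (by
        rw [Set.disjoint_left]
        intro x hx hx'
        simp only [Set.mem_setOf_eq] at hx hx'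
        linarith) k (c * pr) (by positivity) hlow
    exact add_le_add (h1.trans (ENNReal.ofReal_le_ofReal hexp)) (h2.trans (ENNReal.ofReal_le_ofReal hexp))
  · have hy' : y o < 0 := lt_of_not_ge hy
    have habs : |y o| = -y o := abs_of_neg hy'
    have hlow := hcap (-N) |y o| (abs_nonneg _) (by rw [B4_tN_neg, B4_tN_abs]; exact ht)
    rw [hprod (-N) (fun i => by rw [B4_pN_neg, B4_pN_abs]), habs] at hlow
    have hset : {x : Ix d → ℝ | -y o < dotProduct (-N) x} = {x | dotProduct N x < y o} := by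
      ext x
      simp only [Set.mem_setOf_eq, neg_dotProduct, neg_lt_neg_iff]
    have hneg2 := hneg1 (-N) (-y o) (by linarith)
    have hm2 := hmeas1 (-N) (-y o)
    rw [hset] at hlow hneg2 hm2
    obtain ⟨h1, h2⟩ := B4_up (d := d) hβ {x | dotProduct N x < y o} {x | y o < dotProduct N x}
      hm2 hneg2
      (by
        rw [Set.disjoint_left]
        intro x hx hx'
        simp only [Set.mem_setOf_eq] at hx hx'
        linarith) k (c * pr) (by positivity) hlow
    exact add_le_add (h2.trans (ENNReal.ofReal_le_ofReal hexp)) (h1.trans (ENNReal.ofReal_le_ofReal hexp))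

theorem q_low (hm : 0 < m) (hd : ∀ i, 1 ≤ d i) (hβ : ∀ i, 0 ≤ β i) :
    ∃ C : ℝ, 0 < C ∧ ∀ n : ℕ, (∑ i, d i) + 1 ≤ n → ∀ (o : Ix d) (y : Ix d → ℝ), 0 < y o → 0 < tN (Nv o y) (y o) →
      ENNReal.ofReal (Real.exp (-(C * n * ∏ i, (pN (Nv o y) (y o) i) ^ (ga d β i)))) ≤ Qn β n o y := by
  obtain ⟨C, hC, hcap⟩ := cap_up (d := d) (β := β) hm hd hβ
  refine ⟨2 * C, by positivity, ?_⟩
  intro n hn o y hy ht
  have := muw_prob (d := d) hβ
  set N := Nv o y with hN
  set pr : ℝ := ∏ i, (pN N (y o) i) ^ (ga d β i) with hpi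
  have hpi0 : 0 ≤ pr := B4_prod_nonneg N (y o) ht
  set k : ℕ := n - ∑ i, d i with hk
  have hup := hcap N (y o) hy.le ht
  set G : Set (Ix d → ℝ) := {x | y o ≤ dotProduct N x} with hG
  have hGm : MeasurableSet G := measurableSet_le measurable_const (B4_meas_dot N)
  have hhalf : muw d β G ≤ 1 / 2 := by
    apply B4_half hβ G hGm
    intro x hx hx'
    simp only [hG, Set.mem_setOf_eq, dotProduct_neg] at hx hx'
    linarith
  set g : ℝ := (muw d β G).toReal with hg
  have hgf : muw d β G ≠ ⊤ := measure_ne_top _ _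
  have hG' : muw d β G = ENNReal.ofReal g := (ENNReal.ofReal_toReal hgf).symm
  have hg0 : 0 ≤ g := ENNReal.toReal_nonneg
  have hg1 : g ≤ 1 / 2 := by
    have := ENNReal.toReal_mono (by norm_num) hhalf
    simpa using this
  have hgC : g ≤ C * pr := by
    rw [hG'] at hup
    exact (ENNReal.ofReal_le_ofReal_iff (by positivity)).1 hup
  have hset : {x : Ix d → ℝ | dotProduct N x < y o} = Gᶜ := by
    ext x
    simp [hG]
  have hc : muw d β {x | dotProduct N x < y o} = ENNReal.ofReal (1 - g) := by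
    rw [hset, prob_compl_eq_one_sub hGm, hG', ← ENNReal.ofReal_one, ← ENNReal.ofReal_sub _ hg0]
  unfold Qn
  refine le_trans ?_ le_add_self
  rw [hc, ← ENNReal.ofReal_pow (by linarith)]
  apply ENNReal.ofReal_le_ofReal
  have h1 := B4_exp_low hg0 hg1
  calc Real.exp (-(2 * C * n * pr)) ≤ Real.exp (-(k * (2 * g))) := by
        apply Real.exp_le_exp.2
        apply neg_le_neg
        have h2 : (k : ℝ) ≤ n := by
          rw [hk]
          exact_mod_cast Nat.sub_le _ _
        calc (k : ℝ) * (2 * g) ≤ n * (2 * (C * pr)) := by gcongr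
          _ = 2 * C * n * pr := by ring
    _ = (Real.exp (-(2 * g))) ^ k := by
        rw [← Real.exp_nat_mul]
        congr 1
        ring
    _ ≤ (1 - g) ^ k := pow_le_pow_left₀ (Real.exp_pos _).le h1 k

theorem B4_ae (hβ : ∀ i, 0 ≤ β i) : ∀ᵐ x ∂(muw d β), ∀ l : Ix d, |x l| ≤ 1 := by
  unfold muw
  apply Measure.ae_smul_measure
  rw [ae_withDensity_iff (wt_measurable (d := d) (β := β))]
  filter_upwards with x hx l
  have h : ∀ i, bsq x i ≤ 1 := by
    by_contra hcon
    apply hx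
    unfold wt
    rw [if_neg hcon]
  have h1 : (x l) ^ 2 ≤ bsq x l.1 := by
    unfold bsq
    exact Finset.single_le_sum (f := fun j : Fin (d l.1) => (x ⟨l.1, j⟩) ^ 2) (fun j _ => sq_nonneg _)
      (Finset.mem_univ l.2)
  have h2 : (x l) ^ 2 ≤ 1 := h1.trans (h l.1)
  exact (sq_le_one_iff_abs_le_one _).1 h2

theorem q_pos (hm : 0 < m) (hd : ∀ i, 1 ≤ d i) (hβ : ∀ i, 0 ≤ β i) (o : Ix d) :
    ∃ δ : ℝ, 0 < δ ∧ ∀ n : ℕ, (∑ i, d i) + 1 ≤ n → ∃ c : ℝ, 0 < c ∧ ∀ y : Ix d → ℝ, (∀ l, |y l| ≤ δ) →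
      ENNReal.ofReal c ≤ Qn β n o y := by
  obtain ⟨c0, hc0, hcap⟩ := cap_low (d := d) (β := β) hm hd hβ
  have := muw_prob (d := d) hβ
  set K : ℝ := (Fintype.card (Ix d) : ℝ) with hK
  have hK0 : 0 ≤ K := by positivity
  set N0 : Ix d → ℝ := Pi.single o 1 with hN0
  have hs0 : ∀ i, sN N0 i = if i = o.1 then 1 else 0 := by
    intro i
    unfold sN bsq
    by_cases hi : i = o.1
    · subst hi
      rw [if_pos rfl]
      have : ∑ j : Fin (d o.1), (N0 ⟨o.1, j⟩) ^ 2 = 1 := by
        rw [Finset.sum_eq_single o.2]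
        · simp [hN0]
        · intro j _ hj
          have : (⟨o.1, j⟩ : Ix d) ≠ o := by
            intro h
            apply hj
            rcases o with ⟨a, b⟩
            simpa using h
          simp [hN0, Pi.single_eq_of_ne this]
        · intro h
          exact absurd (Finset.mem_univ _) h
      rw [this, Real.sqrt_one]
    · rw [if_neg hi]
      have : ∑ j : Fin (d i), (N0 ⟨i, j⟩) ^ 2 = 0 := by
        apply Finset.sum_eq_zero
        intro j _
        have : (⟨i, j⟩ : Ix d) ≠ o := by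
          intro h
          apply hi
          rw [← h]
        simp [hN0, Pi.single_eq_of_ne this]
      rw [this, Real.sqrt_zero]
  have ht0 : tN N0 (1 / 4) = 3 / 4 := by
    unfold tN
    rw [Finset.sum_congr rfl fun i _ => hs0 i, Finset.sum_ite_eq' Finset.univ o.1]
    norm_num [abs_of_pos]
  have hp0 : 0 < ∏ i, (pN N0 (1 / 4) i) ^ (ga d β i) := by
    apply Finset.prod_pos
    intro i _
    apply Real.rpow_pos_of_pos
    unfold pN
    rw [ht0]
    positivity
  have hlow := hcap N0 (1 / 4) (by norm_num) (by rw [ht0]; norm_num)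
  refine ⟨1 / (8 * (K + 1)), by positivity, ?_⟩
  intro n hn
  refine ⟨(c0 * ∏ i, (pN N0 (1 / 4) i) ^ (ga d β i)) ^ (n - ∑ i, d i), by positivity, ?_⟩
  intro y hy
  have hle : muw d β {x | 1 / 4 < dotProduct N0 x} ≤ muw d β {x | y o < dotProduct (Nv o y) x} := by
    apply measure_mono_ae
    filter_upwards [B4_ae (d := d) hβ] with x hx hx'
    have hx1 : 1 / 4 < x o := by
      have : dotProduct N0 x = x o := by simp [hN0]
      rw [← this]
      exact hx'
    show y o < dotProduct (Nv o y) x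
    have hdot : dotProduct (Nv o y) x = x o + ∑ l ∈ Finset.univ.erase o, -(y l * x l) := by
      unfold dotProduct
      rw [← Finset.add_sum_erase _ _ (Finset.mem_univ o)]
      congr 1
      · simp [Nv]
      · apply Finset.sum_congr rfl
        intro l hl
        have hne : l ≠ o := Finset.ne_of_mem_erase hl
        simp [Nv, hne]
    have hsum : -(K * (1 / (8 * (K + 1)))) ≤ ∑ l ∈ Finset.univ.erase o, -(y l * x l) := by
      have h1 : ∑ l ∈ Finset.univ.erase o, -(1 / (8 * (K + 1))) ≤ ∑ l ∈ Finset.univ.erase o, -(y l * x l) := by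
        apply Finset.sum_le_sum
        intro l _
        apply neg_le_neg
        calc y l * x l ≤ |y l * x l| := le_abs_self _
          _ = |y l| * |x l| := abs_mul _ _
          _ ≤ 1 / (8 * (K + 1)) * 1 := mul_le_mul (hy l) (hx l) (abs_nonneg _) (by positivity)
          _ = 1 / (8 * (K + 1)) := mul_one _
      refine le_trans ?_ h1
      rw [Finset.sum_const, nsmul_eq_mul, mul_neg]
      apply neg_le_neg
      apply mul_le_mul_of_nonneg_right _ (by positivity)
      rw [hK]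
      exact_mod_cast (Finset.card_le_card (Finset.subset_univ _)).trans (by simp)
    have hy0 : y o ≤ 1 / (8 * (K + 1)) := (le_abs_self _).trans (hy o)
    have hfin : (K + 1) * (1 / (8 * (K + 1))) = 1 / 8 := by
      field_simp
    rw [hdot]
    nlinarith
  unfold Qn
  refine le_trans ?_ le_self_add
  rw [ENNReal.ofReal_pow (by positivity)]
  exact pow_le_pow_left' (hlow.trans hle) _

end RP
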