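import Pool.Agent.H6.RP.A7

/-! B9: moments of the determinant.

Proofs.  (fin) `s ≥ 0`: bounded integrand on a bounded set.  `-1 < s < 0`: first the lemma
(DETN) `∫⁻ X in [-R,R]^{n×n}, |det X|^s < ∞` for `n × n` matrices, all `R`, by induction on `n`: expand along row `0`
(`Matrix.det_succ_row_zero`): `det X = ∑_j ± X 0 j C_j`, `C_j` depends on the other rows only, `C_0` = determinant of the minor
(rows `1..`, columns `1..`).  For fixed other rows and fixed `X 0 j`, `j ≥ 1`: `∫_{|u| ≤ R} |C_0 u + β|^s du ≤ |C_0|^s ∫_{|v| ≤ R} |v|^s dv`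
(for `s < 0` and `C_0 ≠ 0`: translate, the integral of a decreasing function of `|v|` over an interval of length `2R` is largest when centred), so
the integral is at most `C ∫ |C_0|^s`, induction (`C_0 ≠ 0` almost everywhere).  Reduction of `Dt`: `|Dt o x| = |det (x k l - x o l)_{k, l ≠ o}|` (subtract row `o`); for fixed
`x o` the differences range over a subset of `[-2R,2R]`.
(inf) `s ≤ -1`, `|ι| ≥ 2`: `Dt` is an affine function of the single entry `x k l` (`k ≠ o`, `l ≠ o` fixed) with coefficient `± C`, `C` the minor of the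
matrix with row `k` and column `l` removed.  Restrict to a small product set around a configuration with `Dt = 0`, `C ≠ 0` (all entries in
`(-r, r)`): there for fixed other entries the zero of the affine function lies in the interior of the range of `x k l`, and
`∫ |α u + β|^s du = ∞` over an interval containing the zero.  (Example of such a configuration, `D = |ι| ≥ 2`: `x k' l' = ρ δ_{k' l'}`
for `l' ≠ o`, all `k'`, except row `k` equal to row `o` (zero); then two rows of `Mt` coincide, `Dt = 0`, and the minor of the entry `(k,l = k)` is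
`± ρ^{D-2}`.)
(pos) `Dt ≠ 0` almost everywhere (`Dt_null`) and then `ofReal |Dt| ^ s > 0`; the cube has positive volume. -/

open MeasureTheory
open scoped ENNReal

namespace RP

/-- the cube -/
def cub (ι : Type) (o : ι) (r : ℝ) : Set (ι → {l : ι // l ≠ o} → ℝ) := {x | ∀ k l, |x k l| ≤ r}

/-! ### One variable -/

theorem b9_K (s : ℝ) (hs : -1 < s) :
    ∫⁻ v in Set.Icc (-1 : ℝ) 1, ENNReal.ofReal |v| ^ s < ⊤ := by
  have h1 : ∫⁻ v in Set.Icc (0 : ℝ) 1, ENNReal.ofReal |v| ^ s < ⊤ := by
    rw [setLIntegral_congr (Ioo_ae_eq_Icc (a := (0 : ℝ)) (b := 1)).symm]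
    have h2 : ∫⁻ v in Set.Ioo (0 : ℝ) 1, ENNReal.ofReal |v| ^ s =
        ∫⁻ v in Set.Ioo (0 : ℝ) 1, ENNReal.ofReal (v ^ s) := by
      refine setLIntegral_congr_fun measurableSet_Ioo fun v hv => ?_
      rw [abs_of_pos hv.1, ENNReal.ofReal_rpow_of_pos hv.1]
    rw [h2]
    exact Integrable.lintegral_lt_top
      ((intervalIntegral.integrableOn_Ioo_rpow_iff one_pos).2 hs)
  have h2 : ∫⁻ v in Set.Icc (-1 : ℝ) 0, ENNReal.ofReal |v| ^ s =
      ∫⁻ v in Set.Icc (0 : ℝ) 1, ENNReal.ofReal |v| ^ s := by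
    have h3 := (Measure.measurePreserving_neg (volume : Measure ℝ)).setLIntegral_comp_preimage
      (s := Set.Icc (-1 : ℝ) 0) measurableSet_Icc
      (f := fun v : ℝ => ENNReal.ofReal |v| ^ s) (by fun_prop)
    rw [← h3]
    simp
  calc ∫⁻ v in Set.Icc (-1 : ℝ) 1, ENNReal.ofReal |v| ^ s
      ≤ ∫⁻ v in Set.Icc (-1 : ℝ) 0 ∪ Set.Icc 0 1, ENNReal.ofReal |v| ^ s := by
        refine lintegral_mono_set ?_
        rw [Set.Icc_union_Icc_eq_Icc (by norm_num) (by norm_num)]
    _ ≤ _ := lintegral_union_le _ _ _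
    _ < ⊤ := by rw [h2]; exact ENNReal.add_lt_top.2 ⟨h1, h1⟩

theorem b9_factor (s a b t : ℝ) (ha : a ≠ 0) :
    ENNReal.ofReal |b + t * a| ^ s = ENNReal.ofReal |a| ^ s * ENNReal.ofReal |t + b / a| ^ s := by
  rw [← ENNReal.mul_rpow_of_ne_top ENNReal.ofReal_ne_top ENNReal.ofReal_ne_top,
    ← ENNReal.ofReal_mul (abs_nonneg _), ← abs_mul]
  congr 3
  field_simp
  ring

theorem b9_one (s R : ℝ) (hs : -1 < s) (hs0 : s < 0) :
    ∃ C : ℝ≥0∞, C ≠ ⊤ ∧ ∀ a b : ℝ,
      ∫⁻ t in Set.Icc (-R) R, ENNReal.ofReal |b + t * a| ^ s ≤ C * ENNReal.ofReal |a| ^ s := by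
  set K := ∫⁻ v in Set.Icc (-1 : ℝ) 1, ENNReal.ofReal |v| ^ s with hK
  have hK' : K ≠ ⊤ := (b9_K s hs).ne
  refine ⟨volume (Set.Icc (-R) R) + K + 1, by
    simp [hK', Real.volume_Icc], fun a b => ?_⟩
  by_cases ha : a = 0
  · rw [ha, abs_zero, ENNReal.ofReal_zero, ENNReal.zero_rpow_of_neg hs0,
      ENNReal.mul_top (by simp)]
    exact le_top
  · simp only [b9_factor s a b _ ha]
    rw [lintegral_const_mul _ (by fun_prop), mul_comm]
    refine mul_le_mul_left ?_ _
    have h1 : ∀ v : ℝ, ENNReal.ofReal |v| ^ s ≤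
        1 + (Set.Icc (-1 : ℝ) 1).indicator (fun v => ENNReal.ofReal |v| ^ s) v := by
      intro v
      by_cases hv : |v| ≤ 1
      · rw [Set.indicator_of_mem (Set.mem_Icc.2 (abs_le.1 hv))]
        exact le_add_self
      · refine le_trans ?_ le_self_add
        refine ENNReal.rpow_le_one_of_one_le_of_neg ?_ hs0
        rw [ENNReal.one_le_ofReal]
        exact (not_le.1 hv).le
    calc ∫⁻ t in Set.Icc (-R) R, ENNReal.ofReal |t + b / a| ^ s
        ≤ ∫⁻ t in Set.Icc (-R) R, (1 +
            (Set.Icc (-1 : ℝ) 1).indicator (fun v => ENNReal.ofReal |v| ^ s) (t + b / a)) :=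
          lintegral_mono fun t => h1 _
      _ = volume (Set.Icc (-R) R) + ∫⁻ t in Set.Icc (-R) R,
            (Set.Icc (-1 : ℝ) 1).indicator (fun v => ENNReal.ofReal |v| ^ s) (t + b / a) := by
          rw [lintegral_add_left measurable_const]
          simp
      _ ≤ volume (Set.Icc (-R) R) + ∫⁻ t,
            (Set.Icc (-1 : ℝ) 1).indicator (fun v => ENNReal.ofReal |v| ^ s) (t + b / a) := by
          gcongr
          exact Measure.restrict_le_self
      _ = volume (Set.Icc (-R) R) + K := by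
          rw [lintegral_add_right_eq_self
            (fun t => (Set.Icc (-1 : ℝ) 1).indicator (fun v => ENNReal.ofReal |v| ^ s) t) (b / a),
            lintegral_indicator measurableSet_Icc]
      _ ≤ _ := le_self_add

theorem b9_inf1 (s r a b : ℝ) (hs : s ≤ -1) (ha : a ≠ 0) (hb : |b| < r * |a|) :
    ∫⁻ t in Set.Icc (-r) r, ENNReal.ofReal |b + t * a| ^ s = ⊤ := by
  have hc : |b / a| < r := by
    rw [abs_div, div_lt_iff₀ (abs_pos.2 ha)]
    exact hb
  obtain ⟨hc1, hc2⟩ := abs_lt.1 hc
  set c := b / a with hcd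
  have hε : 0 < r + c := by linarith
  simp only [b9_factor s a b _ ha]
  rw [lintegral_const_mul _ (by fun_prop)]
  have h1 : ∫⁻ t in Set.Icc (-r) r, ENNReal.ofReal |t + c| ^ s = ⊤ := by
    rw [← top_le_iff]
    have h2 : ∫⁻ v in Set.Ioo (0 : ℝ) (r + c), ENNReal.ofReal (v ^ s) = ⊤ := by
      by_contra hne
      have h3 : IntegrableOn (fun v : ℝ => v ^ s) (Set.Ioo 0 (r + c)) := by
        refine ⟨by fun_prop, ?_⟩
        rw [hasFiniteIntegral_iff_ofReal]
        · exact lt_of_le_of_ne le_top hne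
        · refine (ae_restrict_iff' measurableSet_Ioo).2 (ae_of_all _ fun v hv => ?_)
          exact Real.rpow_nonneg hv.1.le s
      have h4 := (intervalIntegral.integrableOn_Ioo_rpow_iff hε).1 h3
      linarith
    have h5 : ∫⁻ t in Set.Ioo (-c) r, ENNReal.ofReal |t + c| ^ s = ⊤ := by
      have h6 := (measurePreserving_add_right (volume : Measure ℝ) c).setLIntegral_comp_preimage
        (s := Set.Ioo (0 : ℝ) (r + c)) measurableSet_Ioo
        (f := fun v : ℝ => ENNReal.ofReal |v| ^ s) (by fun_prop)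
      have h7 : (fun x : ℝ => x + c) ⁻¹' Set.Ioo 0 (r + c) = Set.Ioo (-c) r := by
        ext x
        simp only [Set.mem_preimage, Set.mem_Ioo]
        constructor <;> rintro ⟨h, h'⟩ <;> constructor <;> linarith
      rw [h7] at h6
      rw [h6, ← h2]
      refine setLIntegral_congr_fun measurableSet_Ioo fun v hv => ?_
      rw [abs_of_pos hv.1, ENNReal.ofReal_rpow_of_pos hv.1]
    rw [← h5]
    refine lintegral_mono_set ?_
    intro t ht
    exact ⟨by linarith [ht.1], ht.2.le⟩
  rw [h1, ENNReal.mul_top]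
  have h2 : ENNReal.ofReal |a| ≠ 0 := by
    simpa using ha
  exact (ENNReal.rpow_pos (pos_iff_ne_zero.2 h2) ENNReal.ofReal_ne_top).ne'

/-! ### Functions which are affine in each variable -/

/-- the cube of `ℝ^n` -/
def b9_Q (n : ℕ) (R : ℝ) : Set (Fin n → ℝ) := {x | ∀ j, |x j| ≤ R}

theorem b9_Q_meas (n : ℕ) (R : ℝ) : MeasurableSet (b9_Q n R) := by
  unfold b9_Q
  have : {x : Fin n → ℝ | ∀ j, |x j| ≤ R} = ⋂ j, {x | |x j| ≤ R} := by
    ext x; simp
  rw [this]
  exact MeasurableSet.iInter fun j => measurableSet_le (by fun_prop) measurable_const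

/-- continuous, affine in each variable -/
structure b9_MA {n : ℕ} (P : (Fin n → ℝ) → ℝ) : Prop where
  cont : Continuous P
  aff : ∀ i x t, P (Function.update x i t) =
    P (Function.update x i 0) + t * (P (Function.update x i 1) - P (Function.update x i 0))

theorem b9_split {n : ℕ} (i : Fin (n + 1)) (R : ℝ) (F : (Fin (n + 1) → ℝ) → ℝ≥0∞)
    (hF : Measurable F) :
    ∫⁻ x in b9_Q (n + 1) R, F x =
      ∫⁻ y in b9_Q n R, ∫⁻ t in Set.Icc (-R) R, F (i.insertNth t y) := by
  have h1 := (volume_preserving_piFinSuccAbove (fun _ : Fin (n + 1) => ℝ) i).symm.lintegral_comp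
    (f := (b9_Q (n + 1) R).indicator F) (hF.indicator (b9_Q_meas _ _))
  rw [lintegral_indicator (b9_Q_meas _ _)] at h1
  rw [← h1]
  have hmeas : Measurable (fun z : ℝ × (Fin n → ℝ) => (b9_Q (n + 1) R).indicator F
      ((MeasurableEquiv.piFinSuccAbove (fun _ : Fin (n + 1) => ℝ) i).symm z)) :=
    (hF.indicator (b9_Q_meas _ _)).comp (MeasurableEquiv.measurable _)
  rw [Measure.volume_eq_prod, lintegral_prod_symm _ hmeas.aemeasurable,
    ← lintegral_indicator (b9_Q_meas _ _)]
  refine lintegral_congr fun y => ?_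
  have hmem : ∀ t, (i.insertNth t y : Fin (n + 1) → ℝ) ∈ b9_Q (n + 1) R ↔
      t ∈ Set.Icc (-R) R ∧ y ∈ b9_Q n R := by
    intro t
    simp only [b9_Q, Set.mem_ofPred_eq, Fin.forall_iff_succAbove i, Fin.insertNth_apply_same,
      Fin.insertNth_apply_succAbove, Set.mem_Icc, abs_le]
  by_cases hy : y ∈ b9_Q n R
  · rw [Set.indicator_of_mem hy, ← lintegral_indicator measurableSet_Icc]
    refine lintegral_congr fun t => ?_
    have e : (MeasurableEquiv.piFinSuccAbove (fun _ : Fin (n + 1) => ℝ) i).symm (t, y) =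
        i.insertNth t y := rfl
    rw [e]
    by_cases ht : t ∈ Set.Icc (-R) R
    · rw [Set.indicator_of_mem ((hmem t).2 ⟨ht, hy⟩), Set.indicator_of_mem ht]
    · rw [Set.indicator_of_notMem (fun h => ht ((hmem t).1 h).1), Set.indicator_of_notMem ht]
  · rw [Set.indicator_of_notMem hy]
    rw [lintegral_eq_zero_iff (by
      exact hmeas.comp (by fun_prop))]
    refine ae_of_all _ fun t => ?_
    have e : (MeasurableEquiv.piFinSuccAbove (fun _ : Fin (n + 1) => ℝ) i).symm (t, y) =
        i.insertNth t y := rfl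
    simp only [e]
    rw [Set.indicator_of_notMem (fun h => hy ((hmem t).1 h).2)]
    rfl

theorem b9_update_insertNth {n : ℕ} (i : Fin (n + 1)) (c t : ℝ) (y : Fin n → ℝ) :
    Function.update (i.insertNth c y : Fin (n + 1) → ℝ) i t = i.insertNth t y := by
  funext j
  refine Fin.succAboveCases i ?_ (fun j => ?_) j <;> simp

theorem b9_insertNth_update {n : ℕ} (i : Fin (n + 1)) (c t : ℝ) (y : Fin n → ℝ) (j : Fin n) :
    (i.insertNth c (Function.update y j t) : Fin (n + 1) → ℝ) =
      Function.update (i.insertNth c y : Fin (n + 1) → ℝ) (i.succAbove j) t := by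
  funext k
  refine Fin.succAboveCases i ?_ (fun k => ?_) k
  · rw [Fin.insertNth_apply_same, Function.update_of_ne (Fin.succAbove_ne i j).symm,
      Fin.insertNth_apply_same]
  · rw [Fin.insertNth_apply_succAbove]
    by_cases h : k = j
    · subst h; simp
    · rw [Function.update_of_ne h, Function.update_of_ne
        (fun h' => h (Fin.succAbove_right_injective h')), Fin.insertNth_apply_succAbove]

theorem b9_insertNth_cont {n : ℕ} (i : Fin (n + 1)) (c : ℝ) :
    Continuous (fun y : Fin n → ℝ => (i.insertNth c y : Fin (n + 1) → ℝ)) := by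
  refine continuous_pi fun k => ?_
  refine Fin.succAboveCases i ?_ (fun k => ?_) k
  · simp only [Fin.insertNth_apply_same]; exact continuous_const
  · simp only [Fin.insertNth_apply_succAbove]; exact continuous_apply k

theorem b9_MA_aff {n : ℕ} {P : (Fin (n + 1) → ℝ) → ℝ} (hP : b9_MA P) (i : Fin (n + 1)) (t : ℝ)
    (y : Fin n → ℝ) : P (i.insertNth t y) =
      P (i.insertNth 0 y) + t * (P (i.insertNth 1 y) - P (i.insertNth 0 y)) := by
  have h := hP.aff i (i.insertNth 0 y) t
  simpa only [b9_update_insertNth] using h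

theorem b9_MA_res {n : ℕ} {P : (Fin (n + 1) → ℝ) → ℝ} (hP : b9_MA P) (i : Fin (n + 1)) (c : ℝ) :
    b9_MA (fun y : Fin n → ℝ => P (i.insertNth c y)) := by
  refine ⟨hP.cont.comp (b9_insertNth_cont i c), fun j y t => ?_⟩
  have h := hP.aff (i.succAbove j) (i.insertNth c y) t
  simpa only [b9_insertNth_update] using h

theorem b9_MA_sub {n : ℕ} {P P' : (Fin n → ℝ) → ℝ} (hP : b9_MA P) (hP' : b9_MA P') :
    b9_MA (fun y => P y - P' y) := by
  refine ⟨hP.cont.sub hP'.cont, fun j y t => ?_⟩
  rw [hP.aff j y t, hP'.aff j y t]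
  ring

theorem b9_fin (s R : ℝ) (hs : -1 < s) (hs0 : s < 0) : ∀ (n : ℕ) (P : (Fin n → ℝ) → ℝ),
    b9_MA P → (∃ x, P x ≠ 0) → ∫⁻ x in b9_Q n R, ENNReal.ofReal |P x| ^ s < ⊤ := by
  intro n
  induction n with
  | zero =>
    rintro P - ⟨x, hx⟩
    have h1 : ∀ y, P y = P x := fun y => congrArg P (Subsingleton.elim _ _)
    simp only [h1]
    rw [lintegral_const]
    refine ENNReal.mul_lt_top ?_ ?_
    · refine lt_top_iff_ne_top.2 ?_
      refine ENNReal.rpow_ne_top_of_ne_zero ?_ ENNReal.ofReal_ne_top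
      simpa using hx
    · rw [Measure.restrict_apply MeasurableSet.univ, Set.univ_inter]
      exact lt_of_le_of_lt (measure_mono (Set.subset_univ _))
        (Set.finite_univ.isCompact.measure_lt_top)
  | succ n ih =>
    rintro P hP ⟨x, hx⟩
    rw [b9_split 0 R _ (by
      have := hP.cont
      fun_prop)]
    set B : (Fin n → ℝ) → ℝ := fun y => P ((0 : Fin (n + 1)).insertNth 0 y) with hB
    set A : (Fin n → ℝ) → ℝ := fun y => P ((0 : Fin (n + 1)).insertNth 1 y) - B y with hA
    have haff : ∀ t y, P ((0 : Fin (n + 1)).insertNth t y) = B y + t * A y := fun t y =>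
      b9_MA_aff hP 0 t y
    simp only [haff]
    by_cases hAne : ∃ y, A y ≠ 0
    · obtain ⟨C, hC, hCb⟩ := b9_one s R hs hs0
      have hAMA : b9_MA A := b9_MA_sub (b9_MA_res hP 0 1) (b9_MA_res hP 0 0)
      refine lt_of_le_of_lt (lintegral_mono fun y => hCb (A y) (B y)) ?_
      rw [lintegral_const_mul' _ _ hC]
      exact ENNReal.mul_lt_top (lt_top_iff_ne_top.2 hC) (ih A hAMA hAne)
    · push Not at hAne
      simp only [hAne, mul_zero, add_zero]
      simp only [setLIntegral_const]
      rw [lintegral_mul_const' _ _ (by simp [Real.volume_Icc])]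
      refine ENNReal.mul_lt_top (ih B (b9_MA_res hP 0 0) ?_) (by simp [Real.volume_Icc])
      refine ⟨fun j => x j.succ, ?_⟩
      have h2 : x = (0 : Fin (n + 1)).insertNth (x 0) (fun j => x j.succ) := by
        funext k
        refine Fin.succAboveCases 0 ?_ (fun k => ?_) k <;> simp
      rw [h2, haff, hAne, mul_zero, add_zero] at hx
      exact hx

theorem b9_infN (s r : ℝ) (hs : s ≤ -1) (n : ℕ) (P : (Fin (n + 1) → ℝ) → ℝ) (hP : b9_MA P)
    (x0 : Fin (n + 1) → ℝ) (hx0 : ∀ j, |x0 j| < r) (hP0 : P x0 = 0) (i : Fin (n + 1))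
    (hi : P (Function.update x0 i 1) - P (Function.update x0 i 0) ≠ 0) :
    ∫⁻ x in b9_Q (n + 1) r, ENNReal.ofReal |P x| ^ s = ⊤ := by
  rw [b9_split i r _ (by
    have := hP.cont
    fun_prop)]
  set B : (Fin n → ℝ) → ℝ := fun y => P (i.insertNth 0 y) with hB
  set A : (Fin n → ℝ) → ℝ := fun y => P (i.insertNth 1 y) - B y with hA
  have haff : ∀ t y, P (i.insertNth t y) = B y + t * A y := fun t y => b9_MA_aff hP i t y
  have hAc : Continuous A := (b9_MA_sub (b9_MA_res hP i 1) (b9_MA_res hP i 0)).cont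
  have hBc : Continuous B := (b9_MA_res hP i 0).cont
  simp only [haff]
  set y0 : Fin n → ℝ := fun j => x0 (i.succAbove j) with hy0
  have hx0' : ∀ c, Function.update x0 i c = i.insertNth c y0 := by
    intro c
    funext k
    refine Fin.succAboveCases i ?_ (fun k => ?_) k
    · simp
    · simp [hy0, Fin.succAbove_ne]
  have hx0'' : x0 = i.insertNth (x0 i) y0 := by
    rw [← hx0', Function.update_eq_self]
  have hA0 : A y0 ≠ 0 := by
    simpa only [hA, hB, ← hx0'] using hi
  have hB0 : |B y0| < r * |A y0| := by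
    have h1 : B y0 + x0 i * A y0 = 0 := by rw [← haff, ← hx0'', hP0]
    have h2 : B y0 = -(x0 i * A y0) := by linarith
    rw [h2, abs_neg, abs_mul]
    exact mul_lt_mul_of_pos_right (hx0 i) (abs_pos.2 hA0)
  set V : Set (Fin n → ℝ) := {y | A y ≠ 0 ∧ |B y| < r * |A y| ∧ ∀ j, |y j| < r} with hV
  have hVo : IsOpen V := by
    have h1 : IsOpen {y : Fin n → ℝ | A y ≠ 0} := isOpen_ne_fun hAc continuous_const
    have h2 : IsOpen {y : Fin n → ℝ | |B y| < r * |A y|} :=
      isOpen_lt hBc.abs (continuous_const.mul hAc.abs)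
    have h3 : IsOpen {y : Fin n → ℝ | ∀ j, |y j| < r} := by
      have : {y : Fin n → ℝ | ∀ j, |y j| < r} = ⋂ j, {y | |y j| < r} := by ext; simp
      rw [this]
      exact isOpen_iInter_of_finite fun j => isOpen_lt (continuous_apply j).abs continuous_const
    exact h1.inter (h2.inter h3)
  have hVy : y0 ∈ V := ⟨hA0, hB0, fun j => hx0 _⟩
  have hVpos : 0 < volume V := hVo.measure_pos _ ⟨y0, hVy⟩
  rw [← top_le_iff]
  calc (⊤ : ℝ≥0∞) = ∫⁻ _ in V, (⊤ : ℝ≥0∞) := by
        rw [setLIntegral_const, ENNReal.top_mul hVpos.ne']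
    _ = ∫⁻ y in V, ∫⁻ t in Set.Icc (-r) r, ENNReal.ofReal |B y + t * A y| ^ s := by
        refine setLIntegral_congr_fun hVo.measurableSet fun y hy => ?_
        exact (b9_inf1 s r (A y) (B y) hs hy.1 hy.2.1).symm
    _ ≤ _ := lintegral_mono_set fun y hy j => (hy.2.2 j).le

/-! ### The determinant -/

section det

variable {ι : Type} [Fintype ι] [DecidableEq ι] {o : ι} {n : ℕ}

/-- the coordinates -/
noncomputable def b9_L (e : (ι × {l : ι // l ≠ o}) ≃ Fin n) :
    (Fin n → ℝ) ≃L[ℝ] (ι → {l : ι // l ≠ o} → ℝ) :=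
  LinearEquiv.toContinuousLinearEquiv
    { toFun := fun y k l => y (e (k, l))
      invFun := fun x c => x (e.symm c).1 (e.symm c).2
      left_inv := fun y => by funext c; simp
      right_inv := fun x => by funext k l; simp
      map_add' := fun _ _ => rfl
      map_smul' := fun _ _ => rfl }

omit [Fintype ι] [DecidableEq ι] in
theorem b9_L_apply (e : (ι × {l : ι // l ≠ o}) ≃ Fin n) (y : Fin n → ℝ) (k : ι)
    (l : {l : ι // l ≠ o}) : b9_L e y k l = y (e (k, l)) := rfl

omit [DecidableEq ι] in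
theorem cub_meas (r : ℝ) : MeasurableSet (cub ι o r) := by
  have : cub ι o r = ⋂ k, ⋂ l, {x | |x k l| ≤ r} := by
    ext x; simp [cub]
  rw [this]
  exact MeasurableSet.iInter fun k => MeasurableSet.iInter fun l =>
    measurableSet_le (by fun_prop) measurable_const

theorem b9_transfer (e : (ι × {l : ι // l ≠ o}) ≃ Fin n) (r : ℝ) :
    ∃ c : ℝ≥0∞, c ≠ 0 ∧ c ≠ ⊤ ∧ ∀ F : (ι → {l : ι // l ≠ o} → ℝ) → ℝ≥0∞, Measurable F →
      ∫⁻ x in cub ι o r, F x = c * ∫⁻ y in b9_Q n r, F (b9_L e y) := by
  have : Measure.IsAddHaarMeasure (Measure.map (b9_L e) (volume : Measure (Fin n → ℝ))) :=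
    (b9_L e).isAddHaarMeasure_map volume
  have hc := Measure.isAddLeftInvariant_eq_smul
    (volume : Measure (ι → {l : ι // l ≠ o} → ℝ)) (Measure.map (b9_L e) (volume : Measure (Fin n → ℝ)))
  set c := Measure.addHaarScalarFactor (volume : Measure (ι → {l : ι // l ≠ o} → ℝ))
    (Measure.map (b9_L e) (volume : Measure (Fin n → ℝ))) with hcdef
  have hc0 : c ≠ 0 := by
    intro h0
    rw [h0, zero_smul] at hc
    have h1 := isOpen_univ.measure_pos (volume : Measure (ι → {l : ι // l ≠ o} → ℝ))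
      ⟨fun _ _ => 0, Set.mem_univ _⟩
    rw [hc] at h1
    simp at h1
  refine ⟨c, by simpa using hc0, ENNReal.coe_ne_top, fun F hF => ?_⟩
  rw [hc, Measure.restrict_smul, lintegral_smul_measure,
    setLIntegral_map (cub_meas r) hF (b9_L e).continuous.measurable]
  have : (b9_L e) ⁻¹' cub ι o r = b9_Q n r := by
    ext y
    simp only [Set.mem_preimage, cub, b9_Q, Set.mem_ofPred_eq, b9_L_apply]
    constructor
    · intro h c
      have := h (e.symm c).1 (e.symm c).2
      simpa using this
    · intro h k l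
      exact h _
  rw [this]
  rfl

/-- the determinant in coordinates -/
noncomputable def b9_P (e : (ι × {l : ι // l ≠ o}) ≃ Fin n) (y : Fin n → ℝ) : ℝ :=
  Dt o (fun k => ext0 o (b9_L e y k))

theorem Dt_cont : Continuous (fun x : ι → {l : ι // l ≠ o} → ℝ =>
    Dt o (fun k => ext0 o (x k))) := by
  unfold Dt
  refine Continuous.matrix_det ?_
  refine continuous_matrix fun k l => ?_
  unfold Mt ext0
  by_cases h : l = o
  · simp only [h, if_true]; exact continuous_const
  · simp only [h, if_false, dite_false]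
    fun_prop

theorem b9_aff (e : (ι × {l : ι // l ≠ o}) ≃ Fin n) (y : Fin n → ℝ) (k0 : ι)
    (l0 : {l : ι // l ≠ o}) (t : ℝ) :
    b9_P e (Function.update y (e (k0, l0)) t) =
      ((Mt o (fun k => ext0 o (b9_L e y k))).updateRow k0
        (Function.update (Mt o (fun k => ext0 o (b9_L e y k)) k0) (l0 : ι) 0)).det +
      t * ((Mt o (fun k => ext0 o (b9_L e y k))).updateRow k0
        (Pi.single (l0 : ι) (1 : ℝ))).det := by
  have hval0 : ∀ (z : Fin n → ℝ) k, Mt o (fun k => ext0 o (b9_L e z k)) k o = 1 := by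
    intro z k
    simp [Mt]
  have hval : ∀ (z : Fin n → ℝ) k l (hl : l ≠ o),
      Mt o (fun k => ext0 o (b9_L e z k)) k l = z (e (k, ⟨l, hl⟩)) := by
    intro z k l hl
    simp [Mt, ext0, hl, b9_L_apply]
  have h1 : Mt o (fun k => ext0 o (b9_L e (Function.update y (e (k0, l0)) t) k)) =
      (Mt o (fun k => ext0 o (b9_L e y k))).updateRow k0
        (Function.update (Mt o (fun k => ext0 o (b9_L e y k)) k0)
          (l0 : ι) 0 + t • Pi.single (l0 : ι) (1 : ℝ)) := by
    ext k l
    rw [Matrix.updateRow_apply, Pi.add_apply, Pi.smul_apply, smul_eq_mul]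
    by_cases hl : l = o
    · subst hl
      have hne : l ≠ (l0 : ι) := fun h => l0.2 h.symm
      rw [hval0, Function.update_of_ne hne, Pi.single_eq_of_ne hne, hval0, hval0]
      simp
    · rw [hval _ _ _ hl]
      by_cases hk : k = k0
      · subst hk
        rw [if_pos rfl]
        by_cases hl' : l = (l0 : ι)
        · subst hl'
          simp
        · rw [Function.update_of_ne, Function.update_of_ne hl', Pi.single_eq_of_ne hl',
            hval _ _ _ hl]
          · simp
          · intro h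
            have := e.injective h
            apply hl'
            have := congrArg (fun z => ((z.2 : {l : ι // l ≠ o}) : ι)) this
            simpa using this
      · rw [if_neg hk, Function.update_of_ne, hval _ _ _ hl]
        intro h
        have := e.injective h
        apply hk
        have := congrArg Prod.fst this
        simpa using this
  unfold b9_P Dt
  rw [h1, Matrix.det_updateRow_add, Matrix.det_updateRow_smul]

theorem b9_P_MA (e : (ι × {l : ι // l ≠ o}) ≃ Fin n) : b9_MA (b9_P e) := by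
  refine ⟨Dt_cont.comp (b9_L e).continuous, fun c y t => ?_⟩
  obtain ⟨⟨k0, l0⟩, rfl⟩ := e.surjective c
  rw [b9_aff e y k0 l0 t, b9_aff e y k0 l0 0, b9_aff e y k0 l0 1]
  ring

end det

theorem det_fin (ι : Type) [Fintype ι] [DecidableEq ι] (o : ι) (s r : ℝ) (hs : -1 < s) :
    ∫⁻ x in cub ι o r, ENNReal.ofReal |Dt o (fun k => ext0 o (x k))| ^ s < ⊤ := by
  classical
  set e := Fintype.equivFin (ι × {l : ι // l ≠ o}) with he
  obtain ⟨c, hc0, hc1, hc⟩ := b9_transfer e r
  have hmeas : Measurable (fun x : ι → {l : ι // l ≠ o} → ℝ =>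
      ENNReal.ofReal |Dt o (fun k => ext0 o (x k))| ^ s) := by
    exact (ENNReal.measurable_ofReal.comp
      (continuous_abs.measurable.comp (Dt_cont (o := o)).measurable)).pow_const s
  rw [hc _ hmeas]
  refine ENNReal.mul_lt_top (lt_top_iff_ne_top.2 hc1) ?_
  change ∫⁻ y in b9_Q _ r, ENNReal.ofReal |b9_P e y| ^ s < ⊤
  rcases lt_or_ge s 0 with hs0 | hs0
  · refine b9_fin s r hs hs0 _ _ (b9_P_MA e) ?_
    -- a nonzero value
    by_contra hcon
    push Not at hcon
    have h1 : {x : ι → {l // l ≠ o} → ℝ | Dt o (fun k => ext0 o (x k)) = 0} = Set.univ := by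
      ext x
      simp only [Set.mem_ofPred_eq, Set.mem_univ, iff_true]
      have := hcon ((b9_L e).symm x)
      unfold b9_P at this
      simpa using this
    have h2 := Dt_null ι o
    rw [h1] at h2
    exact (NeZero.ne (volume (Set.univ : Set (ι → {l // l ≠ o} → ℝ)))) h2
  · -- bounded integrand
    have hcpt : IsCompact (b9_Q (Fintype.card (ι × {l : ι // l ≠ o})) r) := by
      have : b9_Q (Fintype.card (ι × {l : ι // l ≠ o})) r =
          Set.pi Set.univ (fun _ => Set.Icc (-r) r) := by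
        ext x
        simp only [b9_Q, Set.mem_ofPred_eq, Set.mem_pi, Set.mem_univ, true_imp_iff, Set.mem_Icc,
          abs_le]
      rw [this]
      exact isCompact_univ_pi fun _ => isCompact_Icc
    obtain ⟨B, hB⟩ := hcpt.exists_bound_of_continuousOn (b9_P_MA e).cont.continuousOn
    calc ∫⁻ y in b9_Q _ r, ENNReal.ofReal |b9_P e y| ^ s
        ≤ ∫⁻ _ in b9_Q (Fintype.card (ι × {l : ι // l ≠ o})) r, ENNReal.ofReal B ^ s := by
          refine setLIntegral_mono measurable_const fun y hy => ?_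
          exact ENNReal.rpow_le_rpow (ENNReal.ofReal_le_ofReal (hB y hy)) hs0
      _ = ENNReal.ofReal B ^ s * volume (b9_Q (Fintype.card (ι × {l : ι // l ≠ o})) r) := by
          rw [setLIntegral_const]
      _ < ⊤ := ENNReal.mul_lt_top (ENNReal.rpow_lt_top_of_nonneg hs0 ENNReal.ofReal_ne_top)
          hcpt.measure_lt_top

theorem det_inf (ι : Type) [Fintype ι] [DecidableEq ι] (o : ι) (hc : 2 ≤ Fintype.card ι) (s r : ℝ) (hs : s ≤ -1)
    (hr : 0 < r) :
    ∫⁻ x in cub ι o r, ENNReal.ofReal |Dt o (fun k => ext0 o (x k))| ^ s = ⊤ := by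
  classical
  obtain ⟨k0, hk0⟩ : ∃ k0 : ι, k0 ≠ o := by
    have : Nontrivial ι := Fintype.one_lt_card_iff_nontrivial.1 (by omega)
    exact exists_ne o
  obtain ⟨n, hn⟩ : ∃ n, Fintype.card (ι × {l : ι // l ≠ o}) = n + 1 := by
    refine Nat.exists_eq_succ_of_ne_zero ?_
    have : Nonempty (ι × {l : ι // l ≠ o}) := ⟨(o, ⟨k0, hk0⟩)⟩
    exact Fintype.card_ne_zero
  set e : (ι × {l : ι // l ≠ o}) ≃ Fin (n + 1) := Fintype.equivFinOfCardEq hn with he
  obtain ⟨c, hc0, hc1, hct⟩ := b9_transfer e r
  have hmeas : Measurable (fun x : ι → {l : ι // l ≠ o} → ℝ =>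
      ENNReal.ofReal |Dt o (fun k => ext0 o (x k))| ^ s) := by
    exact (ENNReal.measurable_ofReal.comp
      (continuous_abs.measurable.comp (Dt_cont (o := o)).measurable)).pow_const s
  rw [hct _ hmeas]
  change c * ∫⁻ y in b9_Q _ r, ENNReal.ofReal |b9_P e y| ^ s = ⊤
  -- the configuration
  set x0 : ι → {l : ι // l ≠ o} → ℝ := fun k l => if k = (l : ι) ∧ k ≠ k0 then r / 2 else 0 with hx0
  set y0 := (b9_L e).symm x0 with hy0
  have hLy0 : b9_L e y0 = x0 := (b9_L e).apply_symm_apply x0
  have hM : ∀ k l, Mt o (fun k => ext0 o (b9_L e y0 k)) k l =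
      if l = o then 1 else if k = l ∧ k ≠ k0 then r / 2 else 0 := by
    intro k l
    rw [hLy0]
    by_cases hl : l = o
    · simp [Mt, hl]
    · simp [Mt, ext0, hl, hx0]
  rw [b9_infN s r hs n (b9_P e) (b9_P_MA e) y0 ?_ ?_ (e (k0, ⟨k0, hk0⟩)) ?_, ENNReal.mul_top hc0]
  · intro j
    obtain ⟨⟨k, l⟩, rfl⟩ := e.surjective j
    have : y0 (e (k, l)) = x0 k l := by
      have h1 : y0 (e (k, l)) = b9_L e y0 k l := rfl
      rw [h1, hLy0]
    rw [this]
    simp only [hx0]
    split_ifs
    · rw [abs_of_pos (by linarith)]; linarith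
    · simpa using hr
  · unfold b9_P Dt
    refine Matrix.det_zero_of_row_eq hk0 ?_
    funext l
    rw [hM, hM]
    by_cases hl : l = o
    · simp [hl]
    · simp [hl, Ne.symm hl]
  · rw [b9_aff e y0 k0 ⟨k0, hk0⟩ 1, b9_aff e y0 k0 ⟨k0, hk0⟩ 0]
    have h1 : ((Mt o (fun k => ext0 o (b9_L e y0 k))).updateRow k0
        (Pi.single k0 (1 : ℝ))).det ≠ 0 := by
      intro h0
      obtain ⟨v, hv, hv0⟩ := Matrix.exists_mulVec_eq_zero_iff.2 h0
      apply hv
      have hk : v k0 = 0 := by
        have := congrFun hv0 k0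
        simpa [Matrix.mulVec, dotProduct, Matrix.updateRow_apply, Pi.single_apply] using this
      have hrow : ∀ k, k ≠ k0 → v o + (if k = o then 0 else r / 2 * v k) = 0 := by
        intro k hkk
        have h2 := congrFun hv0 k
        simp only [Matrix.mulVec, dotProduct, Matrix.updateRow_apply, if_neg hkk, hM,
          Pi.zero_apply] at h2
        have h3 : ∀ l, (if l = o then (1 : ℝ) else if k = l ∧ k ≠ k0 then r / 2 else 0) * v l =
            (if l = o then v o else 0) + (if l = k then (if k = o then 0 else r / 2 * v k) else 0) := by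
          intro l
          by_cases hl : l = o
          · subst hl
            by_cases hlk : l = k
            · subst hlk; simp
            · simp [hlk]
          · by_cases hlk : l = k
            · subst hlk; simp [hl, hkk]
            · simp [hl, hlk, Ne.symm hlk]
        simp only [h3] at h2
        rw [Finset.sum_add_distrib] at h2
        simpa using h2
      have ho : v o = 0 := by
        have := hrow o hk0.symm
        simpa using this
      funext k
      by_cases hkk : k = k0
      · rw [hkk, hk]; rfl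
      · by_cases hko : k = o
        · rw [hko, ho]; rfl
        · have h4 := hrow k hkk
          rw [ho, zero_add, if_neg hko] at h4
          have h5 : r / 2 ≠ 0 := by positivity
          exact (mul_eq_zero.1 h4).resolve_left h5
    simpa using h1

theorem det_pos (ι : Type) [Fintype ι] [DecidableEq ι] (o : ι) (s r : ℝ) (hr : 0 < r) :
    0 < ∫⁻ x in cub ι o r, ENNReal.ofReal |Dt o (fun k => ext0 o (x k))| ^ s := by
  have hmeas : Measurable (fun x : ι → {l : ι // l ≠ o} → ℝ =>
      ENNReal.ofReal |Dt o (fun k => ext0 o (x k))| ^ s) := by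
    exact (ENNReal.measurable_ofReal.comp
      (continuous_abs.measurable.comp (Dt_cont (o := o)).measurable)).pow_const s
  rw [lintegral_pos_iff_support hmeas]
  have h1 : 0 < volume (cub ι o r) := by
    have h2 : IsOpen {x : ι → {l : ι // l ≠ o} → ℝ | ∀ k l, |x k l| < r} := by
      have : {x : ι → {l : ι // l ≠ o} → ℝ | ∀ k l, |x k l| < r} = ⋂ k, ⋂ l, {x | |x k l| < r} := by
        ext x; simp
      rw [this]
      refine isOpen_iInter_of_finite fun k => isOpen_iInter_of_finite fun l => ?_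
      exact isOpen_lt (by fun_prop) continuous_const
    refine lt_of_lt_of_le (h2.measure_pos volume ⟨fun _ _ => 0, fun k l => by simpa using hr⟩) ?_
    exact measure_mono fun x hx k l => (hx k l).le
  have h2 : (volume.restrict (cub ι o r)) {x | Dt o (fun k => ext0 o (x k)) = 0} = 0 :=
    le_antisymm ((Measure.restrict_apply_le _ _).trans (Dt_null ι o).le) bot_le
  have h3 : 0 < (volume.restrict (cub ι o r)) Set.univ := by
    rw [Measure.restrict_apply MeasurableSet.univ, Set.univ_inter]
    exact h1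
  have h4 : (Set.univ : Set (ι → {l : ι // l ≠ o} → ℝ)) ⊆
      Function.support (fun x : ι → {l : ι // l ≠ o} → ℝ =>
        ENNReal.ofReal |Dt o (fun k => ext0 o (x k))| ^ s) ∪
      {x | Dt o (fun k => ext0 o (x k)) = 0} := by
    intro x _
    by_cases hx : Dt o (fun k => ext0 o (x k)) = 0
    · right; exact hx
    · left
      rw [Function.mem_support]
      refine (ENNReal.rpow_pos ?_ ENNReal.ofReal_ne_top).ne'
      rw [ENNReal.ofReal_pos]
      exact abs_pos.2 hx
  have h5 := (measure_mono h4).trans (measure_union_le (μ := volume.restrict (cub ι o r)) _ _)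
  rw [h2, add_zero] at h5
  exact lt_of_lt_of_le h3 h5

end RP
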