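import Pool.Agent.H6.RP.A0
import Pool.Agent.H6.RP.B1
import Pool.Agent.H6.RP.B9
import Pool.Agent.H6.RP.B12

/-! B7: upper bound for the section integral.

Notation `N = Nv o y`, `j = o.1`, `s_i = sN N i` (`1 ≤ s_j ≤ √D`, `s_i ≤ s_j` on `Yreg o`), `t = tN N (y o)`, `p_i = pN N (y o) i`.
(sec_zero) for a graph point `x = gp o (ext0 o x') y`: `N·x = y o` (`Nv_gp`) and `|N·x| ≤ ∑ s_i √(bsq x i) ≤ ∑ s_i` if `x` is in the product
of balls; so if `t < 0` then `wt = 0` at all graph points.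
(sec_up) Let `t > 0`.  WLOG `y o ≥ 0` (otherwise replace the unit vectors `u_i = N^{(i)}/s_i` by their negatives).  For a graph point `x` with
`wt x ≠ 0` put `τ_i = 1 - ⟨u_i, x^{(i)}⟩ ∈ [0, 2]` (for `s_i ≠ 0`); `∑ s_i τ_i = t`, so `τ_i ≤ 2 p_i`, `|x^{(i)} - u_i|² ≤ 2 τ_i ≤ 4 p_i`,
`1 - bsq x i ≤ 1 - (1-τ_i)² ≤ 2 τ_i ≤ 4 p_i` (trivially true with `p_i = 1` if `s_i = 0`).  So `wt ≤ ∏ (4 p_i)^{β_i}`, and
`x'` lies in the set `K' = v + L(cube [-1,1]^{ι'})` where (block `i ≠ j`, rotated by `rot'` so that `u_i = ± e_0`) the side in direction `u_i` is `2 p_i`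
and the other sides are `2 √p_i` (centre `u_i`; if `s_i = 0`: centre 0, `p_i = 1`), and in block `j` (coordinates `l ≠ o`) all sides are `2 √p_j`, centre the
projection of `u_j`.  `|det L| = ∏_{i≠j} (2 p_i) (2√p_i)^{d_i - 1} (2 √p_j)^{d_j - 1} = C ∏_i p_i^{(d_i+1)/2} / p_j`, and
`t/(m√D) ≤ p_j ≤ t`.  So `|det L| ≤ C SS`, `|det L| ≥ c SS`.
`Sec ≤ ∏_i (4 p_i)^{D β_i} ∫_{x' k ∈ K'} |Dt|^{1+b}`, apply `dt_scale` and `det_fin` (`1 + b > -1` if `-2 < b`): the exponent is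
`D + 1 + b > 0`.  If `D = 1` (any `b`): the integral is over a one-point space, `Dt = 1`, `SS = 1` (as `t = 1 - |y o| ≤ 1`), and
`wt = (1 - (y o)²)^β ≤ (2t)^β`. -/

open MeasureTheory
open scoped ENNReal

namespace RP

variable {m : ℕ} {d : Fin m → ℕ} {β : Fin m → ℝ}

theorem b7_bsq_nonneg (x : Ix d → ℝ) (i : Fin m) : 0 ≤ bsq x i := Finset.sum_nonneg fun _ _ => sq_nonneg _

theorem b7_sN_nonneg (N : Ix d → ℝ) (i : Fin m) : 0 ≤ sN N i := Real.sqrt_nonneg _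

theorem b7_cs (N x : Ix d → ℝ) (i : Fin m) : (∑ j, N ⟨i, j⟩ * x ⟨i, j⟩) ^ 2 ≤ bsq N i * bsq x i := by
  unfold bsq
  exact Finset.sum_mul_sq_le_sq_mul_sq _ _ _

theorem b7_abs_le (N x : Ix d → ℝ) (i : Fin m) (hx : bsq x i ≤ 1) : |∑ j, N ⟨i, j⟩ * x ⟨i, j⟩| ≤ sN N i := by
  unfold sN
  rw [← Real.sqrt_sq_eq_abs]
  apply Real.sqrt_le_sqrt
  have h := b7_cs N x i
  have h0 : 0 ≤ bsq N i := b7_bsq_nonneg N i
  nlinarith

theorem b7_dot (N x : Ix d → ℝ) : dotProduct N x = ∑ i, ∑ j, N ⟨i, j⟩ * x ⟨i, j⟩ := by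
  unfold dotProduct
  rw [Fintype.sum_sigma]

theorem b7_slack (N x : Ix d → ℝ) (ε r : ℝ) (hε : |ε| = 1) (hdot : dotProduct N x = r) (hr : ε * r = |r|)
    (hx : ∀ i, bsq x i ≤ 1) (i : Fin m) : sN N i - ε * ∑ j, N ⟨i, j⟩ * x ⟨i, j⟩ ≤ tN N r := by
  have h1 : ∀ i, ε * ∑ j, N ⟨i, j⟩ * x ⟨i, j⟩ ≤ sN N i := by
    intro i
    refine (le_abs_self _).trans ?_
    rw [abs_mul, hε, one_mul]
    exact b7_abs_le N x i (hx i)
  have h2 : ∑ i, (sN N i - ε * ∑ j, N ⟨i, j⟩ * x ⟨i, j⟩) = tN N r := by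
    rw [Finset.sum_sub_distrib, ← Finset.mul_sum, ← b7_dot, hdot, hr]
    rfl
  rw [← h2]
  exact Finset.single_le_sum (f := fun i => sN N i - ε * ∑ j, N ⟨i, j⟩ * x ⟨i, j⟩)
    (fun i _ => sub_nonneg.2 (h1 i)) (Finset.mem_univ i)

theorem b7_p_pos (N : Ix d → ℝ) (r : ℝ) (ht : 0 < tN N r) (i : Fin m) : 0 < pN N r i := by
  unfold pN
  exact div_pos ht (lt_max_of_lt_right ht)

theorem b7_p_le (N : Ix d → ℝ) (r : ℝ) (ht : 0 < tN N r) (i : Fin m) : pN N r i ≤ 1 := by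
  unfold pN
  exact (div_le_one (lt_max_of_lt_right ht)).2 (le_max_right _ _)

/-- the two cases -/
theorem b7_case (N x : Ix d → ℝ) (ε r : ℝ) (hε : |ε| = 1) (hdot : dotProduct N x = r) (hr : ε * r = |r|)
    (hx : ∀ i, bsq x i ≤ 1) (ht : 0 < tN N r) (i : Fin m) :
    pN N r i = 1 ∨ (0 < sN N i ∧ 1 - ε * (∑ j, N ⟨i, j⟩ * x ⟨i, j⟩) / sN N i ≤ pN N r i) := by
  rcases lt_or_ge (sN N i) (tN N r) with h | h
  · left
    unfold pN
    rw [max_eq_right h.le, div_self ht.ne']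
  · right
    have hs : 0 < sN N i := ht.trans_le h
    refine ⟨hs, ?_⟩
    have h1 := b7_slack N x ε r hε hdot hr hx i
    unfold pN
    rw [max_eq_left h, le_div_iff₀ hs, sub_mul, div_mul_cancel₀ _ hs.ne', one_mul]
    exact h1

theorem b7_eps (r : ℝ) : ∃ ε : ℝ, |ε| = 1 ∧ ε * ε = 1 ∧ ε * r = |r| := by
  rcases le_total 0 r with h | h
  · exact ⟨1, by simp, by simp, by rw [abs_of_nonneg h, one_mul]⟩
  · exact ⟨-1, by simp, by simp, by rw [abs_of_nonpos h]; ring⟩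

theorem b7_wt1 (N x : Ix d → ℝ) (r : ℝ) (hdot : dotProduct N x = r)
    (hx : ∀ i, bsq x i ≤ 1) (ht : 0 < tN N r) (i : Fin m) : 1 - bsq x i ≤ 4 * pN N r i := by
  obtain ⟨ε, h1, h2, h3⟩ := b7_eps r
  have hb := b7_bsq_nonneg x i
  rcases b7_case N x ε r h1 hdot h3 hx ht i with h | ⟨hs, h⟩
  · rw [h]; linarith
  · have hcs := b7_cs N x i
    have hsq : sN N i ^ 2 = bsq N i := by
      unfold sN
      exact Real.sq_sqrt (b7_bsq_nonneg N i)
    set a := ε * (∑ j, N ⟨i, j⟩ * x ⟨i, j⟩) / sN N i with ha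
    have ha2 : a ^ 2 ≤ bsq x i := by
      rw [ha, div_pow, div_le_iff₀ (by positivity), mul_pow, hsq]
      have : ε ^ 2 = 1 := by rw [sq]; exact h2
      rw [this, one_mul]
      linarith
    have ha1 : a ^ 2 ≤ 1 := ha2.trans (hx i)
    have ha3 : -1 ≤ a := by nlinarith
    have ha4 : a ≤ 1 := by nlinarith
    nlinarith

theorem b7_wt2 (hβ : ∀ i, 0 ≤ β i) (N x : Ix d → ℝ) (r : ℝ) (hdot : dotProduct N x = r)
    (hx : ∀ i, bsq x i ≤ 1) (ht : 0 < tN N r) :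
    wt β x ≤ ENNReal.ofReal (∏ i, (4 * pN N r i) ^ (β i)) := by
  classical
  unfold wt
  rw [if_pos hx]
  apply ENNReal.ofReal_le_ofReal
  apply Finset.prod_le_prod
  · intro i _
    exact Real.rpow_nonneg (sub_nonneg.2 (hx i)) _
  · intro i _
    exact Real.rpow_le_rpow (sub_nonneg.2 (hx i)) (b7_wt1 N x r hdot hx ht i) (hβ i)

/-- block `i` in rotated coordinates, first coordinate -/
theorem b7_c0 (N x : Ix d → ℝ) (ε r : ℝ) (hε : |ε| = 1) (hε2 : ε * ε = 1) (hdot : dotProduct N x = r) (hr : ε * r = |r|)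
    (hx : ∀ i, bsq x i ≤ 1) (ht : 0 < tN N r) (i : Fin m) (z : ℝ) (hz : z ^ 2 ≤ 1)
    (hN : ∑ j, N ⟨i, j⟩ * x ⟨i, j⟩ = sN N i * z) : |z - ε| ≤ 2 * pN N r i ∧ 1 - z ^ 2 ≤ 2 * pN N r i := by
  have hεz : |ε * z| ≤ 1 := by
    rw [abs_mul, hε, one_mul]
    exact abs_le_one_iff_mul_self_le_one.2 (by nlinarith)
  have hzz : z ^ 2 = (ε * z) ^ 2 := by
    rw [mul_pow, sq ε, hε2, one_mul]
  have habs : |z - ε| = 1 - ε * z := by
    have : z - ε = ε * (ε * z - 1) := by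
      rw [mul_sub, ← mul_assoc, hε2]; ring
    rw [this, abs_mul, hε, one_mul, abs_of_nonpos (by linarith [(abs_le.1 hεz).2])]
    ring
  obtain ⟨h3, h4⟩ := abs_le.1 hεz
  rcases b7_case N x ε r hε hdot hr hx ht i with h | ⟨hs, h⟩
  · rw [h, habs]
    constructor
    · linarith
    · nlinarith
  · rw [hN, mul_div_assoc, mul_div_cancel_left₀ _ hs.ne'] at h
    have hp := b7_p_pos N r ht i
    rw [habs, hzz]
    constructor
    · linarith
    · nlinarith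

/-- block `o.1` -/
theorem b7_cj (N x : Ix d → ℝ) (ε r : ℝ) (hε : |ε| = 1) (hε2 : ε * ε = 1) (hdot : dotProduct N x = r) (hr : ε * r = |r|)
    (hx : ∀ i, bsq x i ≤ 1) (ht : 0 < tN N r) (i : Fin m) (hs : 0 < sN N i) (k : Fin (d i)) :
    |x ⟨i, k⟩ - ε * N ⟨i, k⟩ / sN N i| ≤ 2 * Real.sqrt (pN N r i) := by
  have hsq : sN N i ^ 2 = bsq N i := by
    unfold sN
    exact Real.sq_sqrt (b7_bsq_nonneg N i)
  have hε3 : ε ^ 2 = 1 := by rw [sq]; exact hε2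
  have hsum : ∑ j, (x ⟨i, j⟩ - ε * N ⟨i, j⟩ / sN N i) ^ 2 =
      bsq x i - 2 * (ε * (∑ j, N ⟨i, j⟩ * x ⟨i, j⟩) / sN N i) + 1 := by
    have h1 : ∀ j : Fin (d i), (x ⟨i, j⟩ - ε * N ⟨i, j⟩ / sN N i) ^ 2 =
        (x ⟨i, j⟩) ^ 2 - (2 * ε / sN N i) * (N ⟨i, j⟩ * x ⟨i, j⟩) + (1 / sN N i ^ 2) * (N ⟨i, j⟩) ^ 2 := by
      intro j
      have : (x ⟨i, j⟩ - ε * N ⟨i, j⟩ / sN N i) ^ 2 =
        (x ⟨i, j⟩) ^ 2 - (2 * ε / sN N i) * (N ⟨i, j⟩ * x ⟨i, j⟩) + (ε ^ 2 / sN N i ^ 2) * (N ⟨i, j⟩) ^ 2 := by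
        field_simp
        ring
      rw [this, hε3]
    rw [Finset.sum_congr rfl fun j _ => h1 j, Finset.sum_add_distrib, Finset.sum_sub_distrib, ← Finset.mul_sum,
      ← Finset.mul_sum]
    have h2 : (1 / sN N i ^ 2) * ∑ j, (N ⟨i, j⟩) ^ 2 = 1 := by
      rw [hsq]
      have : (0:ℝ) < bsq N i := by rw [← hsq]; positivity
      unfold bsq at this ⊢
      field_simp
    rw [h2]
    unfold bsq
    ring
  have hle : ∑ j, (x ⟨i, j⟩ - ε * N ⟨i, j⟩ / sN N i) ^ 2 ≤ 4 * pN N r i := by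
    rw [hsum]
    rcases b7_case N x ε r hε hdot hr hx ht i with h | ⟨_, h⟩
    · rw [h]
      have h1 : |ε * (∑ j, N ⟨i, j⟩ * x ⟨i, j⟩) / sN N i| ≤ 1 := by
        rw [abs_div, abs_mul, hε, one_mul, abs_of_pos hs, div_le_one hs]
        exact b7_abs_le N x i (hx i)
      have := hx i
      linarith [(abs_le.1 h1).1]
    · have := hx i
      have hp := b7_p_pos N r ht i
      linarith
  have h5 : (x ⟨i, k⟩ - ε * N ⟨i, k⟩ / sN N i) ^ 2 ≤ 4 * pN N r i :=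
    (Finset.single_le_sum (f := fun j => (x ⟨i, j⟩ - ε * N ⟨i, j⟩ / sN N i) ^ 2) (fun _ _ => sq_nonneg _)
      (Finset.mem_univ k)).trans hle
  have h6 : (x ⟨i, k⟩ - ε * N ⟨i, k⟩ / sN N i) ^ 2 ≤ (2 * Real.sqrt (pN N r i)) ^ 2 := by
    rw [mul_pow, Real.sq_sqrt (b7_p_pos N r ht i).le]
    linarith
  exact abs_le_of_sq_le_sq' h6 (by positivity) |> abs_le.2

/-- side lengths -/
noncomputable def b7c (j : Fin m) (p : Fin m → ℝ) (l : Ix d) : ℝ :=
  if l.1 = j then 2 * Real.sqrt (p j) else if (l.2 : ℕ) = 0 then 2 * p l.1 else 2 * Real.sqrt (p l.1)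

theorem b7c_pos (j : Fin m) (p : Fin m → ℝ) (hp : ∀ i, 0 < p i) (l : Ix d) : 0 < b7c j p l := by
  unfold b7c
  have h1 := Real.sqrt_pos.2 (hp j)
  have h2 := Real.sqrt_pos.2 (hp l.1)
  have h3 := hp l.1
  split_ifs <;> positivity

theorem b7c_blk1 (j : Fin m) (p : Fin m → ℝ) (hp : ∀ i, 0 < p i) :
    (∏ k : Fin (d j), b7c j p (⟨j, k⟩ : Ix d)) * Real.sqrt (p j) = 2 ^ (d j) * (p j) ^ (((d j : ℝ) + 1) / 2) := by
  have h1 : ∀ k : Fin (d j), b7c j p (⟨j, k⟩ : Ix d) = 2 * Real.sqrt (p j) := by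
    intro k
    simp [b7c]
  rw [Finset.prod_congr rfl fun k _ => h1 k, Finset.prod_const, Finset.card_univ, Fintype.card_fin, mul_pow, mul_assoc,
    ← pow_succ, Real.sqrt_eq_rpow, ← Real.rpow_natCast, ← Real.rpow_natCast, ← Real.rpow_mul (hp j).le]
  congr 2
  push_cast
  ring

theorem b7c_blk2 (j i : Fin m) (hij : i ≠ j) (hd : 1 ≤ d i) (p : Fin m → ℝ) (hp : ∀ i, 0 < p i) :
    (∏ k : Fin (d i), b7c j p (⟨i, k⟩ : Ix d)) = 2 ^ (d i) * (p i) ^ (((d i : ℝ) + 1) / 2) := by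
  have h1 : ∀ k : Fin (d i), b7c j p (⟨i, k⟩ : Ix d) = if (k : ℕ) = 0 then 2 * p i else 2 * Real.sqrt (p i) := by
    intro k
    simp [b7c, hij]
  rw [Finset.prod_congr rfl fun k _ => h1 k]
  obtain ⟨n, hn⟩ : ∃ n, d i = n + 1 := ⟨d i - 1, by omega⟩
  rw [hn, Fin.prod_univ_succ]
  simp only [Fin.val_zero, if_true, Fin.val_succ, Nat.succ_ne_zero, if_false, Finset.prod_const, Finset.card_univ,
    Fintype.card_fin]
  rw [mul_pow, Real.sqrt_eq_rpow, ← Real.rpow_natCast (p i ^ (1 / 2 : ℝ)), ← Real.rpow_mul (hp i).le]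
  have h2 : (p i) ^ ((((n + 1 : ℕ) : ℝ) + 1) / 2) = p i * (p i) ^ (1 / 2 * (n : ℝ)) := by
    rw [← Real.rpow_one_add' (hp i).le (by positivity)]
    congr 1
    push_cast
    ring
  rw [h2, pow_succ]
  ring

theorem b7c_prod (hd : ∀ i, 1 ≤ d i) (o : Ix d) (p : Fin m → ℝ) (hp : ∀ i, 0 < p i) :
    2 * (∏ l : {l : Ix d // l ≠ o}, b7c o.1 p l.1) * p o.1 = 2 ^ (∑ i, d i) * ∏ i, (p i) ^ (((d i : ℝ) + 1) / 2) := by
  have h1 : ∏ l : Ix d, b7c o.1 p l = b7c o.1 p o * ∏ l : {l : Ix d // l ≠ o}, b7c o.1 p l.1 :=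
    Fintype.prod_eq_mul_prod_subtype_ne _ _
  have h2 : b7c o.1 p o = 2 * Real.sqrt (p o.1) := by simp [b7c]
  have h3 : (∏ l : Ix d, b7c o.1 p l) * Real.sqrt (p o.1) = 2 ^ (∑ i, d i) * ∏ i, (p i) ^ (((d i : ℝ) + 1) / 2) := by
    rw [← Finset.prod_pow_eq_pow_sum, ← Finset.prod_mul_distrib, Fintype.prod_sigma,
      ← Finset.mul_prod_erase Finset.univ (fun i => ∏ k : Fin (d i), b7c o.1 p (⟨i, k⟩ : Ix d)) (Finset.mem_univ o.1),
      ← Finset.mul_prod_erase Finset.univ (fun i => (2:ℝ) ^ (d i) * p i ^ (((d i : ℝ) + 1) / 2)) (Finset.mem_univ o.1),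
      ← b7c_blk1 o.1 p hp]
    rw [Finset.prod_congr rfl fun i hi => b7c_blk2 o.1 i (Finset.ne_of_mem_erase hi) (hd i) p hp]
    ring
  rw [h1, h2] at h3
  rw [← h3]
  have h4 : Real.sqrt (p o.1) * Real.sqrt (p o.1) = p o.1 := Real.mul_self_sqrt (hp o.1).le
  linear_combination (-(2 * ∏ l : {l : Ix d // l ≠ o}, b7c o.1 p l.1)) * h4

/-- diagonal map -/
noncomputable def b7L {ι : Type} (c : ι → ℝ) (hc : ∀ l, c l ≠ 0) : (ι → ℝ) ≃ₗ[ℝ] (ι → ℝ) where
  toFun x l := c l * x l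
  invFun x l := (c l)⁻¹ * x l
  left_inv x := by
    funext l
    simp only
    rw [← mul_assoc, inv_mul_cancel₀ (hc l), one_mul]
  right_inv x := by
    funext l
    simp only
    rw [← mul_assoc, mul_inv_cancel₀ (hc l), one_mul]
  map_add' x y := by
    funext l
    simp [mul_add]
  map_smul' a x := by
    funext l
    simp
    ring

theorem b7L_det {ι : Type} [Fintype ι] [DecidableEq ι] (c : ι → ℝ) (hc : ∀ l, c l ≠ 0) :
    LinearMap.det (b7L c hc : (ι → ℝ) →ₗ[ℝ] (ι → ℝ)) = ∏ l, c l := by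
  have : (b7L c hc : (ι → ℝ) →ₗ[ℝ] (ι → ℝ)) = Matrix.toLin' (Matrix.diagonal c) := by
    apply LinearMap.ext
    intro x
    funext l
    simp [b7L, Matrix.mulVec_diagonal]
  rw [this, LinearMap.det_toLin', Matrix.det_diagonal]

theorem sec_zero (hβ : ∀ i, 0 ≤ β i) (hD : 1 ≤ ∑ i, d i) (b : ℝ) (o : Ix d) (y : Ix d → ℝ)
    (ht : tN (Nv o y) (y o) < 0) : Sec β b o y = 0 := by
  classical
  unfold Sec
  have h0 : ∀ x : Ix d → {l // l ≠ o} → ℝ, ENNReal.ofReal |Dt o fun k => ext0 o (x k)| ^ (1 + b) *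
    ∏ k, wt β (gp o (ext0 o (x k)) y) = 0 := by
    intro x
    have h1 : ∀ k, wt β (gp o (ext0 o (x k)) y) = 0 := by
      intro k
      unfold wt
      apply if_neg
      intro hx
      have hdot : dotProduct (Nv o y) (gp o (ext0 o (x k)) y) = y o := Nv_gp _ _ _
      have h2 : |y o| ≤ ∑ i, sN (Nv o y) i := by
        rw [← hdot, b7_dot]
        refine (Finset.abs_sum_le_sum_abs _ _).trans ?_
        exact Finset.sum_le_sum fun i _ => b7_abs_le _ _ i (hx i)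
      unfold tN at ht
      linarith
    rw [Finset.prod_eq_zero (Finset.mem_univ o) (h1 o), mul_zero]
  simp [h0]

theorem b7_gp_ne (o : Ix d) (x y : Ix d → ℝ) (l : Ix d) (hl : l ≠ o) : gp o x y l = x l := by
  unfold gp
  rw [Function.update_of_ne hl]

theorem b7_ext_ne (o : Ix d) (x : {l : Ix d // l ≠ o} → ℝ) (l : Ix d) (hl : l ≠ o) : ext0 o x l = x ⟨l, hl⟩ := by
  unfold ext0
  rw [dif_neg hl]

/-- every graph point in the product of balls comes from the box -/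
theorem b7_box (hd : ∀ i, 1 ≤ d i) (o : Ix d) (y : Ix d → ℝ) (ht : 0 < tN (Nv o y) (y o))
    (R : ({l : Ix d // l ≠ o} → ℝ) ≃ₗ[ℝ] ({l : Ix d // l ≠ o} → ℝ))
    (hR1 : ∀ x i, i ≠ o.1 → bsq (ext0 o (R x)) i = bsq (ext0 o x) i ∧
        ∑ j, Nv o y ⟨i, j⟩ * ext0 o (R x) ⟨i, j⟩ = sN (Nv o y) i * ext0 o x ⟨i, ⟨0, hd i⟩⟩)
    (hR2 : ∀ x j, ext0 o (R x) ⟨o.1, j⟩ = ext0 o x ⟨o.1, j⟩) (hs : 0 < sN (Nv o y) o.1) :
    ∃ v : {l : Ix d // l ≠ o} → ℝ, ∀ x' : {l : Ix d // l ≠ o} → ℝ, (∀ i, bsq (gp o (ext0 o x') y) i ≤ 1) →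
      ∀ l : {l : Ix d // l ≠ o}, |R.symm x' l - v l| ≤ b7c o.1 (pN (Nv o y) (y o)) l.1 := by
  classical
  obtain ⟨ε, h1, h2, h3⟩ := b7_eps (y o)
  refine ⟨fun l => if l.1.1 = o.1 then ε * Nv o y l.1 / sN (Nv o y) o.1 else if (l.1.2 : ℕ) = 0 then ε else 0, ?_⟩
  intro x' hx l
  have hdot : dotProduct (Nv o y) (gp o (ext0 o x') y) = y o := Nv_gp _ _ _
  obtain ⟨⟨i, k⟩, hl⟩ := l
  by_cases hi : i = o.1
  · subst hi
    have h4 := b7_cj (Nv o y) _ ε (y o) h1 h2 hdot h3 hx ht o.1 hs k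
    have h5 : R.symm x' ⟨⟨o.1, k⟩, hl⟩ = gp o (ext0 o x') y ⟨o.1, k⟩ := by
      rw [b7_gp_ne _ _ _ _ hl, ← b7_ext_ne o (R.symm x') ⟨o.1, k⟩ hl, ← hR2, LinearEquiv.apply_symm_apply]
    rw [h5]
    simpa [b7c] using h4
  · have hne : ∀ k' : Fin (d i), (⟨i, k'⟩ : Ix d) ≠ o := fun k' h => hi (by rw [← h])
    set z := R.symm x' with hz
    have hRz : R z = x' := by rw [hz, LinearEquiv.apply_symm_apply]
    have h4 := hR1 z i hi
    rw [hRz] at h4
    obtain ⟨h4, h5⟩ := h4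
    have h6 : bsq (gp o (ext0 o x') y) i = bsq (ext0 o x') i := by
      unfold bsq
      exact Finset.sum_congr rfl fun j _ => by rw [b7_gp_ne _ _ _ _ (hne j)]
    have h7 : ∑ j, Nv o y ⟨i, j⟩ * gp o (ext0 o x') y ⟨i, j⟩ = sN (Nv o y) i * ext0 o z ⟨i, ⟨0, hd i⟩⟩ := by
      rw [← h5]
      exact Finset.sum_congr rfl fun j _ => by rw [b7_gp_ne _ _ _ _ (hne j)]
    have h8 : bsq (ext0 o z) i ≤ 1 := by
      rw [← h4, ← h6]; exact hx i
    have h9 : (ext0 o z ⟨i, ⟨0, hd i⟩⟩) ^ 2 ≤ 1 :=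
      (Finset.single_le_sum (f := fun j => (ext0 o z ⟨i, j⟩) ^ 2) (fun _ _ => sq_nonneg _)
        (Finset.mem_univ (⟨0, hd i⟩ : Fin (d i)))).trans h8
    have h10 := b7_c0 (Nv o y) _ ε (y o) h1 h2 hdot h3 hx ht i _ h9 h7
    by_cases hk : (k : ℕ) = 0
    · have hk' : k = ⟨0, hd i⟩ := Fin.ext hk
      have h11 : z ⟨⟨i, k⟩, hl⟩ = ext0 o z ⟨i, ⟨0, hd i⟩⟩ := by
        rw [b7_ext_ne o z _ (hne _)]
        subst hk'
        rfl
      rw [h11]
      simpa [b7c, hi, hk] using h10.1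
    · have h11 : z ⟨⟨i, k⟩, hl⟩ = ext0 o z ⟨i, k⟩ := by
        rw [b7_ext_ne o z _ (hne _)]
      have h12 : (ext0 o z ⟨i, ⟨0, hd i⟩⟩) ^ 2 + (ext0 o z ⟨i, k⟩) ^ 2 ≤ 1 := by
        have hkk : (⟨0, hd i⟩ : Fin (d i)) ≠ k := by
          intro h
          apply hk
          rw [← h]
        have := Finset.sum_le_sum_of_subset_of_nonneg (s := {(⟨0, hd i⟩ : Fin (d i)), k}) (t := Finset.univ)
          (f := fun j => (ext0 o z ⟨i, j⟩) ^ 2) (Finset.subset_univ _) (fun _ _ _ => sq_nonneg _)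
        rw [Finset.sum_pair hkk] at this
        exact this.trans h8
      have hp := b7_p_pos (Nv o y) (y o) ht i
      have h13 : (z ⟨⟨i, k⟩, hl⟩) ^ 2 ≤ (2 * Real.sqrt (pN (Nv o y) (y o) i)) ^ 2 := by
        rw [mul_pow, Real.sq_sqrt hp.le, h11]
        linarith [h10.2]
      have h14 : |z ⟨⟨i, k⟩, hl⟩| ≤ 2 * Real.sqrt (pN (Nv o y) (y o) i) :=
        abs_le_of_sq_le_sq' h13 (by positivity) |> abs_le.2
      simpa [b7c, hi, hk] using h14

theorem b7_sN_ge (o : Ix d) (y : Ix d → ℝ) : 1 ≤ sN (Nv o y) o.1 := by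
  unfold sN
  rw [Real.one_le_sqrt]
  have h := Finset.single_le_sum (f := fun j => (Nv o y ⟨o.1, j⟩) ^ 2) (fun _ _ => sq_nonneg _)
    (Finset.mem_univ o.2)
  have h2 : (Nv o y ⟨o.1, o.2⟩) ^ 2 = 1 := by
    have : Nv o y ⟨o.1, o.2⟩ = 1 := by
      unfold Nv
      exact if_pos rfl
    rw [this]; norm_num
  rw [← h2]
  exact h

theorem b7_sN_le (o : Ix d) (y : Ix d → ℝ) (hy : y ∈ Yreg o) (i : Fin m) :
    sN (Nv o y) i ≤ Real.sqrt ((∑ i, d i : ℕ) : ℝ) := by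
  unfold sN
  apply Real.sqrt_le_sqrt
  refine (hy.2 i).trans ?_
  unfold bsq
  have h1 : ∀ j : Fin (d o.1), (Nv o y ⟨o.1, j⟩) ^ 2 ≤ 1 := by
    intro j
    have := hy.1 j
    rw [← sq_abs]
    have h0 := abs_nonneg (Nv o y ⟨o.1, j⟩)
    nlinarith
  refine (Finset.sum_le_sum fun j _ => h1 j).trans ?_
  simp only [Finset.sum_const, Finset.card_univ, Fintype.card_fin, nsmul_eq_mul, mul_one]
  exact_mod_cast Finset.single_le_sum (f := d) (fun _ _ => Nat.zero_le _) (Finset.mem_univ o.1)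

theorem b7_det_le (hm : 0 < m) (hd : ∀ i, 1 ≤ d i) (o : Ix d) (y : Ix d → ℝ) (hy : y ∈ Yreg o)
    (ht : 0 < tN (Nv o y) (y o)) :
    ∏ l : {l : Ix d // l ≠ o}, b7c o.1 (pN (Nv o y) (y o)) l.1 ≤
      (2 ^ (∑ i, d i) * (m * Real.sqrt ((∑ i, d i : ℕ) : ℝ))) * SS (Nv o y) (y o) := by
  set N := Nv o y with hN
  set r := y o with hr
  have hp := b7_p_pos N r ht
  have h1 := b7c_prod hd o (pN N r) hp
  have h2 : ∏ i, (pN N r i) ^ (((d i : ℝ) + 1) / 2) = SS N r * tN N r := by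
    unfold SS
    rw [div_mul_cancel₀ _ ht.ne']
  rw [h2] at h1
  have h3 : pN N r o.1 * max (sN N o.1) (tN N r) = tN N r := by
    unfold pN
    exact div_mul_cancel₀ _ (lt_max_of_lt_right ht).ne'
  have hSS : 0 < SS N r := by
    unfold SS
    apply div_pos _ ht
    exact Finset.prod_pos fun i _ => Real.rpow_pos_of_pos (hp i) _
  have h4 : 2 * (∏ l : {l : Ix d // l ≠ o}, b7c o.1 (pN N r) l.1) =
      2 ^ (∑ i, d i) * (SS N r * max (sN N o.1) (tN N r)) := by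
    have h5 : (2 * (∏ l : {l : Ix d // l ≠ o}, b7c o.1 (pN N r) l.1)) * pN N r o.1 =
        (2 ^ (∑ i, d i) * (SS N r * max (sN N o.1) (tN N r))) * pN N r o.1 := by
      rw [h1]
      linear_combination (-(2 ^ (∑ i, d i) * SS N r)) * h3
    exact mul_right_cancel₀ (hp o.1).ne' h5
  have hmr : (1:ℝ) ≤ m := by exact_mod_cast hm
  have hmax : max (sN N o.1) (tN N r) ≤ m * Real.sqrt ((∑ i, d i : ℕ) : ℝ) := by
    apply max_le
    · refine (b7_sN_le o y hy o.1).trans ?_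
      exact le_mul_of_one_le_left (Real.sqrt_nonneg _) hmr
    · unfold tN
      have h6 : ∑ i, sN N i ≤ ∑ _i : Fin m, Real.sqrt ((∑ i, d i : ℕ) : ℝ) :=
        Finset.sum_le_sum fun i _ => b7_sN_le o y hy i
      rw [Finset.sum_const, Finset.card_univ, Fintype.card_fin, nsmul_eq_mul] at h6
      linarith [abs_nonneg r]
  have h7 : 0 < ∏ l : {l : Ix d // l ≠ o}, b7c o.1 (pN N r) l.1 := Finset.prod_pos fun l _ => b7c_pos _ _ hp _
  have h8 : (2:ℝ) ^ (∑ i, d i) * (SS N r * max (sN N o.1) (tN N r)) ≤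
      2 ^ (∑ i, d i) * (SS N r * (m * Real.sqrt ((∑ i, d i : ℕ) : ℝ))) := by
    gcongr
  rw [← h4] at h8
  calc _ ≤ 2 * ∏ l : {l : Ix d // l ≠ o}, b7c o.1 (pN N r) l.1 := by linarith
    _ ≤ _ := h8
    _ = _ := by ring

theorem b7_main (hm : 0 < m) (hd : ∀ i, 1 ≤ d i) (hβ : ∀ i, 0 ≤ β i) (b : ℝ) (hb : -2 < b) (o : Ix d) :
    ∃ C : ℝ, 0 < C ∧ ∀ (y : Ix d → ℝ), y ∈ Yreg o → 0 < tN (Nv o y) (y o) →
      Sec β b o y ≤ ENNReal.ofReal (C * ((∏ i, (pN (Nv o y) (y o) i) ^ (((∑ i, d i : ℕ) : ℝ) * β i)) *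
        (SS (Nv o y) (y o)) ^ (((∑ i, d i : ℕ) : ℝ) + 1 + b))) := by
  classical
  set D : ℕ := ∑ i, d i with hD
  have hcard : Fintype.card (Ix d) = D := by
    rw [hD]; simp
  have hDpos : 1 ≤ D := by
    refine (hd ⟨0, hm⟩).trans ?_
    exact Finset.single_le_sum (f := d) (fun _ _ => Nat.zero_le _) (Finset.mem_univ _)
  have hDr : (1:ℝ) ≤ D := by exact_mod_cast hDpos
  have hmr : (1:ℝ) ≤ m := by exact_mod_cast hm
  have hfin := det_fin (Ix d) o (1 + b) 1 (by linarith)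
  set I := ∫⁻ x in cub (Ix d) o 1, ENNReal.ofReal |Dt o (fun k => ext0 o (x k))| ^ (1 + b) with hI
  set κ : ℝ := 2 ^ D * (m * Real.sqrt (D : ℝ)) with hκ
  have hκpos : 0 < κ := by
    rw [hκ]
    have : 0 < Real.sqrt (D:ℝ) := Real.sqrt_pos.2 (by linarith)
    positivity
  set e : ℝ := (D : ℝ) + 1 + b with he
  have hepos : 0 < e := by rw [he]; linarith
  set K4 : ℝ := ∏ i, (4:ℝ) ^ ((D : ℝ) * β i) with hK4
  have hK4pos : 0 < K4 := Finset.prod_pos fun i _ => Real.rpow_pos_of_pos (by norm_num) _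
  refine ⟨K4 * κ ^ e * (I.toReal + 1), by positivity, ?_⟩
  intro y hy ht
  set N := Nv o y with hN
  set r := y o with hr
  have hp := b7_p_pos N r ht
  obtain ⟨R, hR0, hR1, hR2⟩ := rot' hd o N
  obtain ⟨v, hv⟩ := b7_box hd o y ht R hR1 hR2 (lt_of_lt_of_le one_pos (b7_sN_ge o y))
  set c : {l : Ix d // l ≠ o} → ℝ := fun l => b7c o.1 (pN N r) l.1 with hc
  have hc0 : ∀ l, 0 < c l := fun l => b7c_pos _ _ hp _
  set L : ({l : Ix d // l ≠ o} → ℝ) ≃ₗ[ℝ] ({l : Ix d // l ≠ o} → ℝ) := (b7L c fun l => (hc0 l).ne').trans R with hL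
  have hdet : |LinearMap.det (L : ({l : Ix d // l ≠ o} → ℝ) →ₗ[ℝ] ({l : Ix d // l ≠ o} → ℝ))| = ∏ l, c l := by
    have h1 : (L : ({l : Ix d // l ≠ o} → ℝ) →ₗ[ℝ] ({l : Ix d // l ≠ o} → ℝ)) =
        (R : ({l : Ix d // l ≠ o} → ℝ) →ₗ[ℝ] ({l : Ix d // l ≠ o} → ℝ)) ∘ₗ
          ((b7L c fun l => (hc0 l).ne') : ({l : Ix d // l ≠ o} → ℝ) →ₗ[ℝ] ({l : Ix d // l ≠ o} → ℝ)) := rfl
    rw [h1, LinearMap.det_comp, abs_mul, hR0, one_mul, b7L_det, abs_of_pos (Finset.prod_pos fun l _ => hc0 l)]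
  set S : Set ({l : Ix d // l ≠ o} → ℝ) := {u | ∀ l, |u l| ≤ 1} with hS
  have hSm : MeasurableSet S := by
    have : S = ⋂ l, {u | |u l| ≤ 1} := by
      ext u; simp [hS]
    rw [this]
    exact MeasurableSet.iInter fun l => measurableSet_le ((measurable_pi_apply l).abs) measurable_const
  have hScub : {x : Ix d → {l : Ix d // l ≠ o} → ℝ | ∀ k, x k ∈ S} = cub (Ix d) o 1 := rfl
  have hsc := dt_scale (Ix d) o L (R v) S hSm (1 + b)
  rw [hScub, hdet] at hsc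
  have hin : ∀ x' : {l : Ix d // l ≠ o} → ℝ, (∀ i, bsq (gp o (ext0 o x') y) i ≤ 1) →
      x' ∈ (fun u => R v + L u) '' S := by
    intro x' hx
    have h1 := hv x' hx
    refine ⟨fun l => (c l)⁻¹ * (R.symm x' l - v l), ?_, ?_⟩
    · intro l
      rw [abs_mul, abs_of_pos (inv_pos.2 (hc0 l))]
      have h2 := h1 l
      rw [inv_mul_le_iff₀ (hc0 l), mul_one]
      exact h2
    · have h2 : (b7L c fun l => (hc0 l).ne') (fun l => (c l)⁻¹ * (R.symm x' l - v l)) = R.symm x' - v := by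
        funext l
        show c l * ((c l)⁻¹ * (R.symm x' l - v l)) = R.symm x' l - v l
        rw [← mul_assoc, mul_inv_cancel₀ (hc0 l).ne', one_mul]
      show R v + R ((b7L c fun l => (hc0 l).ne') (fun l => (c l)⁻¹ * (R.symm x' l - v l))) = x'
      rw [h2, ← map_add, add_sub_cancel, LinearEquiv.apply_symm_apply]
  set T : Set (Ix d → {l : Ix d // l ≠ o} → ℝ) := {x | ∀ k, x k ∈ (fun u => R v + L u) '' S} with hT
  have hTm : MeasurableSet T := by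
    have h1 : MeasurableSet ((fun u => R v + L u) '' S) := by
      have h2 : (fun u => R v + L u) '' S = (fun w => L.symm (w - R v)) ⁻¹' S := by
        ext w
        constructor
        · rintro ⟨u, hu, rfl⟩
          simpa using hu
        · intro hw
          exact ⟨L.symm (w - R v), hw, by simp⟩
      rw [h2]
      apply hSm.preimage
      have : Continuous (fun w : {l : Ix d // l ≠ o} → ℝ => L.symm (w - R v)) :=
        (LinearMap.continuous_of_finiteDimensional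
          (L.symm : ({l : Ix d // l ≠ o} → ℝ) →ₗ[ℝ] ({l : Ix d // l ≠ o} → ℝ))).comp
          (continuous_id.sub continuous_const)
      exact this.measurable
    have h3 : T = ⋂ k, (fun x : Ix d → {l : Ix d // l ≠ o} → ℝ => x k) ⁻¹' ((fun u => R v + L u) '' S) := by
      ext x; simp [hT]
    rw [h3]
    exact MeasurableSet.iInter fun k => h1.preimage (measurable_pi_apply k)
  set P : ℝ := ∏ i, (4 * pN N r i) ^ (β i) with hP
  have hPpos : 0 < P := Finset.prod_pos fun i _ => Real.rpow_pos_of_pos (by have := hp i; positivity) _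
  have hpt : ∀ x : Ix d → {l : Ix d // l ≠ o} → ℝ, ENNReal.ofReal |Dt o fun k => ext0 o (x k)| ^ (1 + b) *
      ∏ k, wt β (gp o (ext0 o (x k)) y) ≤
      T.indicator (fun x => ENNReal.ofReal |Dt o fun k => ext0 o (x k)| ^ (1 + b)) x * ENNReal.ofReal P ^ D := by
    intro x
    by_cases hx : ∀ k, ∀ i, bsq (gp o (ext0 o (x k)) y) i ≤ 1
    · have hxT : x ∈ T := fun k => hin _ (hx k)
      rw [Set.indicator_of_mem hxT]
      gcongr
      calc ∏ k, wt β (gp o (ext0 o (x k)) y) ≤ ∏ _k : Ix d, ENNReal.ofReal P :=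
            Finset.prod_le_prod' fun k _ => b7_wt2 hβ N _ r (Nv_gp _ _ _) (hx k) ht
        _ = ENNReal.ofReal P ^ D := by
            rw [Finset.prod_const, Finset.card_univ, hcard]
    · push Not at hx
      obtain ⟨k, i, hk⟩ := hx
      have h1 : wt β (gp o (ext0 o (x k)) y) = 0 := by
        unfold wt
        rw [if_neg]
        intro h
        exact absurd (h i) (not_le.2 hk)
      rw [Finset.prod_eq_zero (Finset.mem_univ k) h1, mul_zero]
      exact zero_le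
  have h1 : Sec β b o y ≤ (∫⁻ x in T, ENNReal.ofReal |Dt o fun k => ext0 o (x k)| ^ (1 + b)) * ENNReal.ofReal P ^ D := by
    unfold Sec
    refine (lintegral_mono hpt).trans ?_
    rw [lintegral_mul_const' _ _ (by finiteness), lintegral_indicator hTm]
  rw [hsc] at h1
  refine h1.trans ?_
  have hIle : I ≤ ENNReal.ofReal (I.toReal + 1) := by
    rw [ENNReal.ofReal_add ENNReal.toReal_nonneg (by norm_num), ENNReal.ofReal_toReal hfin.ne]
    exact le_self_add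
  have hcle : ∏ l, c l ≤ κ * SS N r := b7_det_le hm hd o y hy ht
  have hcpos : 0 < ∏ l, c l := Finset.prod_pos fun l _ => hc0 l
  have hSS : 0 < SS N r := by
    unfold SS
    apply div_pos _ ht
    exact Finset.prod_pos fun i _ => Real.rpow_pos_of_pos (hp i) _
  have hPD : P ^ D = K4 * ∏ i, (pN N r i) ^ ((D : ℝ) * β i) := by
    rw [hP, hK4, ← Finset.prod_pow, ← Finset.prod_mul_distrib]
    apply Finset.prod_congr rfl
    intro i _
    rw [← Real.rpow_natCast, ← Real.rpow_mul (by have := hp i; positivity), mul_comm (β i),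
      Real.mul_rpow (by norm_num) (hp i).le]
  rw [hcard]
  have hexp : (D : ℝ) + (1 + b) = e := by rw [he]; ring
  rw [hexp]
  calc ENNReal.ofReal ((∏ l, c l) ^ e) * I * ENNReal.ofReal P ^ D
      ≤ ENNReal.ofReal ((κ * SS N r) ^ e) * ENNReal.ofReal (I.toReal + 1) * ENNReal.ofReal (P ^ D) := by
        rw [ENNReal.ofReal_pow hPpos.le]
        gcongr
    _ = ENNReal.ofReal ((κ * SS N r) ^ e * (I.toReal + 1) * P ^ D) := by
        rw [ENNReal.ofReal_mul (by positivity), ENNReal.ofReal_mul (by positivity)]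
    _ = _ := by
        congr 1
        rw [hPD, Real.mul_rpow hκpos.le hSS.le]
        ring

theorem b7_one (hD : (∑ i, d i) = 1) (b b' : ℝ) (o : Ix d) (y : Ix d → ℝ) :
    Sec β b o y = Sec β b' o y := by
  have hcard : Fintype.card (Ix d) = 1 := by simp [hD]
  have hone : ∀ l : Ix d, l = o := fun l => Fintype.card_le_one_iff.1 hcard.le l o
  have hDt : ∀ x : Ix d → Ix d → ℝ, Dt o x = 1 := by
    intro x
    unfold Dt
    have : Mt o x = 1 := by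
      ext k l
      rw [hone k, hone l]
      simp [Mt]
    rw [this, Matrix.det_one]
  unfold Sec
  simp [hDt]

theorem sec_up (hm : 0 < m) (hd : ∀ i, 1 ≤ d i) (hβ : ∀ i, 0 ≤ β i) (b : ℝ) (hb : (∑ i, d i) = 1 ∨ -2 < b) :
    ∃ C : ℝ, 0 < C ∧ ∀ (o : Ix d) (y : Ix d → ℝ), y ∈ Yreg o → 0 < tN (Nv o y) (y o) →
      Sec β b o y ≤ ENNReal.ofReal (C * ((∏ i, (pN (Nv o y) (y o) i) ^ (((∑ i, d i : ℕ) : ℝ) * β i)) *
        (SS (Nv o y) (y o)) ^ (((∑ i, d i : ℕ) : ℝ) + 1 + b))) := by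
  classical
  have key : ∀ o : Ix d, ∃ C : ℝ, 0 < C ∧ ∀ (y : Ix d → ℝ), y ∈ Yreg o → 0 < tN (Nv o y) (y o) →
      Sec β b o y ≤ ENNReal.ofReal (C * ((∏ i, (pN (Nv o y) (y o) i) ^ (((∑ i, d i : ℕ) : ℝ) * β i)) *
        (SS (Nv o y) (y o)) ^ (((∑ i, d i : ℕ) : ℝ) + 1 + b))) := by
    intro o
    rcases hb with hD | hb
    · obtain ⟨C, hC, h⟩ := b7_main hm hd hβ 0 (by norm_num) o
      refine ⟨C, hC, ?_⟩
      intro y hy ht
      have h1 := h y hy ht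
      have hcard : Fintype.card (Ix d) = 1 := by simp [hD]
      have hone : ∀ l : Ix d, l = o := fun l => Fintype.card_le_one_iff.1 hcard.le l o
      have hi : ∀ i : Fin m, i = o.1 := fun i => by rw [← hone ⟨i, ⟨0, hd i⟩⟩]
      have hdo : d o.1 = 1 := by
        have := Finset.single_le_sum (f := d) (fun _ _ => Nat.zero_le _) (Finset.mem_univ o.1)
        have := hd o.1
        omega
      have hsN : sN (Nv o y) o.1 = 1 := by
        have h2 := b7_sN_ge o y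
        have h3 := b7_sN_le o y hy o.1
        rw [hD] at h3
        simp at h3
        linarith
      have huniv : (Finset.univ : Finset (Fin m)) = {o.1} := by
        ext i; simp [hi i]
      have htle : tN (Nv o y) (y o) ≤ 1 := by
        have : tN (Nv o y) (y o) = 1 - |y o| := by
          unfold tN
          rw [huniv, Finset.sum_singleton, hsN]
        rw [this]; linarith [abs_nonneg (y o)]
      have hSS : SS (Nv o y) (y o) = 1 := by
        unfold SS pN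
        rw [huniv, Finset.prod_singleton, hsN, max_eq_left htle, hdo]
        norm_num
        exact ht.ne'
      rw [b7_one hD b 0 o y]
      rw [hSS, Real.one_rpow] at h1 ⊢
      exact h1
    · exact b7_main hm hd hβ b hb o
  choose C hC hCb using key
  refine ⟨∑ o, C o + 1, by have := Finset.sum_nonneg fun o (_ : o ∈ Finset.univ) => (hC o).le; linarith, ?_⟩
  intro o y hy ht
  refine (hCb o y hy ht).trans ?_
  apply ENNReal.ofReal_le_ofReal
  have hp := b7_p_pos (Nv o y) (y o) ht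
  have hSS : 0 < SS (Nv o y) (y o) := by
    unfold SS
    apply div_pos _ ht
    exact Finset.prod_pos fun i _ => Real.rpow_pos_of_pos (hp i) _
  have h1 : C o ≤ ∑ o, C o + 1 := by
    have := Finset.single_le_sum (f := C) (fun o _ => (hC o).le) (Finset.mem_univ o)
    linarith
  apply mul_le_mul_of_nonneg_right h1
  apply mul_nonneg
  · exact Finset.prod_nonneg fun i _ => Real.rpow_nonneg (hp i).le _
  · exact Real.rpow_nonneg hSS.le _

end RP
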