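import Pool.Agent.H6.RP.A0
import Pool.Agent.H6.RP.B1
import Pool.Agent.H6.RP.B9
import Pool.Agent.H6.RP.B12

/-! B8: lower bound for the section integral (every real `b`).

Notation `N = Nv o y`, `j = o.1`, `s_i = sN N i` (`1 ≤ s_j ≤ √D`, `s_i ≤ s_j` on `Yreg o`), `t = tN N (y o)`, `p_i = pN N (y o) i`,
`0 < y o`, `0 < t ≤ t₀` (small, depending on `d` only), `u_i = N^{(i)}/s_i`, `y o = ∑ s_i - t`.
Choose `x'` as follows.  Blocks `i ≠ j`, in coordinates rotated by `rot'` (`x^{(i)} = R z`, `⟨u_i, x^{(i)}⟩ = z_0` if `s_i ≠ 0`):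
`1 - z_0 ∈ [p_i/(4m), p_i/(2m)]`, `|z_l| ≤ ε √p_i` (`l ≥ 1`): then `s_i (1 - z_0) ≤ t/(2m)` and
`1 - bsq x i ≥ p_i/(8m)` as in B2.  Block `j`: the coordinates `x'_l`, `l ≠ o`, satisfy `|x'_l - (u_j)_l| ≤ ε √t`.
For the graph point `x = gp o (ext0 o x') y`: `∑ s_i τ_i = t` (`τ_i = 1 - ⟨u_i, x^{(i)}⟩`), so `s_j τ_j ∈ [t/2, t]`.  Write
`x^{(j)} = (1 - τ_j) u_j + v`, `v ⊥ u_j`; for `l ≠ o`: `|v_l| ≤ ε √t + τ_j`, and `v_o = - ∑_{l≠o} (u_j)_l v_l / (u_j)_o` with `|(u_j)_l / (u_j)_o| = |N_l| ≤ 1`, so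
`|v|² ≤ C (ε² t + t²) ≤ τ_j/2` for `ε`, `t₀` small; `bsq x j = (1-τ_j)² + |v|² ≤ 1 - τ_j`, so `1 - bsq x j ≥ τ_j ≥ t/(2√D) ≥ p_j/(2√D)`
(`p_j ≤ t`).  Hence `wt ≥ c ∏ p_i^{β_i}` at each of the `D` points.
The set of these `x'` is `v + L(cube [-1,1]^{ι'})` with `|det L| = c ∏_{i≠j} p_i^{(d_i+1)/2} t^{(d_j-1)/2}`, comparable with `SS`
(`t/(m√D) ≤ p_j ≤ t`).  So `Sec ≥ (c ∏ p_i^{β_i})^D |det L|^{D+1+b} ∫_{cube} |Dt|^{1+b}` by `dt_scale`, and the last integral is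
positive (`det_pos`; if it is infinite the bound is trivially true because `|det L| > 0`). -/

open MeasureTheory
open scoped ENNReal

namespace RP

/-- block `i ≠ j` -/
theorem B8_blk {k : ℕ} (hk : 0 < k) (w : Fin k → ℝ) (p M ε : ℝ) (hp : 0 < p) (hp1 : p ≤ 1) (hM : 1 ≤ M)
    (_hε : 0 ≤ ε) (hεk : (k : ℝ) * ε ^ 2 ≤ 1 / (8 * M)) (u : ℝ) (hu : |u| ≤ 1)
    (hw0 : w ⟨0, hk⟩ = 1 - 3 * p / (8 * M) + p / (8 * M) * u)
    (hw : ∀ l, l ≠ ⟨0, hk⟩ → |w l| ≤ ε * Real.sqrt p) : ∑ l, (w l) ^ 2 ≤ 1 - p / (8 * M) := by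
  rw [← Finset.add_sum_erase _ _ (Finset.mem_univ (⟨0, hk⟩ : Fin k))]
  have h1 : ∑ l ∈ Finset.univ.erase (⟨0, hk⟩ : Fin k), (w l) ^ 2 ≤ p / (8 * M) := by
    calc ∑ l ∈ Finset.univ.erase (⟨0, hk⟩ : Fin k), (w l) ^ 2
        ≤ ∑ l ∈ Finset.univ.erase (⟨0, hk⟩ : Fin k), ε ^ 2 * p := by
          apply Finset.sum_le_sum
          intro l hl
          have := hw l (Finset.ne_of_mem_erase hl)
          have h2 : (w l) ^ 2 = |w l| ^ 2 := (sq_abs _).symm
          rw [h2]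
          calc |w l| ^ 2 ≤ (ε * Real.sqrt p) ^ 2 := by gcongr
            _ = ε ^ 2 * p := by rw [mul_pow, Real.sq_sqrt hp.le]
      _ ≤ ∑ l : Fin k, ε ^ 2 * p := by
          apply Finset.sum_le_sum_of_subset_of_nonneg (Finset.subset_univ _)
          intro i _ _; positivity
      _ = ((k : ℝ) * ε ^ 2) * p := by simp; ring
      _ ≤ 1 / (8 * M) * p := by gcongr
      _ = p / (8 * M) := by ring
  have h3 : 0 < 8 * M := by positivity
  have hq : 0 < p / (8 * M) := by positivity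
  have hq1 : p / (8 * M) ≤ 1 / 8 := by
    rw [div_le_div_iff₀ h3 (by norm_num)]; nlinarith
  have hu' := abs_le.mp hu
  have h4 : (w ⟨0, hk⟩) ^ 2 ≤ 1 - 2 * (p / (8 * M)) := by
    rw [hw0]
    set q := p / (8 * M) with hqdef
    have : 3 * p / (8 * M) = 3 * q := by rw [hqdef]; ring
    rw [this]
    have e1 : 1 - 3 * q + q * u = 1 - q * (3 - u) := by ring
    rw [e1]
    have h5 : 2 ≤ 3 - u := by linarith
    have h6 : 3 - u ≤ 4 := by linarith
    have h7 : q * (3 - u) ≤ 1 / 2 := by nlinarith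
    have h8 : 2 * q ≤ q * (3 - u) := by nlinarith
    nlinarith
  linarith

/-- block `j` -/
theorem B8_blkj {k : ℕ} (o : Fin k) (n x : Fin k → ℝ) (D ε t s τ : ℝ) (hn : n o = 1) (hn1 : ∀ l, |n l| ≤ 1)
    (hkD : (k : ℝ) ≤ D) (hs1 : 1 ≤ s) (hsD : s ≤ D) (hs2 : s ^ 2 = ∑ l, (n l) ^ 2) (ht : 0 < t) (hε : 0 ≤ ε)
    (hsm : (ε ^ 2 + t) ≤ 1 / (8 * D ^ 4)) (hx : ∀ l, l ≠ o → |x l - n l / s| ≤ ε * Real.sqrt t)
    (hnx : ∑ l, n l * x l = s * (1 - τ)) (hτ1 : t / 2 ≤ s * τ) (hτ2 : s * τ ≤ t) :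
    ∑ l, (x l) ^ 2 ≤ 1 - τ := by
  have hs0 : 0 < s := by linarith
  have hD : 1 ≤ D := by linarith
  have hτ0 : 0 < τ := by
    by_contra h
    push Not at h
    nlinarith
  have hτt : τ ≤ t := by nlinarith
  have ht1 : t ≤ 1 / 8 := by
    have : 1 / (8 * D ^ 4) ≤ 1 / 8 := by
      apply div_le_div_of_nonneg_left (by norm_num) (by norm_num)
      have : 1 ≤ D ^ 4 := one_le_pow₀ hD
      linarith
    nlinarith [sq_nonneg ε]
  set v : Fin k → ℝ := fun l => x l - (1 - τ) * (n l / s) with hv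
  have hnv : ∑ l, n l * v l = 0 := by
    have : ∀ l, n l * v l = n l * x l - (1 - τ) / s * (n l) ^ 2 := by
      intro l; simp only [hv]; field_simp
    simp_rw [this]
    rw [Finset.sum_sub_distrib, ← Finset.mul_sum, hnx, ← hs2]
    field_simp
    ring
  have hxx : ∑ l, (x l) ^ 2 = (1 - τ) ^ 2 + ∑ l, (v l) ^ 2 := by
    have : ∀ l, (x l) ^ 2 = (1 - τ) ^ 2 / s ^ 2 * (n l) ^ 2 + 2 * (1 - τ) / s * (n l * v l) + (v l) ^ 2 := by
      intro l; simp only [hv]; field_simp; ring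
    simp_rw [this]
    rw [Finset.sum_add_distrib, Finset.sum_add_distrib, ← Finset.mul_sum, ← Finset.mul_sum, hnv, ← hs2]
    field_simp
    ring
  set A := ε * Real.sqrt t + τ with hA
  have hA0 : 0 ≤ A := by positivity
  have hvl : ∀ l, l ≠ o → |v l| ≤ A := by
    intro l hl
    have e : v l = (x l - n l / s) + τ * (n l / s) := by simp only [hv]; ring
    rw [e]
    have h2 : |n l / s| ≤ 1 := by
      rw [abs_div, abs_of_pos hs0, div_le_one hs0]; linarith [hn1 l]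
    calc |(x l - n l / s) + τ * (n l / s)| ≤ |x l - n l / s| + |τ * (n l / s)| := abs_add_le _ _
      _ ≤ ε * Real.sqrt t + τ * 1 := by
          rw [abs_mul, abs_of_pos hτ0]
          gcongr
          exact hx l hl
      _ = A := by rw [mul_one]
  have hvo : |v o| ≤ D * A := by
    have h1 : v o = - ∑ l ∈ Finset.univ.erase o, n l * v l := by
      rw [← Finset.add_sum_erase _ _ (Finset.mem_univ o), hn] at hnv
      linarith
    rw [h1, abs_neg]
    calc |∑ l ∈ Finset.univ.erase o, n l * v l| ≤ ∑ l ∈ Finset.univ.erase o, |n l * v l| :=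
          Finset.abs_sum_le_sum_abs _ _
      _ ≤ ∑ l ∈ Finset.univ.erase o, A := by
          apply Finset.sum_le_sum
          intro l hl
          rw [abs_mul]
          calc |n l| * |v l| ≤ 1 * A := by
                gcongr
                · exact hn1 l
                · exact hvl l (Finset.ne_of_mem_erase hl)
            _ = A := one_mul _
      _ ≤ ∑ l : Fin k, A := Finset.sum_le_sum_of_subset_of_nonneg (Finset.subset_univ _) (fun _ _ _ => hA0)
      _ = k * A := by simp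
      _ ≤ D * A := by gcongr
  have hvD : ∀ l, (v l) ^ 2 ≤ (D * A) ^ 2 := by
    intro l
    rw [← sq_abs]
    by_cases hl : l = o
    · subst hl; gcongr
    · have := hvl l hl
      have h2 : A ≤ D * A := by nlinarith
      have h3 : |v l| ≤ D * A := by linarith
      gcongr
  have hvv : ∑ l, (v l) ^ 2 ≤ D * (D * A) ^ 2 := by
    calc ∑ l, (v l) ^ 2 ≤ ∑ l : Fin k, (D * A) ^ 2 := Finset.sum_le_sum fun l _ => hvD l
      _ = k * (D * A) ^ 2 := by simp
      _ ≤ D * (D * A) ^ 2 := by gcongr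
  have hA2 : A ^ 2 ≤ 2 * (ε ^ 2 * t) + 2 * τ ^ 2 := by
    have h1 : (Real.sqrt t) ^ 2 = t := Real.sq_sqrt ht.le
    have h2 : (ε * Real.sqrt t) ^ 2 = ε ^ 2 * t := by rw [mul_pow, h1]
    nlinarith [sq_nonneg (ε * Real.sqrt t - τ)]
  have hD0 : 0 < D := by linarith
  have hvt : ∑ l, (v l) ^ 2 ≤ τ / 2 := by
    have h1 : A ^ 2 ≤ 2 * t * (ε ^ 2 + t) := by nlinarith
    have h2 : D * (D * A) ^ 2 = D ^ 3 * A ^ 2 := by ring
    have h3 : D ^ 3 * A ^ 2 ≤ D ^ 3 * (2 * t * (1 / (8 * D ^ 4))) := by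
      have : 2 * t * (ε ^ 2 + t) ≤ 2 * t * (1 / (8 * D ^ 4)) := by gcongr
      gcongr
      linarith
    have h4 : D ^ 3 * (2 * t * (1 / (8 * D ^ 4))) = t / (4 * D) := by
      field_simp
      norm_num
    have h5 : t / (4 * D) ≤ τ / 2 := by
      rw [div_le_div_iff₀ (by positivity) (by norm_num)]
      have : s * τ ≤ D * τ := by gcongr
      nlinarith
    linarith [h2 ▸ hvv]
  rw [hxx]
  nlinarith


variable {m : ℕ} {d : Fin m → ℕ} {β : Fin m → ℝ}

/-- side lengths of the box -/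
noncomputable def B8dl (o : Ix d) (p : Fin m → ℝ) (ε M : ℝ) (l : Ix d) : ℝ :=
  if l.1 ≠ o.1 ∧ l.2.val = 0 then p l.1 / M else ε * Real.sqrt (p l.1)

/-- centre of the box -/
noncomputable def B8v0 (o : Ix d) (p : Fin m → ℝ) (M : ℝ) (n : Ix d → ℝ) (s : ℝ) (l : Ix d) : ℝ :=
  if l.1 = o.1 then n l / s else if l.2.val = 0 then 1 - 3 * p l.1 / M else 0

theorem B8_prod (hd : ∀ i, 1 ≤ d i) (o : Ix d) (p : Fin m → ℝ) (hp : ∀ i, 0 < p i) (ε M : ℝ) (hε : 0 < ε)
    (hM : 0 < M) :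
    ∏ l : {l : Ix d // l ≠ o}, B8dl o p ε M l =
      (∏ i, ε ^ (d i - 1) / M) * M * (∏ i, (p i) ^ ((((d i : ℕ) : ℝ) + 1) / 2)) / p o.1 := by
  have h0 : ∏ l : {l : Ix d // l ≠ o}, B8dl o p ε M l = ∏ l ∈ Finset.univ.erase o, B8dl o p ε M l := by
    rw [← Finset.prod_subtype (Finset.univ.erase o) (fun x => by simp) (fun l => B8dl o p ε M l)]
  have ho : B8dl o p ε M o = ε * Real.sqrt (p o.1) := by simp [B8dl]
  have hpo := hp o.1
  have hpos : 0 < B8dl o p ε M o := by rw [ho]; positivity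
  have h1 : B8dl o p ε M o * ∏ l ∈ Finset.univ.erase o, B8dl o p ε M l = ∏ l, B8dl o p ε M l :=
    Finset.mul_prod_erase _ _ (Finset.mem_univ o)
  have h2 : ∏ l, B8dl o p ε M l = ∏ i, ∏ k : Fin (d i), B8dl o p ε M ⟨i, k⟩ := Fintype.prod_sigma _
  have h3 : ∀ i, ∏ k : Fin (d i), B8dl o p ε M ⟨i, k⟩ =
      (ε ^ (d i - 1) / M * (p i) ^ ((((d i : ℕ) : ℝ) + 1) / 2)) *
        (if i = o.1 then M / p o.1 * (ε * Real.sqrt (p o.1)) else 1) := by
    intro i
    have hpi := hp i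
    have hdi := hd i
    have e1 : (p i) ^ ((((d i : ℕ) : ℝ) + 1) / 2) = (Real.sqrt (p i)) ^ (d i - 1) * p i := by
      have : (((d i : ℕ) : ℝ) + 1) / 2 = (1 / 2 : ℝ) * ((d i - 1 : ℕ) : ℝ) + 1 := by
        rw [Nat.cast_sub hdi]; push_cast; ring
      rw [this, Real.rpow_add hpi, Real.rpow_one, Real.sqrt_eq_rpow, Real.rpow_mul hpi.le, Real.rpow_natCast]
    rw [e1]
    by_cases hi : i = o.1
    · rw [if_pos hi]
      have : ∀ k : Fin (d i), B8dl o p ε M ⟨i, k⟩ = ε * Real.sqrt (p i) := by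
        intro k; simp [B8dl, hi]
      simp_rw [this]
      rw [Finset.prod_const, Finset.card_univ, Fintype.card_fin, ← hi]
      obtain ⟨r, hr⟩ : ∃ r, d i = r + 1 := ⟨d i - 1, by omega⟩
      rw [hr]
      simp only [Nat.add_sub_cancel]
      field_simp
      ring
    · rw [if_neg hi, mul_one]
      rw [← Finset.mul_prod_erase _ _ (Finset.mem_univ (⟨0, hdi⟩ : Fin (d i)))]
      have a1 : B8dl o p ε M ⟨i, ⟨0, hdi⟩⟩ = p i / M := by simp [B8dl, hi]
      have a2 : ∏ k ∈ Finset.univ.erase (⟨0, hdi⟩ : Fin (d i)), B8dl o p ε M ⟨i, k⟩ =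
          ∏ k ∈ Finset.univ.erase (⟨0, hdi⟩ : Fin (d i)), ε * Real.sqrt (p i) := by
        apply Finset.prod_congr rfl
        intro k hk
        have : k.val ≠ 0 := by
          intro h
          exact (Finset.ne_of_mem_erase hk) (Fin.ext h)
        simp [B8dl, this]
      rw [a1, a2, Finset.prod_const, Finset.card_erase_of_mem (Finset.mem_univ _), Finset.card_univ, Fintype.card_fin]
      rw [mul_pow]
      field_simp
  rw [h0]
  have h4 : B8dl o p ε M o * ∏ l ∈ Finset.univ.erase o, B8dl o p ε M l =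
      B8dl o p ε M o * ((∏ i, ε ^ (d i - 1) / M) * M * (∏ i, (p i) ^ ((((d i : ℕ) : ℝ) + 1) / 2)) / p o.1) := by
    rw [h1, h2, Finset.prod_congr rfl fun i _ => h3 i, Finset.prod_mul_distrib, Finset.prod_mul_distrib,
      Finset.prod_ite_eq' Finset.univ o.1, if_pos (Finset.mem_univ _), ho]
    ring
  exact mul_left_cancel₀ hpos.ne' h4

theorem B8_det (o : Ix d) (δ : Ix d → ℝ) (hδ : ∀ l, 0 < δ l) :
    ∃ D : ({l : Ix d // l ≠ o} → ℝ) ≃ₗ[ℝ] ({l : Ix d // l ≠ o} → ℝ),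
      (∀ u l, D u l = δ l * u l) ∧
      LinearMap.det (D : ({l : Ix d // l ≠ o} → ℝ) →ₗ[ℝ] ({l : Ix d // l ≠ o} → ℝ)) =
        ∏ l : {l : Ix d // l ≠ o}, δ l := by
  have hdet : LinearMap.det (Matrix.toLin' (Matrix.diagonal fun l : {l : Ix d // l ≠ o} => δ l)) =
      ∏ l : {l : Ix d // l ≠ o}, δ l := by
    rw [LinearMap.det_toLin', Matrix.det_diagonal]
  have hne : LinearMap.det (Matrix.toLin' (Matrix.diagonal fun l : {l : Ix d // l ≠ o} => δ l)) ≠ 0 := by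
    rw [hdet]
    exact Finset.prod_ne_zero_iff.mpr fun l _ => (hδ l).ne'
  refine ⟨LinearMap.equivOfDetNeZero _ hne, ?_, ?_⟩
  · intro u l
    simp [LinearMap.equivOfDetNeZero, Matrix.mulVec_diagonal]
  · rw [← hdet]
    rfl

theorem B8_sN_one (o : Ix d) (y : Ix d → ℝ) : 1 ≤ sN (Nv o y) o.1 := by
  unfold sN bsq
  rw [Real.one_le_sqrt]
  have h : (Nv o y ⟨o.1, o.2⟩) ^ 2 = 1 := by simp [Nv]
  calc (1 : ℝ) = (Nv o y ⟨o.1, o.2⟩) ^ 2 := h.symm
    _ ≤ ∑ j : Fin (d o.1), (Nv o y ⟨o.1, j⟩) ^ 2 :=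
        Finset.single_le_sum (f := fun j : Fin (d o.1) => (Nv o y ⟨o.1, j⟩) ^ 2) (fun _ _ => sq_nonneg _)
          (Finset.mem_univ o.2)

theorem B8_sN_le (o : Ix d) (y : Ix d → ℝ) (hy : y ∈ Yreg o) :
    sN (Nv o y) o.1 ≤ ((∑ i, d i : ℕ) : ℝ) := by
  unfold sN
  have h1 : bsq (Nv o y) o.1 ≤ (d o.1 : ℝ) := by
    unfold bsq
    calc ∑ j : Fin (d o.1), (Nv o y ⟨o.1, j⟩) ^ 2 ≤ ∑ j : Fin (d o.1), (1 : ℝ) := by
          apply Finset.sum_le_sum
          intro j _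
          have := hy.1 j
          rw [← sq_abs]
          nlinarith [abs_nonneg (Nv o y ⟨o.1, j⟩)]
      _ = d o.1 := by simp
  have h2 : (d o.1 : ℝ) ≤ ((∑ i, d i : ℕ) : ℝ) := by
    exact_mod_cast Finset.single_le_sum (f := d) (fun _ _ => Nat.zero_le _) (Finset.mem_univ o.1)
  have h3 : (1 : ℝ) ≤ (d o.1 : ℝ) := by
    exact_mod_cast (lt_of_le_of_lt (Nat.zero_le _) o.2.2)
  rw [Real.sqrt_le_left (by linarith)]
  nlinarith

/-- the bound for the graph points -/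
theorem B8_graph (hm : 0 < m) (hd : ∀ i, 1 ≤ d i) (o : Ix d) (y : Ix d → ℝ) (hy : y ∈ Yreg o) (hy0 : 0 < y o)
    (ht : 0 < tN (Nv o y) (y o)) (ε D : ℝ) (hε : 0 < ε) (hD : D = ((∑ i, d i : ℕ) : ℝ))
    (hε1 : D * ε ^ 2 ≤ 1 / (8 * m))
    (hsm : ε ^ 2 + tN (Nv o y) (y o) ≤ 1 / (8 * D ^ 4))
    (R : ({l : Ix d // l ≠ o} → ℝ) ≃ₗ[ℝ] ({l : Ix d // l ≠ o} → ℝ))
    (hR1 : ∀ x i, i ≠ o.1 → bsq (ext0 o (R x)) i = bsq (ext0 o x) i ∧
        ∑ j, Nv o y ⟨i, j⟩ * ext0 o (R x) ⟨i, j⟩ = sN (Nv o y) i * ext0 o x ⟨i, ⟨0, hd i⟩⟩)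
    (hR2 : ∀ x j, ext0 o (R x) ⟨o.1, j⟩ = ext0 o x ⟨o.1, j⟩)
    (u : {l : Ix d // l ≠ o} → ℝ) (hu : ∀ l, |u l| ≤ 1) (z : {l : Ix d // l ≠ o} → ℝ)
    (hz : ∀ l, z l = B8v0 o (pN (Nv o y) (y o)) (8 * m) (Nv o y) (sN (Nv o y) o.1) l +
      B8dl o (pN (Nv o y) (y o)) ε (8 * m) l * u l) (i : Fin m) :
    bsq (gp o (ext0 o (R z)) y) i ≤ 1 - pN (Nv o y) (y o) i / (8 * m) := by
  set N := Nv o y with hN
  set t := tN N (y o) with htdef
  set p := pN N (y o) with hpdef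
  have hmR : (1 : ℝ) ≤ m := by exact_mod_cast hm
  have hs1 := B8_sN_one o y
  have hsD := B8_sN_le o y hy
  rw [← hN] at hs1 hsD
  rw [← hD] at hsD
  have hD1 : 1 ≤ D := hs1.trans hsD
  have ht1 : t ≤ 1 / 8 := by
    have : 1 / (8 * D ^ 4) ≤ 1 / 8 := by
      apply div_le_div_of_nonneg_left (by norm_num) (by norm_num)
      have : 1 ≤ D ^ 4 := one_le_pow₀ hD1
      linarith
    nlinarith [sq_nonneg ε]
  have hp0 : ∀ i, 0 < p i := by
    intro i
    have : 0 < max (sN N i) t := lt_max_of_lt_right ht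
    exact div_pos ht this
  have hp1 : ∀ i, p i ≤ 1 := by
    intro i
    have : 0 < max (sN N i) t := lt_max_of_lt_right ht
    exact (div_le_one this).mpr (le_max_right _ _)
  have hps : ∀ i, sN N i * p i ≤ t := by
    intro i
    have h0 : 0 < max (sN N i) t := lt_max_of_lt_right ht
    have : sN N i * p i = t * (sN N i / max (sN N i) t) := by
      rw [hpdef]; unfold pN; ring
    rw [this]
    have : sN N i / max (sN N i) t ≤ 1 := (div_le_one h0).mpr (le_max_left _ _)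
    nlinarith
  have hpo : p o.1 = t / sN N o.1 := by
    rw [hpdef]; unfold pN
    rw [max_eq_left (by linarith)]
  have hsn : ∀ i, 0 ≤ sN N i := fun i => Real.sqrt_nonneg _
  have hdD : ∀ i, (d i : ℝ) ≤ D := by
    intro i
    rw [hD]
    exact_mod_cast Finset.single_le_sum (f := d) (fun _ _ => Nat.zero_le _) (Finset.mem_univ i)
  set X := ext0 o (R z) with hX
  set x := gp o X y with hx
  have hxl : ∀ l, l ≠ o → x l = X l := by
    intro l hl
    rw [hx]; unfold gp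
    rw [Function.update_of_ne hl]
  have hbx : ∀ i, i ≠ o.1 → bsq x i = bsq X i := by
    intro i hi
    unfold bsq
    apply Finset.sum_congr rfl
    intro k _
    rw [hxl]
    intro h
    exact hi (by rw [← h])
  have hne : ∀ (i : Fin m) (hi : i ≠ o.1) (k : Fin (d i)), (⟨i, k⟩ : Ix d) ≠ o := by
    intro i hi k h
    exact hi (by rw [← h])
  by_cases hi : i = o.1
  · -- block j
    subst hi
    have hsum : ∑ i, ∑ k : Fin (d i), N ⟨i, k⟩ * x ⟨i, k⟩ = y o := by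
      have := Nv_gp o X y
      rw [← hN, ← hx] at this
      rw [← this]
      unfold dotProduct
      rw [Fintype.sum_sigma]
    set e : Fin m → ℝ := fun i => sN N i - ∑ k : Fin (d i), N ⟨i, k⟩ * x ⟨i, k⟩ with he
    have hei : ∀ i, i ≠ o.1 → 0 ≤ e i ∧ e i ≤ t / (2 * m) := by
      intro i hi
      have h1 : ∑ k : Fin (d i), N ⟨i, k⟩ * x ⟨i, k⟩ = sN N i * ext0 o z ⟨i, ⟨0, hd i⟩⟩ := by
        rw [← (hR1 z i hi).2]
        apply Finset.sum_congr rfl
        intro k _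
        rw [hxl _ (hne i hi k)]
      have h2 : ext0 o z ⟨i, ⟨0, hd i⟩⟩ = 1 - 3 * p i / (8 * m) + p i / (8 * m) * u ⟨⟨i, ⟨0, hd i⟩⟩, hne i hi _⟩ := by
        have : ext0 o z ⟨i, ⟨0, hd i⟩⟩ = z ⟨⟨i, ⟨0, hd i⟩⟩, hne i hi _⟩ := by
          unfold ext0
          rw [dif_neg (hne i hi _)]
        rw [this, hz]
        simp [B8v0, B8dl, hi]
      have h3 : e i = (sN N i * p i) * ((3 - u ⟨⟨i, ⟨0, hd i⟩⟩, hne i hi _⟩) / (8 * m)) := by
        rw [he]
        simp only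
        rw [h1, h2]
        ring
      have h4 := abs_le.mp (hu ⟨⟨i, ⟨0, hd i⟩⟩, hne i hi _⟩)
      have h5 : 0 ≤ (3 - u ⟨⟨i, ⟨0, hd i⟩⟩, hne i hi _⟩) / (8 * m) := by
        apply div_nonneg (by linarith) (by positivity)
      have h6 : (3 - u ⟨⟨i, ⟨0, hd i⟩⟩, hne i hi _⟩) / (8 * m) ≤ 1 / (2 * m) := by
        rw [div_le_div_iff₀ (by positivity) (by positivity)]
        nlinarith
      have h7 : 0 ≤ sN N i * p i := mul_nonneg (hsn i) (hp0 i).le
      constructor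
      · rw [h3]; exact mul_nonneg h7 h5
      · rw [h3]
        calc (sN N i * p i) * ((3 - u ⟨⟨i, ⟨0, hd i⟩⟩, hne i hi _⟩) / (8 * m)) ≤ t * (1 / (2 * m)) := by
              apply mul_le_mul (hps i) h6 h5 ht.le
          _ = t / (2 * m) := by ring
    have hes : ∑ i, e i = t := by
      rw [he]
      simp only
      rw [Finset.sum_sub_distrib, hsum, htdef]
      unfold tN
      rw [abs_of_pos hy0]
    have hes2 : e o.1 + ∑ i ∈ Finset.univ.erase o.1, e i = t := by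
      rw [Finset.add_sum_erase _ _ (Finset.mem_univ _), hes]
    have hes3 : 0 ≤ ∑ i ∈ Finset.univ.erase o.1, e i :=
      Finset.sum_nonneg fun i hi => (hei i (Finset.ne_of_mem_erase hi)).1
    have hes4 : ∑ i ∈ Finset.univ.erase o.1, e i ≤ t / 2 := by
      calc ∑ i ∈ Finset.univ.erase o.1, e i ≤ ∑ i ∈ Finset.univ.erase o.1, t / (2 * m) :=
            Finset.sum_le_sum fun i hi => (hei i (Finset.ne_of_mem_erase hi)).2
        _ ≤ ∑ i : Fin m, t / (2 * m) :=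
            Finset.sum_le_sum_of_subset_of_nonneg (Finset.subset_univ _) (fun _ _ _ => by positivity)
        _ = m * (t / (2 * m)) := by simp
        _ = t / 2 := by field_simp
    have hs0 : 0 < sN N o.1 := by linarith
    set τ : ℝ := e o.1 / sN N o.1 with hτ
    have hsτ : sN N o.1 * τ = e o.1 := by rw [hτ]; field_simp
    have hpo' : p o.1 ≤ t := by
      rw [hpo, div_le_iff₀ hs0]; nlinarith
    have key := B8_blkj o.2 (fun k => N ⟨o.1, k⟩) (fun k => x ⟨o.1, k⟩) D ε t (sN N o.1) τ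
      (by simp [hN, Nv]) (fun l => hy.1 l) (hdD o.1) hs1 hsD
      (by unfold sN; rw [Real.sq_sqrt (by unfold bsq; positivity)]; rfl) ht hε.le hsm
      (by
        intro l hl
        have hlo : (⟨o.1, l⟩ : Ix d) ≠ o := by
          intro h
          apply hl
          have : o.2 = l := by
            rcases o with ⟨o1, o2⟩
            simp at h
            exact h.symm
          exact this.symm
        have h1 : x ⟨o.1, l⟩ = z ⟨⟨o.1, l⟩, hlo⟩ := by
          rw [hxl _ hlo, hX, hR2]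
          unfold ext0
          rw [dif_neg hlo]
        show |x ⟨o.1, l⟩ - N ⟨o.1, l⟩ / sN N o.1| ≤ ε * Real.sqrt t
        rw [h1, hz]
        have h2 : B8v0 o p (8 * m) N (sN N o.1) ⟨o.1, l⟩ = N ⟨o.1, l⟩ / sN N o.1 := by simp [B8v0]
        have h3 : B8dl o p ε (8 * m) ⟨o.1, l⟩ = ε * Real.sqrt (p o.1) := by simp [B8dl]
        simp only at h2 h3 ⊢
        rw [h2, h3, add_sub_cancel_left, abs_mul, abs_of_nonneg (by positivity)]
        calc ε * Real.sqrt (p o.1) * |u ⟨⟨o.1, l⟩, hlo⟩| ≤ ε * Real.sqrt (p o.1) * 1 := by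
              gcongr
              exact hu _
          _ ≤ ε * Real.sqrt t := by
              rw [mul_one]
              gcongr)
      (by
        have : sN N o.1 * (1 - τ) = sN N o.1 - e o.1 := by rw [mul_sub, hsτ, mul_one]
        rw [this, he]
        simp only
        ring)
      (by rw [hsτ]; linarith) (by rw [hsτ]; linarith)
    have h1 : bsq x o.1 ≤ 1 - τ := key
    have h2 : p o.1 / (8 * m) ≤ τ := by
      rw [hpo, hτ, div_div, div_le_div_iff₀ (by positivity) hs0]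
      have : t / 2 ≤ e o.1 := by linarith
      have h3 : t * sN N o.1 = (t / 2) * (2 * sN N o.1) := by ring
      have h4 : e o.1 * (sN N o.1 * (8 * m)) = e o.1 * (2 * sN N o.1) * (4 * m) := by ring
      rw [h3, h4]
      have h5 : (t / 2) * (2 * sN N o.1) ≤ e o.1 * (2 * sN N o.1) := by gcongr
      have h6 : 0 ≤ e o.1 * (2 * sN N o.1) := by
        have : 0 ≤ e o.1 := by linarith
        positivity
      nlinarith
    linarith
  · rw [hbx i hi, (hR1 z i hi).1]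
    unfold bsq
    have hzi : ∀ k, ext0 o z ⟨i, k⟩ = z ⟨⟨i, k⟩, hne i hi k⟩ := by
      intro k
      unfold ext0
      rw [dif_neg (hne i hi k)]
    apply B8_blk (hd i) (fun k => ext0 o z ⟨i, k⟩) (p i) m ε (hp0 i) (hp1 i) hmR hε.le ?_
      (u ⟨⟨i, ⟨0, hd i⟩⟩, hne i hi _⟩) (hu _) ?_ ?_
    · have := hdD i
      nlinarith [sq_nonneg ε]
    · simp only [hzi, hz]
      simp [B8v0, B8dl, hi]
    · intro k hk
      have hk' : k.val ≠ 0 := fun h => hk (Fin.ext h)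
      simp only [hzi, hz]
      simp only [B8v0, B8dl, hi, hk', if_false, ne_eq, not_false_eq_true, and_false, zero_add]
      rw [abs_mul, abs_of_nonneg (by positivity)]
      have := hu ⟨⟨i, k⟩, hne i hi _⟩
      have h2 : 0 ≤ ε * Real.sqrt (p i) := by positivity
      nlinarith


theorem B8_card : Fintype.card (Ix d) = ∑ i, d i := by simp

theorem B8_wt (x : Ix d → ℝ) (q : Fin m → ℝ) (hβ : ∀ i, 0 ≤ β i) (hq : ∀ i, 0 ≤ q i)
    (h : ∀ i, bsq x i ≤ 1 - q i) : ENNReal.ofReal (∏ i, q i ^ β i) ≤ wt β x := by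
  unfold wt
  rw [if_pos fun i => (h i).trans (by linarith [hq i])]
  apply ENNReal.ofReal_le_ofReal
  apply Finset.prod_le_prod
  · intro i _
    exact Real.rpow_nonneg (hq i) _
  · intro i _
    exact Real.rpow_le_rpow (hq i) (by linarith [h i]) (hβ i)

theorem B8_sec_ge (b : ℝ) (o : Ix d) (y : Ix d → ℝ) (S : Set ({l : Ix d // l ≠ o} → ℝ)) (hS : MeasurableSet S)
    (W : ℝ≥0∞) (hW : ∀ x ∈ S, W ≤ wt β (gp o (ext0 o x) y)) :
    W ^ (∑ i, d i) * ∫⁻ x in {x : Ix d → {l : Ix d // l ≠ o} → ℝ | ∀ k, x k ∈ S},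
      ENNReal.ofReal |Dt o (fun k => ext0 o (x k))| ^ (1 + b) ≤ Sec β b o y := by
  have hT : MeasurableSet {x : Ix d → {l : Ix d // l ≠ o} → ℝ | ∀ k, x k ∈ S} := by
    have : {x : Ix d → {l : Ix d // l ≠ o} → ℝ | ∀ k, x k ∈ S} = ⋂ k, (fun x => x k) ⁻¹' S := by
      ext x; simp
    rw [this]
    exact MeasurableSet.iInter fun k => measurable_pi_apply k hS
  unfold Sec
  refine le_trans (lintegral_const_mul_le _ _) ?_
  refine le_trans ?_ (setLIntegral_le_lintegral {x : Ix d → {l : Ix d // l ≠ o} → ℝ | ∀ k, x k ∈ S} _)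
  apply setLIntegral_mono' hT
  intro x hx
  rw [mul_comm]
  gcongr
  calc W ^ (∑ i, d i) = ∏ k : Ix d, W := by
        rw [Finset.prod_const, Finset.card_univ, B8_card]
    _ ≤ ∏ k, wt β (gp o (ext0 o (x k)) y) := Finset.prod_le_prod' fun k _ => hW _ (hx k)

theorem B8_const (b : ℝ) : ∃ c : ℝ, 0 < c ∧ ∀ o : Ix d, ENNReal.ofReal c ≤
    ∫⁻ x in cub (Ix d) o 1, ENNReal.ofReal |Dt o (fun k => ext0 o (x k))| ^ (1 + b) := by
  by_cases hne : Nonempty (Ix d)
  · obtain ⟨o0, ho0⟩ := Finite.exists_min (fun o : Ix d =>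
      ∫⁻ x in cub (Ix d) o 1, ENNReal.ofReal |Dt o (fun k => ext0 o (x k))| ^ (1 + b))
    have hpos := det_pos (Ix d) o0 (1 + b) 1 one_pos
    by_cases htop : ∫⁻ x in cub (Ix d) o0 1, ENNReal.ofReal |Dt o0 (fun k => ext0 o0 (x k))| ^ (1 + b) = ⊤
    · refine ⟨1, one_pos, fun o => ?_⟩
      have := ho0 o
      rw [htop] at this
      exact le_trans le_top this
    · refine ⟨_, ENNReal.toReal_pos hpos.ne' htop, fun o => ?_⟩
      rw [ENNReal.ofReal_toReal htop]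
      exact ho0 o
  · exact ⟨1, one_pos, fun o => absurd ⟨o⟩ hne⟩

theorem sec_low (hm : 0 < m) (hd : ∀ i, 1 ≤ d i) (hβ : ∀ i, 0 ≤ β i) (b : ℝ) :
    ∃ c t₀ : ℝ, 0 < c ∧ 0 < t₀ ∧ ∀ (o : Ix d) (y : Ix d → ℝ), y ∈ Yreg o → 0 < y o → 0 < tN (Nv o y) (y o) →
      tN (Nv o y) (y o) ≤ t₀ →
      ENNReal.ofReal (c * ((∏ i, (pN (Nv o y) (y o) i) ^ (((∑ i, d i : ℕ) : ℝ) * β i)) *
        (SS (Nv o y) (y o)) ^ (((∑ i, d i : ℕ) : ℝ) + 1 + b))) ≤ Sec β b o y := by
  obtain ⟨c5, hc5, hc5'⟩ := B8_const (d := d) b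
  set D : ℝ := ((∑ i, d i : ℕ) : ℝ) with hD
  set E : ℝ := D + 1 + b with hE
  have hmR : (1 : ℝ) ≤ m := by exact_mod_cast hm
  have hmD : (m : ℝ) ≤ D := by
    rw [hD]
    have : m ≤ ∑ i, d i := by
      calc m = ∑ i : Fin m, 1 := by simp
        _ ≤ ∑ i, d i := Finset.sum_le_sum fun i _ => hd i
    exact_mod_cast this
  have hD1 : 1 ≤ D := hmR.trans hmD
  have hD0 : 0 < D := by linarith
  set ε : ℝ := 1 / (8 * m * D ^ 2) with hε
  have hε0 : 0 < ε := by positivity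
  set M : ℝ := 8 * m with hM
  have hM0 : 0 < M := by positivity
  set K0 : ℝ := (∏ i, ε ^ (d i - 1) / M) * M with hK0
  have hK0p : 0 < K0 := by
    apply mul_pos (Finset.prod_pos fun i _ => by positivity) hM0
  set C1 : ℝ := ∏ i, (1 / M) ^ (D * β i) with hC1
  have hC1p : 0 < C1 := Finset.prod_pos fun i _ => Real.rpow_pos_of_pos (by positivity) _
  refine ⟨C1 * (K0 ^ E * D ^ (-|E|)) * c5, 1 / (16 * D ^ 4), by positivity, by positivity, ?_⟩
  intro o y hy hy0 ht ht0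
  obtain ⟨R, hRdet, hR1, hR2⟩ := rot' hd o (Nv o y)
  set N := Nv o y with hN
  set t := tN N (y o) with htdef
  set p := pN N (y o) with hpdef
  have hs1 := B8_sN_one o y
  have hsD := B8_sN_le o y hy
  rw [← hN] at hs1 hsD
  rw [← hD] at hsD
  have hs0 : 0 < sN N o.1 := by linarith
  have hp0 : ∀ i, 0 < p i := by
    intro i
    have : 0 < max (sN N i) t := lt_max_of_lt_right ht
    exact div_pos ht this
  have hm8 : 1 ≤ M := by rw [hM]; linarith
  have hD4 : 1 ≤ D ^ 4 := one_le_pow₀ hD1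
  have ht1 : t ≤ 1 := by
    have : 1 / (16 * D ^ 4) ≤ 1 := by
      rw [div_le_one (by positivity)]; linarith
    linarith
  have hpo : p o.1 = t / sN N o.1 := by
    rw [hpdef]; unfold pN
    rw [max_eq_left (by linarith)]
  have hε2 : ε ^ 2 = 1 / (64 * m ^ 2 * D ^ 4) := by
    rw [hε]; field_simp; ring
  have hε1 : D * ε ^ 2 ≤ 1 / (8 * m) := by
    rw [hε2, mul_one_div, div_le_div_iff₀ (by positivity) (by positivity)]
    have h1 : D * (8 * m) ≤ D ^ 4 * (8 * m) := by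
      have : D ≤ D ^ 4 := by
        calc D = D ^ 1 := (pow_one D).symm
          _ ≤ D ^ 4 := pow_le_pow_right₀ hD1 (by norm_num)
      gcongr
    have h2 : D ^ 4 * (8 * m) ≤ 64 * m ^ 2 * D ^ 4 := by
      have : (8 * m : ℝ) ≤ 64 * m ^ 2 := by nlinarith
      calc D ^ 4 * (8 * m) ≤ D ^ 4 * (64 * m ^ 2) := by gcongr
        _ = _ := by ring
    linarith
  have hsm : ε ^ 2 + t ≤ 1 / (8 * D ^ 4) := by
    have h1 : ε ^ 2 ≤ 1 / (16 * D ^ 4) := by
      rw [hε2]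
      apply div_le_div_of_nonneg_left (by norm_num) (by positivity)
      have : (1 : ℝ) ≤ m ^ 2 := one_le_pow₀ hmR
      have h2 : 16 * D ^ 4 ≤ 64 * D ^ 4 * m ^ 2 := by nlinarith
      linarith
    have h2 : 1 / (8 * D ^ 4) = 1 / (16 * D ^ 4) + 1 / (16 * D ^ 4) := by field_simp; norm_num
    linarith
  have hδpos : ∀ l, 0 < B8dl o p ε M l := by
    intro l
    unfold B8dl
    have := hp0 l.1
    split_ifs <;> positivity
  obtain ⟨Dg, hDg, hDgdet⟩ := B8_det o (B8dl o p ε M) hδpos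
  set v0 : {l : Ix d // l ≠ o} → ℝ := fun l => B8v0 o p M N (sN N o.1) l with hv0
  set L := Dg.trans R with hL
  set S0 : Set ({l : Ix d // l ≠ o} → ℝ) := {u | ∀ l, |u l| ≤ 1} with hS0
  have hS0c : IsCompact S0 := by
    have : S0 = Set.pi Set.univ (fun _ => Set.Icc (-1 : ℝ) 1) := by
      ext u
      simp only [hS0, Set.mem_ofPred_eq, Set.mem_pi, Set.mem_univ, true_implies, Set.mem_Icc, abs_le]
    rw [this]
    exact isCompact_univ_pi fun _ => isCompact_Icc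
  have hS0m : MeasurableSet S0 := hS0c.isClosed.measurableSet
  have hcont : Continuous (fun u : {l : Ix d // l ≠ o} → ℝ => R v0 + L u) := by
    have : Continuous L := L.toLinearMap.continuous_of_finiteDimensional
    exact continuous_const.add this
  have hSm : MeasurableSet ((fun u : {l : Ix d // l ≠ o} → ℝ => R v0 + L u) '' S0) :=
    (hS0c.image hcont).isClosed.measurableSet
  have hW : ∀ x ∈ (fun u : {l : Ix d // l ≠ o} → ℝ => R v0 + L u) '' S0,
      ENNReal.ofReal (∏ i, (p i / M) ^ β i) ≤ wt β (gp o (ext0 o x) y) := by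
    rintro x ⟨u, hu, rfl⟩
    apply B8_wt _ _ hβ (fun i => (div_pos (hp0 i) hM0).le)
    intro i
    have e1 : R v0 + L u = R (v0 + Dg u) := by
      rw [map_add]; rfl
    show bsq (gp o (ext0 o (R v0 + L u)) y) i ≤ 1 - p i / M
    rw [e1]
    exact B8_graph hm hd o y hy hy0 ht ε D hε0 hD hε1 hsm R hR1 hR2 u hu (v0 + Dg u)
      (fun l => by rw [Pi.add_apply, hDg]) i
  refine le_trans ?_ (B8_sec_ge b o y _ hSm _ hW)
  have hscale := dt_scale (Ix d) o L (R v0) S0 hS0m (1 + b)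
  rw [hscale]
  have hcube : {x : Ix d → {l : Ix d // l ≠ o} → ℝ | ∀ k, x k ∈ S0} = cub (Ix d) o 1 := rfl
  rw [hcube]
  refine le_trans ?_ (mul_le_mul_right (mul_le_mul_right (hc5' o) _) _)
  have hdet : |LinearMap.det (L : ({l : Ix d // l ≠ o} → ℝ) →ₗ[ℝ] ({l : Ix d // l ≠ o} → ℝ))| =
      K0 * (SS N (y o) * sN N o.1) := by
    have h1 : (L : ({l : Ix d // l ≠ o} → ℝ) →ₗ[ℝ] ({l : Ix d // l ≠ o} → ℝ)) =
      (R : ({l : Ix d // l ≠ o} → ℝ) →ₗ[ℝ] ({l : Ix d // l ≠ o} → ℝ)) ∘ₗ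
        (Dg : ({l : Ix d // l ≠ o} → ℝ) →ₗ[ℝ] ({l : Ix d // l ≠ o} → ℝ)) := rfl
    rw [h1, LinearMap.det_comp, abs_mul, hRdet, one_mul, hDgdet, B8_prod hd o p hp0 ε M hε0 hM0,
      abs_of_pos (by
        have : 0 < ∏ i, (p i) ^ ((((d i : ℕ) : ℝ) + 1) / 2) :=
          Finset.prod_pos fun i _ => Real.rpow_pos_of_pos (hp0 i) _
        have := hp0 o.1
        positivity), hpo]
    unfold SS
    rw [← hpdef, ← htdef]
    field_simp
    rw [hK0]
    ring
  have hSS : 0 < SS N (y o) := by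
    unfold SS
    exact div_pos (Finset.prod_pos fun i _ => Real.rpow_pos_of_pos (hp0 i) _) ht
  rw [hdet]
  have hexp : (Fintype.card (Ix d) : ℝ) + (1 + b) = E := by
    rw [hE, hD, B8_card]; ring
  rw [hexp]
  have hAA : (∏ i, (p i / M) ^ β i) ^ (∑ i, d i) = C1 * ∏ i, (p i) ^ (D * β i) := by
    rw [hC1, ← Finset.prod_mul_distrib, ← Finset.prod_pow]
    apply Finset.prod_congr rfl
    intro i _
    rw [← Real.rpow_natCast, ← Real.rpow_mul (div_pos (hp0 i) hM0).le, ← hD, mul_comm (β i) D,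
      ← Real.mul_rpow (by positivity) (hp0 i).le]
    congr 1
    ring
  rw [← ENNReal.ofReal_pow (Finset.prod_nonneg fun i _ => Real.rpow_nonneg (div_pos (hp0 i) hM0).le _), hAA,
    ← ENNReal.ofReal_mul (Real.rpow_nonneg (mul_nonneg hK0p.le (mul_nonneg hSS.le hs0.le)) _),
    ← ENNReal.ofReal_mul (mul_nonneg hC1p.le (Finset.prod_nonneg fun i _ => Real.rpow_nonneg (hp0 i).le _))]
  apply ENNReal.ofReal_le_ofReal
  rw [Real.mul_rpow hK0p.le (mul_nonneg hSS.le hs0.le), Real.mul_rpow hSS.le hs0.le]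
  have hsE : D ^ (-|E|) ≤ (sN N o.1) ^ E := by
    calc D ^ (-|E|) ≤ (sN N o.1) ^ (-|E|) :=
          Real.rpow_le_rpow_of_nonpos hs0 hsD (by simp)
      _ ≤ (sN N o.1) ^ E := Real.rpow_le_rpow_of_exponent_le hs1 (neg_abs_le E)
  have hP : 0 ≤ ∏ i, (p i) ^ (D * β i) := Finset.prod_nonneg fun i _ => Real.rpow_nonneg (hp0 i).le _
  have hSE : 0 ≤ (SS N (y o)) ^ E := Real.rpow_nonneg hSS.le _
  have hKE : 0 ≤ K0 ^ E := Real.rpow_nonneg hK0p.le _
  calc C1 * (K0 ^ E * D ^ (-|E|)) * c5 * ((∏ i, (p i) ^ (D * β i)) * (SS N (y o)) ^ E)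
      = (C1 * K0 ^ E * c5 * (∏ i, (p i) ^ (D * β i)) * (SS N (y o)) ^ E) * D ^ (-|E|) := by ring
    _ ≤ (C1 * K0 ^ E * c5 * (∏ i, (p i) ^ (D * β i)) * (SS N (y o)) ^ E) * (sN N o.1) ^ E := by
        gcongr
    _ = _ := by ring

/-- near the central hyperplanes the section integral is bounded below, and infinite if `b ≤ -2`, `D ≥ 2`.
Proof: for `|y l| ≤ δ` (all `l`) and `|x' k l| ≤ δ` all graph points satisfy `bsq ≤ 1/2`, so `wt ≥ 2^{-∑β}` and
`Sec ≥ c ∫_{cub δ} |Dt|^{1+b}`; `det_pos`, `det_inf`. -/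
theorem sec_center (hβ : ∀ i, 0 ≤ β i) (b : ℝ) (o : Ix d) :
    ∃ δ c : ℝ, 0 < δ ∧ 0 < c ∧ (∀ y : Ix d → ℝ, (∀ l, |y l| ≤ δ) → ENNReal.ofReal c ≤ Sec β b o y) ∧
      (2 ≤ ∑ i, d i → b ≤ -2 → ∀ y : Ix d → ℝ, (∀ l, |y l| ≤ δ) → Sec β b o y = ⊤) := by
  have hc : 0 < Fintype.card (Ix d) := Fintype.card_pos_iff.mpr ⟨o⟩
  have hcD : Fintype.card (Ix d) = ∑ i, d i := B8_card
  set D : ℝ := (Fintype.card (Ix d) : ℝ) with hD
  have hD1 : 1 ≤ D := by rw [hD]; exact_mod_cast hc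
  set δ : ℝ := 1 / (2 * D ^ 2) with hδ
  have hδ0 : 0 < δ := by positivity
  have hDδ : D * δ = 1 / (2 * D) := by rw [hδ]; field_simp
  have hδ1 : δ ≤ 1 := by
    rw [hδ, div_le_one (by positivity)]
    nlinarith
  set S0 : Set ({l : Ix d // l ≠ o} → ℝ) := {u | ∀ l, |u l| ≤ δ} with hS0
  have hS0m : MeasurableSet S0 := by
    have : S0 = Set.pi Set.univ (fun _ => Set.Icc (-δ) δ) := by
      ext u
      simp only [hS0, Set.mem_ofPred_eq, Set.mem_pi, Set.mem_univ, true_implies, Set.mem_Icc, abs_le]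
    rw [this]
    exact MeasurableSet.univ_pi fun _ => measurableSet_Icc
  have hW : ∀ y : Ix d → ℝ, (∀ l, |y l| ≤ δ) → ∀ x ∈ S0,
      ENNReal.ofReal (∏ i, (1 / 2 : ℝ) ^ β i) ≤ wt β (gp o (ext0 o x) y) := by
    intro y hy x hx
    apply B8_wt _ _ hβ (fun i => by norm_num)
    intro i
    have hl : ∀ l, |gp o (ext0 o x) y l| ≤ 1 / (2 * D) := by
      intro l
      by_cases hlo : l = o
      · subst hlo
        unfold gp
        rw [Function.update_self]
        calc |∑ k, (if k = l then 1 else ext0 l x k) * y k| ≤ ∑ k, |(if k = l then 1 else ext0 l x k) * y k| :=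
              Finset.abs_sum_le_sum_abs _ _
          _ ≤ ∑ k : Ix d, δ := by
              apply Finset.sum_le_sum
              intro k _
              rw [abs_mul]
              have h1 : |(if k = l then 1 else ext0 l x k)| ≤ 1 := by
                split_ifs with h
                · simp
                · unfold ext0
                  rw [dif_neg h]
                  exact (hx _).trans hδ1
              calc |(if k = l then 1 else ext0 l x k)| * |y k| ≤ 1 * δ := by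
                    gcongr
                    exact hy k
                _ = δ := one_mul _
          _ = D * δ := by simp [hD]
          _ = _ := hDδ
      · unfold gp
        rw [Function.update_of_ne hlo]
        unfold ext0
        rw [dif_neg hlo]
        calc |x ⟨l, hlo⟩| ≤ δ := hx _
          _ ≤ D * δ := by nlinarith
          _ = _ := hDδ
    calc bsq (gp o (ext0 o x) y) i ≤ ∑ k : Fin (d i), (1 / (2 * D)) ^ 2 := by
          unfold bsq
          apply Finset.sum_le_sum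
          intro k _
          rw [← sq_abs]
          have := hl ⟨i, k⟩
          gcongr
      _ = (d i : ℝ) * (1 / (2 * D)) ^ 2 := by simp
      _ ≤ D * (1 / (2 * D)) ^ 2 := by
          have : (d i : ℝ) ≤ D := by
            rw [hD, hcD]
            exact_mod_cast Finset.single_le_sum (f := d) (fun _ _ => Nat.zero_le _) (Finset.mem_univ i)
          gcongr
      _ = 1 / (4 * D) := by field_simp; norm_num
      _ ≤ 1 - 1 / 2 := by
          rw [div_le_iff₀ (by positivity)]; nlinarith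
  set W : ℝ≥0∞ := ENNReal.ofReal (∏ i, (1 / 2 : ℝ) ^ β i) with hWdef
  have hW0 : W ≠ 0 := by
    rw [hWdef, ne_eq, ENNReal.ofReal_eq_zero, not_le]
    exact Finset.prod_pos fun i _ => Real.rpow_pos_of_pos (by norm_num) _
  have hWD : W ^ (∑ i, d i) ≠ 0 := pow_ne_zero _ hW0
  have hcube : {x : Ix d → {l : Ix d // l ≠ o} → ℝ | ∀ k, x k ∈ S0} = cub (Ix d) o δ := rfl
  have hge : ∀ y : Ix d → ℝ, (∀ l, |y l| ≤ δ) → W ^ (∑ i, d i) * ∫⁻ x in cub (Ix d) o δ,
      ENNReal.ofReal |Dt o (fun k => ext0 o (x k))| ^ (1 + b) ≤ Sec β b o y := by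
    intro y hy
    have := B8_sec_ge b o y S0 hS0m W (hW y hy)
    rwa [hcube] at this
  have hpos := det_pos (Ix d) o (1 + b) δ hδ0
  have hpos2 : 0 < W ^ (∑ i, d i) * ∫⁻ x in cub (Ix d) o δ,
      ENNReal.ofReal |Dt o (fun k => ext0 o (x k))| ^ (1 + b) := ENNReal.mul_pos hWD hpos.ne'
  have hex : ∃ c : ℝ, 0 < c ∧ ENNReal.ofReal c ≤ W ^ (∑ i, d i) * ∫⁻ x in cub (Ix d) o δ,
      ENNReal.ofReal |Dt o (fun k => ext0 o (x k))| ^ (1 + b) := by
    by_cases htop : W ^ (∑ i, d i) * ∫⁻ x in cub (Ix d) o δ,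
      ENNReal.ofReal |Dt o (fun k => ext0 o (x k))| ^ (1 + b) = ⊤
    · exact ⟨1, one_pos, by rw [htop]; exact le_top⟩
    · exact ⟨_, ENNReal.toReal_pos hpos2.ne' htop, by rw [ENNReal.ofReal_toReal htop]⟩
  obtain ⟨c, hc0, hcle⟩ := hex
  refine ⟨δ, c, hδ0, hc0, fun y hy => hcle.trans (hge y hy), ?_⟩
  intro h2 hb y hy
  have hinf := det_inf (Ix d) o (by rw [hcD]; exact h2) (1 + b) δ (by linarith) hδ0
  have := hge y hy
  rw [hinf, ENNReal.mul_top hWD] at this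
  exact top_le_iff.mp this

end RP
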