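import Pool.Agent.H6.RP.Core

/-! C0: continuity of the depth, the hyperplanes of depth zero form a null set, the scale `XX`. -/

open MeasureTheory
open scoped ENNReal

namespace RP

theorem graph_null {ι : Type*} [Fintype ι] [DecidableEq ι] (o : ι) (S : (ι → ℝ) → ℝ) (hS : Measurable S)
    (hind : ∀ y s, S (y + Pi.single o s) = S y) : volume {y : ι → ℝ | y o = S y} = 0 := by
  by_contra hne
  have hpos : 0 < volume {y : ι → ℝ | y o = S y} := pos_iff_ne_zero.mpr hne
  let E : ℝ → Set (ι → ℝ) := fun s => {y | y o - s = S y}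
  have hmeas : ∀ s, MeasurableSet (E s) := by
    intro s
    have h0 : Measurable fun y : ι → ℝ => y o - s := by fun_prop
    exact measurableSet_eq_fun h0 hS
  have hdisj : Pairwise (Function.onFun Disjoint E) := by
    intro s s' hss
    rw [Function.onFun, Set.disjoint_left]
    intro y hy hy'
    apply hss
    have h1 : y o - s = S y := hy
    have h2 : y o - s' = S y := hy'
    linarith
  have hcount := Measure.countable_meas_pos_of_disjoint_iUnion (μ := volume) hmeas hdisj
  have hall : {s | 0 < volume (E s)} = Set.univ := by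
    ext s
    simp only [Set.mem_ofPred_eq, Set.mem_univ, iff_true]
    have h1 : E s = (fun y => y + Pi.single o (-s)) ⁻¹' {y : ι → ℝ | y o = S y} := by
      ext y
      simp only [E, Set.mem_ofPred_eq, Set.mem_preimage, hind]
      simp [sub_eq_add_neg]
    rw [h1, measure_preimage_add_right]
    exact hpos
  rw [hall] at hcount
  exact Set.not_countable_univ hcount

variable {m : ℕ} {d : Fin m → ℕ}

theorem Nv_continuous (o : Ix d) : Continuous fun y : Ix d → ℝ => Nv o y := by
  apply continuous_pi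
  intro l
  unfold Nv
  by_cases h : l = o
  · simp only [h, if_true]; exact continuous_const
  · simp only [h, if_false]; exact (continuous_apply l).neg

theorem bsq_continuous (i : Fin m) : Continuous fun x : Ix d → ℝ => bsq x i := by
  unfold bsq
  fun_prop

theorem sN_continuous (i : Fin m) : Continuous fun x : Ix d → ℝ => sN x i := by
  unfold sN
  exact (bsq_continuous i).sqrt

theorem tN_continuous (o : Ix d) : Continuous fun y : Ix d → ℝ => tN (Nv o y) (y o) := by
  unfold tN
  apply Continuous.sub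
  · apply continuous_finsetSum
    intro i _
    exact (sN_continuous i).comp (Nv_continuous o)
  · exact (continuous_apply o).abs

theorem Nv_add_single (o : Ix d) (y : Ix d → ℝ) (s : ℝ) : Nv o (y + Pi.single o s) = Nv o y := by
  funext l
  unfold Nv
  by_cases h : l = o
  · simp [h]
  · simp [h]

theorem t_null (o : Ix d) : volume {y : Ix d → ℝ | tN (Nv o y) (y o) = 0} = 0 := by
  have hS : Measurable fun y : Ix d → ℝ => ∑ i, sN (Nv o y) i :=
    (continuous_finsetSum _ fun i _ => (sN_continuous i).comp (Nv_continuous o)).measurable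
  have h1 := graph_null o (fun y : Ix d → ℝ => ∑ i, sN (Nv o y) i) hS (fun y s => by simp only [Nv_add_single])
  have h2 := graph_null o (fun y : Ix d → ℝ => -∑ i, sN (Nv o y) i) hS.neg
    (fun y s => by simp only [Nv_add_single])
  apply measure_mono_null _ (measure_union_null h1 h2)
  intro y hy
  have hy' : (∑ i, sN (Nv o y) i) - |y o| = 0 := hy
  rcases abs_cases (y o) with ⟨h, _⟩ | ⟨h, _⟩
  · left
    show y o = ∑ i, sN (Nv o y) i
    linarith
  · right
    show y o = -∑ i, sN (Nv o y) i
    linarith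

theorem XX_pos {β : Fin m → ℝ} {n : ℕ} (hn : 1 ≤ n) (κ : Fin m → ℕ) : 0 < XX d β n κ := by
  unfold XX
  have : (0 : ℝ) < n := by exact_mod_cast hn
  positivity

/-- `XX ^ D * 2 ^ (e S) = n ^ e * XX ^ (D - e)` -/
theorem XX_pow {β : Fin m → ℝ} {n : ℕ} (hn : 1 ≤ n) (κ : Fin m → ℕ) (D e : ℝ) :
    (XX d β n κ) ^ D * (2 : ℝ) ^ (e * ∑ i, ga d β i * κ i) = (n : ℝ) ^ e * (XX d β n κ) ^ (D - e) := by
  have hX := XX_pos (d := d) (β := β) hn κ
  have hn' : (0 : ℝ) < n := by exact_mod_cast hn
  set S := ∑ i, ga d β i * κ i with hS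
  have h1 : (XX d β n κ) ^ D = (XX d β n κ) ^ (D - e) * (XX d β n κ) ^ e := by
    rw [← Real.rpow_add hX]; congr 1; ring
  have h2 : (XX d β n κ) ^ e = (n : ℝ) ^ e * (2 : ℝ) ^ (-(e * S)) := by
    unfold XX
    rw [Real.mul_rpow hn'.le (by positivity), ← Real.rpow_mul (by norm_num)]
    congr 2
    rw [← hS]; ring
  rw [h1, h2]
  have h3 : (2 : ℝ) ^ (-(e * S)) * (2 : ℝ) ^ (e * S) = 1 := by
    rw [← Real.rpow_add (by norm_num)]; simp
  calc (XX d β n κ) ^ (D - e) * ((n : ℝ) ^ e * (2 : ℝ) ^ (-(e * S))) * (2 : ℝ) ^ (e * S)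
      = (n : ℝ) ^ e * (XX d β n κ) ^ (D - e) * ((2 : ℝ) ^ (-(e * S)) * (2 : ℝ) ^ (e * S)) := by ring
    _ = _ := by rw [h3, mul_one]

end RP
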