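import Pool.Agent.H6.RP.Core

/-! C1: from the integral over hyperplanes to the dyadic sum.

Notation: `N = Nv o y`, `j = o.1`, `s_i = sN N i`, `t = tN N (y o) = ∑ s_i - |y o|`, `p_i = t / max s_i t`, `T = m √D` (`D = ∑ d_i`), so on `Yreg o`:
`1 ≤ s_j ≤ √D`, `s_i ≤ s_j`, `t ≤ T`, `|y l| ≤ √D` (`l ≠ o`), `|y o| ≤ T` where `t ≥ 0`.
(big part) `|y o| < 1/2`: then `t ≥ s_j - 1/2 ≥ 1/2`, all `p_i ≥ 1/(2T)`, so the integrand is at most `C |y o|^a exp (-c n)`, and `∫_{|u|<1/2} |u|^a < ∞` as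
`a > -1`; the other coordinates range over a bounded set.  This gives the first term on the right.
(small part) `|y o| ≥ 1/2`: `|y o|^a ≤ C`.  For `κ : Fin m → ℕ` let `U_κ` be the set of `y ∈ Yreg o`, `t > 0`, with
`T 2^{-κ_j-1} < t ≤ T 2^{-κ_j}` and `2^{-κ_i-1} < p_i ≤ 2^{-κ_i}` for `i ≠ j`.  These sets cover (`0 < t ≤ T`, `0 < p_i ≤ 1`), and `U_κ` is empty unless
`κ_i ≤ κ_j + 1` for all `i` (indeed `p_i ≥ t/T`).
Volume: `s_i < 2^{κ_i+1} t ≤ 2T 2^{κ_i-κ_j}` (`i ≠ j`), so each coordinate of `y` in the block `i` is bounded by that; the coordinates `l ≠ o` of the block `j` by `1`;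
for fixed other coordinates `|y o| = ∑ s_i - t` lies in an interval of length `T 2^{-κ_j}`.  So
`vol U_κ ≤ C 2^{-κ_j} ∏_{i≠j} 2^{d_i (κ_i - κ_j)}`.
Integrand on `U_κ`: `∏ p_i^{γ_i} ≥ c 2^{-∑ γ_i κ_i}`, `∏ p_i^{Dβ_i} ≤ C 2^{-D ∑ β_i κ_i}`, and `SS` is between constant multiples of
`2^{-∑ (d_i+1) κ_i/2 + κ_j}` (two-sided, the exponent `D+1+b` may have any sign; `t/T ≤ p_j ≤ t`).
Exponent identity: `-κ_j + ∑_{i≠j} d_i (κ_i - κ_j) - D ∑ β_i κ_i + (D+1+b)(κ_j - ∑ (d_i+1) κ_i /2) = - D ∑ γ_i κ_i + b κ_j + ∑ α_i κ_i`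
(`γ = ga`, `α = al`).  With `n^D 2^{-D ∑γκ} = XX^D` this is `termS`. -/

open MeasureTheory
open scoped ENNReal

namespace RP

/-- Fubini in one coordinate. -/
theorem c1_M {ι : Type*} [Fintype ι] [DecidableEq ι] (o : ι) (F : (ι → ℝ) → ℝ≥0∞)
    (hF : Measurable F) (K : ℝ≥0∞) (R : ι → ℝ)
    (h1 : ∀ x, ∫⁻ u, F (Function.update x o u) ≤ K)
    (h2 : ∀ y l, l ≠ o → R l < |y l| → F y = 0) :
    ∫⁻ y, F y ≤ K * ∏ l ∈ Finset.univ.erase o, ENNReal.ofReal (2 * R l) := by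
  set S : ι → Set ℝ := fun l => if l = o then Set.Icc 0 1 else Set.Icc (-R l) (R l) with hS
  have hSm : ∀ l, MeasurableSet (S l) := by
    intro l
    rw [hS]
    dsimp only
    split_ifs
    · exact measurableSet_Icc
    · exact measurableSet_Icc
  have hB : MeasurableSet (Set.pi Set.univ S) := MeasurableSet.univ_pi hSm
  set G : (ι → ℝ) → ℝ≥0∞ := fun y => K * (Set.pi Set.univ S).indicator 1 y with hG
  have hGm : Measurable G := by
    rw [hG]
    exact (measurable_one.indicator hB).const_mul K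
  have hle : ∫⁻ y, F y ≤ ∫⁻ y, G y := by
    rw [volume_pi]
    refine lintegral_le_of_lmarginal_le {o} hF hGm ?_
    rw [lmarginal_singleton, lmarginal_singleton]
    intro x
    show ∫⁻ u, F (Function.update x o u) ≤ ∫⁻ u, G (Function.update x o u)
    by_cases hx : ∀ l, l ≠ o → |x l| ≤ R l
    · refine (h1 x).trans ?_
      have : ∀ u : ℝ, G (Function.update x o u) = K * (Set.Icc (0 : ℝ) 1).indicator 1 u := by
        intro u
        show K * (Set.pi Set.univ S).indicator 1 (Function.update x o u) = _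
        congr 1
        by_cases hu : u ∈ Set.Icc (0 : ℝ) 1
        · rw [Set.indicator_of_mem hu, Set.indicator_of_mem]
          · rfl
          · intro l _
            by_cases hl : l = o
            · subst hl
              simp only [hS, if_pos, Function.update_self]
              exact hu
            · simp only [hS, if_neg hl, Function.update_of_ne hl]
              exact abs_le.1 (hx l hl)
        · rw [Set.indicator_of_notMem hu, Set.indicator_of_notMem]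
          intro h
          apply hu
          have := h o (Set.mem_univ o)
          simp only [hS, if_pos, Function.update_self] at this
          exact this
      rw [lintegral_congr this, lintegral_const_mul _ (measurable_one.indicator measurableSet_Icc),
        lintegral_indicator_one measurableSet_Icc, Real.volume_Icc]
      simp
    · push Not at hx
      obtain ⟨l, hl, hl2⟩ := hx
      have : ∀ u, F (Function.update x o u) = 0 := by
        intro u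
        refine h2 _ l hl ?_
        rw [Function.update_of_ne hl]
        exact hl2
      rw [lintegral_congr this]
      simp
  refine hle.trans (le_of_eq ?_)
  rw [hG]
  rw [lintegral_const_mul _ (measurable_one.indicator hB), lintegral_indicator_one hB,
    volume_pi_pi]
  congr 1
  rw [← Finset.mul_prod_erase Finset.univ _ (Finset.mem_univ o)]
  have : volume (S o) = 1 := by
    simp [hS]
  rw [this, one_mul]
  refine Finset.prod_congr rfl fun l hl => ?_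
  have hl' : l ≠ o := Finset.ne_of_mem_erase hl
  simp only [hS, if_neg hl', Real.volume_Icc]
  congr 1
  ring

theorem c1_rpow_bd {B x z e : ℝ} (hB : 1 ≤ B) (hz : 0 < z) (h1 : B⁻¹ * z ≤ x) (h2 : x ≤ B * z) :
    x ^ e ≤ B ^ |e| * z ^ e := by
  have hB0 : 0 < B := by linarith
  have hx : 0 < x := lt_of_lt_of_le (by positivity) h1
  rcases le_total 0 e with he | he
  · rw [abs_of_nonneg he]
    calc x ^ e ≤ (B * z) ^ e := Real.rpow_le_rpow hx.le h2 he
      _ = _ := Real.mul_rpow (by positivity) hz.le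
  · rw [abs_of_nonpos he]
    calc x ^ e ≤ (B⁻¹ * z) ^ e := Real.rpow_le_rpow_of_nonpos (by positivity) h1 he
      _ = B⁻¹ ^ e * z ^ e := Real.mul_rpow (by positivity) hz.le
      _ = _ := by rw [Real.inv_rpow hB0.le, ← Real.rpow_neg hB0.le]

variable {m : ℕ} {d : Fin m → ℕ} {β : Fin m → ℝ}

theorem c1_prod_up {A : ℝ} (hA : 0 < A) (e : Fin m → ℝ) (he : ∀ i, 0 ≤ e i) (κ : Fin m → ℕ)
    (p : Fin m → ℝ) (hp : ∀ i, 0 < p i) (h : ∀ i, p i ≤ A * (2 : ℝ) ^ (-(κ i : ℝ))) :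
    ∏ i, p i ^ e i ≤ A ^ (∑ i, e i) * (2 : ℝ) ^ (-∑ i, e i * κ i) := by
  rw [Real.rpow_sum_of_pos hA, ← Finset.sum_neg_distrib, Real.rpow_sum_of_pos two_pos,
    ← Finset.prod_mul_distrib]
  refine Finset.prod_le_prod (fun i _ => Real.rpow_nonneg (hp i).le _) fun i _ => ?_
  calc p i ^ e i ≤ (A * (2 : ℝ) ^ (-(κ i : ℝ))) ^ e i := Real.rpow_le_rpow (hp i).le (h i) (he i)
    _ = A ^ e i * (2 : ℝ) ^ (-(e i * κ i)) := by
      rw [Real.mul_rpow hA.le (by positivity), ← Real.rpow_mul two_pos.le]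
      congr 2
      ring

theorem c1_prod_low {A : ℝ} (hA : 0 < A) (e : Fin m → ℝ) (he : ∀ i, 0 ≤ e i) (κ : Fin m → ℕ)
    (p : Fin m → ℝ) (h : ∀ i, A * (2 : ℝ) ^ (-(κ i : ℝ)) ≤ p i) :
    A ^ (∑ i, e i) * (2 : ℝ) ^ (-∑ i, e i * κ i) ≤ ∏ i, p i ^ e i := by
  rw [Real.rpow_sum_of_pos hA, ← Finset.sum_neg_distrib, Real.rpow_sum_of_pos two_pos,
    ← Finset.prod_mul_distrib]
  refine Finset.prod_le_prod (fun i _ => by positivity) fun i _ => ?_
  calc A ^ e i * (2 : ℝ) ^ (-(e i * κ i)) = (A * (2 : ℝ) ^ (-(κ i : ℝ))) ^ e i := by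
        rw [Real.mul_rpow hA.le (by positivity), ← Real.rpow_mul two_pos.le]
        congr 2
        ring
    _ ≤ p i ^ e i := Real.rpow_le_rpow (by positivity) (h i) (he i)

/-- bound of the integrand -/
theorem c1_IB (A : ℝ) (hA : 1 ≤ A) (hβ : ∀ i, 0 ≤ β i) (b c₁ : ℝ) (hc₁ : 0 < c₁) (J : Fin m)
    (Dr : ℝ) (hDr : 0 ≤ Dr) :
    ∃ C c : ℝ, 0 < C ∧ 0 < c ∧ ∀ (n : ℝ) (κ : Fin m → ℕ) (p : Fin m → ℝ) (t : ℝ), 0 ≤ n →
      (∀ i, A⁻¹ * (2 : ℝ) ^ (-(κ i : ℝ)) ≤ p i) → (∀ i, p i ≤ A * (2 : ℝ) ^ (-(κ i : ℝ))) →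
      A⁻¹ * (2 : ℝ) ^ (-(κ J : ℝ)) ≤ t → t ≤ A * (2 : ℝ) ^ (-(κ J : ℝ)) →
      Real.exp (-(c₁ * n * ∏ i, p i ^ ga d β i)) *
        ((∏ i, p i ^ (Dr * β i)) * ((∏ i, p i ^ (((d i : ℝ) + 1) / 2)) / t) ^ (Dr + 1 + b)) ≤
      C * (Real.exp (-(c * (n * (2 : ℝ) ^ (-(∑ i, ga d β i * κ i))))) *
        (2 : ℝ) ^ (-(∑ i, (Dr * β i) * κ i) +
          (Dr + 1 + b) * (κ J - ∑ i, (((d i : ℝ) + 1) / 2) * κ i))) := by
  have hA0 : 0 < A := by linarith
  have hAi : 0 < A⁻¹ := by positivity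
  set B := A ^ ((∑ i, ((d i : ℝ) + 1) / 2) + 1) with hB
  have hsum0 : 0 ≤ ∑ i, ((d i : ℝ) + 1) / 2 := Finset.sum_nonneg fun i _ => by positivity
  have hB1 : 1 ≤ B := Real.one_le_rpow hA (by linarith)
  have hB0 : 0 < B := by linarith
  have hga : ∀ i, 0 ≤ ga d β i := fun i => by
    unfold ga
    have := hβ i
    positivity
  refine ⟨A ^ (∑ i, Dr * β i) * B ^ |Dr + 1 + b|, c₁ * A⁻¹ ^ (∑ i, ga d β i), by positivity,
    by positivity, ?_⟩
  intro n κ p t hn h1 h2 h3 h4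
  have hp : ∀ i, 0 < p i := fun i => lt_of_lt_of_le (by positivity) (h1 i)
  have ht : 0 < t := lt_of_lt_of_le (by positivity) h3
  -- exponential
  have e1 : Real.exp (-(c₁ * n * ∏ i, p i ^ ga d β i)) ≤
      Real.exp (-(c₁ * A⁻¹ ^ (∑ i, ga d β i) * (n * (2 : ℝ) ^ (-(∑ i, ga d β i * κ i))))) := by
    apply Real.exp_le_exp.2
    apply neg_le_neg
    have := c1_prod_low hAi (ga d β) hga κ p h1
    calc c₁ * A⁻¹ ^ (∑ i, ga d β i) * (n * (2 : ℝ) ^ (-(∑ i, ga d β i * κ i)))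
        = c₁ * n * (A⁻¹ ^ (∑ i, ga d β i) * (2 : ℝ) ^ (-(∑ i, ga d β i * κ i))) := by ring
      _ ≤ c₁ * n * ∏ i, p i ^ ga d β i := mul_le_mul_of_nonneg_left this (by positivity)
  have e2 : ∏ i, p i ^ (Dr * β i) ≤ A ^ (∑ i, Dr * β i) * (2 : ℝ) ^ (-∑ i, (Dr * β i) * κ i) :=
    c1_prod_up hA0 (fun i => Dr * β i) (fun i => mul_nonneg hDr (hβ i)) κ p hp h2
  have e3 : ((∏ i, p i ^ (((d i : ℝ) + 1) / 2)) / t) ^ (Dr + 1 + b) ≤
      B ^ |Dr + 1 + b| * ((2 : ℝ) ^ (κ J - ∑ i, (((d i : ℝ) + 1) / 2) * κ i)) ^ (Dr + 1 + b) := by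
    have u1 := c1_prod_up hA0 (fun i => ((d i : ℝ) + 1) / 2) (fun i => by positivity) κ p hp h2
    have u2 := c1_prod_low hAi (fun i => ((d i : ℝ) + 1) / 2) (fun i => by positivity) κ p h1
    have key : (2 : ℝ) ^ (κ J - ∑ i, (((d i : ℝ) + 1) / 2) * κ i)
        = (2 : ℝ) ^ (-∑ i, (((d i : ℝ) + 1) / 2) * κ i) / (2 : ℝ) ^ (-(κ J : ℝ)) := by
      rw [← Real.rpow_sub two_pos]
      congr 1
      ring
    have hBA : B = A ^ (∑ i, ((d i : ℝ) + 1) / 2) * A := by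
      rw [hB, Real.rpow_add_one hA0.ne']
    apply c1_rpow_bd hB1 (by positivity)
    · rw [key, le_div_iff₀ ht]
      calc B⁻¹ * ((2 : ℝ) ^ (-∑ i, (((d i : ℝ) + 1) / 2) * κ i) / (2 : ℝ) ^ (-(κ J : ℝ))) * t
          ≤ B⁻¹ * ((2 : ℝ) ^ (-∑ i, (((d i : ℝ) + 1) / 2) * κ i) / (2 : ℝ) ^ (-(κ J : ℝ))) *
            (A * (2 : ℝ) ^ (-(κ J : ℝ))) := mul_le_mul_of_nonneg_left h4 (by positivity)
        _ = A⁻¹ ^ (∑ i, ((d i : ℝ) + 1) / 2) *
            (2 : ℝ) ^ (-∑ i, (((d i : ℝ) + 1) / 2) * κ i) := by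
          rw [hBA, Real.inv_rpow hA0.le]
          field_simp
        _ ≤ _ := u2
    · rw [key, div_le_iff₀ ht]
      calc ∏ i, p i ^ (((d i : ℝ) + 1) / 2)
          ≤ A ^ (∑ i, ((d i : ℝ) + 1) / 2) *
            (2 : ℝ) ^ (-∑ i, (((d i : ℝ) + 1) / 2) * κ i) := u1
        _ = B * ((2 : ℝ) ^ (-∑ i, (((d i : ℝ) + 1) / 2) * κ i) / (2 : ℝ) ^ (-(κ J : ℝ))) *
            (A⁻¹ * (2 : ℝ) ^ (-(κ J : ℝ))) := by
          rw [hBA]
          field_simp
        _ ≤ _ := mul_le_mul_of_nonneg_left h3 (by positivity)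
  have q0 : 0 ≤ ∏ i, p i ^ (Dr * β i) := Finset.prod_nonneg fun i _ => by
    have := hp i
    positivity
  have q1 : 0 ≤ ((∏ i, p i ^ (((d i : ℝ) + 1) / 2)) / t) ^ (Dr + 1 + b) := by
    apply Real.rpow_nonneg
    apply div_nonneg _ ht.le
    exact Finset.prod_nonneg fun i _ => by
      have := hp i
      positivity
  calc _ ≤ Real.exp (-(c₁ * A⁻¹ ^ (∑ i, ga d β i) * (n * (2 : ℝ) ^ (-(∑ i, ga d β i * κ i))))) *
        ((A ^ (∑ i, Dr * β i) * (2 : ℝ) ^ (-∑ i, (Dr * β i) * κ i)) *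
          (B ^ |Dr + 1 + b| *
            ((2 : ℝ) ^ (κ J - ∑ i, (((d i : ℝ) + 1) / 2) * κ i)) ^ (Dr + 1 + b))) :=
        mul_le_mul e1 (mul_le_mul e2 e3 q1 (by positivity)) (mul_nonneg q0 q1) (by positivity)
    _ = _ := by
        rw [Real.rpow_add two_pos, mul_comm (Dr + 1 + b) (κ J - _), Real.rpow_mul two_pos.le]
        ring

theorem c1_Nv_o (o : Ix d) (y : Ix d → ℝ) : Nv o y o = 1 := by simp [Nv]

theorem c1_Nv_ne {o l : Ix d} (h : l ≠ o) (y : Ix d → ℝ) : Nv o y l = -y l := by simp [Nv, h]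

theorem c1_Nv_update (o : Ix d) (x : Ix d → ℝ) (u : ℝ) :
    Nv o (Function.update x o u) = Nv o x := by
  ext l
  by_cases h : l = o
  · subst h; simp [Nv]
  · simp [Nv, h]

theorem c1_abs_le (N : Ix d → ℝ) (l : Ix d) : |N l| ≤ sN N l.1 := by
  obtain ⟨i, j⟩ := l
  unfold sN bsq
  apply Real.abs_le_sqrt
  exact Finset.single_le_sum (f := fun j => N ⟨i, j⟩ ^ 2) (fun _ _ => sq_nonneg _)
    (Finset.mem_univ j)

theorem c1_sJ {o : Ix d} (y : Ix d → ℝ) : 1 ≤ sN (Nv o y) o.1 := by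
  have := c1_abs_le (Nv o y) o
  rw [c1_Nv_o, abs_one] at this
  exact this

theorem c1_s0 (N : Ix d → ℝ) (i : Fin m) : 0 ≤ sN N i := Real.sqrt_nonneg _

theorem c1_s_le {o : Ix d} {y : Ix d → ℝ} (hy : y ∈ Yreg o) (i : Fin m) :
    sN (Nv o y) i ≤ Real.sqrt ((∑ i, d i : ℕ) : ℝ) := by
  unfold sN
  apply Real.sqrt_le_sqrt
  refine (hy.2 i).trans ?_
  have h1 : bsq (Nv o y) o.1 ≤ ∑ j : Fin (d o.1), (1 : ℝ) := by
    unfold bsq
    refine Finset.sum_le_sum fun j _ => ?_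
    have := hy.1 j
    rw [sq_le_one_iff_abs_le_one]
    exact this
  refine h1.trans ?_
  simp only [Finset.sum_const, Finset.card_univ, Fintype.card_fin, nsmul_eq_mul, mul_one]
  exact_mod_cast Finset.single_le_sum (f := d) (fun _ _ => Nat.zero_le _) (Finset.mem_univ o.1)


/-- facts at a point of `Yreg` -/
theorem c1_pt (hm : 0 < m) (hd : ∀ i, 1 ≤ d i) {o : Ix d} {y : Ix d → ℝ} (hy : y ∈ Yreg o)
    (ht : 0 < tN (Nv o y) (y o)) {T : ℝ} (hT : T = m * Real.sqrt ((∑ i, d i : ℕ) : ℝ)) :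
    1 ≤ T ∧ tN (Nv o y) (y o) ≤ T ∧ |y o| ≤ T ∧ (∀ i, sN (Nv o y) i ≤ T) ∧
      (∀ i, 0 < pN (Nv o y) (y o) i) ∧ (∀ i, pN (Nv o y) (y o) i ≤ 1) ∧
      (∀ i, tN (Nv o y) (y o) / T ≤ pN (Nv o y) (y o) i) ∧
      pN (Nv o y) (y o) o.1 ≤ tN (Nv o y) (y o) := by
  have hD : (1 : ℝ) ≤ ((∑ i, d i : ℕ) : ℝ) := by
    have h1 : 1 ≤ ∑ i, d i := (hd o.1).trans
      (Finset.single_le_sum (f := d) (fun _ _ => Nat.zero_le _) (Finset.mem_univ o.1))
    exact_mod_cast h1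
  have hsq : 1 ≤ Real.sqrt ((∑ i, d i : ℕ) : ℝ) := Real.one_le_sqrt.2 hD
  have hm1 : (1 : ℝ) ≤ m := by exact_mod_cast hm
  have hsT : Real.sqrt ((∑ i, d i : ℕ) : ℝ) ≤ T := by
    rw [hT]
    nlinarith
  have hT1 : 1 ≤ T := hsq.trans hsT
  have hsum : ∑ i, sN (Nv o y) i ≤ T := by
    calc ∑ i, sN (Nv o y) i ≤ ∑ _i : Fin m, Real.sqrt ((∑ i, d i : ℕ) : ℝ) :=
          Finset.sum_le_sum fun i _ => c1_s_le hy i
      _ = T := by
          rw [hT]
          simp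
  have ht' : tN (Nv o y) (y o) = (∑ i, sN (Nv o y) i) - |y o| := rfl
  have htT : tN (Nv o y) (y o) ≤ T := by
    rw [ht']
    linarith [abs_nonneg (y o)]
  have hmax : ∀ i, max (sN (Nv o y) i) (tN (Nv o y) (y o)) ≤ T := fun i =>
    max_le ((c1_s_le hy i).trans hsT) htT
  have hmax0 : ∀ i, 0 < max (sN (Nv o y) i) (tN (Nv o y) (y o)) := fun i =>
    lt_of_lt_of_le ht (le_max_right _ _)
  refine ⟨hT1, htT, ?_, fun i => (c1_s_le hy i).trans hsT, ?_, ?_, ?_, ?_⟩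
  · have : |y o| = (∑ i, sN (Nv o y) i) - tN (Nv o y) (y o) := by
      rw [ht']; ring
    rw [this]
    linarith
  · exact fun i => div_pos ht (hmax0 i)
  · exact fun i => (div_le_one (hmax0 i)).2 (le_max_right _ _)
  · exact fun i => div_le_div_of_nonneg_left ht.le (hmax0 i) (hmax i)
  · unfold pN
    apply div_le_self ht.le
    exact (c1_sJ y).trans (le_max_left _ _)

theorem c1_cont_N (o l : Ix d) : Continuous fun y : Ix d → ℝ => Nv o y l := by
  unfold Nv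
  by_cases h : l = o
  · simp only [h, if_pos]
    exact continuous_const
  · simp only [h, if_false]
    fun_prop

theorem c1_cont_bsq (o : Ix d) (i : Fin m) : Continuous fun y : Ix d → ℝ => bsq (Nv o y) i := by
  unfold bsq
  exact continuous_finsetSum _ fun j _ => (c1_cont_N o _).pow 2

theorem c1_cont_s (o : Ix d) (i : Fin m) : Continuous fun y : Ix d → ℝ => sN (Nv o y) i := by
  unfold sN
  exact (c1_cont_bsq o i).sqrt

theorem c1_cont_t (o : Ix d) : Continuous fun y : Ix d → ℝ => tN (Nv o y) (y o) := by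
  unfold tN
  exact (continuous_finsetSum _ fun i _ => c1_cont_s o i).sub (continuous_apply o).abs

theorem c1_meas_p (o : Ix d) (i : Fin m) : Measurable fun y : Ix d → ℝ => pN (Nv o y) (y o) i := by
  unfold pN
  exact (c1_cont_t o).measurable.div ((c1_cont_s o i).max (c1_cont_t o)).measurable

theorem c1_meas_Yreg (o : Ix d) : MeasurableSet (Yreg o) := by
  have : Yreg o = (⋂ j, {y : Ix d → ℝ | |Nv o y ⟨o.1, j⟩| ≤ 1}) ∩
      ⋂ i, {y : Ix d → ℝ | bsq (Nv o y) i ≤ bsq (Nv o y) o.1} := by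
    ext y
    simp [Yreg]
  rw [this]
  refine MeasurableSet.inter (MeasurableSet.iInter fun j => ?_) (MeasurableSet.iInter fun i => ?_)
  · exact measurableSet_le (c1_cont_N o _).abs.measurable measurable_const
  · exact measurableSet_le (c1_cont_bsq o i).measurable (c1_cont_bsq o o.1).measurable

/-- the dyadic pieces -/
def c1_U (o : Ix d) (T : ℝ) (κ : Fin m → ℕ) : Set (Ix d → ℝ) :=
  {y | y ∈ Yreg o ∧ 0 < tN (Nv o y) (y o) ∧ 1 / 2 ≤ |y o| ∧
    T * (2 : ℝ) ^ (-(κ o.1 : ℝ)) / 2 < tN (Nv o y) (y o) ∧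
    tN (Nv o y) (y o) ≤ T * (2 : ℝ) ^ (-(κ o.1 : ℝ)) ∧
    ∀ i, i ≠ o.1 → (2 : ℝ) ^ (-(κ i : ℝ)) / 2 < pN (Nv o y) (y o) i ∧
      pN (Nv o y) (y o) i ≤ (2 : ℝ) ^ (-(κ i : ℝ))}

theorem c1_meas_U (o : Ix d) (T : ℝ) (κ : Fin m → ℕ) : MeasurableSet (c1_U o T κ) := by
  have : c1_U o T κ = Yreg o ∩ ({y : Ix d → ℝ | 0 < tN (Nv o y) (y o)} ∩
      ({y : Ix d → ℝ | 1 / 2 ≤ |y o|} ∩
      ({y : Ix d → ℝ | T * (2 : ℝ) ^ (-(κ o.1 : ℝ)) / 2 < tN (Nv o y) (y o)} ∩
      ({y : Ix d → ℝ | tN (Nv o y) (y o) ≤ T * (2 : ℝ) ^ (-(κ o.1 : ℝ))} ∩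
      ⋂ i, ⋂ (_ : i ≠ o.1), ({y : Ix d → ℝ | (2 : ℝ) ^ (-(κ i : ℝ)) / 2 < pN (Nv o y) (y o) i} ∩
        {y : Ix d → ℝ | pN (Nv o y) (y o) i ≤ (2 : ℝ) ^ (-(κ i : ℝ))}))))) := by
    ext y
    simp only [c1_U, Set.mem_inter_iff, Set.mem_ofPred_eq, Set.mem_iInter]
  rw [this]
  refine (c1_meas_Yreg o).inter (MeasurableSet.inter ?_ (MeasurableSet.inter ?_
    (MeasurableSet.inter ?_ (MeasurableSet.inter ?_ (MeasurableSet.iInter fun i =>
      MeasurableSet.iInter fun _ => MeasurableSet.inter ?_ ?_)))))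
  · exact measurableSet_lt measurable_const (c1_cont_t o).measurable
  · exact measurableSet_le measurable_const (continuous_apply o).abs.measurable
  · exact measurableSet_lt measurable_const (c1_cont_t o).measurable
  · exact measurableSet_le (c1_cont_t o).measurable measurable_const
  · exact measurableSet_lt measurable_const (c1_meas_p o i)
  · exact measurableSet_le (c1_meas_p o i) measurable_const

/-- volume of the dyadic pieces -/
theorem c1_vol (hm : 0 < m) (hd : ∀ i, 1 ≤ d i) (o : Ix d) {T : ℝ}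
    (hT : T = m * Real.sqrt ((∑ i, d i : ℕ) : ℝ)) (hT1 : 1 ≤ T) (κ : Fin m → ℕ) :
    volume (c1_U o T κ) ≤ ENNReal.ofReal ((4 * T) ^ (∑ i, d i) *
      (2 : ℝ) ^ (-(κ o.1 : ℝ) + ((∑ i, (d i : ℝ) * κ i) - ((∑ i, d i : ℕ) : ℝ) * κ o.1))) := by
  have hT0 : 0 < T := by linarith
  set L := T * (2 : ℝ) ^ (-(κ o.1 : ℝ)) with hL
  have hL0 : 0 < L := by positivity
  set R : Ix d → ℝ := fun l => 2 * T * (2 : ℝ) ^ ((κ l.1 : ℝ) - κ o.1) with hR
  have hmu := c1_meas_U o T κ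
  have key := c1_M o ((c1_U o T κ).indicator 1) (measurable_one.indicator hmu)
    (ENNReal.ofReal (2 * L)) R ?_ ?_
  · rw [lintegral_indicator_one hmu] at key
    refine key.trans ?_
    rw [← ENNReal.ofReal_prod_of_nonneg (fun l _ => by positivity),
      ← ENNReal.ofReal_mul (by positivity)]
    apply ENNReal.ofReal_le_ofReal
    have e1 : ∏ l ∈ Finset.univ.erase o, 2 * R l ≤ (∏ l : Ix d, 2 * R l) / (2 * R o) := by
      rw [← Finset.mul_prod_erase Finset.univ _ (Finset.mem_univ o)]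
      have : 0 < 2 * R o := by positivity
      rw [mul_div_assoc, mul_comm, div_mul_cancel₀ _ this.ne']
    have e2 : 2 * R o = 4 * T := by
      rw [hR]
      simp only [sub_self, Real.rpow_zero]
      ring
    have e3 : ∏ l : Ix d, 2 * R l = (4 * T) ^ (∑ i, d i) *
        (2 : ℝ) ^ ((∑ i, (d i : ℝ) * κ i) - ((∑ i, d i : ℕ) : ℝ) * κ o.1) := by
      have : ∀ l : Ix d, 2 * R l = (4 * T) * (2 : ℝ) ^ ((κ l.1 : ℝ) - κ o.1) := by
        intro l
        rw [hR]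
        ring
      simp_rw [this]
      rw [Finset.prod_mul_distrib, Finset.prod_const, Finset.card_univ,
        ← Real.rpow_sum_of_pos two_pos]
      congr 2
      · simp
      · rw [Fintype.sum_sigma]
        simp only [Finset.sum_const, Finset.card_univ, Fintype.card_fin, nsmul_eq_mul]
        rw [Nat.cast_sum, Finset.sum_mul, ← Finset.sum_sub_distrib]
        refine Finset.sum_congr rfl fun i _ => ?_
        ring
    calc 2 * L * ∏ l ∈ Finset.univ.erase o, 2 * R l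
        ≤ 2 * L * ((∏ l : Ix d, 2 * R l) / (2 * R o)) := mul_le_mul_of_nonneg_left e1 (by positivity)
      _ = (∏ l : Ix d, 2 * R l) * ((2 : ℝ) ^ (-(κ o.1 : ℝ)) / 2) := by
          rw [e2, hL]
          field_simp
          ring
      _ ≤ (∏ l : Ix d, 2 * R l) * (2 : ℝ) ^ (-(κ o.1 : ℝ)) := by
          apply mul_le_mul_of_nonneg_left
          · have : 0 < (2 : ℝ) ^ (-(κ o.1 : ℝ)) := by positivity
            linarith
          · exact Finset.prod_nonneg fun l _ => by positivity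
      _ = _ := by
          rw [e3, Real.rpow_add two_pos (-(κ o.1 : ℝ))]
          ring
  · intro x
    set S := ∑ i, sN (Nv o x) i with hS
    have hsub : ∀ u : ℝ, (c1_U o T κ).indicator 1 (Function.update x o u) ≤
        ((Set.Icc (S - L) S ∪ Set.Icc (-S) (-(S - L))).indicator 1 u : ℝ≥0∞) := by
      intro u
      by_cases hu : Function.update x o u ∈ c1_U o T κ
      · rw [Set.indicator_of_mem hu, Set.indicator_of_mem]
        · exact le_rfl
        · obtain ⟨-, h2, -, -, h5, -⟩ := hu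
          have e : tN (Nv o (Function.update x o u)) ((Function.update x o u) o) = S - |u| := by
            unfold tN
            rw [c1_Nv_update, Function.update_self]
          rw [e] at h2 h5
          rcases le_total 0 u with h | h
          · left
            rw [abs_of_nonneg h] at h2 h5
            exact ⟨by linarith, by linarith⟩
          · right
            rw [abs_of_nonpos h] at h2 h5
            exact ⟨by linarith, by linarith⟩
      · rw [Set.indicator_of_notMem hu]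
        exact bot_le
    refine (lintegral_mono hsub).trans ?_
    rw [lintegral_indicator_one (measurableSet_Icc.union measurableSet_Icc)]
    refine (measure_union_le _ _).trans ?_
    rw [Real.volume_Icc, Real.volume_Icc, ← ENNReal.ofReal_add (by linarith) (by linarith)]
    apply ENNReal.ofReal_le_ofReal
    linarith
  · intro y l hl hly
    by_contra hne
    have hy : y ∈ c1_U o T κ := by
      by_contra h
      exact hne (Set.indicator_of_notMem h _)
    obtain ⟨h1, h2, h3, h4, h5, h6⟩ := hy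
    obtain ⟨-, b1, b2, b3, b4, b5, b6, b7⟩ := c1_pt hm hd h1 h2 hT
    have hN : |y l| = |Nv o y l| := by rw [c1_Nv_ne hl, abs_neg]
    by_cases hlJ : l.1 = o.1
    · have : |Nv o y l| ≤ 1 := by
        obtain ⟨i, j⟩ := l
        dsimp only at hlJ
        subst hlJ
        exact h1.1 j
      have hR1 : R l = 2 * T := by
        rw [hR]
        simp only [hlJ, sub_self, Real.rpow_zero, mul_one]
      rw [hN, hR1] at hly
      linarith
    · have hp := (h6 l.1 hlJ).1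
      have hmx : 0 < max (sN (Nv o y) l.1) (tN (Nv o y) (y o)) := lt_of_lt_of_le h2 (le_max_right _ _)
      have hpe : pN (Nv o y) (y o) l.1 = tN (Nv o y) (y o) / max (sN (Nv o y) l.1) (tN (Nv o y) (y o)) := rfl
      rw [hpe, lt_div_iff₀ hmx] at hp
      have hs : |Nv o y l| ≤ max (sN (Nv o y) l.1) (tN (Nv o y) (y o)) :=
        (c1_abs_le _ l).trans (le_max_left _ _)
      have hRe : R l * ((2 : ℝ) ^ (-(κ l.1 : ℝ)) / 2) = L := by
        rw [hR, hL]
        dsimp only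
        rw [sub_eq_add_neg, Real.rpow_add two_pos]
        have : (2 : ℝ) ^ (κ l.1 : ℝ) * (2 : ℝ) ^ (-(κ l.1 : ℝ)) = 1 := by
          rw [← Real.rpow_add two_pos]; simp
        calc _ = T * (2 : ℝ) ^ (-(κ o.1 : ℝ)) * ((2 : ℝ) ^ (κ l.1 : ℝ) * (2 : ℝ) ^ (-(κ l.1 : ℝ))) := by
              ring
          _ = _ := by rw [this, mul_one]
      have hq : 0 < (2 : ℝ) ^ (-(κ l.1 : ℝ)) / 2 := by positivity
      rw [hN] at hly
      have c1 : R l * ((2 : ℝ) ^ (-(κ l.1 : ℝ)) / 2) <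
          ((2 : ℝ) ^ (-(κ l.1 : ℝ)) / 2) * max (sN (Nv o y) l.1) (tN (Nv o y) (y o)) := by
        calc R l * ((2 : ℝ) ^ (-(κ l.1 : ℝ)) / 2)
            < max (sN (Nv o y) l.1) (tN (Nv o y) (y o)) * ((2 : ℝ) ^ (-(κ l.1 : ℝ)) / 2) :=
              mul_lt_mul_of_pos_right (lt_of_lt_of_le hly hs) hq
          _ = _ := mul_comm _ _
      linarith

/-- `∫_{|u|<1/2} |u|^a < ∞` -/
theorem c1_abs_int (a : ℝ) (ha : -1 < a) :
    ∫⁻ u in Set.Ioo (-(1 / 2 : ℝ)) (1 / 2), ENNReal.ofReal |u| ^ a ≠ ⊤ := by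
  have h1 : IntervalIntegrable (fun x : ℝ => |x| ^ a) volume 0 (1 / 2) := by
    refine (intervalIntegral.intervalIntegrable_rpow' ha (a := 0) (b := 1 / 2)).congr ?_
    intro x hx
    rw [Set.uIoc_of_le (by norm_num)] at hx
    show x ^ a = |x| ^ a
    rw [abs_of_pos hx.1]
  have h2 : IntervalIntegrable (fun x : ℝ => |x| ^ a) volume (-(1 / 2)) 0 := by
    have := (IntervalIntegrable.iff_comp_neg (f := fun x : ℝ => |x| ^ a)).1 h1
    simp only [abs_neg, neg_zero] at this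
    exact this.symm
  have h3 : IntegrableOn (fun x : ℝ => |x| ^ a) (Set.Ioo (-(1 / 2)) (1 / 2)) := by
    have h4 := (intervalIntegrable_iff_integrableOn_Ioc_of_le (by norm_num)).1 (h2.trans h1)
    exact h4.mono_set Set.Ioo_subset_Ioc_self
  have h5 := h3.lintegral_lt_top
  refine ne_of_lt (lt_of_le_of_lt (le_of_eq ?_) h5)
  refine lintegral_congr_ae ?_
  have h6 : ∀ᵐ u : ℝ ∂volume, u ≠ 0 := by
    rw [ae_iff]
    simp
  filter_upwards [ae_restrict_of_ae h6] with u hu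
  rw [ENNReal.ofReal_rpow_of_pos (abs_pos.2 hu)]

theorem c1_half (k : ℕ) : ((1 : ℝ) / 2) ^ k = (2 : ℝ) ^ (-(k : ℝ)) := by
  rw [Real.rpow_neg two_pos.le, Real.rpow_natCast, one_div, inv_pow]

theorem c1_near {x : ℝ} (h0 : 0 < x) (h1 : x ≤ 1) :
    ∃ k : ℕ, (2 : ℝ) ^ (-(k : ℝ)) / 2 < x ∧ x ≤ (2 : ℝ) ^ (-(k : ℝ)) := by
  obtain ⟨k, hk1, hk2⟩ := exists_nat_pow_near_of_lt_one h0 h1 (by norm_num : (0 : ℝ) < 1 / 2)
    (by norm_num)
  refine ⟨k, ?_, ?_⟩
  · rw [← c1_half]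
    rw [pow_succ] at hk1
    linarith
  · rw [← c1_half]
    exact hk2

theorem c1_T1 (hm : 0 < m) (hd : ∀ i, 1 ≤ d i) (o : Ix d) :
    1 ≤ (m : ℝ) * Real.sqrt ((∑ i, d i : ℕ) : ℝ) := by
  have hD : (1 : ℝ) ≤ ((∑ i, d i : ℕ) : ℝ) := by
    have h1 : 1 ≤ ∑ i, d i := (hd o.1).trans
      (Finset.single_le_sum (f := d) (fun _ _ => Nat.zero_le _) (Finset.mem_univ o.1))
    exact_mod_cast h1
  have hsq : 1 ≤ Real.sqrt ((∑ i, d i : ℕ) : ℝ) := Real.one_le_sqrt.2 hD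
  have hm1 : (1 : ℝ) ≤ m := by exact_mod_cast hm
  nlinarith

/-- the pieces are empty unless `κ i ≤ κ j + 1` -/
theorem c1_U_empty (hm : 0 < m) (hd : ∀ i, 1 ≤ d i) (o : Ix d) {T : ℝ}
    (hT : T = m * Real.sqrt ((∑ i, d i : ℕ) : ℝ)) (κ : Fin m → ℕ)
    (h : ¬ ∀ i, κ i ≤ κ o.1 + 1) : c1_U o T κ = ∅ := by
  rw [Set.eq_empty_iff_forall_notMem]
  rintro y ⟨h1, h2, h3, h4, h5, h6⟩
  obtain ⟨b0, b1, b2, b3, b4, b5, b6, b7⟩ := c1_pt hm hd h1 h2 hT
  apply h
  intro i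
  by_cases hi : i = o.1
  · rw [hi]; omega
  have h7 := (h6 i hi).2
  have h8 := b6 i
  have hT0 : 0 < T := by linarith
  have h9 : (2 : ℝ) ^ (-(κ o.1 : ℝ)) / 2 < tN (Nv o y) (y o) / T := by
    rw [lt_div_iff₀ hT0]
    calc _ = T * (2 : ℝ) ^ (-(κ o.1 : ℝ)) / 2 := by ring
      _ < _ := h4
  have h10 : (2 : ℝ) ^ (-((κ o.1 : ℝ) + 1)) < (2 : ℝ) ^ (-(κ i : ℝ)) := by
    calc (2 : ℝ) ^ (-((κ o.1 : ℝ) + 1)) = (2 : ℝ) ^ (-(κ o.1 : ℝ)) / 2 := by
          rw [neg_add, Real.rpow_add two_pos, Real.rpow_neg_one]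
          ring
      _ < _ := h9.trans_le (h8.trans h7)
  rw [Real.rpow_lt_rpow_left_iff one_lt_two] at h10
  have h11 : (κ i : ℝ) < (κ o.1 : ℝ) + 1 := by linarith
  have : κ i < κ o.1 + 1 := by exact_mod_cast h11
  omega

/-- the cover -/
theorem c1_cover (hm : 0 < m) (hd : ∀ i, 1 ≤ d i) (o : Ix d) {T : ℝ}
    (hT : T = m * Real.sqrt ((∑ i, d i : ℕ) : ℝ)) :
    Yreg o ∩ {y | 0 < tN (Nv o y) (y o)} ⊆
      (Yreg o ∩ {y | 0 < tN (Nv o y) (y o)} ∩ {y | |y o| < 1 / 2}) ∪ ⋃ κ, c1_U o T κ := by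
  rintro y ⟨hy, ht⟩
  have ht' : 0 < tN (Nv o y) (y o) := ht
  obtain ⟨b0, b1, b2, b3, b4, b5, b6, b7⟩ := c1_pt hm hd hy ht' hT
  have hT0 : 0 < T := by linarith
  by_cases h : |y o| < 1 / 2
  · exact Or.inl ⟨⟨hy, ht⟩, h⟩
  right
  rw [Set.mem_iUnion]
  have hex : ∀ i : Fin m, ∃ k : ℕ,
      (i = o.1 → (2 : ℝ) ^ (-(k : ℝ)) / 2 < tN (Nv o y) (y o) / T ∧
        tN (Nv o y) (y o) / T ≤ (2 : ℝ) ^ (-(k : ℝ))) ∧
      (i ≠ o.1 → (2 : ℝ) ^ (-(k : ℝ)) / 2 < pN (Nv o y) (y o) i ∧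
        pN (Nv o y) (y o) i ≤ (2 : ℝ) ^ (-(k : ℝ))) := by
    intro i
    by_cases hi : i = o.1
    · obtain ⟨k, hk⟩ := c1_near (div_pos ht' hT0) ((div_le_one hT0).2 b1)
      exact ⟨k, fun _ => hk, fun h => absurd hi h⟩
    · obtain ⟨k, hk⟩ := c1_near (b4 i) (b5 i)
      exact ⟨k, fun h => absurd h hi, fun _ => hk⟩
  choose κ hκ using hex
  refine ⟨κ, hy, ht', not_lt.1 h, ?_, ?_, fun i hi => (hκ i).2 hi⟩
  · have := ((hκ o.1).1 rfl).1
    rw [lt_div_iff₀ hT0] at this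
    calc _ = (2 : ℝ) ^ (-(κ o.1 : ℝ)) / 2 * T := by ring
      _ < _ := this
  · have := ((hκ o.1).1 rfl).2
    rw [div_le_iff₀ hT0] at this
    calc _ ≤ _ := this
      _ = _ := by ring

/-- the exponent identity -/
theorem c1_exp (β : Fin m → ℝ) (b : ℝ) (J : Fin m) (κ : Fin m → ℕ) :
    (-(∑ i, (((∑ i, d i : ℕ) : ℝ) * β i) * κ i) +
      (((∑ i, d i : ℕ) : ℝ) + 1 + b) * (κ J - ∑ i, (((d i : ℝ) + 1) / 2) * κ i)) +
      (-(κ J : ℝ) + ((∑ i, (d i : ℝ) * κ i) - ((∑ i, d i : ℕ) : ℝ) * κ J)) =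
    -(∑ i, ga d β i * κ i) * ((∑ i, d i : ℕ) : ℝ) + (b * κ J + ∑ i, al d b i * κ i) := by
  set D : ℝ := ((∑ i, d i : ℕ) : ℝ)
  set S0 : ℝ := ∑ i, (d i : ℝ) * κ i with hS0
  set S1 : ℝ := ∑ i, (κ i : ℝ) with hS1
  set S2 : ℝ := ∑ i, β i * κ i with hS2
  have e1 : ∑ i, (((d i : ℝ) + 1) / 2) * κ i = (S0 + S1) / 2 := by
    rw [hS0, hS1, ← Finset.sum_add_distrib, Finset.sum_div]
    exact Finset.sum_congr rfl fun i _ => by ring
  have e2 : ∑ i, (D * β i) * κ i = D * S2 := by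
    rw [hS2, Finset.mul_sum]
    exact Finset.sum_congr rfl fun i _ => by ring
  have e3 : ∑ i, ga d β i * κ i = (S0 + S1) / 2 + S2 := by
    rw [← e1, hS2, ← Finset.sum_add_distrib]
    exact Finset.sum_congr rfl fun i _ => by unfold ga; ring
  have e4 : ∑ i, al d b i * κ i = (S0 - S1 - b * (S0 + S1)) / 2 := by
    rw [hS0, hS1, ← Finset.sum_add_distrib, ← Finset.sum_sub_distrib, Finset.mul_sum,
      ← Finset.sum_sub_distrib, Finset.sum_div]
    exact Finset.sum_congr rfl fun i _ => by unfold al; ring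
  rw [e1, e2, e3, e4]
  ring

open Classical in
theorem dyad_up (hm : 0 < m) (hd : ∀ i, 1 ≤ d i) (hβ : ∀ i, 0 ≤ β i) (a b : ℝ) (ha : -1 < a) (c₁ : ℝ) (hc₁ : 0 < c₁)
    (o : Ix d) :
    ∃ C c : ℝ, 0 < C ∧ 0 < c ∧ ∀ n : ℕ, 1 ≤ n →
      ENNReal.ofReal ((n : ℝ) ^ (∑ i, d i)) *
          ∫⁻ y in Yreg o ∩ {y | 0 < tN (Nv o y) (y o)}, ENNReal.ofReal |y o| ^ a *
            ENNReal.ofReal (Real.exp (-(c₁ * n * ∏ i, (pN (Nv o y) (y o) i) ^ (ga d β i))) *
              ((∏ i, (pN (Nv o y) (y o) i) ^ (((∑ i, d i : ℕ) : ℝ) * β i)) *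
                (SS (Nv o y) (y o)) ^ (((∑ i, d i : ℕ) : ℝ) + 1 + b))) ≤
        ENNReal.ofReal (C * ((n : ℝ) ^ (∑ i, d i) * Real.exp (-(c * n)))) +
          ENNReal.ofReal C * ∑' κ : Fin m → ℕ,
            if ∀ i, κ i ≤ κ o.1 + 1 then ENNReal.ofReal (termS d β b o.1 c n κ) else 0 := by
  set T : ℝ := (m : ℝ) * Real.sqrt ((∑ i, d i : ℕ) : ℝ) with hT
  have hT1 : 1 ≤ T := c1_T1 hm hd o
  have hT0 : 0 < T := by linarith
  set A := 2 * T with hA
  have hA0 : 0 < A := by positivity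
  have hA1 : 1 ≤ A := by linarith
  have hAi : A⁻¹ ≤ 1 / 2 := by
    rw [inv_le_comm₀ hA0 (by norm_num)]
    norm_num
    linarith
  have hAi0 : 0 < A⁻¹ := by positivity
  obtain ⟨C0, c0, hC0, hc0, hIB⟩ := c1_IB (d := d) (β := β) A hA1 hβ b c₁ hc₁ o.1
    ((∑ i, d i : ℕ) : ℝ) (Nat.cast_nonneg _)
  set Kint := ∫⁻ u in Set.Ioo (-(1 / 2 : ℝ)) (1 / 2), ENNReal.ofReal |u| ^ a with hKint
  have hKfin : Kint ≠ ⊤ := c1_abs_int a ha
  set Kb := Kint * ∏ l ∈ Finset.univ.erase o, ENNReal.ofReal (2 * T) with hKb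
  have hKbfin : Kb ≠ ⊤ := by
    refine ENNReal.mul_ne_top hKfin ?_
    exact ENNReal.prod_ne_top fun _ _ => ENNReal.ofReal_ne_top
  set K1 := Kb.toReal with hK1
  have hK10 : 0 ≤ K1 := ENNReal.toReal_nonneg
  have hKb' : Kb = ENNReal.ofReal K1 := (ENNReal.ofReal_toReal hKbfin).symm
  set C2 := A ^ |a| * C0 * (4 * T) ^ (∑ i, d i) with hC2
  have hC20 : 0 < C2 := by positivity
  refine ⟨C0 * K1 + C2, c0, by positivity, hc0, ?_⟩
  intro n hn
  have hn0 : (0 : ℝ) ≤ n := Nat.cast_nonneg n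
  set f : (Ix d → ℝ) → ℝ≥0∞ := fun y => ENNReal.ofReal |y o| ^ a *
            ENNReal.ofReal (Real.exp (-(c₁ * n * ∏ i, (pN (Nv o y) (y o) i) ^ (ga d β i))) *
              ((∏ i, (pN (Nv o y) (y o) i) ^ (((∑ i, d i : ℕ) : ℝ) * β i)) *
                (SS (Nv o y) (y o)) ^ (((∑ i, d i : ℕ) : ℝ) + 1 + b))) with hf
  set Rb : Set (Ix d → ℝ) := Yreg o ∩ {y | 0 < tN (Nv o y) (y o)} ∩ {y | |y o| < 1 / 2} with hRb
  have hRbm : MeasurableSet Rb := ((c1_meas_Yreg o).inter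
    (measurableSet_lt measurable_const (c1_cont_t o).measurable)).inter
    (measurableSet_lt (continuous_apply o).abs.measurable measurable_const)
  -- the big part
  have big : ENNReal.ofReal ((n : ℝ) ^ (∑ i, d i)) * ∫⁻ y in Rb, f y ≤
      ENNReal.ofReal ((C0 * K1) * ((n : ℝ) ^ (∑ i, d i) * Real.exp (-(c0 * n)))) := by
    have h1 : ∀ y ∈ Rb, f y ≤ ENNReal.ofReal (C0 * Real.exp (-(c0 * n))) *
        ENNReal.ofReal |y o| ^ a := by
      rintro y ⟨⟨hy, ht⟩, hyo⟩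
      have ht' : 0 < tN (Nv o y) (y o) := ht
      have hyo' : |y o| < 1 / 2 := hyo
      obtain ⟨b0, b1, b2, b3, b4, b5, b6, b7⟩ := c1_pt hm hd hy ht' hT
      have htl : 1 / 2 ≤ tN (Nv o y) (y o) := by
        have e1 : tN (Nv o y) (y o) = (∑ i, sN (Nv o y) i) - |y o| := rfl
        have e2 : sN (Nv o y) o.1 ≤ ∑ i, sN (Nv o y) i :=
          Finset.single_le_sum (fun i _ => c1_s0 _ i) (Finset.mem_univ o.1)
        have e3 := c1_sJ (o := o) y
        rw [e1]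
        linarith
      have hI := hIB n (fun _ => 0) (fun i => pN (Nv o y) (y o) i) (tN (Nv o y) (y o)) hn0
        (fun i => by
          simp only [Nat.cast_zero, neg_zero, Real.rpow_zero, mul_one]
          refine le_trans ?_ (b6 i)
          rw [le_div_iff₀ hT0, hA, mul_inv]
          calc 2⁻¹ * T⁻¹ * T = 1 / 2 := by field_simp
            _ ≤ _ := htl)
        (fun i => by
          simp only [Nat.cast_zero, neg_zero, Real.rpow_zero, mul_one]
          exact (b5 i).trans hA1)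
        (by
          simp only [Nat.cast_zero, neg_zero, Real.rpow_zero, mul_one]
          linarith)
        (by
          simp only [Nat.cast_zero, neg_zero, Real.rpow_zero, mul_one]
          linarith)
      simp only [Nat.cast_zero, mul_zero, Finset.sum_const_zero, neg_zero, Real.rpow_zero, sub_zero,
        add_zero, mul_one] at hI
      rw [hf]
      dsimp only
      rw [mul_comm]
      exact mul_le_mul_left (ENNReal.ofReal_le_ofReal hI) _
    have h2 : ∫⁻ y in Rb, f y ≤ ENNReal.ofReal (C0 * Real.exp (-(c0 * n))) * Kb := by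
      refine (setLIntegral_mono' hRbm h1).trans ?_
      rw [lintegral_const_mul' _ _ ENNReal.ofReal_ne_top]
      refine mul_le_mul_right ?_ _
      rw [← lintegral_indicator hRbm]
      have hmf : Measurable fun y : Ix d → ℝ => ENNReal.ofReal |y o| ^ a :=
        ((continuous_apply o).abs.measurable.ennreal_ofReal).pow_const a
      refine c1_M o _ (hmf.indicator hRbm) Kint (fun _ => T) ?_ ?_
      · intro x
        rw [hKint, ← lintegral_indicator measurableSet_Ioo]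
        refine lintegral_mono fun u => ?_
        by_cases hu : Function.update x o u ∈ Rb
        · have h3 : |u| < 1 / 2 := by
            have := hu.2
            have h4 : |Function.update x o u o| < 1 / 2 := this
            rwa [Function.update_self] at h4
          have h5 : u ∈ Set.Ioo (-(1 / 2 : ℝ)) (1 / 2) := abs_lt.1 h3
          rw [Set.indicator_of_mem hu, Set.indicator_of_mem h5, Function.update_self]
        · rw [Set.indicator_of_notMem hu]
          exact bot_le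
      · intro y l hl hly
        refine Set.indicator_of_notMem ?_ _
        rintro ⟨⟨hy, ht⟩, hyo⟩
        have ht' : 0 < tN (Nv o y) (y o) := ht
        obtain ⟨b0, b1, b2, b3, b4, b5, b6, b7⟩ := c1_pt hm hd hy ht' hT
        have e1 : |y l| = |Nv o y l| := by rw [c1_Nv_ne hl, abs_neg]
        have e2 := (c1_abs_le (Nv o y) l).trans (b3 l.1)
        linarith
    calc _ ≤ ENNReal.ofReal ((n : ℝ) ^ (∑ i, d i)) *
          (ENNReal.ofReal (C0 * Real.exp (-(c0 * n))) * Kb) := mul_le_mul_right h2 _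
      _ = _ := by
          rw [hKb', ← ENNReal.ofReal_mul (by positivity), ← ENNReal.ofReal_mul (by positivity)]
          congr 1
          ring
  -- the small part
  have small : ∀ κ : Fin m → ℕ, ENNReal.ofReal ((n : ℝ) ^ (∑ i, d i)) * ∫⁻ y in c1_U o T κ, f y ≤
      ENNReal.ofReal C2 *
        (if ∀ i, κ i ≤ κ o.1 + 1 then ENNReal.ofReal (termS d β b o.1 c0 n κ) else 0) := by
    intro κ
    by_cases hκ : ∀ i, κ i ≤ κ o.1 + 1
    swap
    · rw [c1_U_empty hm hd o hT κ hκ]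
      simp
    rw [if_pos hκ]
    set E1 : ℝ := -(∑ i, (((∑ i, d i : ℕ) : ℝ) * β i) * κ i) +
      (((∑ i, d i : ℕ) : ℝ) + 1 + b) * (κ o.1 - ∑ i, (((d i : ℝ) + 1) / 2) * κ i) with hE1
    set E2 : ℝ := -(κ o.1 : ℝ) + ((∑ i, (d i : ℝ) * κ i) - ((∑ i, d i : ℕ) : ℝ) * κ o.1) with hE2
    set X := (n : ℝ) * (2 : ℝ) ^ (-(∑ i, ga d β i * κ i)) with hX
    have h1 : ∀ y ∈ c1_U o T κ, f y ≤
        ENNReal.ofReal (A ^ |a| * (C0 * (Real.exp (-(c0 * X)) * (2 : ℝ) ^ E1))) := by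
      rintro y ⟨hy, ht', h3, h4, h5, h6⟩
      obtain ⟨b0, b1, b2, b3, b4, b5, b6, b7⟩ := c1_pt hm hd hy ht' hT
      have hz : ∀ i, 0 < (2 : ℝ) ^ (-(κ i : ℝ)) := fun i => by positivity
      have hpJ : (2 : ℝ) ^ (-(κ o.1 : ℝ)) / 2 < pN (Nv o y) (y o) o.1 := by
        refine lt_of_lt_of_le ?_ (b6 o.1)
        rw [lt_div_iff₀ hT0]
        calc _ = T * (2 : ℝ) ^ (-(κ o.1 : ℝ)) / 2 := by ring
          _ < _ := h4
      have hI := hIB n κ (fun i => pN (Nv o y) (y o) i) (tN (Nv o y) (y o)) hn0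
        (fun i => by
          have hzi := hz i
          have h7 : A⁻¹ * (2 : ℝ) ^ (-(κ i : ℝ)) ≤ (2 : ℝ) ^ (-(κ i : ℝ)) / 2 := by nlinarith
          by_cases hi : i = o.1
          · subst hi
            linarith
          · linarith [(h6 i hi).1])
        (fun i => by
          have hzi := hz i
          by_cases hi : i = o.1
          · subst hi
            have : T * (2 : ℝ) ^ (-(κ o.1 : ℝ)) ≤ A * (2 : ℝ) ^ (-(κ o.1 : ℝ)) := by
              rw [hA]
              nlinarith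
            exact b7.trans (h5.trans this)
          · refine (h6 i hi).2.trans ?_
            nlinarith)
        (by
          have hzi := hz o.1
          have h7 : A⁻¹ * (2 : ℝ) ^ (-(κ o.1 : ℝ)) ≤ (2 : ℝ) ^ (-(κ o.1 : ℝ)) / 2 := by nlinarith
          have h8 : (2 : ℝ) ^ (-(κ o.1 : ℝ)) / 2 ≤ T * (2 : ℝ) ^ (-(κ o.1 : ℝ)) / 2 := by nlinarith
          linarith)
        (by
          have hzi := hz o.1
          refine h5.trans ?_
          rw [hA]
          nlinarith)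
      have hy0 : 0 < |y o| := by linarith
      have hya : |y o| ^ a ≤ A ^ |a| * (1 : ℝ) ^ a := by
        refine c1_rpow_bd hA1 one_pos ?_ ?_
        · linarith
        · linarith
      rw [Real.one_rpow, mul_one] at hya
      rw [hf]
      dsimp only
      rw [ENNReal.ofReal_rpow_of_pos hy0, ← ENNReal.ofReal_mul (by positivity)]
      apply ENNReal.ofReal_le_ofReal
      refine mul_le_mul hya hI ?_ (by positivity)
      refine mul_nonneg (Real.exp_pos _).le (mul_nonneg ?_ ?_)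
      · exact Finset.prod_nonneg fun i _ => Real.rpow_nonneg (b4 i).le _
      · apply Real.rpow_nonneg
        unfold SS
        apply div_nonneg _ ht'.le
        exact Finset.prod_nonneg fun i _ => Real.rpow_nonneg (b4 i).le _
    have h2 : ∫⁻ y in c1_U o T κ, f y ≤
        ENNReal.ofReal (A ^ |a| * (C0 * (Real.exp (-(c0 * X)) * (2 : ℝ) ^ E1))) *
          ENNReal.ofReal ((4 * T) ^ (∑ i, d i) * (2 : ℝ) ^ E2) := by
      refine (setLIntegral_mono' (c1_meas_U o T κ) h1).trans ?_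
      rw [setLIntegral_const]
      exact mul_le_mul_right (c1_vol hm hd o hT hT1 κ) _
    calc _ ≤ ENNReal.ofReal ((n : ℝ) ^ (∑ i, d i)) *
          (ENNReal.ofReal (A ^ |a| * (C0 * (Real.exp (-(c0 * X)) * (2 : ℝ) ^ E1))) *
          ENNReal.ofReal ((4 * T) ^ (∑ i, d i) * (2 : ℝ) ^ E2)) := mul_le_mul_right h2 _
      _ = ENNReal.ofReal C2 * ENNReal.ofReal (termS d β b o.1 c0 n κ) := by
          rw [← ENNReal.ofReal_mul (by positivity), ← ENNReal.ofReal_mul (by positivity),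
            ← ENNReal.ofReal_mul (by positivity)]
          congr 1
          unfold termS XX
          rw [← hX]
          have e1 : X ^ ((∑ i, d i : ℕ) : ℝ) =
              (n : ℝ) ^ (∑ i, d i) * (2 : ℝ) ^ (-(∑ i, ga d β i * κ i) * ((∑ i, d i : ℕ) : ℝ)) := by
            rw [hX, Real.mul_rpow hn0 (by positivity), Real.rpow_natCast, ← Real.rpow_mul two_pos.le]
          have e2 : (2 : ℝ) ^ E1 * (2 : ℝ) ^ E2 =
              (2 : ℝ) ^ (-(∑ i, ga d β i * κ i) * ((∑ i, d i : ℕ) : ℝ)) *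
                (2 : ℝ) ^ (b * κ o.1 + ∑ i, al d b i * κ i) := by
            rw [← Real.rpow_add two_pos, ← Real.rpow_add two_pos, hE1, hE2, c1_exp]
          rw [e1, hC2]
          calc _ = A ^ |a| * C0 * (4 * T) ^ (∑ i, d i) * (n : ℝ) ^ (∑ i, d i) *
                Real.exp (-(c0 * X)) * ((2 : ℝ) ^ E1 * (2 : ℝ) ^ E2) := by ring
            _ = _ := by
                rw [e2]
                ring
  calc ENNReal.ofReal ((n : ℝ) ^ (∑ i, d i)) *
        ∫⁻ y in Yreg o ∩ {y | 0 < tN (Nv o y) (y o)}, f y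
      ≤ ENNReal.ofReal ((n : ℝ) ^ (∑ i, d i)) *
        ((∫⁻ y in Rb, f y) + ∑' κ, ∫⁻ y in c1_U o T κ, f y) := by
        refine mul_le_mul_right ?_ _
        refine (lintegral_mono_set (c1_cover hm hd o hT)).trans ?_
        refine (lintegral_union_le _ _ _).trans ?_
        exact add_le_add_right (lintegral_iUnion_le _ _) _
    _ = ENNReal.ofReal ((n : ℝ) ^ (∑ i, d i)) * (∫⁻ y in Rb, f y) +
        ∑' κ, ENNReal.ofReal ((n : ℝ) ^ (∑ i, d i)) * ∫⁻ y in c1_U o T κ, f y := by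
        rw [mul_add, ← ENNReal.tsum_mul_left]
    _ ≤ _ := by
        refine add_le_add ?_ ?_
        · refine big.trans (ENNReal.ofReal_le_ofReal ?_)
          refine mul_le_mul_of_nonneg_right ?_ (by positivity)
          linarith
        · refine (ENNReal.tsum_le_tsum small).trans ?_
          rw [ENNReal.tsum_mul_left]
          refine mul_le_mul_left (ENNReal.ofReal_le_ofReal ?_) _
          have : 0 ≤ C0 * K1 := by positivity
          linarith

end RP
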