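import Mathlib

/-! C2: a sum over dyadic scales.

Proof.  `X = n 2^{-∑ γ_i κ_i}`, `Z = univ \ {j} \ A \ B`.  (1) `X^p e^{-cX} ≤ C min(X, 1/X)^δ` for `δ = min p 1` (all `X > 0`).
(2) For `i ∈ Z` we have `X ≤ n 2^{-γ_i κ_i}`; so `min(X,1/X)^δ ≤ min(X,1/X)^{δ/2} ∏_{i∈Z} min(1, (n 2^{-γ_i κ_i})^{δ/(2m)})`
(as `min(X,1/X) ≤ 1` and `≤ X`).
(3) New indices: `e_i = κ_i` for `i ∉ B`, `e_i = κ_j + 1 - κ_i` for `i ∈ B` (`≥ 0` under the condition `κ_i ≤ κ_j + 1`): an injective map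
`κ ↦ e`.  So the sum is at most the sum over all `e : Fin m → ℕ` of
`min(X,1/X)^{δ/2} ∏_{i∈Z} min(1, (n 2^{-γ_i e_i})^{δ/(2m)}) ∏_{i∈A∪B} 2^{-r e_i}` with
`X = const(e_i, i ≠ j) · 2^{-Γ e_j}`, `Γ = γ_j + ∑_{i∈B} γ_i > 0` (restrict to those `e` which come from some `κ`).
(4) Sum over `e_j` first: `∑_{k∈ℕ} min(X_0 2^{-Γk}, 2^{Γk}/X_0)^{δ/2} ≤ C` uniformly in `X_0 > 0` (two geometric series).
(5) The rest is a product: for `i ∈ A ∪ B` a geometric series; for `i ∈ Z`: `∑_k min(1, (n 2^{-γ_i k})^{δ'}) ≤ C (1 + log n) ≤ C' log n` for `n ≥ 2`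
(the terms with `γ_i k log 2 ≤ log n` are at most `1`, there are `≤ 1 + log n/(γ_i log 2)` of them; the others form a geometric series). -/

open scoped ENNReal

namespace RP

theorem C2_bound1 (c p : ℝ) (hc : 0 < c) (hp : 0 < p) :
    ∃ C δ : ℝ, 0 < C ∧ 0 < δ ∧ ∀ L : ℝ,
      ((2 : ℝ) ^ L) ^ p * Real.exp (-(c * (2 : ℝ) ^ L)) ≤ C * (2 : ℝ) ^ (-(δ * |L|)) := by
  set s : ℝ := p + 1 with hs
  have hs0 : 0 < s := by positivity
  refine ⟨max 1 ((s / c) ^ s), min p 1, by positivity, by positivity, fun L => ?_⟩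
  have h2 : (0 : ℝ) < (2 : ℝ) ^ L := by positivity
  rcases le_total L 0 with hL | hL
  · have h1 : Real.exp (-(c * (2 : ℝ) ^ L)) ≤ 1 := by
      apply Real.exp_le_one_iff.mpr
      have := mul_pos hc h2
      linarith
    have h3 : ((2 : ℝ) ^ L) ^ p ≤ (2 : ℝ) ^ (-(min p 1 * |L|)) := by
      rw [← Real.rpow_mul (by norm_num)]
      apply Real.rpow_le_rpow_of_exponent_le (by norm_num)
      rw [abs_of_nonpos hL]
      have := min_le_left p 1
      nlinarith
    calc ((2 : ℝ) ^ L) ^ p * Real.exp (-(c * (2 : ℝ) ^ L))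
        ≤ (2 : ℝ) ^ (-(min p 1 * |L|)) * 1 := by gcongr
      _ = 1 * (2 : ℝ) ^ (-(min p 1 * |L|)) := by ring
      _ ≤ _ := by gcongr; exact le_max_left _ _
  · have h3 : ((2 : ℝ) ^ L) ^ s * Real.exp (-(c * (2 : ℝ) ^ L)) ≤ (s / c) ^ s := by
      set x : ℝ := (2 : ℝ) ^ L
      have h4 : x ≤ (s / c) * Real.exp (c * x / s) := by
        have h5 : c * x / s ≤ Real.exp (c * x / s) := by
          have := Real.add_one_le_exp (c * x / s)
          linarith
        calc x = (s / c) * (c * x / s) := by field_simp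
          _ ≤ _ := by gcongr
      have h6 : x ^ s ≤ (s / c) ^ s * Real.exp (c * x) := by
        calc x ^ s ≤ ((s / c) * Real.exp (c * x / s)) ^ s := by gcongr
          _ = (s / c) ^ s * (Real.exp (c * x / s)) ^ s := by
            rw [Real.mul_rpow (by positivity) (by positivity)]
          _ = (s / c) ^ s * Real.exp (c * x) := by
            rw [← Real.exp_mul]
            congr 2
            field_simp
      calc x ^ s * Real.exp (-(c * x)) ≤ ((s / c) ^ s * Real.exp (c * x)) * Real.exp (-(c * x)) := by gcongr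
        _ = (s / c) ^ s := by
          rw [mul_assoc, ← Real.exp_add]; simp
    have h7 : ((2 : ℝ) ^ L) ^ p = ((2 : ℝ) ^ L) ^ s * (2 : ℝ) ^ (-L) := by
      rw [← Real.rpow_mul (by norm_num), ← Real.rpow_mul (by norm_num), ← Real.rpow_add (by norm_num)]
      congr 1
      rw [hs]; ring
    calc ((2 : ℝ) ^ L) ^ p * Real.exp (-(c * (2 : ℝ) ^ L))
        = (((2 : ℝ) ^ L) ^ s * Real.exp (-(c * (2 : ℝ) ^ L))) * (2 : ℝ) ^ (-L) := by rw [h7]; ring
      _ ≤ (s / c) ^ s * (2 : ℝ) ^ (-L) := by gcongr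
      _ ≤ max 1 ((s / c) ^ s) * (2 : ℝ) ^ (-(min p 1 * |L|)) := by
        gcongr
        · exact le_max_right _ _
        · norm_num
        · rw [abs_of_nonneg hL]
          have := min_le_right p 1
          nlinarith

theorem C2_int (q : ℝ) (hq0 : 0 < q) (hq1 : q < 1) :
    ∑' z : ℤ, ENNReal.ofReal (q ^ z.natAbs) < ⊤ := by
  have h : Summable (fun z : ℤ => q ^ z.natAbs) := by
    apply Summable.of_nat_of_neg
    · simpa using summable_geometric_of_lt_one hq0.le hq1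
    · simpa using summable_geometric_of_lt_one hq0.le hq1
  rw [← ENNReal.ofReal_tsum_of_nonneg (fun z => by positivity) h]
  exact ENNReal.ofReal_lt_top

theorem C2_two (Γ δ : ℝ) (hΓ : 0 < Γ) (hδ : 0 < δ) :
    ∃ C : ℝ, 0 < C ∧ ∀ x : ℝ, ∑' k : ℕ, ENNReal.ofReal ((2 : ℝ) ^ (-(δ * |x - Γ * k|))) ≤ ENNReal.ofReal C := by
  set q : ℝ := (2 : ℝ) ^ (-(δ * Γ)) with hq
  have hq0 : 0 < q := by positivity
  have hq1 : q < 1 := by
    rw [hq]
    apply Real.rpow_lt_one_of_one_lt_of_neg (by norm_num)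
    have := mul_pos hδ hΓ
    linarith
  have hfin := C2_int q hq0 hq1
  set S : ℝ≥0∞ := ∑' z : ℤ, ENNReal.ofReal (q ^ z.natAbs) with hS
  refine ⟨q⁻¹ * S.toReal + 1, by positivity, fun x => ?_⟩
  set z0 : ℤ := ⌊x / Γ⌋ with hz0
  have hpt : ∀ k : ℤ, ENNReal.ofReal ((2 : ℝ) ^ (-(δ * |x - Γ * k|))) ≤
      ENNReal.ofReal (q⁻¹) * ENNReal.ofReal (q ^ (k - z0).natAbs) := by
    intro k
    rw [← ENNReal.ofReal_mul (by positivity)]
    apply ENNReal.ofReal_le_ofReal
    have h1 : q⁻¹ * q ^ (k - z0).natAbs = (2 : ℝ) ^ (-(δ * Γ * (|((k - z0 : ℤ) : ℝ)| - 1))) := by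
      rw [← Real.rpow_natCast, hq, ← Real.rpow_neg (by norm_num), ← Real.rpow_mul (by norm_num),
        ← Real.rpow_add (by norm_num)]
      congr 1
      rw [Nat.cast_natAbs, Int.cast_abs]
      ring
    rw [h1]
    apply Real.rpow_le_rpow_of_exponent_le (by norm_num)
    have h2 : |x - Γ * k| = Γ * |(k : ℝ) - x / Γ| := by
      rw [← abs_of_pos hΓ, ← abs_mul, abs_of_pos hΓ, abs_sub_comm]
      congr 1
      field_simp
    have h3 : |((k - z0 : ℤ) : ℝ)| ≤ |(k : ℝ) - x / Γ| + 1 := by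
      have h4 : |x / Γ - z0| ≤ 1 := by
        rw [abs_of_nonneg (by rw [hz0]; have := Int.floor_le (x / Γ); linarith)]
        have := Int.lt_floor_add_one (x / Γ)
        rw [hz0]; linarith
      calc |((k - z0 : ℤ) : ℝ)| = |((k : ℝ) - x / Γ) + (x / Γ - z0)| := by push_cast; ring_nf
        _ ≤ |(k : ℝ) - x / Γ| + |x / Γ - z0| := abs_add_le _ _
        _ ≤ _ := by linarith
    rw [h2]
    have h5 : δ * Γ * (|((k - z0 : ℤ) : ℝ)| - 1) ≤ δ * Γ * |(k : ℝ) - x / Γ| := by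
      apply mul_le_mul_of_nonneg_left _ (by positivity)
      linarith
    linarith
  calc ∑' k : ℕ, ENNReal.ofReal ((2 : ℝ) ^ (-(δ * |x - Γ * k|)))
      = ∑' k : ℕ, (fun z : ℤ => ENNReal.ofReal ((2 : ℝ) ^ (-(δ * |x - Γ * z|)))) (k : ℤ) := by simp
    _ ≤ ∑' z : ℤ, ENNReal.ofReal ((2 : ℝ) ^ (-(δ * |x - Γ * z|))) :=
      ENNReal.tsum_comp_le_tsum_of_injective (f := fun k : ℕ => (k : ℤ)) Nat.cast_injective _
    _ ≤ ∑' z : ℤ, ENNReal.ofReal (q⁻¹) * ENNReal.ofReal (q ^ (z - z0).natAbs) := ENNReal.tsum_le_tsum hpt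
    _ = ENNReal.ofReal (q⁻¹) * ∑' z : ℤ, ENNReal.ofReal (q ^ (z - z0).natAbs) := ENNReal.tsum_mul_left
    _ = ENNReal.ofReal (q⁻¹) * S := by
      congr 1
      exact (Equiv.subRight z0).tsum_eq (fun z : ℤ => ENNReal.ofReal (q ^ z.natAbs))
    _ = ENNReal.ofReal (q⁻¹ * S.toReal) := by
      rw [ENNReal.ofReal_mul (by positivity), ENNReal.ofReal_toReal hfin.ne]
    _ ≤ _ := by
      apply ENNReal.ofReal_le_ofReal
      linarith

theorem C2_geo (r : ℝ) (hr : 0 < r) :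
    ∃ C : ℝ, 0 < C ∧ ∑' k : ℕ, ENNReal.ofReal ((2 : ℝ) ^ (-(r * k))) ≤ ENNReal.ofReal C := by
  obtain ⟨C, hC, h⟩ := C2_two 1 r one_pos hr
  refine ⟨C, hC, ?_⟩
  have := h 0
  simpa using this

theorem C2_log (γ δ : ℝ) (hγ : 0 < γ) (hδ : 0 < δ) :
    ∃ C : ℝ, 0 < C ∧ ∀ n : ℕ, 2 ≤ n →
      ∑' k : ℕ, ENNReal.ofReal ((2 : ℝ) ^ (-(δ * max 0 (γ * k - Real.logb 2 n)))) ≤
        ENNReal.ofReal (C * Real.log n) := by
  obtain ⟨C, hC, h⟩ := C2_geo (δ * γ) (by positivity)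
  have hl2 : 0 < Real.log 2 := Real.log_pos (by norm_num)
  refine ⟨1 / (γ * Real.log 2) + (1 + C) / Real.log 2, by positivity, fun n hn => ?_⟩
  set lam : ℝ := Real.logb 2 n with hlam
  have hn2 : (2 : ℝ) ≤ n := by exact_mod_cast hn
  have hlog : Real.log 2 ≤ Real.log n := Real.log_le_log (by norm_num) hn2
  have hlam0 : 0 ≤ lam := Real.logb_nonneg (by norm_num) (by linarith)
  set k1 : ℕ := ⌊lam / γ⌋₊ + 1 with hk1
  have hk1' : lam ≤ γ * k1 := by
    have := Nat.lt_floor_add_one (lam / γ)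
    rw [hk1]
    push_cast
    rw [div_lt_iff₀ hγ] at this
    linarith
  have hk1'' : (k1 : ℝ) ≤ lam / γ + 1 := by
    rw [hk1]; push_cast
    have := Nat.floor_le (a := lam / γ) (by positivity)
    linarith
  rw [← Summable.sum_add_tsum_nat_add' (k := k1) ENNReal.summable]
  have hA : ∑ k ∈ Finset.range k1, ENNReal.ofReal ((2 : ℝ) ^ (-(δ * max 0 (γ * k - lam)))) ≤
      ENNReal.ofReal (k1 : ℝ) := by
    calc _ ≤ ∑ k ∈ Finset.range k1, (1 : ℝ≥0∞) := by
          apply Finset.sum_le_sum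
          intro k _
          rw [← ENNReal.ofReal_one]
          apply ENNReal.ofReal_le_ofReal
          apply Real.rpow_le_one_of_one_le_of_nonpos (by norm_num)
          have : 0 ≤ δ * max 0 (γ * k - lam) := by positivity
          linarith
      _ = ENNReal.ofReal (k1 : ℝ) := by simp
  have hB : ∑' k : ℕ, ENNReal.ofReal ((2 : ℝ) ^ (-(δ * max 0 (γ * ((k + k1 : ℕ) : ℝ) - lam)))) ≤
      ENNReal.ofReal C := by
    refine le_trans (ENNReal.tsum_le_tsum fun k => ?_) h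
    apply ENNReal.ofReal_le_ofReal
    apply Real.rpow_le_rpow_of_exponent_le (by norm_num)
    have h5 : γ * k ≤ max 0 (γ * ((k + k1 : ℕ) : ℝ) - lam) := by
      refine le_trans ?_ (le_max_right _ _)
      push_cast
      nlinarith
    have := mul_le_mul_of_nonneg_left h5 hδ.le
    linarith
  calc _ ≤ ENNReal.ofReal (k1 : ℝ) + ENNReal.ofReal C := add_le_add hA hB
    _ = ENNReal.ofReal (k1 + C) := by rw [ENNReal.ofReal_add (by positivity) hC.le]
    _ ≤ _ := by
      apply ENNReal.ofReal_le_ofReal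
      have e1 : lam = Real.log n / Real.log 2 := rfl
      have e2 : (1 : ℝ) ≤ Real.log n / Real.log 2 := by
        rw [le_div_iff₀ hl2]; linarith
      calc (k1 : ℝ) + C ≤ lam / γ + 1 * (1 + C) := by linarith
        _ ≤ lam / γ + (Real.log n / Real.log 2) * (1 + C) := by gcongr
        _ = _ := by rw [e1]; field_simp

theorem C2_prod {ι : Type*} [Fintype ι] (f : ι → ℕ → ℝ≥0∞) :
    ∑' e : ι → ℕ, ∏ i, f i (e i) ≤ ∏ i, ∑' k, f i k := by
  classical
  rw [ENNReal.tsum_eq_iSup_sum]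
  apply iSup_le
  intro s
  calc ∑ e ∈ s, ∏ i, f i (e i)
      ≤ ∑ e ∈ Fintype.piFinset (fun i => s.image (fun e => e i)), ∏ i, f i (e i) := by
        apply Finset.sum_le_sum_of_subset
        intro e he
        rw [Fintype.mem_piFinset]
        intro i
        exact Finset.mem_image_of_mem _ he
    _ = ∏ i, ∑ k ∈ s.image (fun e => e i), f i k := by
      rw [Finset.prod_univ_sum]
    _ ≤ ∏ i, ∑' k, f i k := by
      apply Finset.prod_le_prod'
      intro i _
      exact ENNReal.sum_le_tsum _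


open Classical in
theorem sum_up {m : ℕ} (j : Fin m) (A B : Finset (Fin m)) (hAj : j ∉ A) (hBj : j ∉ B) (hAB : Disjoint A B)
    (γ : Fin m → ℝ) (hγ : ∀ i, 0 < γ i) (r c p : ℝ) (hr : 0 < r) (hc : 0 < c) (hp : 0 < p) :
    ∃ C : ℝ, 0 < C ∧ ∀ n : ℕ, 2 ≤ n →
      ∑' κ : Fin m → ℕ, (if ∀ i, κ i ≤ κ j + 1 then
        ENNReal.ofReal (((n : ℝ) * (2 : ℝ) ^ (-(∑ i, γ i * κ i))) ^ p *
          Real.exp (-(c * ((n : ℝ) * (2 : ℝ) ^ (-(∑ i, γ i * κ i))))) *
          (2 : ℝ) ^ (-(r * ∑ i ∈ A, (κ i : ℝ)) - r * ∑ i ∈ B, ((κ j : ℝ) + 1 - κ i))) else 0) ≤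
      ENNReal.ofReal (C * (Real.log n) ^ (((Finset.univ.erase j) \ A) \ B).card) := by
  have hm : 0 < m := j.pos
  have hmR : (0 : ℝ) < m := by exact_mod_cast hm
  obtain ⟨C1, δ, hC1, hδ, hb1⟩ := C2_bound1 c p hc hp
  set Γ : ℝ := γ j + ∑ i ∈ B, γ i with hΓdef
  have hΓ : 0 < Γ := by
    have := Finset.sum_nonneg (fun i (_ : i ∈ B) => (hγ i).le)
    have := hγ j
    linarith
  obtain ⟨C2, hC2, hb2⟩ := C2_two Γ (δ / 2) hΓ (by positivity)
  obtain ⟨C3, hC3, hb3⟩ := C2_geo r hr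
  have hlog : ∀ i, ∃ C : ℝ, 0 < C ∧ ∀ n : ℕ, 2 ≤ n →
      ∑' k : ℕ, ENNReal.ofReal ((2 : ℝ) ^ (-((δ / (2 * m)) * max 0 (γ i * k - Real.logb 2 n)))) ≤
        ENNReal.ofReal (C * Real.log n) := fun i => C2_log (γ i) (δ / (2 * m)) (hγ i) (by positivity)
  choose C4 hC4 hb4 using hlog
  set Z : Finset (Fin m) := ((Finset.univ.erase j) \ A) \ B with hZ
  have hmemZ : ∀ i, i ∈ Z ↔ i ≠ j ∧ i ∉ A ∧ i ∉ B := by
    intro i
    simp only [hZ, Finset.mem_sdiff, Finset.mem_erase, Finset.mem_univ, and_true, and_assoc]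
  set K : ℝ := ∏ i : {i : Fin m // i ≠ j}, (if (i : Fin m) ∈ A ∪ B then C3 else C4 i) with hK
  have hKpos : 0 < K := by
    apply Finset.prod_pos
    intro i _
    split_ifs
    · exact hC3
    · exact hC4 i
  refine ⟨C1 * (C2 * K), by positivity, fun n hn => ?_⟩
  set lam : ℝ := Real.logb 2 n with hlam
  have hn2 : (2 : ℝ) ≤ n := by exact_mod_cast hn
  have hnpos : (0 : ℝ) < n := by linarith
  have hnlam : (n : ℝ) = (2 : ℝ) ^ lam := by
    rw [hlam, Real.rpow_logb (by norm_num) (by norm_num) hnpos]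
  have hlogpos : 0 < Real.log n := Real.log_pos (by linarith)
  -- the functions
  let x : ({i : Fin m // i ≠ j} → ℕ) → ℝ := fun q =>
    lam - ∑ i : {i : Fin m // i ≠ j}, (if (i : Fin m) ∈ B then γ i * (1 - (q i : ℝ)) else γ i * q i)
  let g : Fin m → ℕ → ℝ := fun i k =>
    if i ∈ A ∪ B then (2 : ℝ) ^ (-(r * k)) else
      (2 : ℝ) ^ (-((δ / (2 * m)) * max 0 (γ i * k - lam)))
  have hg0 : ∀ i k, 0 ≤ g i k := by
    intro i k
    simp only [g]
    split_ifs <;> positivity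
  let G : ℕ × ({i : Fin m // i ≠ j} → ℕ) → ℝ≥0∞ := fun w =>
    ENNReal.ofReal ((2 : ℝ) ^ (-((δ / 2) * |x w.2 - Γ * w.1|))) *
      ∏ i : {i : Fin m // i ≠ j}, ENNReal.ofReal (g i (w.2 i))
  let Φ : (Fin m → ℕ) → ℕ × ({i : Fin m // i ≠ j} → ℕ) := fun κ =>
    (κ j, fun i => if (i : Fin m) ∈ B then κ j + 1 - κ i else κ i)
  let V : Set (Fin m → ℕ) := {κ | ∀ i, κ i ≤ κ j + 1}
  have hinj : Function.Injective (fun κ : V => Φ κ.1) := by
    rintro ⟨κ, hκ⟩ ⟨κ', hκ'⟩ h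
    simp only [Φ, Prod.mk.injEq] at h
    obtain ⟨h1, h2⟩ := h
    apply Subtype.ext
    funext i
    by_cases hij : i = j
    · rw [hij]; exact h1
    · have h3 := congrFun h2 ⟨i, hij⟩
      simp only at h3
      have h4 : κ i ≤ κ j + 1 := hκ i
      have h5 : κ' i ≤ κ' j + 1 := hκ' i
      have h6 : κ j = κ' j := h1
      change κ i = κ' i
      split_ifs at h3 <;> omega
  -- the main pointwise bound
  have hpt : ∀ κ : Fin m → ℕ, κ ∈ V →
      ENNReal.ofReal (((n : ℝ) * (2 : ℝ) ^ (-(∑ i, γ i * κ i))) ^ p *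
          Real.exp (-(c * ((n : ℝ) * (2 : ℝ) ^ (-(∑ i, γ i * κ i))))) *
          (2 : ℝ) ^ (-(r * ∑ i ∈ A, (κ i : ℝ)) - r * ∑ i ∈ B, ((κ j : ℝ) + 1 - κ i))) ≤
      ENNReal.ofReal C1 * G (Φ κ) := by
    intro κ hκ
    have hκ' : ∀ i, κ i ≤ κ j + 1 := hκ
    set S : ℝ := ∑ i, γ i * κ i with hS
    have hX : (n : ℝ) * (2 : ℝ) ^ (-S) = (2 : ℝ) ^ (lam - S) := by
      rw [hnlam, ← Real.rpow_add (by norm_num)]
      congr 1
    have hLx : lam - S = x (Φ κ).2 - Γ * (Φ κ).1 := by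
      have hsplit : S = γ j * κ j + ∑ i : {i : Fin m // i ≠ j}, γ i * κ i := by
        rw [hS, Fintype.sum_eq_add_sum_subtype_ne _ j]
      have hBsum : ∑ i : {i : Fin m // i ≠ j}, (if (i : Fin m) ∈ B then γ i else 0) = ∑ i ∈ B, γ i := by
        have h1 : ∑ i : Fin m, (if (i : Fin m) ∈ B then γ i else 0) = ∑ i ∈ B, γ i := by
          rw [Finset.sum_ite_mem, Finset.univ_inter]
        rw [← h1, Fintype.sum_eq_add_sum_subtype_ne _ j, if_neg hBj, zero_add]
      have hterm : ∑ i : {i : Fin m // i ≠ j}, γ i * κ i =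
          (∑ i ∈ B, γ i) * κ j + ∑ i : {i : Fin m // i ≠ j},
            (if (i : Fin m) ∈ B then γ i * (1 - (((Φ κ).2 i : ℕ) : ℝ)) else γ i * ((Φ κ).2 i : ℕ)) := by
        rw [← hBsum, Finset.sum_mul, ← Finset.sum_add_distrib]
        apply Finset.sum_congr rfl
        intro i _
        simp only [Φ]
        split_ifs with hi
        · rw [Nat.cast_sub (hκ' i)]
          push_cast
          ring
        · ring
      simp only [x]
      rw [hsplit, hterm, hΓdef]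
      simp only [Φ]
      ring
    have hm2 : ∑ i ∈ Z, max 0 (γ i * κ i - lam) ≤ m * |lam - S| := by
      calc ∑ i ∈ Z, max 0 (γ i * κ i - lam) ≤ ∑ i ∈ Z, |lam - S| := by
            apply Finset.sum_le_sum
            intro i _
            apply max_le (abs_nonneg _)
            have h1 : γ i * κ i ≤ S := by
              rw [hS]
              exact Finset.single_le_sum (f := fun i => γ i * (κ i : ℝ))
                (fun i _ => mul_nonneg (hγ i).le (Nat.cast_nonneg _)) (Finset.mem_univ i)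
            have h2 := neg_abs_le (lam - S)
            linarith
        _ = Z.card * |lam - S| := by rw [Finset.sum_const, nsmul_eq_mul]
        _ ≤ m * |lam - S| := by
          gcongr
          have := Finset.card_le_univ Z
          simpa using this
    have hprod : ∏ i : {i : Fin m // i ≠ j}, g i ((Φ κ).2 i) =
        (2 : ℝ) ^ (-((δ / (2 * m)) * ∑ i ∈ Z, max 0 (γ i * κ i - lam)) -
          r * ∑ i ∈ A, (κ i : ℝ) - r * ∑ i ∈ B, ((κ j : ℝ) + 1 - κ i)) := by
      let E : Fin m → ℝ := fun i =>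
        if i ∈ A then -(r * κ i) else if i ∈ B then -(r * ((κ j : ℝ) + 1 - κ i)) else
          if i ∈ Z then -((δ / (2 * m)) * max 0 (γ i * κ i - lam)) else 0
      have h1 : ∀ i : {i : Fin m // i ≠ j}, g i ((Φ κ).2 i) = (2 : ℝ) ^ (E i) := by
        intro i
        simp only [g, E, Φ]
        by_cases hA : (i : Fin m) ∈ A
        · have hB : (i : Fin m) ∉ B := fun h => (Finset.disjoint_left.mp hAB) hA h
          simp [hA, hB]
        · by_cases hB : (i : Fin m) ∈ B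
          · simp only [hA, hB, Finset.mem_union, or_true, if_true, if_false]
            rw [Nat.cast_sub (hκ' i)]
            push_cast
            rfl
          · have hZ' : (i : Fin m) ∈ Z := (hmemZ i).mpr ⟨i.2, hA, hB⟩
            simp [hA, hB, hZ']
      have h2 : E j = 0 := by
        have hjZ : j ∉ Z := fun h => ((hmemZ j).mp h).1 rfl
        simp only [E, hAj, hBj, hjZ, if_false]
      have h3 : ∑ i : {i : Fin m // i ≠ j}, E i = ∑ i, E i := by
        rw [Fintype.sum_eq_add_sum_subtype_ne E j, h2, zero_add]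
      rw [Finset.prod_congr rfl (fun i _ => h1 i), ← Real.rpow_sum_of_pos (by norm_num) ]
      rw [h3]
      congr 1
      have h4 : ∀ i, E i = (if i ∈ A then -(r * (κ i : ℝ)) else 0) +
          (if i ∈ B then -(r * ((κ j : ℝ) + 1 - κ i)) else 0) +
          (if i ∈ Z then -((δ / (2 * m)) * max 0 (γ i * κ i - lam)) else 0) := by
        intro i
        simp only [E]
        by_cases hA : i ∈ A
        · have hB : i ∉ B := fun h => (Finset.disjoint_left.mp hAB) hA h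
          have hZ' : i ∉ Z := fun h => ((hmemZ i).mp h).2.1 hA
          simp [hA, hB, hZ']
        · by_cases hB : i ∈ B
          · have hZ' : i ∉ Z := fun h => ((hmemZ i).mp h).2.2 hB
            simp [hA, hB, hZ']
          · simp [hA, hB]
      rw [Finset.sum_congr rfl (fun i _ => h4 i), Finset.sum_add_distrib, Finset.sum_add_distrib,
        Finset.sum_ite_mem, Finset.sum_ite_mem, Finset.sum_ite_mem, Finset.univ_inter, Finset.univ_inter,
        Finset.univ_inter, Finset.sum_neg_distrib, Finset.sum_neg_distrib, Finset.sum_neg_distrib,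
        ← Finset.mul_sum, ← Finset.mul_sum, ← Finset.mul_sum]
      ring
    simp only [G]
    rw [← ENNReal.ofReal_prod_of_nonneg (fun i _ => hg0 _ _), ← ENNReal.ofReal_mul (by positivity),
      ← ENNReal.ofReal_mul hC1.le]
    apply ENNReal.ofReal_le_ofReal
    rw [hprod, ← hLx, hX]
    have hb := hb1 (lam - S)
    have hsmall : (2 : ℝ) ^ (-(δ * |lam - S|)) ≤ (2 : ℝ) ^ (-((δ / 2) * |lam - S|)) *
        (2 : ℝ) ^ (-((δ / (2 * m)) * ∑ i ∈ Z, max 0 (γ i * κ i - lam))) := by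
      rw [← Real.rpow_add (by norm_num)]
      apply Real.rpow_le_rpow_of_exponent_le (by norm_num)
      have h1 := mul_le_mul_of_nonneg_left hm2 (a := δ / (2 * m)) (by positivity)
      have h2 : δ / (2 * m) * (m * |lam - S|) = (δ / 2) * |lam - S| := by
        field_simp
      rw [h2] at h1
      linarith
    calc ((2 : ℝ) ^ (lam - S)) ^ p * Real.exp (-(c * (2 : ℝ) ^ (lam - S))) *
          (2 : ℝ) ^ (-(r * ∑ i ∈ A, (κ i : ℝ)) - r * ∑ i ∈ B, ((κ j : ℝ) + 1 - κ i))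
        ≤ (C1 * ((2 : ℝ) ^ (-((δ / 2) * |lam - S|)) *
        (2 : ℝ) ^ (-((δ / (2 * m)) * ∑ i ∈ Z, max 0 (γ i * κ i - lam))))) *
          (2 : ℝ) ^ (-(r * ∑ i ∈ A, (κ i : ℝ)) - r * ∑ i ∈ B, ((κ j : ℝ) + 1 - κ i)) := by
          refine mul_le_mul_of_nonneg_right (hb.trans ?_) (by positivity)
          exact mul_le_mul_of_nonneg_left hsmall hC1.le
      _ = C1 * ((2 : ℝ) ^ (-((δ / 2) * |lam - S|)) * (2 : ℝ) ^ (-((δ / (2 * m)) * ∑ i ∈ Z, max 0 (γ i * κ i - lam)) -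
          r * ∑ i ∈ A, (κ i : ℝ) - r * ∑ i ∈ B, ((κ j : ℝ) + 1 - κ i))) := by
        rw [mul_assoc, mul_assoc, ← Real.rpow_add (by norm_num)]
        congr 3
        generalize (∑ i ∈ Z, max 0 (γ i * κ i - lam)) = u
        ring
  -- assemble
  have hgsum : ∀ i : {i : Fin m // i ≠ j}, ∑' k, ENNReal.ofReal (g i k) ≤
      ENNReal.ofReal ((if (i : Fin m) ∈ A ∪ B then C3 else C4 i) *
        (if (i : Fin m) ∈ A ∪ B then 1 else Real.log n)) := by
    intro i
    simp only [g]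
    split_ifs with hi
    · rw [mul_one]; exact hb3
    · exact hb4 i n hn
  have hlogprod : ∏ i : {i : Fin m // i ≠ j}, (if (i : Fin m) ∈ A ∪ B then (1 : ℝ) else Real.log n) =
      (Real.log n) ^ Z.card := by
    have h1 : ∏ i : {i : Fin m // i ≠ j}, (if (i : Fin m) ∈ A ∪ B then (1 : ℝ) else Real.log n) =
        ∏ i : Fin m, (if i ∈ Z then Real.log n else 1) := by
      have hjZ : j ∉ Z := fun h => ((hmemZ j).mp h).1 rfl
      rw [Fintype.prod_eq_mul_prod_subtype_ne _ j, if_neg hjZ, one_mul]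
      apply Finset.prod_congr rfl
      intro i _
      by_cases hi : (i : Fin m) ∈ A ∪ B
      · have : (i : Fin m) ∉ Z := by
          rw [hmemZ]
          rw [Finset.mem_union] at hi
          tauto
        rw [if_pos hi, if_neg this]
      · have : (i : Fin m) ∈ Z := by
          rw [hmemZ]
          rw [Finset.mem_union] at hi
          exact ⟨i.2, by tauto⟩
        rw [if_neg hi, if_pos this]
    rw [h1, Finset.prod_ite_mem, Finset.univ_inter, Finset.prod_const]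
  calc _ = ∑' κ : V, ENNReal.ofReal (((n : ℝ) * (2 : ℝ) ^ (-(∑ i, γ i * κ.1 i))) ^ p *
          Real.exp (-(c * ((n : ℝ) * (2 : ℝ) ^ (-(∑ i, γ i * κ.1 i))))) *
          (2 : ℝ) ^ (-(r * ∑ i ∈ A, (κ.1 i : ℝ)) - r * ∑ i ∈ B, ((κ.1 j : ℝ) + 1 - κ.1 i))) := by
        rw [tsum_subtype V (fun κ : Fin m → ℕ => ENNReal.ofReal (((n : ℝ) * (2 : ℝ) ^ (-(∑ i, γ i * κ i))) ^ p *
          Real.exp (-(c * ((n : ℝ) * (2 : ℝ) ^ (-(∑ i, γ i * κ i))))) *
          (2 : ℝ) ^ (-(r * ∑ i ∈ A, (κ i : ℝ)) - r * ∑ i ∈ B, ((κ j : ℝ) + 1 - κ i))))]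
        apply tsum_congr
        intro κ
        simp only [Set.indicator, V, Set.mem_ofPred_eq]
    _ ≤ ∑' κ : V, ENNReal.ofReal C1 * G (Φ κ.1) := ENNReal.tsum_le_tsum (fun κ => hpt κ.1 κ.2)
    _ = ENNReal.ofReal C1 * ∑' κ : V, G (Φ κ.1) := ENNReal.tsum_mul_left
    _ ≤ ENNReal.ofReal C1 * ∑' w, G w := by
      gcongr
      exact ENNReal.tsum_comp_le_tsum_of_injective hinj G
    _ ≤ ENNReal.ofReal C1 * (ENNReal.ofReal C2 * ∏ i : {i : Fin m // i ≠ j}, ∑' k, ENNReal.ofReal (g i k)) := by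
      gcongr
      rw [ENNReal.tsum_prod', ENNReal.tsum_comm]
      calc ∑' (q : {i : Fin m // i ≠ j} → ℕ) (k : ℕ), G (k, q)
          ≤ ∑' q : {i : Fin m // i ≠ j} → ℕ, ENNReal.ofReal C2 * ∏ i : {i : Fin m // i ≠ j}, ENNReal.ofReal (g i (q i)) := by
            apply ENNReal.tsum_le_tsum
            intro q
            simp only [G]
            rw [ENNReal.tsum_mul_right]
            gcongr
            exact hb2 (x q)
        _ = ENNReal.ofReal C2 * ∑' q : {i : Fin m // i ≠ j} → ℕ, ∏ i : {i : Fin m // i ≠ j}, ENNReal.ofReal (g i (q i)) :=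
            ENNReal.tsum_mul_left
        _ ≤ _ := by
            gcongr
            exact C2_prod (fun (i : {i : Fin m // i ≠ j}) k => ENNReal.ofReal (g i k))
    _ ≤ ENNReal.ofReal C1 * (ENNReal.ofReal C2 * ∏ i : {i : Fin m // i ≠ j},
        ENNReal.ofReal ((if (i : Fin m) ∈ A ∪ B then C3 else C4 i) *
        (if (i : Fin m) ∈ A ∪ B then 1 else Real.log n))) := by
      gcongr with i
      exact hgsum i
    _ = ENNReal.ofReal (C1 * (C2 * K) * (Real.log n) ^ Z.card) := by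
      rw [← ENNReal.ofReal_prod_of_nonneg, ← ENNReal.ofReal_mul hC2.le, ← ENNReal.ofReal_mul hC1.le,
        Finset.prod_mul_distrib, hlogprod, ← hK]
      · congr 1
        ring
      · intro i _
        split_ifs
        · positivity
        · exact mul_nonneg (hC4 i).le hlogpos.le

end RP
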