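import Pool.Agent.H6.RP.Core

/-! C3: the exponents.

Facts.  `rho i = (d_i - 1)/(d_i + 1 + 2β_i)`; `γ_i = ga i = (d_i+1)/2 + β_i > 0`; `α_i = al i`;
`(b + α_i)/γ_i = (1 - b) rho i`  (*).  Finite `iSup`s are maxima.
Case `b > 0` (also used for `b = 0`): `e = max_i (1-b) rho_i`.
 low: `j` a maximiser, `b > 0`: `A` = all others, `B = ∅`: `b κ_j + α_j κ_j = e γ_j κ_j` by (*); cardinality `0`.
 up (`b > 0`): for every `j`: `A = univ.erase j`, `B = ∅`, `r = b`: `b κ_j + ∑ α_i κ_i - e ∑ γ_i κ_i = (b + α_j - e γ_j) κ_j + ∑_{i≠j} (α_i - eγ_i) κ_i`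
   with `b + α_i - e γ_i ≤ 0` for all `i`, so `≤ - b ∑_{i≠j} κ_i`.
Case `b = 0`: `e = max rho`, `α_i = rho i γ_i`.
 low: `j` a maximiser, `A` = the non-maximisers, `B = ∅`; the remaining set = the other maximisers.
 up: `j` a maximiser: `A` = non-maximisers, `r = min_{A} γ_i (e - rho i)` (or `1` if `A = ∅`).  `j` not a maximiser: `A = univ.erase j`; the expression is `≤ - w κ_j`,
   `w = γ_j (e - rho j) > 0`, and `κ_j ≥ κ_i - 1` gives `- w κ_j ≤ - (w/m) ∑_{i≠j} (κ_i - 1)`.
Case `b < 0`: `w_i = α_i - e γ_i`.  By definition of `e` as a maximum: `∑_{i∈J} w_i ≤ -b` for all nonempty `J`, with equality for some; hence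
`∑_i max(w_i,0) = -b > 0`.
 low: `j` with `w_j > 0`; `A = {w < 0}`, `B = {w > 0} \ {j}`: for such `κ`:
   `b κ_j + ∑ α_i κ_i = e ∑ γ_i κ_i + κ_j (b + ∑_{w_i>0} w_i) = e ∑ γ_i κ_i`; remaining set `{w = 0}`, cardinality `lexp`.
 up: for every `j`: `A = {w < 0} \ {j}`, `B = {w > 0} \ {j}`, `r = min |w_i|` over `w_i ≠ 0`: `b κ_j + ∑ w_i κ_i = ∑_{w_i>0} w_i (κ_i - κ_j) + ∑_{w_i<0} w_i κ_i`
   and `w_i (κ_i - κ_j) = - w_i (κ_j + 1 - κ_i) + w_i`.  Remaining set `{w = 0} \ {j}`.
`expo < D`: `b ≥ 0`: `0 ≤ rho < 1`, so `e ≤ 0` or `e < 1`.  `b < 0`, `D = 1`: `m = 1`, `d_0 = 1`, `e = 0`.  `-2 < b < 0`, `D ≥ 2`: for nonempty `J` with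
`d_J = ∑_J d_i`, `k = |J| ≤ d_J ≤ D`: `2(∑_J α_i + b) = |b| (d_J + k - 2) + d_J - k ≤ 3 d_J + k - 4` if `d_J + k > 2` (strictly less) and `= 0` otherwise, and
`2 D ∑_J γ_i ≥ D (d_J + k)`. -/

namespace RP

variable {m : ℕ} {d : Fin m → ℕ} {β : Fin m → ℝ}

theorem c3_ga_pos (hβ : ∀ i, 0 ≤ β i) (i : Fin m) : 0 < ga d β i := by
  unfold ga
  have := hβ i
  positivity

theorem c3_rho (hβ : ∀ i, 0 ≤ β i) (i : Fin m) :
    rho d β i * ga d β i = ((d i : ℝ) - 1) / 2 := by
  unfold rho kk ga
  have h1 := hβ i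
  have h2 : (1 + β i) ≠ 0 := by positivity
  have h3 : ((d i : ℝ) + β i) / (1 + β i) + 1 ≠ 0 := by positivity
  have h4 : ((d i : ℝ) + β i + (1 + β i)) ≠ 0 := by positivity
  field_simp
  ring

theorem c3_star (hβ : ∀ i, 0 ≤ β i) (b : ℝ) (i : Fin m) :
    b + al d b i = (1 - b) * rho d β i * ga d β i := by
  rw [mul_assoc, c3_rho hβ]
  unfold al
  ring

theorem c3_max (hm : 0 < m) (b : ℝ) (hb : 0 ≤ b) :
    (∃ j, (1 - b) * rho d β j = expo d β b) ∧ ∀ i, (1 - b) * rho d β i ≤ expo d β b := by
  have : Nonempty (Fin m) := ⟨⟨0, hm⟩⟩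
  unfold expo
  rw [if_pos hb]
  exact ⟨exists_eq_ciSup_of_finite, fun i => le_ciSup (f := fun i => (1 - b) * rho d β i)
    (Set.finite_range _).bddAbove i⟩

theorem c3_maxneg (hm : 0 < m) (hβ : ∀ i, 0 ≤ β i) (b : ℝ) (hb : b < 0) :
    (∀ J : Finset (Fin m), J.Nonempty → ∑ i ∈ J, (al d b i - expo d β b * ga d β i) ≤ -b) ∧
    ∃ J : Finset (Fin m), J.Nonempty ∧ ∑ i ∈ J, (al d b i - expo d β b * ga d β i) = -b := by
  classical
  have : Nonempty {J : Finset (Fin m) // J.Nonempty} :=
    ⟨⟨{⟨0, hm⟩}, Finset.singleton_nonempty _⟩⟩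
  have hpos : ∀ J : Finset (Fin m), J.Nonempty → 0 < ∑ i ∈ J, ga d β i := fun J hJ =>
    Finset.sum_pos (fun i _ => c3_ga_pos hβ i) hJ
  have he : expo d β b = ⨆ J : {J : Finset (Fin m) // J.Nonempty},
      ((∑ i ∈ J.1, al d b i) + b) / ∑ i ∈ J.1, ga d β i := by
    unfold expo
    rw [if_neg (not_le.2 hb)]
  constructor
  · intro J hJ
    have h1 : ((∑ i ∈ J, al d b i) + b) / ∑ i ∈ J, ga d β i ≤ expo d β b := by
      rw [he]
      exact le_ciSup (f := fun J : {J : Finset (Fin m) // J.Nonempty} =>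
        ((∑ i ∈ J.1, al d b i) + b) / ∑ i ∈ J.1, ga d β i) (Set.finite_range _).bddAbove ⟨J, hJ⟩
    rw [div_le_iff₀ (hpos J hJ)] at h1
    rw [Finset.sum_sub_distrib, ← Finset.mul_sum]
    linarith
  · obtain ⟨⟨J, hJ⟩, hJe⟩ := exists_eq_ciSup_of_finite
      (f := fun J : {J : Finset (Fin m) // J.Nonempty} =>
        ((∑ i ∈ J.1, al d b i) + b) / ∑ i ∈ J.1, ga d β i)
    rw [← he] at hJe
    refine ⟨J, hJ, ?_⟩
    rw [div_eq_iff (hpos J hJ).ne'] at hJe
    rw [Finset.sum_sub_distrib, ← Finset.mul_sum]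
    linarith

open Classical in
theorem c3_pos (hm : 0 < m) (hβ : ∀ i, 0 ≤ β i) (b : ℝ) (hb : b < 0) :
    ∑ i ∈ Finset.univ.filter (fun i => 0 < al d b i - expo d β b * ga d β i),
      (al d b i - expo d β b * ga d β i) = -b := by
  obtain ⟨h1, J, hJ, hJe⟩ := c3_maxneg (d := d) hm hβ b hb
  set w : Fin m → ℝ := fun i => al d b i - expo d β b * ga d β i with hw
  set P := Finset.univ.filter (fun i => 0 < w i) with hP
  have h2 : ∑ i ∈ J, w i ≤ ∑ i ∈ P, w i := by
    calc ∑ i ∈ J, w i ≤ ∑ i ∈ J, max (w i) 0 := Finset.sum_le_sum fun i _ => le_max_left _ _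
      _ ≤ ∑ i, max (w i) 0 := Finset.sum_le_univ_sum_of_nonneg fun i => le_max_right _ _
      _ = ∑ i ∈ P, w i := by
        rw [hP, Finset.sum_filter]
        refine Finset.sum_congr rfl fun i _ => ?_
        split_ifs with h
        · exact max_eq_left h.le
        · exact max_eq_right (not_lt.1 h)
  refine le_antisymm ?_ (hJe ▸ h2)
  have hPne : P.Nonempty := by
    rw [Finset.nonempty_iff_ne_empty]
    intro h
    rw [h, Finset.sum_empty, hJe] at h2
    linarith
  exact h1 P hPne

/-- A positive lower bound of the nonzero absolute values. -/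
theorem c3_min (w : Fin m → ℝ) : ∃ r : ℝ, 0 < r ∧ ∀ i, w i ≠ 0 → r ≤ |w i| := by
  classical
  by_cases h : (Finset.univ.filter (fun i => w i ≠ 0)).Nonempty
  · obtain ⟨i0, hi0, hmin⟩ := Finset.exists_min_image _ (fun i => |w i|) h
    exact ⟨|w i0|, abs_pos.2 (Finset.mem_filter.1 hi0).2, fun i hi =>
      hmin i (Finset.mem_filter.2 ⟨Finset.mem_univ _, hi⟩)⟩
  · refine ⟨1, one_pos, fun i hi => ?_⟩
    exact absurd ⟨i, Finset.mem_filter.2 ⟨Finset.mem_univ _, hi⟩⟩ h

theorem c3_rewrite (b e : ℝ) (j : Fin m) (κ : Fin m → ℕ) :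
    b * κ j + ∑ i, al d b i * κ i - e * ∑ i, ga d β i * κ i =
      b * κ j + ∑ i, (al d b i - e * ga d β i) * κ i := by
  rw [Finset.mul_sum, add_sub_assoc, ← Finset.sum_sub_distrib]
  congr 1
  exact Finset.sum_congr rfl fun i _ => by ring

open Classical in
theorem exp_low (hm : 0 < m) (hd : ∀ i, 1 ≤ d i) (hβ : ∀ i, 0 ≤ β i) (b : ℝ) :
    ∃ (j : Fin m) (A B : Finset (Fin m)), j ∉ A ∧ j ∉ B ∧ Disjoint A B ∧
      (((Finset.univ.erase j) \ A) \ B).card = lexp d β b ∧
      ∀ κ : Fin m → ℕ, (∀ i ∈ A, κ i = 0) → (∀ i ∈ B, κ i = κ j) →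
        b * κ j + ∑ i, al d b i * κ i = expo d β b * ∑ i, ga d β i * κ i := by
  rcases lt_trichotomy b 0 with hb | hb | hb
  · -- b < 0
    have hsum := c3_pos (d := d) hm hβ b hb
    set w : Fin m → ℝ := fun i => al d b i - expo d β b * ga d β i with hw
    set P := Finset.univ.filter (fun i => 0 < w i) with hP
    have hPne : P.Nonempty := by
      rw [Finset.nonempty_iff_ne_empty]
      intro h
      change ∑ i ∈ P, w i = -b at hsum
      rw [h, Finset.sum_empty] at hsum
      linarith
    obtain ⟨j, hj⟩ := hPne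
    have hjw : 0 < w j := (Finset.mem_filter.1 hj).2
    refine ⟨j, Finset.univ.filter (fun i => w i < 0), P.erase j, ?_, ?_, ?_, ?_, ?_⟩
    · simp only [Finset.mem_filter, Finset.mem_univ, true_and, not_lt]; exact hjw.le
    · simp
    · rw [Finset.disjoint_left]
      intro i hi hi'
      have h1 := (Finset.mem_filter.1 hi).2
      have h2 := (Finset.mem_filter.1 (Finset.mem_of_mem_erase hi')).2
      linarith
    · unfold lexp
      rw [if_neg (by linarith), if_neg (by linarith)]
      congr 1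
      ext i
      simp only [Finset.mem_sdiff, Finset.mem_erase, Finset.mem_univ, and_true, Finset.mem_filter,
        true_and, hP, not_lt, not_and]
      constructor
      · rintro ⟨⟨h1, h2⟩, h3⟩
        have h4 : w i ≤ 0 := h3 h1
        have h5 : w i = 0 := le_antisymm h4 h2
        simp only [hw] at h5
        linarith
      · intro h1
        have h2 : w i = 0 := by simp only [hw]; linarith
        refine ⟨⟨fun h => ?_, h2.ge⟩, fun _ => h2.le⟩
        rw [h] at h2
        linarith
    · intro κ hA hB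
      have h1 := c3_rewrite (d := d) (β := β) b (expo d β b) j κ
      have h2 : ∑ i, w i * κ i = ∑ i ∈ P, w i * κ j := by
        rw [hP, Finset.sum_filter]
        refine Finset.sum_congr rfl fun i _ => ?_
        split_ifs with h
        · by_cases hij : i = j
          · rw [hij]
          · rw [hB i (Finset.mem_erase.2 ⟨hij, Finset.mem_filter.2 ⟨Finset.mem_univ _, h⟩⟩)]
        · rcases lt_or_eq_of_le (not_lt.1 h) with h' | h'
          · rw [hA i (Finset.mem_filter.2 ⟨Finset.mem_univ _, h'⟩)]; simp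
          · rw [h']; simp
      rw [← Finset.sum_mul] at h2
      have h3 : ∑ i, (al d b i - expo d β b * ga d β i) * κ i = -b * κ j := by
        rw [← hsum]; exact h2
      rw [h3] at h1
      linarith
  · -- b = 0
    subst hb
    obtain ⟨⟨j, hj⟩, hmax⟩ := c3_max (d := d) (β := β) hm 0 le_rfl
    simp only [sub_zero, one_mul] at hj hmax
    refine ⟨j, Finset.univ.filter (fun i => rho d β i ≠ expo d β 0), ∅, ?_, by simp, by simp,
      ?_, ?_⟩
    · simp [hj]
    · unfold lexp
      rw [if_neg (lt_irrefl _), if_pos rfl, Finset.sdiff_empty]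
      have : (Finset.univ.erase j) \ Finset.univ.filter (fun i => rho d β i ≠ expo d β 0) =
          (Finset.univ.filter (fun i => rho d β i = expo d β 0)).erase j := by
        ext i
        simp only [Finset.mem_sdiff, Finset.mem_erase, Finset.mem_univ, and_true,
          Finset.mem_filter, true_and, not_not]
      have hmem : j ∈ Finset.univ.filter (fun i => rho d β i = expo d β 0) :=
        Finset.mem_filter.2 ⟨Finset.mem_univ _, hj⟩
      rw [this, Finset.card_erase_of_mem hmem]
    · intro κ hA _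
      have h1 := c3_rewrite (d := d) (β := β) 0 (expo d β 0) j κ
      have h3 : ∑ i, (al d 0 i - expo d β 0 * ga d β i) * κ i = 0 := by
        refine Finset.sum_eq_zero fun i _ => ?_
        by_cases h : rho d β i = expo d β 0
        · have h4 := c3_star (d := d) hβ 0 i
          rw [h] at h4
          have h5 : al d 0 i - expo d β 0 * ga d β i = 0 := by linarith
          rw [h5, zero_mul]
        · rw [hA i (Finset.mem_filter.2 ⟨Finset.mem_univ _, h⟩)]; simp
      rw [h3] at h1
      linarith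
  · -- b > 0
    obtain ⟨⟨j, hj⟩, hmax⟩ := c3_max (d := d) (β := β) hm b hb.le
    refine ⟨j, Finset.univ.erase j, ∅, by simp, by simp, by simp, ?_, ?_⟩
    · unfold lexp
      rw [if_pos hb]; simp
    · intro κ hA _
      have h1 := c3_rewrite (d := d) (β := β) b (expo d β b) j κ
      have h3 : ∑ i, (al d b i - expo d β b * ga d β i) * κ i =
          (al d b j - expo d β b * ga d β j) * κ j := by
        refine Finset.sum_eq_single j (fun i _ hi => ?_) (by simp)
        rw [hA i (Finset.mem_erase.2 ⟨hi, Finset.mem_univ _⟩)]; simp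
      have h4 := c3_star (d := d) hβ b j
      rw [hj] at h4
      rw [h3] at h1
      have h5 : (b + al d b j - expo d β b * ga d β j) * κ j = 0 := by rw [h4]; ring
      linarith

open Classical in
theorem exp_up (hm : 0 < m) (hd : ∀ i, 1 ≤ d i) (hβ : ∀ i, 0 ≤ β i) (b : ℝ) (j : Fin m) :
    ∃ (A B : Finset (Fin m)) (r C : ℝ), j ∉ A ∧ j ∉ B ∧ Disjoint A B ∧ 0 < r ∧
      (((Finset.univ.erase j) \ A) \ B).card ≤ lexp d β b ∧
      ∀ κ : Fin m → ℕ, (∀ i, κ i ≤ κ j + 1) →
        b * κ j + ∑ i, al d b i * κ i ≤ expo d β b * (∑ i, ga d β i * κ i) + C - r * ∑ i ∈ A, (κ i : ℝ) -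
          r * ∑ i ∈ B, ((κ j : ℝ) + 1 - κ i) := by
  rcases lt_trichotomy b 0 with hb | hb | hb
  · -- b < 0
    have hsum := c3_pos (d := d) hm hβ b hb
    set w : Fin m → ℝ := fun i => al d b i - expo d β b * ga d β i with hw
    set P := Finset.univ.filter (fun i => 0 < w i) with hP
    obtain ⟨r, hr, hrw⟩ := c3_min w
    refine ⟨(Finset.univ.filter (fun i => w i < 0)).erase j, P.erase j, r, -b, by simp, by simp,
      ?_, hr, ?_, ?_⟩
    · rw [Finset.disjoint_left]
      intro i hi hi'
      have h1 := (Finset.mem_filter.1 (Finset.mem_of_mem_erase hi)).2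
      have h2 := (Finset.mem_filter.1 (Finset.mem_of_mem_erase hi')).2
      linarith
    · unfold lexp
      rw [if_neg (by linarith), if_neg (by linarith)]
      refine Finset.card_le_card fun i => ?_
      simp only [Finset.mem_sdiff, Finset.mem_erase, Finset.mem_univ, and_true, Finset.mem_filter,
        true_and, hP, not_lt, not_and]
      rintro ⟨⟨h1, h2⟩, h3⟩
      have h5 : w i = 0 := le_antisymm (h3 h1) (h2 h1)
      simp only [hw] at h5
      linarith
    · intro κ hκ
      have h1 := c3_rewrite (d := d) (β := β) b (expo d β b) j κ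
      have hkey : ∀ i, w i * κ i ≤
          (if 0 < w i then w i * κ j else 0) + (if 0 < w i then w i else 0)
            - (if i ∈ (Finset.univ.filter (fun i => w i < 0)).erase j then r * (κ i : ℝ) else 0)
            - (if i ∈ P.erase j then r * ((κ j : ℝ) + 1 - κ i) else 0) := by
        intro i
        have hκi : (κ i : ℝ) ≤ κ j + 1 := by exact_mod_cast hκ i
        have hκ0 : (0 : ℝ) ≤ κ i := Nat.cast_nonneg _
        rcases lt_trichotomy (w i) 0 with h | h | h
        · have e1 : ¬ 0 < w i := by linarith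
          have e2 : i ∉ P.erase j := fun h' =>
            e1 (Finset.mem_filter.1 (Finset.mem_of_mem_erase h')).2
          rw [if_neg e1, if_neg e1, if_neg e2]
          have e3 := hrw i h.ne
          rw [abs_of_neg h] at e3
          have e4 : r * (κ i : ℝ) ≤ -w i * κ i := mul_le_mul_of_nonneg_right e3 hκ0
          split_ifs
          · linarith
          · have : 0 ≤ r * (κ i : ℝ) := by positivity
            linarith
        · have e1 : ¬ 0 < w i := by rw [h]; exact lt_irrefl _
          have e2 : i ∉ P.erase j := fun h' =>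
            e1 (Finset.mem_filter.1 (Finset.mem_of_mem_erase h')).2
          have e3 : i ∉ (Finset.univ.filter (fun i => w i < 0)).erase j := fun h' => by
            have := (Finset.mem_filter.1 (Finset.mem_of_mem_erase h')).2
            rw [h] at this
            exact lt_irrefl _ this
          rw [if_neg e1, if_neg e1, if_neg e2, if_neg e3, h]
          simp
        · have e3 : i ∉ (Finset.univ.filter (fun i => w i < 0)).erase j := fun h' => by
            have := (Finset.mem_filter.1 (Finset.mem_of_mem_erase h')).2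
            linarith
          rw [if_pos h, if_pos h, if_neg e3]
          by_cases hij : i = j
          · subst hij
            rw [if_neg (by simp)]
            linarith
          · rw [if_pos (Finset.mem_erase.2 ⟨hij, Finset.mem_filter.2 ⟨Finset.mem_univ _, h⟩⟩)]
            have e4 := hrw i h.ne'
            rw [abs_of_pos h] at e4
            have e5 : r * ((κ j : ℝ) + 1 - κ i) ≤ w i * ((κ j : ℝ) + 1 - κ i) :=
              mul_le_mul_of_nonneg_right e4 (by linarith)
            linarith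
      have h2 := Finset.sum_le_sum (fun i (_ : i ∈ Finset.univ) => hkey i)
      rw [Finset.sum_sub_distrib, Finset.sum_sub_distrib, Finset.sum_add_distrib,
        ← Finset.sum_filter, ← Finset.sum_filter, ← Finset.sum_mul, Finset.sum_ite_mem,
        Finset.sum_ite_mem, Finset.univ_inter, Finset.univ_inter, ← Finset.mul_sum,
        ← Finset.mul_sum] at h2
      change ∑ i ∈ P, w i = -b at hsum
      change _ ≤ (∑ i ∈ P, w i) * _ + ∑ i ∈ P, w i - _ - _ at h2
      rw [hsum] at h2
      have h3 : ∑ i, w i * κ i = ∑ i, (al d b i - expo d β b * ga d β i) * κ i := rfl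
      rw [h3] at h2
      linarith
  · -- b = 0
    subst hb
    obtain ⟨-, hmax⟩ := c3_max (d := d) (β := β) hm 0 le_rfl
    simp only [sub_zero, one_mul] at hmax
    set w : Fin m → ℝ := fun i => al d 0 i - expo d β 0 * ga d β i with hw
    have hwe : ∀ i, w i = (rho d β i - expo d β 0) * ga d β i := by
      intro i
      have h4 := c3_star (d := d) hβ 0 i
      simp only [hw]
      linarith
    have hw0 : ∀ i, w i ≤ 0 := fun i => by
      rw [hwe]
      exact mul_nonpos_of_nonpos_of_nonneg (by linarith [hmax i]) (c3_ga_pos hβ i).le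
    by_cases hj : rho d β j = expo d β 0
    · obtain ⟨r, hr, hrw⟩ := c3_min w
      refine ⟨Finset.univ.filter (fun i => rho d β i ≠ expo d β 0), ∅, r, 0, by simp [hj],
        by simp, by simp, hr, ?_, ?_⟩
      · unfold lexp
        rw [if_neg (lt_irrefl _), if_pos rfl, Finset.sdiff_empty]
        have : (Finset.univ.erase j) \ Finset.univ.filter (fun i => rho d β i ≠ expo d β 0) =
            (Finset.univ.filter (fun i => rho d β i = expo d β 0)).erase j := by
          ext i
          simp only [Finset.mem_sdiff, Finset.mem_erase, Finset.mem_univ, and_true,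
            Finset.mem_filter, true_and, not_not]
        have hmem : j ∈ Finset.univ.filter (fun i => rho d β i = expo d β 0) :=
          Finset.mem_filter.2 ⟨Finset.mem_univ _, hj⟩
        rw [this, Finset.card_erase_of_mem hmem]
      · intro κ _
        have h1 := c3_rewrite (d := d) (β := β) 0 (expo d β 0) j κ
        have h2 : ∑ i, w i * κ i ≤
            ∑ i, (if rho d β i ≠ expo d β 0 then -(r * (κ i : ℝ)) else 0) := by
          refine Finset.sum_le_sum fun i _ => ?_
          have hκ0 : (0 : ℝ) ≤ κ i := Nat.cast_nonneg _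
          split_ifs with h
          · have e1 : w i ≠ 0 := by
              rw [hwe]
              exact mul_ne_zero (sub_ne_zero.2 h) (c3_ga_pos hβ i).ne'
            have e2 := hrw i e1
            rw [abs_of_nonpos (hw0 i)] at e2
            have e3 : r * (κ i : ℝ) ≤ -w i * κ i := mul_le_mul_of_nonneg_right e2 hκ0
            linarith
          · exact mul_nonpos_of_nonpos_of_nonneg (hw0 i) hκ0
        rw [← Finset.sum_filter, Finset.sum_neg_distrib, ← Finset.mul_sum] at h2
        have h3 : ∑ i, w i * κ i = ∑ i, (al d 0 i - expo d β 0 * ga d β i) * κ i := rfl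
        rw [h3] at h2
        rw [Finset.sum_empty, mul_zero]
        linarith
    · have hwj : w j < 0 := by
        rw [hwe]
        exact mul_neg_of_neg_of_pos (by
          have := hmax j
          have := lt_of_le_of_ne this hj
          linarith) (c3_ga_pos hβ j)
      have hm' : (0 : ℝ) < m := by exact_mod_cast hm
      refine ⟨Finset.univ.erase j, ∅, -w j / m, -w j, by simp, by simp, by simp,
        div_pos (by linarith) hm', by simp, ?_⟩
      intro κ hκ
      have h1 := c3_rewrite (d := d) (β := β) 0 (expo d β 0) j κ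
      have h2 : ∑ i, w i * κ i ≤ w j * κ j := by
        rw [← Finset.add_sum_erase _ _ (Finset.mem_univ j)]
        have : ∑ i ∈ Finset.univ.erase j, w i * (κ i : ℝ) ≤ 0 :=
          Finset.sum_nonpos fun i _ =>
            mul_nonpos_of_nonpos_of_nonneg (hw0 i) (Nat.cast_nonneg _)
        linarith
      have h3 : ∑ i, w i * κ i = ∑ i, (al d 0 i - expo d β 0 * ga d β i) * κ i := rfl
      rw [h3] at h2
      have h4 : ∑ i ∈ Finset.univ.erase j, (κ i : ℝ) ≤ m * (κ j + 1) := by
        calc ∑ i ∈ Finset.univ.erase j, (κ i : ℝ) ≤ ∑ i ∈ Finset.univ.erase j, ((κ j : ℝ) + 1) :=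
              Finset.sum_le_sum fun i _ => by exact_mod_cast hκ i
          _ ≤ ∑ _i : Fin m, ((κ j : ℝ) + 1) :=
              Finset.sum_le_univ_sum_of_nonneg fun _ => by positivity
          _ = m * (κ j + 1) := by simp; ring
      have h5 : -w j / m * ∑ i ∈ Finset.univ.erase j, (κ i : ℝ) ≤ -w j * (κ j + 1) := by
        calc -w j / m * ∑ i ∈ Finset.univ.erase j, (κ i : ℝ)
            ≤ -w j / m * (m * (κ j + 1)) :=
              mul_le_mul_of_nonneg_left h4 (div_nonneg (by linarith) hm'.le)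
          _ = -w j * (κ j + 1) := by field_simp
      rw [Finset.sum_empty, mul_zero]
      linarith
  · -- b > 0
    obtain ⟨-, hmax⟩ := c3_max (d := d) (β := β) hm b hb.le
    refine ⟨Finset.univ.erase j, ∅, b, 0, by simp, by simp, by simp, hb, by simp, ?_⟩
    intro κ _
    have h1 := c3_rewrite (d := d) (β := β) b (expo d β b) j κ
    have hw : ∀ i, b + (al d b i - expo d β b * ga d β i) ≤ 0 := by
      intro i
      have h4 := c3_star (d := d) hβ b i
      have h5 := mul_le_mul_of_nonneg_right (hmax i) (c3_ga_pos (d := d) hβ i).le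
      linarith
    have h2 : b * κ j + ∑ i, (al d b i - expo d β b * ga d β i) * κ i ≤
        -(b * ∑ i ∈ Finset.univ.erase j, (κ i : ℝ)) := by
      rw [← Finset.add_sum_erase _ _ (Finset.mem_univ j)]
      have e1 : b * (κ j : ℝ) + (al d b j - expo d β b * ga d β j) * κ j ≤ 0 := by
        rw [← add_mul]
        exact mul_nonpos_of_nonpos_of_nonneg (hw j) (Nat.cast_nonneg _)
      have e2 : ∑ i ∈ Finset.univ.erase j, (al d b i - expo d β b * ga d β i) * (κ i : ℝ) ≤
          ∑ i ∈ Finset.univ.erase j, -(b * (κ i : ℝ)) := by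
        refine Finset.sum_le_sum fun i _ => ?_
        have e3 := mul_nonpos_of_nonpos_of_nonneg (hw i) (Nat.cast_nonneg (α := ℝ) (κ i))
        linarith
      rw [Finset.sum_neg_distrib, ← Finset.mul_sum] at e2
      linarith
    rw [Finset.sum_empty, mul_zero]
    linarith

theorem exp_lt (hm : 0 < m) (hd : ∀ i, 1 ≤ d i) (hβ : ∀ i, 0 ≤ β i) (b : ℝ) (hb : (∑ i, d i) = 1 ∨ -2 < b) :
    expo d β b < ((∑ i, d i : ℕ) : ℝ) := by
  classical
  have hD1 : 1 ≤ ∑ i, d i :=
    (hd ⟨0, hm⟩).trans (Finset.single_le_sum (f := d) (fun i _ => Nat.zero_le _)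
      (Finset.mem_univ _))
  have hD1' : (1 : ℝ) ≤ ((∑ i, d i : ℕ) : ℝ) := by exact_mod_cast hD1
  rcases le_or_gt 0 b with hb0 | hb0
  · obtain ⟨⟨j, hj⟩, -⟩ := c3_max (d := d) (β := β) hm b hb0
    rw [← hj]
    have h1 := c3_rho (d := d) hβ j
    have hg := c3_ga_pos (d := d) hβ j
    have hdj : (1 : ℝ) ≤ d j := by exact_mod_cast hd j
    have h2 : 0 ≤ rho d β j := by
      by_contra h
      have := mul_neg_of_neg_of_pos (not_le.1 h) hg
      linarith
    have h3 : rho d β j < 1 := by
      by_contra h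
      have h4 := mul_le_mul_of_nonneg_right (not_lt.1 h) hg.le
      have h5 := hβ j
      unfold ga at h4 h1
      linarith
    have h4 : (1 - b) * rho d β j ≤ rho d β j := by nlinarith
    linarith
  · obtain ⟨-, J, hJ, hJe⟩ := c3_maxneg (d := d) hm hβ b hb0
    rw [Finset.sum_sub_distrib, ← Finset.mul_sum] at hJe
    have hgpos : 0 < ∑ i ∈ J, ga d β i := Finset.sum_pos (fun i _ => c3_ga_pos hβ i) hJ
    set dJ : ℕ := ∑ i ∈ J, d i with hdJ
    set k : ℕ := J.card with hk
    have hk1 : 1 ≤ k := Finset.card_pos.2 hJ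
    have hkd : k ≤ dJ := by
      rw [hk, hdJ, Finset.card_eq_sum_ones]
      exact Finset.sum_le_sum fun i _ => hd i
    have hdD : dJ ≤ ∑ i, d i := Finset.sum_le_univ_sum_of_nonneg fun i => Nat.zero_le _
    have hal : ∑ i ∈ J, al d b i = (((dJ : ℝ) - k) - b * ((dJ : ℝ) + k)) / 2 := by
      unfold al
      rw [← Finset.sum_div, Finset.sum_sub_distrib, Finset.sum_sub_distrib, ← Finset.mul_sum,
        Finset.sum_add_distrib, hdJ, hk]
      push_cast
      simp
    have hga : ((dJ : ℝ) + k) / 2 ≤ ∑ i ∈ J, ga d β i := by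
      unfold ga
      rw [Finset.sum_add_distrib, ← Finset.sum_div, Finset.sum_add_distrib, hdJ, hk]
      push_cast
      simp only [Finset.sum_const, nsmul_eq_mul, mul_one]
      have : 0 ≤ ∑ i ∈ J, β i := Finset.sum_nonneg fun i _ => hβ i
      linarith
    by_contra hcon
    have hcon' : ((∑ i, d i : ℕ) : ℝ) ≤ expo d β b := not_lt.1 hcon
    have h1 : ((∑ i, d i : ℕ) : ℝ) * ∑ i ∈ J, ga d β i ≤ ∑ i ∈ J, al d b i + b := by
      have := mul_le_mul_of_nonneg_right hcon' hgpos.le
      linarith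
    have h2 : ((∑ i, d i : ℕ) : ℝ) * (((dJ : ℝ) + k) / 2) ≤ ∑ i ∈ J, al d b i + b :=
      (mul_le_mul_of_nonneg_left hga (by linarith)).trans h1
    rw [hal] at h2
    have r1 : (1 : ℝ) ≤ k := by exact_mod_cast hk1
    have r2 : (k : ℝ) ≤ dJ := by exact_mod_cast hkd
    have r3 : (dJ : ℝ) ≤ ((∑ i, d i : ℕ) : ℝ) := by exact_mod_cast hdD
    rcases hb with hD | hb2
    · have r4 : ((∑ i, d i : ℕ) : ℝ) = 1 := by exact_mod_cast hD
      rw [r4] at h2 r3
      have r5 : (dJ : ℝ) = 1 := by linarith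
      have r6 : (k : ℝ) = 1 := by linarith
      rw [r5, r6] at h2
      linarith
    · -- `dJ (dJ + k) ≤ (dJ - k) - b (dJ + k - 2)`
      have h3 : (dJ : ℝ) * ((dJ : ℝ) + k) ≤ ((dJ : ℝ) - k) - b * ((dJ : ℝ) + k - 2) := by
        have : (dJ : ℝ) * (((dJ : ℝ) + k) / 2) ≤
            ((∑ i, d i : ℕ) : ℝ) * (((dJ : ℝ) + k) / 2) :=
          mul_le_mul_of_nonneg_right r3 (by linarith)
        linarith
      have h4 : -b * ((dJ : ℝ) + k - 2) ≤ 2 * ((dJ : ℝ) + k - 2) :=
        mul_le_mul_of_nonneg_right (by linarith) (by linarith)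
      have h5 : (dJ : ℝ) * ((dJ : ℝ) + k) ≤ 3 * dJ + k - 4 := by linarith
      rcases Nat.lt_or_ge dJ 3 with h6 | h6
      · have h7 : dJ = 1 ∨ dJ = 2 := by omega
        rcases h7 with h7 | h7
        · rw [h7] at h5 r2
          norm_num at h5 r2
          linarith
        · rw [h7] at h5 r2
          norm_num at h5 r2
          linarith
      · have h7 : (3 : ℝ) ≤ dJ := by exact_mod_cast h6
        nlinarith

end RP
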