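import Pool.Agent.H6.RP.C0
import Pool.Agent.H6.RP.C1
import Pool.Agent.H6.RP.C2
import Pool.Agent.H6.RP.C3
import Pool.Agent.H6.RP.B4
import Pool.Agent.H6.RP.B7
import Pool.Agent.H6.RP.A9

/-! C4: the upper bound. -/

open MeasureTheory
open scoped ENNReal

namespace RP

variable {m : ℕ} {d : Fin m → ℕ} {β : Fin m → ℝ}

theorem pow_exp_le (p c : ℝ) (hp : 0 < p) (hc : 0 < c) :
    ∃ C : ℝ, 0 < C ∧ ∀ x : ℝ, 0 < x → x ^ p * Real.exp (-(c * x)) ≤ C := by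
  refine ⟨(p / c) ^ p, by positivity, ?_⟩
  intro x hx
  have h1 : x ≤ (p / c) * Real.exp (c * x / p) := by
    have h2 := Real.add_one_le_exp (c * x / p)
    have h3 : c * x / p ≤ Real.exp (c * x / p) := by linarith
    calc x = (p / c) * (c * x / p) := by field_simp
      _ ≤ _ := by
        apply mul_le_mul_of_nonneg_left h3
        positivity
  have h4 : x ^ p ≤ ((p / c) * Real.exp (c * x / p)) ^ p := Real.rpow_le_rpow hx.le h1 hp.le
  rw [Real.mul_rpow (by positivity) (by positivity), ← Real.exp_mul] at h4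
  have h5 : c * x / p * p = c * x := by field_simp
  rw [h5] at h4
  calc x ^ p * Real.exp (-(c * x)) ≤ (p / c) ^ p * Real.exp (c * x) * Real.exp (-(c * x)) := by
        apply mul_le_mul_of_nonneg_right h4 (Real.exp_pos _).le
    _ = (p / c) ^ p := by
        rw [mul_assoc, ← Real.exp_add]; simp

theorem log_pow_le (k l : ℕ) (hkl : k ≤ l) :
    ∃ C : ℝ, 0 < C ∧ ∀ n : ℕ, 2 ≤ n → (Real.log n) ^ k ≤ C * (Real.log n) ^ l := by
  refine ⟨(1 / Real.log 2) ^ (l - k), ?_, ?_⟩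
  · have := Real.log_pos (by norm_num : (1 : ℝ) < 2)
    positivity
  · intro n hn
    have h2 : 0 < Real.log 2 := Real.log_pos (by norm_num)
    have hn' : (2 : ℝ) ≤ n := by exact_mod_cast hn
    have h3 : Real.log 2 ≤ Real.log n := Real.log_le_log (by norm_num) hn'
    have h4 : 1 ≤ 1 / Real.log 2 * Real.log n := by
      rw [one_div, ← div_eq_inv_mul, le_div_iff₀ h2]; linarith
    have h5 : 0 < Real.log n := lt_of_lt_of_le h2 h3
    obtain ⟨q, rfl⟩ := Nat.exists_eq_add_of_le hkl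
    have h6 : k + q - k = q := by omega
    rw [h6, pow_add]
    calc Real.log n ^ k = Real.log n ^ k * 1 := by ring
      _ ≤ Real.log n ^ k * (1 / Real.log 2 * Real.log n) ^ q := by
          apply mul_le_mul_of_nonneg_left _ (by positivity)
          exact one_le_pow₀ h4
      _ = _ := by rw [mul_pow]; ring

/-- the order of growth -/
noncomputable def gro (d : Fin m → ℕ) (β : Fin m → ℝ) (b : ℝ) (n : ℕ) : ℝ :=
  (n : ℝ) ^ (expo d β b) * (Real.log n) ^ (lexp d β b)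

theorem gro_nonneg (b : ℝ) (n : ℕ) : 0 ≤ gro d β b n := by
  unfold gro
  have : 0 ≤ Real.log n := Real.log_natCast_nonneg n
  positivity

/-- one dyadic term, upper bound -/
theorem termS_up (b : ℝ) (j : Fin m) (c R : ℝ) {n : ℕ} (hn : 1 ≤ n) (κ : Fin m → ℕ)
    (h : b * κ j + ∑ i, al d b i * κ i ≤ expo d β b * (∑ i, ga d β i * κ i) + R) :
    termS d β b j c n κ ≤ (n : ℝ) ^ (expo d β b) *
      ((XX d β n κ) ^ (((∑ i, d i : ℕ) : ℝ) - expo d β b) * Real.exp (-(c * XX d β n κ)) * (2 : ℝ) ^ R) := by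
  have hX := XX_pos (d := d) (β := β) hn κ
  unfold termS
  calc (XX d β n κ) ^ ((∑ i, d i : ℕ) : ℝ) * Real.exp (-(c * XX d β n κ)) *
        (2 : ℝ) ^ (b * κ j + ∑ i, al d b i * κ i)
      ≤ (XX d β n κ) ^ ((∑ i, d i : ℕ) : ℝ) * Real.exp (-(c * XX d β n κ)) *
        ((2 : ℝ) ^ (expo d β b * (∑ i, ga d β i * κ i)) * (2 : ℝ) ^ R) := by
        apply mul_le_mul_of_nonneg_left _ (by positivity)
        rw [← Real.rpow_add (by norm_num)]
        exact Real.rpow_le_rpow_of_exponent_le (by norm_num) h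
    _ = ((XX d β n κ) ^ ((∑ i, d i : ℕ) : ℝ) * (2 : ℝ) ^ (expo d β b * (∑ i, ga d β i * κ i))) *
          (Real.exp (-(c * XX d β n κ)) * (2 : ℝ) ^ R) := by ring
    _ = _ := by rw [XX_pow hn]; ring

theorem tsum_up (hm : 0 < m) (hd : ∀ i, 1 ≤ d i) (hβ : ∀ i, 0 ≤ β i) (b : ℝ) (hb : (∑ i, d i) = 1 ∨ -2 < b)
    (j : Fin m) (c : ℝ) (hc : 0 < c) :
    ∃ C : ℝ, 0 < C ∧ ∀ n : ℕ, 2 ≤ n →
      (∑' κ : Fin m → ℕ, if ∀ i, κ i ≤ κ j + 1 then ENNReal.ofReal (termS d β b j c n κ) else 0) ≤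
        ENNReal.ofReal (C * gro d β b n) := by
  classical
  obtain ⟨A, B, r, R, hAj, hBj, hAB, hr, hcard, hexp⟩ := exp_up hm hd hβ b j
  have hp : 0 < ((∑ i, d i : ℕ) : ℝ) - expo d β b := sub_pos.mpr (exp_lt hm hd hβ b hb)
  have hγ : ∀ i, 0 < ga d β i := by
    intro i
    unfold ga
    have := hβ i
    positivity
  obtain ⟨C₁, hC₁, h1⟩ := sum_up j A B hAj hBj hAB (ga d β) hγ r c _ hr hc hp
  obtain ⟨C₂, hC₂, h2⟩ := log_pow_le _ _ hcard
  refine ⟨(2 : ℝ) ^ R * C₁ * C₂, by positivity, ?_⟩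
  intro n hn
  have hn1 : 1 ≤ n := by omega
  have hn0 : (0 : ℝ) < n := by exact_mod_cast hn1
  have hlog : 0 ≤ Real.log n := Real.log_natCast_nonneg n
  have hterm : ∀ κ : Fin m → ℕ, (if ∀ i, κ i ≤ κ j + 1 then ENNReal.ofReal (termS d β b j c n κ) else 0) ≤
      ENNReal.ofReal ((n : ℝ) ^ (expo d β b) * (2 : ℝ) ^ R) * (if ∀ i, κ i ≤ κ j + 1 then
        ENNReal.ofReal (((n : ℝ) * (2 : ℝ) ^ (-(∑ i, ga d β i * κ i))) ^ (((∑ i, d i : ℕ) : ℝ) - expo d β b) *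
          Real.exp (-(c * ((n : ℝ) * (2 : ℝ) ^ (-(∑ i, ga d β i * κ i))))) *
          (2 : ℝ) ^ (-(r * ∑ i ∈ A, (κ i : ℝ)) - r * ∑ i ∈ B, ((κ j : ℝ) + 1 - κ i))) else 0) := by
    intro κ
    by_cases hκ : ∀ i, κ i ≤ κ j + 1
    · rw [if_pos hκ, if_pos hκ, ← ENNReal.ofReal_mul (by positivity)]
      apply ENNReal.ofReal_le_ofReal
      have h3 := termS_up (d := d) (β := β) b j c
        (R - r * ∑ i ∈ A, (κ i : ℝ) - r * ∑ i ∈ B, ((κ j : ℝ) + 1 - κ i)) hn1 κ (by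
          have := hexp κ hκ
          linarith)
      refine h3.trans (le_of_eq ?_)
      have h4 : (2 : ℝ) ^ (R - r * ∑ i ∈ A, (κ i : ℝ) - r * ∑ i ∈ B, ((κ j : ℝ) + 1 - κ i)) =
          (2 : ℝ) ^ R * (2 : ℝ) ^ (-(r * ∑ i ∈ A, (κ i : ℝ)) - r * ∑ i ∈ B, ((κ j : ℝ) + 1 - κ i)) := by
        rw [← Real.rpow_add (by norm_num)]
        congr 1
        ring
      rw [h4]
      unfold XX
      ring
    · rw [if_neg hκ, if_neg hκ, mul_zero]
  calc (∑' κ : Fin m → ℕ, if ∀ i, κ i ≤ κ j + 1 then ENNReal.ofReal (termS d β b j c n κ) else 0)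
      ≤ ∑' κ : Fin m → ℕ, ENNReal.ofReal ((n : ℝ) ^ (expo d β b) * (2 : ℝ) ^ R) * (if ∀ i, κ i ≤ κ j + 1 then
        ENNReal.ofReal (((n : ℝ) * (2 : ℝ) ^ (-(∑ i, ga d β i * κ i))) ^ (((∑ i, d i : ℕ) : ℝ) - expo d β b) *
          Real.exp (-(c * ((n : ℝ) * (2 : ℝ) ^ (-(∑ i, ga d β i * κ i))))) *
          (2 : ℝ) ^ (-(r * ∑ i ∈ A, (κ i : ℝ)) - r * ∑ i ∈ B, ((κ j : ℝ) + 1 - κ i))) else 0) :=
        ENNReal.tsum_le_tsum hterm
    _ = ENNReal.ofReal ((n : ℝ) ^ (expo d β b) * (2 : ℝ) ^ R) * _ := ENNReal.tsum_mul_left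
    _ ≤ ENNReal.ofReal ((n : ℝ) ^ (expo d β b) * (2 : ℝ) ^ R) *
        ENNReal.ofReal (C₁ * (Real.log n) ^ (((Finset.univ.erase j) \ A) \ B).card) := by
        gcongr
        exact h1 n hn
    _ = ENNReal.ofReal (((n : ℝ) ^ (expo d β b) * (2 : ℝ) ^ R) *
        (C₁ * (Real.log n) ^ (((Finset.univ.erase j) \ A) \ B).card)) := by
        rw [← ENNReal.ofReal_mul (by positivity)]
    _ ≤ _ := by
        apply ENNReal.ofReal_le_ofReal
        unfold gro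
        have h5 := h2 n hn
        have h6 : 0 ≤ (n : ℝ) ^ (expo d β b) * (2 : ℝ) ^ R * C₁ := by positivity
        have h7 := mul_le_mul_of_nonneg_left h5 h6
        calc _ = (n : ℝ) ^ (expo d β b) * (2 : ℝ) ^ R * C₁ *
            (Real.log n) ^ (((Finset.univ.erase j) \ A) \ B).card := by ring
          _ ≤ _ := h7
          _ = _ := by ring

theorem Fint_up (hm : 0 < m) (hd : ∀ i, 1 ≤ d i) (hβ : ∀ i, 0 ≤ β i) (a b : ℝ) (ha : -1 < a)
    (hb : (∑ i, d i) = 1 ∨ -2 < b) (o : Ix d) :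
    ∃ C : ℝ, 0 < C ∧ ∀ n : ℕ, (∑ i, d i) + 1 ≤ n →
      ENNReal.ofReal ((n : ℝ) ^ (∑ i, d i)) * Fint β a b n o ≤ ENNReal.ofReal (C * gro d β b n) := by
  classical
  have hD : 1 ≤ ∑ i, d i := by
    have h0 : d ⟨0, hm⟩ ≤ ∑ i, d i := Finset.single_le_sum (f := d) (fun i _ => Nat.zero_le _) (Finset.mem_univ _)
    exact (hd _).trans h0
  obtain ⟨c₁, hc₁, hq⟩ := q_up (d := d) (β := β) hm hd hβ
  obtain ⟨C₁, hC₁, hs⟩ := sec_up (d := d) (β := β) hm hd hβ b hb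
  obtain ⟨C₂, c₂, hC₂, hc₂, hdy⟩ := dyad_up (d := d) (β := β) hm hd hβ a b ha c₁ hc₁ o
  obtain ⟨C₃, hC₃, hts⟩ := tsum_up (d := d) (β := β) hm hd hβ b hb o.1 c₂ hc₂
  have hp : 0 < ((∑ i, d i : ℕ) : ℝ) - expo d β b := sub_pos.mpr (exp_lt hm hd hβ b hb)
  obtain ⟨C₄, hC₄, hpe⟩ := pow_exp_le _ c₂ hp hc₂
  obtain ⟨C₅, hC₅, hlp⟩ := log_pow_le 0 (lexp d β b) (Nat.zero_le _)
  refine ⟨2 * C₁ * (C₂ * C₄ * C₅ + C₂ * C₃), by positivity, ?_⟩
  intro n hn
  have hn2 : 2 ≤ n := by omega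
  have hn1 : 1 ≤ n := by omega
  have hn0 : (0 : ℝ) < n := by exact_mod_cast hn1
  have hgro := gro_nonneg (d := d) (β := β) b n
  have hTm : MeasurableSet {y : Ix d → ℝ | 0 < tN (Nv o y) (y o)} :=
    measurableSet_lt measurable_const (tN_continuous o).measurable
  -- restriction to positive depth
  have hF : Fint β a b n o =
      ∫⁻ y in Yreg o ∩ {y | 0 < tN (Nv o y) (y o)}, Qn β n o y * ENNReal.ofReal |y o| ^ a * Sec β b o y := by
    unfold Fint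
    have h1 : ∫⁻ y in Yreg o, Qn β n o y * ENNReal.ofReal |y o| ^ a * Sec β b o y =
        ∫⁻ y in Yreg o, ({y : Ix d → ℝ | 0 < tN (Nv o y) (y o)}).indicator
          (fun y => Qn β n o y * ENNReal.ofReal |y o| ^ a * Sec β b o y) y := by
      apply lintegral_congr_ae
      apply ae_restrict_of_ae
      have h2 : ∀ᵐ y : Ix d → ℝ, tN (Nv o y) (y o) ≠ 0 := by
        rw [ae_iff]
        simpa using t_null o
      filter_upwards [h2] with y hy
      by_cases hy' : 0 < tN (Nv o y) (y o)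
      · rw [Set.indicator_of_mem]
        exact hy'
      · rw [Set.indicator_of_notMem (by exact hy')]
        have h3 : tN (Nv o y) (y o) < 0 := lt_of_le_of_ne (not_lt.mp hy') hy
        rw [sec_zero hβ hD b o y h3, mul_zero]
    rw [h1, setLIntegral_indicator hTm, Set.inter_comm]
  -- pointwise bound
  have hpt : ∀ y ∈ Yreg o ∩ {y | 0 < tN (Nv o y) (y o)},
      Qn β n o y * ENNReal.ofReal |y o| ^ a * Sec β b o y ≤ ENNReal.ofReal (2 * C₁) *
        (ENNReal.ofReal |y o| ^ a *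
            ENNReal.ofReal (Real.exp (-(c₁ * n * ∏ i, (pN (Nv o y) (y o) i) ^ (ga d β i))) *
              ((∏ i, (pN (Nv o y) (y o) i) ^ (((∑ i, d i : ℕ) : ℝ) * β i)) *
                (SS (Nv o y) (y o)) ^ (((∑ i, d i : ℕ) : ℝ) + 1 + b)))) := by
    intro y hy
    have hq' := hq n hn o y hy.2
    have hs' := hs o y hy.1 hy.2
    calc Qn β n o y * ENNReal.ofReal |y o| ^ a * Sec β b o y
        ≤ (2 * ENNReal.ofReal (Real.exp (-(c₁ * n * ∏ i, (pN (Nv o y) (y o) i) ^ (ga d β i))))) *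
            ENNReal.ofReal |y o| ^ a *
          ENNReal.ofReal (C₁ * ((∏ i, (pN (Nv o y) (y o) i) ^ (((∑ i, d i : ℕ) : ℝ) * β i)) *
            (SS (Nv o y) (y o)) ^ (((∑ i, d i : ℕ) : ℝ) + 1 + b))) := by
          gcongr
      _ = _ := by
          rw [ENNReal.ofReal_mul (by norm_num : (0 : ℝ) ≤ 2), ENNReal.ofReal_mul hC₁.le,
            ENNReal.ofReal_mul (Real.exp_pos _).le]
          rw [show ENNReal.ofReal 2 = 2 by simp]
          ring
  have hint : Fint β a b n o ≤ ENNReal.ofReal (2 * C₁) *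
      ∫⁻ y in Yreg o ∩ {y | 0 < tN (Nv o y) (y o)}, ENNReal.ofReal |y o| ^ a *
            ENNReal.ofReal (Real.exp (-(c₁ * n * ∏ i, (pN (Nv o y) (y o) i) ^ (ga d β i))) *
              ((∏ i, (pN (Nv o y) (y o) i) ^ (((∑ i, d i : ℕ) : ℝ) * β i)) *
                (SS (Nv o y) (y o)) ^ (((∑ i, d i : ℕ) : ℝ) + 1 + b))) := by
    rw [hF, ← lintegral_const_mul' _ _ ENNReal.ofReal_ne_top]
    apply setLIntegral_mono' _ hpt
    exact (Yreg_measurable o).inter hTm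
  have hmain := hdy n hn1
  have hexpo : (n : ℝ) ^ (∑ i, d i) * Real.exp (-(c₂ * n)) ≤ C₄ * C₅ * gro d β b n := by
    have h1 := hpe n hn0
    have h2 : (n : ℝ) ^ (∑ i, d i) = (n : ℝ) ^ (expo d β b) * (n : ℝ) ^ (((∑ i, d i : ℕ) : ℝ) - expo d β b) := by
      rw [← Real.rpow_add hn0, ← Real.rpow_natCast]
      congr 1
      ring
    have h3 := hlp n hn2
    simp only [pow_zero] at h3
    have hne : 0 ≤ (n : ℝ) ^ (expo d β b) := by positivity
    calc (n : ℝ) ^ (∑ i, d i) * Real.exp (-(c₂ * n))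
        = (n : ℝ) ^ (expo d β b) * ((n : ℝ) ^ (((∑ i, d i : ℕ) : ℝ) - expo d β b) * Real.exp (-(c₂ * n))) := by
          rw [h2]; ring
      _ ≤ (n : ℝ) ^ (expo d β b) * C₄ := mul_le_mul_of_nonneg_left h1 hne
      _ = (n : ℝ) ^ (expo d β b) * C₄ * 1 := by ring
      _ ≤ (n : ℝ) ^ (expo d β b) * C₄ * (C₅ * (Real.log n) ^ (lexp d β b)) :=
          mul_le_mul_of_nonneg_left h3 (by positivity)
      _ = _ := by unfold gro; ring
  calc ENNReal.ofReal ((n : ℝ) ^ (∑ i, d i)) * Fint β a b n o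
      ≤ ENNReal.ofReal ((n : ℝ) ^ (∑ i, d i)) * (ENNReal.ofReal (2 * C₁) *
      ∫⁻ y in Yreg o ∩ {y | 0 < tN (Nv o y) (y o)}, ENNReal.ofReal |y o| ^ a *
            ENNReal.ofReal (Real.exp (-(c₁ * n * ∏ i, (pN (Nv o y) (y o) i) ^ (ga d β i))) *
              ((∏ i, (pN (Nv o y) (y o) i) ^ (((∑ i, d i : ℕ) : ℝ) * β i)) *
                (SS (Nv o y) (y o)) ^ (((∑ i, d i : ℕ) : ℝ) + 1 + b)))) := by gcongr
    _ = ENNReal.ofReal (2 * C₁) * (ENNReal.ofReal ((n : ℝ) ^ (∑ i, d i)) *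
      ∫⁻ y in Yreg o ∩ {y | 0 < tN (Nv o y) (y o)}, ENNReal.ofReal |y o| ^ a *
            ENNReal.ofReal (Real.exp (-(c₁ * n * ∏ i, (pN (Nv o y) (y o) i) ^ (ga d β i))) *
              ((∏ i, (pN (Nv o y) (y o) i) ^ (((∑ i, d i : ℕ) : ℝ) * β i)) *
                (SS (Nv o y) (y o)) ^ (((∑ i, d i : ℕ) : ℝ) + 1 + b)))) := by ring
    _ ≤ ENNReal.ofReal (2 * C₁) * (ENNReal.ofReal (C₂ * ((n : ℝ) ^ (∑ i, d i) * Real.exp (-(c₂ * n)))) +
          ENNReal.ofReal C₂ * ∑' κ : Fin m → ℕ,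
            if ∀ i, κ i ≤ κ o.1 + 1 then ENNReal.ofReal (termS d β b o.1 c₂ n κ) else 0) := by
        gcongr
    _ ≤ ENNReal.ofReal (2 * C₁) * (ENNReal.ofReal (C₂ * (C₄ * C₅ * gro d β b n)) +
          ENNReal.ofReal C₂ * ENNReal.ofReal (C₃ * gro d β b n)) := by
        gcongr
        exact hts n hn2
    _ = ENNReal.ofReal (2 * C₁ * (C₂ * (C₄ * C₅ * gro d β b n) + C₂ * (C₃ * gro d β b n))) := by
        rw [← ENNReal.ofReal_mul hC₂.le, ← ENNReal.ofReal_add (by positivity) (by positivity),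
          ← ENNReal.ofReal_mul (by positivity)]
    _ = _ := by
        congr 1
        ring

theorem ET_up (hm : 0 < m) (hd : ∀ i, 1 ≤ d i) (hβ : ∀ i, 0 ≤ β i) (a b : ℝ) (ha : -1 < a)
    (hb : (∑ i, d i) = 1 ∨ -2 < b) :
    ∃ C : ℝ, 0 < C ∧ ∀ n : ℕ, (∑ i, d i) + 1 ≤ n →
      ET d β a b n ≤ ENNReal.ofReal (C * gro d β b n) := by
  have hD : 1 ≤ ∑ i, d i := by
    have h0 : d ⟨0, hm⟩ ≤ ∑ i, d i := Finset.single_le_sum (f := d) (fun i _ => Nat.zero_le _) (Finset.mem_univ _)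
    exact (hd _).trans h0
  obtain ⟨C₀, hC₀, h0⟩ := star_upper (d := d) (β := β) hβ hD a b
  choose C hC h using fun o : Ix d => Fint_up (d := d) (β := β) hm hd hβ a b ha hb o
  have hsum : 0 ≤ ∑ o, C o := Finset.sum_nonneg fun o _ => (hC o).le
  refine ⟨C₀ * (∑ o, C o) + 1, by positivity, ?_⟩
  intro n hn
  have hgro := gro_nonneg (d := d) (β := β) b n
  calc ET d β a b n ≤ ENNReal.ofReal (C₀ * (n : ℝ) ^ (∑ i, d i)) * ∑ o : Ix d, Fint β a b n o := h0 n hn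
    _ = ENNReal.ofReal C₀ * ∑ o : Ix d, ENNReal.ofReal ((n : ℝ) ^ (∑ i, d i)) * Fint β a b n o := by
        rw [ENNReal.ofReal_mul hC₀.le, mul_assoc, Finset.mul_sum]
    _ ≤ ENNReal.ofReal C₀ * ∑ o : Ix d, ENNReal.ofReal (C o * gro d β b n) := by
        gcongr with o
        exact h o n hn
    _ = ENNReal.ofReal (C₀ * ∑ o : Ix d, C o * gro d β b n) := by
        rw [ENNReal.ofReal_mul hC₀.le, ENNReal.ofReal_sum_of_nonneg]
        intro o _
        have := (hC o).le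
        positivity
    _ ≤ _ := by
        apply ENNReal.ofReal_le_ofReal
        rw [← Finset.sum_mul, ← mul_assoc]
        apply mul_le_mul_of_nonneg_right _ hgro
        linarith

end RP
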