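import Pool.Agent.H6.RP.C5a
import Pool.Agent.H6.RP.B4
import Pool.Agent.H6.RP.B8

/-! C5b: lower bound for the integrand on a dyadic box. -/

open MeasureTheory
open scoped ENNReal

namespace RP

variable {m : ℕ} {d : Fin m → ℕ} {β : Fin m → ℝ}

theorem c5b_num {θ z v K t s : ℝ} (hθ : 0 < θ) (hz : 0 < z) (hv : 2 ≤ v) (hK : 4 ≤ K)
    (ht : 0 < t) (h4 : t ≤ θ * z) (hlow : θ / 2 * z ≤ t) (h6 : θ * (z * v / 2) < s)
    (h7 : s ≤ θ * (z * v)) : K⁻¹ * v⁻¹ ≤ t / max s t ∧ t / max s t ≤ K * v⁻¹ := by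
  have hzθ : 0 < θ * z := mul_pos hθ hz
  have e1 : θ * (z * v / 2) = θ * z * v / 2 := by ring
  have e2 : θ * (z * v) = θ * z * v := by ring
  have e3 : θ / 2 * z = θ * z / 2 := by ring
  rw [e1] at h6
  rw [e2] at h7
  rw [e3] at hlow
  set w := θ * z with hw
  have hwv : 2 * w ≤ w * v := by nlinarith
  have hst : t < s := by linarith
  rw [max_eq_left hst.le]
  have spos : 0 < s := ht.trans hst
  have hvp : 0 < v := by linarith
  have hKp : 0 < K := by linarith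
  constructor
  · rw [← mul_inv, le_div_iff₀ spos, ← div_eq_inv_mul, div_le_iff₀ (mul_pos hKp hvp)]
    have h8 : w * v ≤ 2 * t * v := by nlinarith
    have h9 : 2 * t * v ≤ t * (K * v) := by
      have : 0 ≤ t * v * (K - 2) := mul_nonneg (mul_pos ht hvp).le (by linarith)
      nlinarith
    linarith
  · rw [div_le_iff₀ spos, ← div_eq_mul_inv, div_mul_eq_mul_div, le_div_iff₀ hvp]
    have h8 : t * v ≤ w * v := mul_le_mul_of_nonneg_right h4 hvp.le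
    have h9 : 2 * s ≤ K * s := by nlinarith
    linarith

/-- All the numerical information about a point of a dyadic box. -/
theorem c5b_box (hd : ∀ i, 1 ≤ d i) (θ : ℝ) (hθ : 0 < θ) (hθ' : θ ≤ 1 / 2) (o : Ix d)
    (κ : Fin m → ℕ) (hκ : ∀ i, κ i ≤ κ o.1) (y : Ix d → ℝ) (hy : y ∈ Lbox θ o κ) :
    let K : ℝ := 2 * Real.sqrt ((∑ i, d i : ℕ) : ℝ) / θ
    1 ≤ K ∧ 0 < tN (Nv o y) (y o) ∧ tN (Nv o y) (y o) ≤ θ ∧
    θ / 2 * (2 : ℝ) ^ (-(κ o.1 : ℝ)) ≤ tN (Nv o y) (y o) ∧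
    tN (Nv o y) (y o) ≤ θ * (2 : ℝ) ^ (-(κ o.1 : ℝ)) ∧
    1 / 2 ≤ y o ∧ y o ≤ Real.sqrt ((∑ i, d i : ℕ) : ℝ) * m ∧
    ∀ i, K⁻¹ * (2 : ℝ) ^ (-(κ i : ℝ)) ≤ pN (Nv o y) (y o) i ∧
      pN (Nv o y) (y o) i ≤ K * (2 : ℝ) ^ (-(κ i : ℝ)) := by
  intro K
  obtain ⟨h1, h2, h3, h4, h5⟩ := hy
  set t := tN (Nv o y) (y o) with ht
  set D : ℕ := ∑ i, d i with hD
  have hdj : d o.1 ≤ D := Finset.single_le_sum (f := d) (fun _ _ => Nat.zero_le _) (Finset.mem_univ _)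
  have hD1 : (1 : ℝ) ≤ (D : ℝ) := by
    exact_mod_cast (hd o.1).trans hdj
  have hsD : 1 ≤ Real.sqrt (D : ℝ) := Real.one_le_sqrt.2 hD1
  have hK : K = 2 * Real.sqrt (D : ℝ) / θ := rfl
  have hK4 : 4 ≤ K := by
    rw [hK, le_div_iff₀ hθ]
    nlinarith
  have hKpos : 0 < K := by linarith
  have hKinv : K⁻¹ ≤ 1 / 4 := by
    rw [inv_le_comm₀ hKpos (by norm_num)]
    norm_num
    exact hK4
  have pw : ∀ x : ℝ, 0 < (2 : ℝ) ^ x := fun x => Real.rpow_pos_of_pos two_pos x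
  have pwle : ∀ {x y : ℝ}, x ≤ y → (2 : ℝ) ^ x ≤ (2 : ℝ) ^ y := fun h =>
    Real.rpow_le_rpow_of_exponent_le one_le_two h
  have e1 : (2 : ℝ) ^ (-(κ o.1 : ℝ) - 1) = (2 : ℝ) ^ (-(κ o.1 : ℝ)) / 2 := by
    rw [Real.rpow_sub two_pos, Real.rpow_one]
  have pj1 : (2 : ℝ) ^ (-(κ o.1 : ℝ)) ≤ 1 := by
    have := pwle (x := -(κ o.1 : ℝ)) (y := 0) (by simp)
    rwa [Real.rpow_zero] at this
  have tlow : θ / 2 * (2 : ℝ) ^ (-(κ o.1 : ℝ)) < t := by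
    rw [e1] at h3
    linarith
  have tpos : 0 < t := lt_trans (mul_pos (by positivity) (pw _)) tlow
  have tθ : t ≤ θ := h4.trans (by nlinarith [pw (-(κ o.1 : ℝ))])
  have hNo : Nv o y o = 1 := by simp [Nv]
  -- the largest block
  have bj1 : 1 ≤ bsq (Nv o y) o.1 := by
    unfold bsq
    have : (Nv o y ⟨o.1, o.2⟩) ^ 2 ≤ ∑ j : Fin (d o.1), (Nv o y ⟨o.1, j⟩) ^ 2 :=
      Finset.single_le_sum (f := fun j : Fin (d o.1) => (Nv o y ⟨o.1, j⟩) ^ 2)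
        (fun _ _ => sq_nonneg _) (Finset.mem_univ _)
    refine le_trans ?_ this
    change 1 ≤ (Nv o y o) ^ 2
    rw [hNo]
    norm_num
  have bj2 : bsq (Nv o y) o.1 ≤ D := by
    unfold bsq
    calc ∑ j : Fin (d o.1), (Nv o y ⟨o.1, j⟩) ^ 2 ≤ ∑ j : Fin (d o.1), (1 : ℝ) := by
          refine Finset.sum_le_sum fun j _ => ?_
          have := h1 j
          rw [← sq_abs]
          nlinarith [abs_nonneg (Nv o y ⟨o.1, j⟩)]
      _ = d o.1 := by simp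
      _ ≤ D := by exact_mod_cast hdj
  have sj1 : 1 ≤ sN (Nv o y) o.1 := Real.one_le_sqrt.2 bj1
  have sj2 : sN (Nv o y) o.1 ≤ Real.sqrt D := Real.sqrt_le_sqrt bj2
  have si2 : ∀ i, i ≠ o.1 → sN (Nv o y) i ≤ θ := by
    intro i hi
    obtain ⟨ha, hb⟩ := h5 i hi
    rcases Nat.eq_zero_or_pos (κ i) with h0 | h0
    · exact (ha h0).trans (by nlinarith [pw (-(κ o.1 : ℝ))])
    · refine (hb (by omega)).2.trans ?_
      have : (2 : ℝ) ^ ((κ i : ℝ) - κ o.1) ≤ 1 := by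
        have := pwle (x := (κ i : ℝ) - κ o.1) (y := 0) (by
          have : (κ i : ℝ) ≤ κ o.1 := by exact_mod_cast hκ i
          linarith)
        rwa [Real.rpow_zero] at this
      nlinarith
  have snn : ∀ i, 0 ≤ sN (Nv o y) i := fun i => Real.sqrt_nonneg _
  have hyo : y o = (∑ i, sN (Nv o y) i) - t := by
    rw [ht, tN, abs_of_pos h2]
    ring
  refine ⟨by linarith, tpos, tθ, tlow.le, h4, ?_, ?_, ?_⟩
  · have : sN (Nv o y) o.1 ≤ ∑ i, sN (Nv o y) i :=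
      Finset.single_le_sum (f := fun i => sN (Nv o y) i) (fun i _ => snn i) (Finset.mem_univ _)
    linarith
  · have : ∑ i, sN (Nv o y) i ≤ ∑ i : Fin m, Real.sqrt (D : ℝ) := by
      refine Finset.sum_le_sum fun i _ => ?_
      rcases eq_or_ne i o.1 with rfl | hi
      · exact sj2
      · exact (si2 i hi).trans (by linarith)
    rw [Finset.sum_const, Finset.card_univ, Fintype.card_fin, nsmul_eq_mul] at this
    linarith
  · intro i
    rcases eq_or_ne i o.1 with rfl | hi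
    · have hmax : max (sN (Nv o y) o.1) t = sN (Nv o y) o.1 := max_eq_left (by linarith)
      have hp : pN (Nv o y) (y o) o.1 = t / sN (Nv o y) o.1 := by
        rw [pN, ← ht, hmax]
      rw [hp]
      constructor
      · rw [le_div_iff₀ (by linarith)]
        have h6 : K⁻¹ * sN (Nv o y) o.1 ≤ θ / 2 := by
          rw [hK, inv_div, div_mul_eq_mul_div, div_le_iff₀ (by positivity)]
          nlinarith
        calc K⁻¹ * (2 : ℝ) ^ (-(κ o.1 : ℝ)) * sN (Nv o y) o.1 =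
              K⁻¹ * sN (Nv o y) o.1 * (2 : ℝ) ^ (-(κ o.1 : ℝ)) := by ring
          _ ≤ θ / 2 * (2 : ℝ) ^ (-(κ o.1 : ℝ)) := mul_le_mul_of_nonneg_right h6 (pw _).le
          _ ≤ t := tlow.le
      · rw [div_le_iff₀ (by linarith)]
        have h6 : (2 : ℝ) ^ (-(κ o.1 : ℝ)) ≤ K * (2 : ℝ) ^ (-(κ o.1 : ℝ)) := by
          nlinarith [pw (-(κ o.1 : ℝ))]
        have h7 : K * (2 : ℝ) ^ (-(κ o.1 : ℝ)) ≤
            K * (2 : ℝ) ^ (-(κ o.1 : ℝ)) * sN (Nv o y) o.1 :=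
          le_mul_of_one_le_right (mul_pos hKpos (pw _)).le sj1
        nlinarith [pw (-(κ o.1 : ℝ))]
    · obtain ⟨ha, hb⟩ := h5 i hi
      rcases Nat.eq_zero_or_pos (κ i) with h0 | h0
      · have h6 := ha h0
        have h7 : max (sN (Nv o y) i) t ≤ 2 * t := max_le (by linarith) (by linarith)
        have h8 : t ≤ max (sN (Nv o y) i) t := le_max_right _ _
        have h9 : 0 < max (sN (Nv o y) i) t := lt_of_lt_of_le tpos h8
        rw [h0, Nat.cast_zero, neg_zero, Real.rpow_zero, mul_one, mul_one]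
        rw [pN, ← ht]
        constructor
        · rw [le_div_iff₀ h9]
          have : K⁻¹ * max (sN (Nv o y) i) t ≤ 1 / 4 * (2 * t) :=
            mul_le_mul hKinv h7 h9.le (by norm_num)
          linarith
        · rw [div_le_iff₀ h9]
          nlinarith
      · obtain ⟨h6, h7⟩ := hb (by omega)
        have e2 : (2 : ℝ) ^ ((κ i : ℝ) - κ o.1 - 1) =
            (2 : ℝ) ^ (-(κ o.1 : ℝ)) * (2 : ℝ) ^ (κ i : ℝ) / 2 := by
          rw [← Real.rpow_add two_pos, ← Real.rpow_sub_one (by norm_num)]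
          congr 1
          ring
        have e3 : (2 : ℝ) ^ ((κ i : ℝ) - κ o.1) =
            (2 : ℝ) ^ (-(κ o.1 : ℝ)) * (2 : ℝ) ^ (κ i : ℝ) := by
          rw [← Real.rpow_add two_pos]
          congr 1
          ring
        have e4 : (2 : ℝ) ^ (-(κ i : ℝ)) = ((2 : ℝ) ^ (κ i : ℝ))⁻¹ := Real.rpow_neg (by norm_num) _
        set z := (2 : ℝ) ^ (-(κ o.1 : ℝ)) with hz
        set v := (2 : ℝ) ^ (κ i : ℝ) with hv
        have hzp : 0 < z := pw _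
        have hv2 : 2 ≤ v := by
          have := pwle (x := 1) (y := (κ i : ℝ)) (by exact_mod_cast h0)
          rwa [Real.rpow_one] at this
        rw [e2] at h6
        rw [e3] at h7
        rw [pN, ← ht, e4]
        exact c5b_num hθ hzp hv2 hK4 tpos h4 tlow.le h6 h7

theorem lbox_integrand (hm : 0 < m) (hd : ∀ i, 1 ≤ d i) (hβ : ∀ i, 0 ≤ β i) (a b : ℝ) (o : Ix d) :
    ∃ θ c C : ℝ, 0 < θ ∧ θ ≤ 1 / 2 ∧ 0 < c ∧ 0 < C ∧ ∀ n : ℕ, (∑ i, d i) + 1 ≤ n → ∀ κ : Fin m → ℕ,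
      (∀ i, κ i ≤ κ o.1) → ∀ y ∈ Lbox θ o κ,
      ENNReal.ofReal (c * (Real.exp (-(C * XX d β n κ)) *
        ((2 : ℝ) ^ (-(((∑ i, d i : ℕ) : ℝ) * ∑ i, β i * κ i)) *
          (2 : ℝ) ^ ((((∑ i, d i : ℕ) : ℝ) + 1 + b) * (κ o.1 - ∑ i, ((d i : ℝ) + 1) * κ i / 2))))) ≤
        Qn β n o y * ENNReal.ofReal |y o| ^ a * Sec β b o y := by
  obtain ⟨C₁, hC₁, hQ⟩ := q_low (d := d) (β := β) hm hd hβ
  obtain ⟨c₂, t₀, hc₂, ht₀, hS⟩ := sec_low (d := d) (β := β) hm hd hβ b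
  set D : ℕ := ∑ i, d i with hD
  set θ : ℝ := min (1 / 2) t₀ with hθdef
  have hθ : 0 < θ := lt_min (by norm_num) ht₀
  have hθ' : θ ≤ 1 / 2 := min_le_left _ _
  have hθt : θ ≤ t₀ := min_le_right _ _
  set K : ℝ := 2 * Real.sqrt (D : ℝ) / θ with hK
  have hD1 : (1 : ℝ) ≤ (D : ℝ) := by
    have h1 : d o.1 ≤ D := Finset.single_le_sum (f := d) (fun _ _ => Nat.zero_le _)
      (Finset.mem_univ _)
    exact_mod_cast (hd o.1).trans h1
  have hsD : 1 ≤ Real.sqrt (D : ℝ) := Real.one_le_sqrt.2 hD1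
  have hKpos : 0 < K := by positivity
  set U : ℝ := Real.sqrt (D : ℝ) * m with hU
  have hUpos : 0 < U := by
    have : (0 : ℝ) < m := by exact_mod_cast hm
    positivity
  set c₃ : ℝ := min ((1 / 2 : ℝ) ^ a) (U ^ a) with hc₃
  have hc₃p : 0 < c₃ := lt_min (Real.rpow_pos_of_pos (by norm_num) _) (Real.rpow_pos_of_pos hUpos _)
  set e : ℝ := (D : ℝ) + 1 + b with he
  set K₂ : ℝ := K ^ (∑ i, ((d i : ℝ) + 1) / 2) * (2 / θ) with hK₂
  have hK₂p : 0 < K₂ := by positivity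
  have hga : ∀ i, 0 ≤ ga d β i := fun i => by
    unfold ga
    have := hβ i
    positivity
  have pw : ∀ x : ℝ, 0 < (2 : ℝ) ^ x := fun x => Real.rpow_pos_of_pos two_pos x
  have prodpow : ∀ (L : ℝ) (_ : 0 < L) (κ : Fin m → ℕ) (f : Fin m → ℝ),
      ∏ i, (L * (2 : ℝ) ^ (-(κ i : ℝ))) ^ f i = L ^ (∑ i, f i) * (2 : ℝ) ^ (-(∑ i, f i * κ i)) := by
    intro L hL κ f
    rw [Real.rpow_sum_of_pos hL, ← Finset.sum_neg_distrib, Real.rpow_sum_of_pos two_pos,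
      ← Finset.prod_mul_distrib]
    refine Finset.prod_congr rfl fun i _ => ?_
    rw [Real.mul_rpow hL.le (pw _).le, ← Real.rpow_mul two_pos.le]
    congr 2
    ring
  refine ⟨θ, c₃ * c₂ * K⁻¹ ^ (∑ i, (D : ℝ) * β i) * K₂ ^ (-|e|), C₁ * K ^ (∑ i, ga d β i), hθ, hθ',
    by positivity, by positivity, ?_⟩
  intro n hn κ hκ y hy
  have hyreg := lbox_sub θ hθ hθ' o κ hκ hy
  obtain ⟨hK1, tpos, tθ, tlow, tup, ylow, yup, hp⟩ := c5b_box hd θ hθ hθ' o κ hκ y hy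
  have yo : 0 < y o := by linarith
  have ppos : ∀ i, 0 < pN (Nv o y) (y o) i := fun i =>
    lt_of_lt_of_le (mul_pos (inv_pos.2 hKpos) (pw _)) (hp i).1
  have h1 := hQ n hn o y yo tpos
  have h2 := hS o y hyreg yo tpos (tθ.trans hθt)
  have h3 : ENNReal.ofReal c₃ ≤ ENNReal.ofReal |y o| ^ a := by
    rw [abs_of_pos yo, ENNReal.ofReal_rpow_of_pos yo]
    apply ENNReal.ofReal_le_ofReal
    rcases le_or_gt 0 a with ha | ha
    · exact (min_le_left _ _).trans (Real.rpow_le_rpow (by norm_num) ylow ha)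
    · refine (min_le_right _ _).trans ?_
      exact Real.rpow_le_rpow_of_nonpos yo yup ha.le
  -- the exponential factor
  have g1 : ∏ i, (pN (Nv o y) (y o) i) ^ (ga d β i) ≤
      K ^ (∑ i, ga d β i) * (2 : ℝ) ^ (-(∑ i, ga d β i * κ i)) := by
    rw [← prodpow K hKpos κ]
    exact Finset.prod_le_prod (fun i _ => Real.rpow_nonneg (ppos i).le _) fun i _ =>
      Real.rpow_le_rpow (ppos i).le (hp i).2 (hga i)
  have g1' : Real.exp (-(C₁ * K ^ (∑ i, ga d β i) * XX d β n κ)) ≤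
      Real.exp (-(C₁ * n * ∏ i, (pN (Nv o y) (y o) i) ^ (ga d β i))) := by
    apply Real.exp_le_exp.2
    apply neg_le_neg
    unfold XX
    calc C₁ * n * ∏ i, (pN (Nv o y) (y o) i) ^ (ga d β i) ≤
        C₁ * n * (K ^ (∑ i, ga d β i) * (2 : ℝ) ^ (-(∑ i, ga d β i * κ i))) :=
          mul_le_mul_of_nonneg_left g1 (by positivity)
      _ = _ := by ring
  have g2 : K⁻¹ ^ (∑ i, (D : ℝ) * β i) * (2 : ℝ) ^ (-((D : ℝ) * ∑ i, β i * κ i)) ≤
      ∏ i, (pN (Nv o y) (y o) i) ^ ((D : ℝ) * β i) := by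
    have h4 : (D : ℝ) * ∑ i, β i * κ i = ∑ i, (D : ℝ) * β i * κ i := by
      rw [Finset.mul_sum]
      exact Finset.sum_congr rfl fun i _ => by ring
    rw [h4, ← prodpow K⁻¹ (inv_pos.2 hKpos) κ (fun i => (D : ℝ) * β i)]
    exact Finset.prod_le_prod (fun i _ => Real.rpow_nonneg
      (mul_pos (inv_pos.2 hKpos) (pw _)).le _) fun i _ =>
      Real.rpow_le_rpow (mul_pos (inv_pos.2 hKpos) (pw _)).le (hp i).1
        (mul_nonneg (by positivity) (hβ i))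
  -- the size of the section
  set Z : ℝ := (2 : ℝ) ^ ((κ o.1 : ℝ) - ∑ i, ((d i : ℝ) + 1) * κ i / 2) with hZ
  have Zpos : 0 < Z := pw _
  have hZ' : Z = (2 : ℝ) ^ (-(∑ i, ((d i : ℝ) + 1) / 2 * κ i)) / (2 : ℝ) ^ (-(κ o.1 : ℝ)) := by
    rw [hZ, ← Real.rpow_sub two_pos]
    congr 1
    have : ∑ i, ((d i : ℝ) + 1) * κ i / 2 = ∑ i, ((d i : ℝ) + 1) / 2 * κ i :=
      Finset.sum_congr rfl fun i _ => by ring
    rw [this]
    ring
  have hsum0 : 0 ≤ ∑ i, ((d i : ℝ) + 1) / 2 := Finset.sum_nonneg fun i _ => by positivity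
  have hKs : 1 ≤ K ^ (∑ i, ((d i : ℝ) + 1) / 2) := Real.one_le_rpow hK1 hsum0
  have q0 : 0 < (2 : ℝ) ^ (-(κ o.1 : ℝ)) := pw _
  have s1 : K₂⁻¹ * Z ≤ SS (Nv o y) (y o) := by
    unfold SS
    rw [le_div_iff₀ tpos]
    have h4 : K⁻¹ ^ (∑ i, ((d i : ℝ) + 1) / 2) *
        (2 : ℝ) ^ (-(∑ i, ((d i : ℝ) + 1) / 2 * κ i)) ≤
        ∏ i, (pN (Nv o y) (y o) i) ^ ((((d i : ℕ) : ℝ) + 1) / 2) := by
      rw [← prodpow K⁻¹ (inv_pos.2 hKpos) κ (fun i => ((d i : ℝ) + 1) / 2)]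
      exact Finset.prod_le_prod (fun i _ => Real.rpow_nonneg
        (mul_pos (inv_pos.2 hKpos) (pw _)).le _) fun i _ =>
        Real.rpow_le_rpow (mul_pos (inv_pos.2 hKpos) (pw _)).le (hp i).1 (by positivity)
    refine le_trans ?_ h4
    calc K₂⁻¹ * Z * tN (Nv o y) (y o) ≤ K₂⁻¹ * Z * (2 / θ * (2 : ℝ) ^ (-(κ o.1 : ℝ))) := by
          refine mul_le_mul_of_nonneg_left ?_ (by positivity)
          refine tup.trans (mul_le_mul_of_nonneg_right ?_ q0.le)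
          rw [le_div_iff₀ hθ]
          nlinarith
      _ = K⁻¹ ^ (∑ i, ((d i : ℝ) + 1) / 2) *
          (2 : ℝ) ^ (-(∑ i, ((d i : ℝ) + 1) / 2 * κ i)) := by
          rw [hZ', hK₂, Real.inv_rpow hKpos.le]
          field_simp
  have s2 : SS (Nv o y) (y o) ≤ K₂ * Z := by
    unfold SS
    rw [div_le_iff₀ tpos]
    have h4 : ∏ i, (pN (Nv o y) (y o) i) ^ ((((d i : ℕ) : ℝ) + 1) / 2) ≤
        K ^ (∑ i, ((d i : ℝ) + 1) / 2) *
        (2 : ℝ) ^ (-(∑ i, ((d i : ℝ) + 1) / 2 * κ i)) := by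
      rw [← prodpow K hKpos κ (fun i => ((d i : ℝ) + 1) / 2)]
      exact Finset.prod_le_prod (fun i _ => Real.rpow_nonneg (ppos i).le _) fun i _ =>
        Real.rpow_le_rpow (ppos i).le (hp i).2 (by positivity)
    refine h4.trans ?_
    calc K ^ (∑ i, ((d i : ℝ) + 1) / 2) * (2 : ℝ) ^ (-(∑ i, ((d i : ℝ) + 1) / 2 * κ i)) =
          K₂ * Z * (θ / 2 * (2 : ℝ) ^ (-(κ o.1 : ℝ))) := by
          rw [hZ', hK₂]
          field_simp
      _ ≤ K₂ * Z * tN (Nv o y) (y o) := mul_le_mul_of_nonneg_left tlow (by positivity)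
  have SSpos : 0 < SS (Nv o y) (y o) := lt_of_lt_of_le (by positivity) s1
  have g3 : K₂ ^ (-|e|) * (2 : ℝ) ^ (e * ((κ o.1 : ℝ) - ∑ i, ((d i : ℝ) + 1) * κ i / 2)) ≤
      (SS (Nv o y) (y o)) ^ e := by
    have h4 : (2 : ℝ) ^ (e * ((κ o.1 : ℝ) - ∑ i, ((d i : ℝ) + 1) * κ i / 2)) = Z ^ e := by
      rw [hZ, ← Real.rpow_mul two_pos.le]
      congr 1
      ring
    rw [h4]
    rcases le_or_gt 0 e with h5 | h5
    · rw [abs_of_nonneg h5, Real.rpow_neg hK₂p.le, ← Real.inv_rpow hK₂p.le,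
        ← Real.mul_rpow (by positivity) Zpos.le]
      exact Real.rpow_le_rpow (by positivity) s1 h5
    · rw [abs_of_neg h5, neg_neg, ← Real.mul_rpow hK₂p.le Zpos.le]
      exact Real.rpow_le_rpow_of_nonpos SSpos s2 h5.le
  -- assembly
  have key : c₃ * c₂ * K⁻¹ ^ (∑ i, (D : ℝ) * β i) * K₂ ^ (-|e|) *
      (Real.exp (-(C₁ * K ^ (∑ i, ga d β i) * XX d β n κ)) *
        ((2 : ℝ) ^ (-((D : ℝ) * ∑ i, β i * κ i)) *
          (2 : ℝ) ^ (e * ((κ o.1 : ℝ) - ∑ i, ((d i : ℝ) + 1) * κ i / 2)))) ≤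
      Real.exp (-(C₁ * n * ∏ i, (pN (Nv o y) (y o) i) ^ (ga d β i))) * c₃ *
        (c₂ * ((∏ i, (pN (Nv o y) (y o) i) ^ ((D : ℝ) * β i)) *
          (SS (Nv o y) (y o)) ^ e)) := by
    have hA := Real.exp_pos (-(C₁ * K ^ (∑ i, ga d β i) * XX d β n κ))
    have hB : 0 < K⁻¹ ^ (∑ i, (D : ℝ) * β i) * (2 : ℝ) ^ (-((D : ℝ) * ∑ i, β i * κ i)) :=
      mul_pos (Real.rpow_pos_of_pos (inv_pos.2 hKpos) _) (pw _)
    have hCc : 0 < K₂ ^ (-|e|) *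
        (2 : ℝ) ^ (e * ((κ o.1 : ℝ) - ∑ i, ((d i : ℝ) + 1) * κ i / 2)) :=
      mul_pos (Real.rpow_pos_of_pos hK₂p _) (pw _)
    calc c₃ * c₂ * K⁻¹ ^ (∑ i, (D : ℝ) * β i) * K₂ ^ (-|e|) *
      (Real.exp (-(C₁ * K ^ (∑ i, ga d β i) * XX d β n κ)) *
        ((2 : ℝ) ^ (-((D : ℝ) * ∑ i, β i * κ i)) *
          (2 : ℝ) ^ (e * ((κ o.1 : ℝ) - ∑ i, ((d i : ℝ) + 1) * κ i / 2)))) =
        Real.exp (-(C₁ * K ^ (∑ i, ga d β i) * XX d β n κ)) * c₃ * (c₂ *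
          ((K⁻¹ ^ (∑ i, (D : ℝ) * β i) * (2 : ℝ) ^ (-((D : ℝ) * ∑ i, β i * κ i))) *
          (K₂ ^ (-|e|) *
            (2 : ℝ) ^ (e * ((κ o.1 : ℝ) - ∑ i, ((d i : ℝ) + 1) * κ i / 2))))) := by ring
      _ ≤ _ := by
        refine mul_le_mul (mul_le_mul_of_nonneg_right g1' hc₃p.le) ?_ (by positivity)
          (by positivity)
        refine mul_le_mul_of_nonneg_left ?_ hc₂.le
        exact mul_le_mul g2 g3 hCc.le (hB.le.trans g2)
  refine (ENNReal.ofReal_le_ofReal key).trans ?_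
  rw [ENNReal.ofReal_mul (by positivity), ENNReal.ofReal_mul (by positivity)]
  exact mul_le_mul' (mul_le_mul' h1 h3) h2

end RP
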