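import Pool.Agent.H6.RP.C0
import Pool.Agent.H6.RP.C5b

/-! C5: lower bound for the facet integral by dyadic terms.

Proof.  `Fint` is at least the sum over `κ ∈ K` of the integrals over the disjoint measurable boxes `Lbox θ o κ ⊆ Yreg o`; each is at least
(lower bound of the integrand) × (volume).  Exponent identity (`j = o.1`):
`-κ_j + ∑_{i≠j} d_i (κ_i - κ_j) - D ∑ β_i κ_i + (D+1+b)(κ_j - ∑ (d_i+1) κ_i /2) = - D ∑ γ_i κ_i + b κ_j + ∑ α_i κ_i`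
(`γ_i = (d_i+1)/2 + β_i`, `α_i = ((d_i-1) - b(d_i+1))/2`, `D = ∑ d_i`), and `n^D 2^{-D∑γκ} = XX^D`. -/

open MeasureTheory
open scoped ENNReal

namespace RP

variable {m : ℕ} {d : Fin m → ℕ} {β : Fin m → ℝ}

theorem exp_identity (b : ℝ) (j : Fin m) (κ : Fin m → ℕ) :
    (-(κ j : ℝ) + ∑ i ∈ Finset.univ.erase j, (d i : ℝ) * ((κ i : ℝ) - κ j)) -
        ((∑ i, d i : ℕ) : ℝ) * ∑ i, β i * κ i +
        (((∑ i, d i : ℕ) : ℝ) + 1 + b) * (κ j - ∑ i, ((d i : ℝ) + 1) * κ i / 2) =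
      -(((∑ i, d i : ℕ) : ℝ) * ∑ i, ga d β i * κ i) + (b * κ j + ∑ i, al d b i * κ i) := by
  have h1 : ∑ i ∈ Finset.univ.erase j, (d i : ℝ) * ((κ i : ℝ) - κ j) =
      ∑ i, (d i : ℝ) * κ i - (∑ i, (d i : ℝ)) * κ j := by
    have h2 : ∑ i, (d i : ℝ) * ((κ i : ℝ) - κ j) =
        ∑ i ∈ Finset.univ.erase j, (d i : ℝ) * ((κ i : ℝ) - κ j) := by
      rw [← Finset.add_sum_erase _ _ (Finset.mem_univ j)]
      simp
    rw [← h2, Finset.sum_mul, ← Finset.sum_sub_distrib]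
    apply Finset.sum_congr rfl
    intro i _
    ring
  have h3 : ∑ i, ga d β i * κ i = ∑ i, ((d i : ℝ) + 1) * κ i / 2 + ∑ i, β i * κ i := by
    rw [← Finset.sum_add_distrib]
    apply Finset.sum_congr rfl
    intro i _
    unfold ga
    ring
  have h4 : ∑ i, al d b i * κ i = ∑ i, (d i : ℝ) * κ i - (1 + b) * ∑ i, ((d i : ℝ) + 1) * κ i / 2 := by
    rw [Finset.mul_sum, ← Finset.sum_sub_distrib]
    apply Finset.sum_congr rfl
    intro i _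
    unfold al
    ring
  rw [h1, h3, h4]
  push_cast
  ring

theorem low_box (hm : 0 < m) (hd : ∀ i, 1 ≤ d i) (hβ : ∀ i, 0 ≤ β i) (a b : ℝ) (o : Ix d) :
    ∃ c C : ℝ, 0 < c ∧ 0 < C ∧ ∀ n : ℕ, (∑ i, d i) + 1 ≤ n → ∀ K : Finset (Fin m → ℕ),
      (∀ κ ∈ K, ∀ i, κ i ≤ κ o.1) →
      ENNReal.ofReal c * ∑ κ ∈ K, ENNReal.ofReal (termS d β b o.1 C n κ) ≤
        ENNReal.ofReal ((n : ℝ) ^ (∑ i, d i)) * Fint β a b n o := by
  classical
  obtain ⟨θ, c₁, C, hθ, hθ', hc₁, hC, hint⟩ := lbox_integrand (d := d) (β := β) hm hd hβ a b o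
  obtain ⟨c₂, hc₂, hvol⟩ := lbox_vol (d := d) hd θ hθ hθ' o
  refine ⟨c₁ * c₂, C, by positivity, hC, ?_⟩
  intro n hn K hK
  have hn1 : 1 ≤ n := by omega
  have hn0 : (0 : ℝ) < n := by exact_mod_cast hn1
  -- the integral over one box
  have hone : ∀ κ ∈ K, ENNReal.ofReal (c₁ * c₂) * ENNReal.ofReal (termS d β b o.1 C n κ) ≤
      ENNReal.ofReal ((n : ℝ) ^ (∑ i, d i)) *
        ∫⁻ y in Lbox θ o κ, Qn β n o y * ENNReal.ofReal |y o| ^ a * Sec β b o y := by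
    intro κ hκ
    have hκ' := hK κ hκ
    have hX := XX_pos (d := d) (β := β) hn1 κ
    set L : ℝ := c₁ * (Real.exp (-(C * XX d β n κ)) *
        ((2 : ℝ) ^ (-(((∑ i, d i : ℕ) : ℝ) * ∑ i, β i * κ i)) *
          (2 : ℝ) ^ ((((∑ i, d i : ℕ) : ℝ) + 1 + b) * (κ o.1 - ∑ i, ((d i : ℝ) + 1) * κ i / 2)))) with hL
    have hL0 : 0 ≤ L := by rw [hL]; positivity
    have h1 : ENNReal.ofReal L * volume (Lbox θ o κ) ≤
        ∫⁻ y in Lbox θ o κ, Qn β n o y * ENNReal.ofReal |y o| ^ a * Sec β b o y := by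
      rw [← setLIntegral_const]
      apply setLIntegral_mono' (lbox_meas θ o κ)
      intro y hy
      exact hint n hn κ hκ' y hy
    have h2 := hvol κ hκ'
    have h3 : ENNReal.ofReal (c₁ * c₂) * ENNReal.ofReal (termS d β b o.1 C n κ) =
        ENNReal.ofReal ((n : ℝ) ^ (∑ i, d i)) * (ENNReal.ofReal L *
          ENNReal.ofReal (c₂ * (2 : ℝ) ^ (-(κ o.1 : ℝ) +
            ∑ i ∈ Finset.univ.erase o.1, (d i : ℝ) * ((κ i : ℝ) - κ o.1)))) := by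
      rw [← ENNReal.ofReal_mul hL0, ← ENNReal.ofReal_mul (by positivity), ← ENNReal.ofReal_mul (by positivity)]
      congr 1
      rw [hL]
      have h4 : (2 : ℝ) ^ (-(κ o.1 : ℝ) + ∑ i ∈ Finset.univ.erase o.1, (d i : ℝ) * ((κ i : ℝ) - κ o.1)) *
          ((2 : ℝ) ^ (-(((∑ i, d i : ℕ) : ℝ) * ∑ i, β i * κ i)) *
          (2 : ℝ) ^ ((((∑ i, d i : ℕ) : ℝ) + 1 + b) * (κ o.1 - ∑ i, ((d i : ℝ) + 1) * κ i / 2))) =
          (2 : ℝ) ^ (-(((∑ i, d i : ℕ) : ℝ) * ∑ i, ga d β i * κ i)) *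
            (2 : ℝ) ^ (b * κ o.1 + ∑ i, al d b i * κ i) := by
        rw [← Real.rpow_add (by norm_num), ← Real.rpow_add (by norm_num), ← Real.rpow_add (by norm_num)]
        congr 1
        rw [← exp_identity]
        ring
      have h5 : (n : ℝ) ^ (∑ i, d i) * (2 : ℝ) ^ (-(((∑ i, d i : ℕ) : ℝ) * ∑ i, ga d β i * κ i)) =
          (XX d β n κ) ^ ((∑ i, d i : ℕ) : ℝ) := by
        unfold XX
        rw [Real.mul_rpow hn0.le (by positivity), Real.rpow_natCast, ← Real.rpow_mul (by norm_num)]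
        congr 2
        ring
      unfold termS
      rw [← h5]
      calc c₁ * c₂ * ((n : ℝ) ^ (∑ i, d i) * (2 : ℝ) ^ (-(((∑ i, d i : ℕ) : ℝ) * ∑ i, ga d β i * κ i)) *
            Real.exp (-(C * XX d β n κ)) * (2 : ℝ) ^ (b * κ o.1 + ∑ i, al d b i * κ i))
          = (n : ℝ) ^ (∑ i, d i) * (c₁ * c₂ * Real.exp (-(C * XX d β n κ))) *
            ((2 : ℝ) ^ (-(((∑ i, d i : ℕ) : ℝ) * ∑ i, ga d β i * κ i)) *
            (2 : ℝ) ^ (b * κ o.1 + ∑ i, al d b i * κ i)) := by ring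
        _ = _ := by rw [← h4]; ring
    rw [h3]
    gcongr
    refine le_trans ?_ h1
    gcongr
  calc ENNReal.ofReal (c₁ * c₂) * ∑ κ ∈ K, ENNReal.ofReal (termS d β b o.1 C n κ)
      = ∑ κ ∈ K, ENNReal.ofReal (c₁ * c₂) * ENNReal.ofReal (termS d β b o.1 C n κ) := Finset.mul_sum _ _ _
    _ ≤ ∑ κ ∈ K, ENNReal.ofReal ((n : ℝ) ^ (∑ i, d i)) *
        ∫⁻ y in Lbox θ o κ, Qn β n o y * ENNReal.ofReal |y o| ^ a * Sec β b o y := Finset.sum_le_sum hone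
    _ = ENNReal.ofReal ((n : ℝ) ^ (∑ i, d i)) * ∑ κ ∈ K,
        ∫⁻ y in Lbox θ o κ, Qn β n o y * ENNReal.ofReal |y o| ^ a * Sec β b o y := (Finset.mul_sum _ _ _).symm
    _ = ENNReal.ofReal ((n : ℝ) ^ (∑ i, d i)) *
        ∫⁻ y in ⋃ κ ∈ K, Lbox θ o κ, Qn β n o y * ENNReal.ofReal |y o| ^ a * Sec β b o y := by
        rw [lintegral_biUnion_finset]
        · intro κ hκ κ' hκ' hne
          exact lbox_disj θ hθ o κ κ' hne
        · intro κ _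
          exact lbox_meas θ o κ
    _ ≤ _ := by
        unfold Fint
        gcongr
        exact Set.iUnion₂_subset fun κ hκ => lbox_sub θ hθ hθ' o κ (hK κ hκ)

end RP
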