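import Pool.Agent.H6.RP.Core

/-! C5a: the dyadic boxes of hyperplanes for the lower bound.

Proofs.  `j = o.1`, `N = Nv o y`, `s_i = sN N i`; `s_j ≥ 1` because `N o = 1`.
`lbox_sub`: `s_i ≤ θ 2^{κ_i - κ_j} ≤ θ ≤ 1 ≤ s_j`.  `lbox_disj`: `t` determines `κ_j`, then `s_i` determines `κ_i` (half-open shells; for
`κ_i = 0`: `s_i ≤ θ 2^{-κ_j}`, for `κ_i ≥ 1`: `s_i > θ 2^{κ_i - 1 - κ_j} ≥ θ 2^{-κ_j}`).
`lbox_vol`: the coordinates `y l`, `l.1 = j`, `l ≠ o`: all of `[-1,1]`.  Block `i ≠ j`, `ρ = θ 2^{κ_i - κ_j}`: the cube `|y l| ≤ ρ/√D` if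
`κ_i = 0` (or `D` in place of `√D`); if `κ_i ≥ 1` the box `y_0 ∈ (0.6 ρ, 0.8 ρ)`, `|y_l| ≤ ε ρ` (`l ≥ 1`, `D ε² ≤ 0.1`): then
`ρ²/4 < s_i² ≤ 0.64ρ² + 0.1ρ² ≤ ρ²`.  For fixed other coordinates `y o` ranges over the interval `∑ s_i - t`,
`t ∈ (θ 2^{-κ_j-1}, θ 2^{-κ_j}]` (and `y o ≥ 1 - θ > 0`), of length `θ 2^{-κ_j-1}`; Fubini (split off the coordinate `o`, e.g.
`volume_preserving_piEquivPiSubtypeProd` / `MeasurableEquiv.piFinSuccAbove`-type, or a shear). -/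

open MeasureTheory
open scoped ENNReal

namespace RP

variable {m : ℕ} {d : Fin m → ℕ} {β : Fin m → ℝ}

/-- dyadic box of hyperplanes -/
def Lbox (θ : ℝ) (o : Ix d) (κ : Fin m → ℕ) : Set (Ix d → ℝ) :=
  {y | (∀ l, |Nv o y ⟨o.1, l⟩| ≤ 1) ∧ 0 < y o ∧
    θ * (2 : ℝ) ^ (-(κ o.1 : ℝ) - 1) < tN (Nv o y) (y o) ∧ tN (Nv o y) (y o) ≤ θ * (2 : ℝ) ^ (-(κ o.1 : ℝ)) ∧
    ∀ i, i ≠ o.1 → (κ i = 0 → sN (Nv o y) i ≤ θ * (2 : ℝ) ^ (-(κ o.1 : ℝ))) ∧
      (κ i ≠ 0 → θ * (2 : ℝ) ^ ((κ i : ℝ) - κ o.1 - 1) < sN (Nv o y) i ∧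
        sN (Nv o y) i ≤ θ * (2 : ℝ) ^ ((κ i : ℝ) - κ o.1))}

lemma c5a_bsq_nonneg (x : Ix d → ℝ) (i : Fin m) : 0 ≤ bsq x i :=
  Finset.sum_nonneg fun _ _ => sq_nonneg _

lemma c5a_sN_sq (x : Ix d → ℝ) (i : Fin m) : (sN x i) ^ 2 = bsq x i :=
  Real.sq_sqrt (c5a_bsq_nonneg x i)

lemma c5a_one_le (o : Ix d) (y : Ix d → ℝ) : 1 ≤ bsq (Nv o y) o.1 := by
  have h1 : (Nv o y ⟨o.1, o.2⟩) ^ 2 ≤ bsq (Nv o y) o.1 :=
    Finset.single_le_sum (f := fun j => (Nv o y ⟨o.1, j⟩) ^ 2) (fun _ _ => sq_nonneg _) (Finset.mem_univ o.2)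
  have h2 : Nv o y ⟨o.1, o.2⟩ = 1 := by
    unfold Nv
    simp
  rw [h2, one_pow] at h1
  exact h1

lemma c5a_one_le' (o : Ix d) (y : Ix d → ℝ) : 1 ≤ sN (Nv o y) o.1 := by
  unfold sN
  rw [Real.one_le_sqrt]
  exact c5a_one_le o y

lemma c5a_pow_le_one (x : ℝ) (h : x ≤ 0) : (2 : ℝ) ^ x ≤ 1 := by
  exact Real.rpow_le_one_of_one_le_of_nonpos one_le_two h

theorem lbox_sub (θ : ℝ) (hθ : 0 < θ) (hθ' : θ ≤ 1 / 2) (o : Ix d) (κ : Fin m → ℕ) (hκ : ∀ i, κ i ≤ κ o.1) :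
    Lbox θ o κ ⊆ Yreg o := by
  rintro y ⟨h1, -, -, -, h5⟩
  refine ⟨h1, ?_⟩
  intro i
  by_cases hi : i = o.1
  · rw [hi]
  · have hs : sN (Nv o y) i ≤ 1 := by
      by_cases h0 : κ i = 0
      · refine ((h5 i hi).1 h0).trans ?_
        have h6 : (2 : ℝ) ^ (-(κ o.1 : ℝ)) ≤ 1 := by
          apply c5a_pow_le_one
          have : (0 : ℝ) ≤ κ o.1 := Nat.cast_nonneg _
          linarith
        nlinarith
      · refine ((h5 i hi).2 h0).2.trans ?_
        have h6 : (2 : ℝ) ^ ((κ i : ℝ) - κ o.1) ≤ 1 := by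
          apply c5a_pow_le_one
          have : (κ i : ℝ) ≤ κ o.1 := by exact_mod_cast hκ i
          linarith
        nlinarith
    have h0 : 0 ≤ sN (Nv o y) i := Real.sqrt_nonneg _
    have h7 : bsq (Nv o y) i ≤ 1 := by
      rw [← c5a_sN_sq]
      nlinarith
    exact h7.trans (c5a_one_le o y)

lemma c5a_shell (θ s : ℝ) (hθ : 0 < θ) (a b : ℝ) (h : a + 1 ≤ b) (h1 : s ≤ θ * (2 : ℝ) ^ a)
    (h2 : θ * (2 : ℝ) ^ (b - 1) < s) : False := by
  have h3 : (2 : ℝ) ^ a ≤ (2 : ℝ) ^ (b - 1) := by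
    apply Real.rpow_le_rpow_of_exponent_le one_le_two
    linarith
  nlinarith

theorem lbox_disj (θ : ℝ) (hθ : 0 < θ) (o : Ix d) (κ κ' : Fin m → ℕ) (h : κ ≠ κ') :
    Disjoint (Lbox θ o κ) (Lbox θ o κ') := by
  rw [Set.disjoint_left]
  rintro y ⟨-, -, h3, h4, h5⟩ ⟨-, -, h3', h4', h5'⟩
  have hj : κ o.1 = κ' o.1 := by
    rcases lt_trichotomy (κ o.1) (κ' o.1) with hlt | heq | hgt
    · exfalso
      refine c5a_shell θ _ hθ (-(κ' o.1 : ℝ)) (-(κ o.1 : ℝ)) ?_ h4' h3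
      have : (κ o.1 : ℝ) + 1 ≤ κ' o.1 := by exact_mod_cast hlt
      linarith
    · exact heq
    · exfalso
      refine c5a_shell θ _ hθ (-(κ o.1 : ℝ)) (-(κ' o.1 : ℝ)) ?_ h4 h3'
      have : (κ' o.1 : ℝ) + 1 ≤ κ o.1 := by exact_mod_cast hgt
      linarith
  apply h
  funext i
  by_cases hi : i = o.1
  · rw [hi, hj]
  rw [← hj] at h5'
  by_cases h0 : κ i = 0
  · by_cases h0' : κ' i = 0
    · rw [h0, h0']
    · exfalso
      refine c5a_shell θ _ hθ (-(κ o.1 : ℝ)) ((κ' i : ℝ) - κ o.1) ?_ ((h5 i hi).1 h0) ((h5' i hi).2 h0').1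
      have : (1 : ℝ) ≤ κ' i := by exact_mod_cast Nat.one_le_iff_ne_zero.mpr h0'
      linarith
  · by_cases h0' : κ' i = 0
    · exfalso
      refine c5a_shell θ _ hθ (-(κ o.1 : ℝ)) ((κ i : ℝ) - κ o.1) ?_ ((h5' i hi).1 h0') ((h5 i hi).2 h0).1
      have : (1 : ℝ) ≤ κ i := by exact_mod_cast Nat.one_le_iff_ne_zero.mpr h0
      linarith
    · rcases lt_trichotomy (κ i) (κ' i) with hlt | heq | hgt
      · exfalso
        refine c5a_shell θ _ hθ ((κ i : ℝ) - κ o.1) ((κ' i : ℝ) - κ o.1) ?_ ((h5 i hi).2 h0).2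
          ((h5' i hi).2 h0').1
        have : (κ i : ℝ) + 1 ≤ κ' i := by exact_mod_cast hlt
        linarith
      · exact heq
      · exfalso
        refine c5a_shell θ _ hθ ((κ' i : ℝ) - κ o.1) ((κ i : ℝ) - κ o.1) ?_ ((h5' i hi).2 h0').2
          ((h5 i hi).2 h0).1
        have : (κ' i : ℝ) + 1 ≤ κ i := by exact_mod_cast hgt
        linarith

lemma c5a_Nv_cont (o l : Ix d) : Continuous fun y : Ix d → ℝ => Nv o y l := by
  unfold Nv
  by_cases h : l = o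
  · simp only [if_pos h]; exact continuous_const
  · simp only [if_neg h]; exact (continuous_apply l).neg

lemma c5a_sN_cont (o : Ix d) (i : Fin m) : Continuous fun y : Ix d → ℝ => sN (Nv o y) i := by
  unfold sN bsq
  apply Continuous.sqrt
  apply continuous_finsetSum
  intro j _
  exact (c5a_Nv_cont o _).pow 2

lemma c5a_tN_cont (o : Ix d) : Continuous fun y : Ix d → ℝ => tN (Nv o y) (y o) := by
  unfold tN
  apply Continuous.sub
  · apply continuous_finsetSum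
    intro j _
    exact c5a_sN_cont o j
  · exact (continuous_apply o).abs

theorem lbox_meas (θ : ℝ) (o : Ix d) (κ : Fin m → ℕ) : MeasurableSet (Lbox θ o κ) := by
  unfold Lbox
  have hs : ∀ i, Measurable fun y : Ix d → ℝ => sN (Nv o y) i := fun i => (c5a_sN_cont o i).measurable
  have ht : Measurable fun y : Ix d → ℝ => tN (Nv o y) (y o) := (c5a_tN_cont o).measurable
  refine MeasurableSet.inter ?_ (MeasurableSet.inter ?_ (MeasurableSet.inter ?_ (MeasurableSet.inter ?_ ?_)))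
  · have : {y : Ix d → ℝ | ∀ l, |Nv o y ⟨o.1, l⟩| ≤ 1} = ⋂ l, {y | |Nv o y ⟨o.1, l⟩| ≤ 1} := by
      ext y; simp
    change MeasurableSet {y : Ix d → ℝ | ∀ l, |Nv o y ⟨o.1, l⟩| ≤ 1}
    rw [this]
    exact MeasurableSet.iInter fun l => measurableSet_le (c5a_Nv_cont o _).abs.measurable measurable_const
  · exact measurableSet_lt measurable_const (measurable_pi_apply o)
  · exact measurableSet_lt measurable_const ht
  · exact measurableSet_le ht measurable_const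
  · have : {y : Ix d → ℝ | ∀ i, i ≠ o.1 → (κ i = 0 → sN (Nv o y) i ≤ θ * (2 : ℝ) ^ (-(κ o.1 : ℝ))) ∧
      (κ i ≠ 0 → θ * (2 : ℝ) ^ ((κ i : ℝ) - κ o.1 - 1) < sN (Nv o y) i ∧
        sN (Nv o y) i ≤ θ * (2 : ℝ) ^ ((κ i : ℝ) - κ o.1))} =
        ⋂ i, {y : Ix d → ℝ | i ≠ o.1 → (κ i = 0 → sN (Nv o y) i ≤ θ * (2 : ℝ) ^ (-(κ o.1 : ℝ))) ∧
      (κ i ≠ 0 → θ * (2 : ℝ) ^ ((κ i : ℝ) - κ o.1 - 1) < sN (Nv o y) i ∧
        sN (Nv o y) i ≤ θ * (2 : ℝ) ^ ((κ i : ℝ) - κ o.1))} := by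
      ext y; simp
    change MeasurableSet {y : Ix d → ℝ | ∀ i, i ≠ o.1 → (κ i = 0 → sN (Nv o y) i ≤ θ * (2 : ℝ) ^ (-(κ o.1 : ℝ))) ∧
      (κ i ≠ 0 → θ * (2 : ℝ) ^ ((κ i : ℝ) - κ o.1 - 1) < sN (Nv o y) i ∧
        sN (Nv o y) i ≤ θ * (2 : ℝ) ^ ((κ i : ℝ) - κ o.1))}
    rw [this]
    refine MeasurableSet.iInter fun i => ?_
    by_cases hi : i = o.1
    · simp [hi]
    by_cases h0 : κ i = 0
    · simp only [ne_eq, hi, not_false_eq_true, h0, forall_const, not_true_eq_false, IsEmpty.forall_iff, and_true]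
      exact measurableSet_le (hs i) measurable_const
    · simp only [ne_eq, hi, not_false_eq_true, h0, forall_const, IsEmpty.forall_iff, true_and]
      exact (measurableSet_lt measurable_const (hs i)).inter (measurableSet_le (hs i) measurable_const)


/-- radius of the block -/
noncomputable def c5aRho (θ : ℝ) (o : Ix d) (κ : Fin m → ℕ) (i : Fin m) : ℝ := θ * (2 : ℝ) ^ ((κ i : ℝ) - κ o.1)

/-- lower end of the coordinates of a block -/
noncomputable def c5aLo (θ : ℝ) (o : Ix d) (κ : Fin m → ℕ) (i : Fin m) : ℝ :=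
  if i = o.1 then 0 else 3 / 5 * (c5aRho θ o κ i / Real.sqrt (d i))

/-- upper end of the coordinates of a block -/
noncomputable def c5aHi (θ : ℝ) (o : Ix d) (κ : Fin m → ℕ) (i : Fin m) : ℝ :=
  if i = o.1 then 1 else c5aRho θ o κ i / Real.sqrt (d i)

lemma c5aRho_pos (θ : ℝ) (hθ : 0 < θ) (o : Ix d) (κ : Fin m → ℕ) (i : Fin m) : 0 < c5aRho θ o κ i :=
  mul_pos hθ (Real.rpow_pos_of_pos two_pos _)

lemma c5a_block (hd : ∀ i, 1 ≤ d i) (θ : ℝ) (hθ : 0 < θ) (o : Ix d) (κ : Fin m → ℕ) (y : Ix d → ℝ)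
    (hy : ∀ l, l ≠ o → c5aLo θ o κ l.1 ≤ y l ∧ y l ≤ c5aHi θ o κ l.1) (i : Fin m) (hi : i ≠ o.1) :
    c5aRho θ o κ i / 2 < sN (Nv o y) i ∧ sN (Nv o y) i ≤ c5aRho θ o κ i := by
  have hρ := c5aRho_pos θ hθ o κ i
  set ρ := c5aRho θ o κ i with hρd
  have hdi : (0 : ℝ) < d i := by exact_mod_cast hd i
  have hsq : 0 < Real.sqrt (d i) := Real.sqrt_pos.mpr hdi
  have hsq2 : Real.sqrt (d i) ^ 2 = d i := Real.sq_sqrt hdi.le
  have hN : ∀ k : Fin (d i), (Nv o y ⟨i, k⟩) ^ 2 = (y ⟨i, k⟩) ^ 2 := by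
    intro k
    have hne : (⟨i, k⟩ : Ix d) ≠ o := fun h => hi (congrArg Sigma.fst h)
    unfold Nv
    rw [if_neg hne, neg_sq]
  have hb : bsq (Nv o y) i = ∑ k : Fin (d i), (y ⟨i, k⟩) ^ 2 := Finset.sum_congr rfl fun k _ => hN k
  have hk : ∀ k : Fin (d i), 3 / 5 * (ρ / Real.sqrt (d i)) ≤ y ⟨i, k⟩ ∧ y ⟨i, k⟩ ≤ ρ / Real.sqrt (d i) := by
    intro k
    have hne : (⟨i, k⟩ : Ix d) ≠ o := fun h => hi (congrArg Sigma.fst h)
    have := hy _ hne
    unfold c5aLo c5aHi at this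
    rwa [if_neg hi, if_neg hi] at this
  have hq : (ρ / Real.sqrt (d i)) ^ 2 * d i = ρ ^ 2 := by
    rw [div_pow, hsq2]
    field_simp
  have hup : bsq (Nv o y) i ≤ ρ ^ 2 := by
    rw [hb]
    calc ∑ k : Fin (d i), (y ⟨i, k⟩) ^ 2 ≤ ∑ k : Fin (d i), (ρ / Real.sqrt (d i)) ^ 2 := by
          apply Finset.sum_le_sum
          intro k _
          have h1 := (hk k).1
          have h2 := (hk k).2
          have h3 : 0 ≤ ρ / Real.sqrt (d i) := by positivity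
          apply pow_le_pow_left₀ _ h2
          linarith [mul_nonneg (by norm_num : (0 : ℝ) ≤ 3 / 5) h3]
      _ = ρ ^ 2 := by
          rw [Finset.sum_const, Finset.card_univ, Fintype.card_fin, nsmul_eq_mul, mul_comm]
          exact hq
  have hlo : (3 / 5 * ρ) ^ 2 ≤ bsq (Nv o y) i := by
    rw [hb]
    calc (3 / 5 * ρ) ^ 2 = ∑ k : Fin (d i), (3 / 5 * (ρ / Real.sqrt (d i))) ^ 2 := by
          rw [Finset.sum_const, Finset.card_univ, Fintype.card_fin, nsmul_eq_mul, mul_pow, mul_pow, ← hq]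
          ring
      _ ≤ ∑ k : Fin (d i), (y ⟨i, k⟩) ^ 2 := by
          apply Finset.sum_le_sum
          intro k _
          have h3 : 0 ≤ ρ / Real.sqrt (d i) := by positivity
          exact pow_le_pow_left₀ (by positivity) (hk k).1 2
  constructor
  · have h1 : 3 / 5 * ρ ≤ sN (Nv o y) i := by
      unfold sN
      exact Real.le_sqrt_of_sq_le hlo
    linarith
  · unfold sN
    rw [Real.sqrt_le_left hρ.le]
    exact hup

lemma c5a_mem (hd : ∀ i, 1 ≤ d i) (θ : ℝ) (hθ : 0 < θ) (hθ' : θ ≤ 1 / 2) (o : Ix d) (κ : Fin m → ℕ) (y : Ix d → ℝ)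
    (hy : ∀ l, l ≠ o → c5aLo θ o κ l.1 ≤ y l ∧ y l ≤ c5aHi θ o κ l.1)
    (h1 : (∑ i, sN (Nv o y) i) - θ * (2 : ℝ) ^ (-(κ o.1 : ℝ)) ≤ y o)
    (h2 : y o < (∑ i, sN (Nv o y) i) - θ * (2 : ℝ) ^ (-(κ o.1 : ℝ) - 1)) : y ∈ Lbox θ o κ := by
  have hS : 1 ≤ ∑ i, sN (Nv o y) i :=
    (c5a_one_le' o y).trans (Finset.single_le_sum (f := fun i => sN (Nv o y) i)
      (fun i _ => Real.sqrt_nonneg _) (Finset.mem_univ o.1))
  have h6 : (2 : ℝ) ^ (-(κ o.1 : ℝ)) ≤ 1 := by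
    apply c5a_pow_le_one
    have : (0 : ℝ) ≤ κ o.1 := Nat.cast_nonneg _
    linarith
  have h0 : 0 < y o := by nlinarith
  refine ⟨?_, h0, ?_, ?_, ?_⟩
  · intro l
    by_cases hl : (⟨o.1, l⟩ : Ix d) = o
    · unfold Nv
      rw [if_pos hl]
      simp
    · unfold Nv
      rw [if_neg hl, abs_neg]
      have := hy _ hl
      unfold c5aLo c5aHi at this
      rw [if_pos rfl, if_pos rfl] at this
      rw [abs_le]
      constructor <;> linarith [this.1, this.2]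
  · unfold tN
    rw [abs_of_pos h0]
    linarith
  · unfold tN
    rw [abs_of_pos h0]
    linarith
  · intro i hi
    have hb := c5a_block hd θ hθ o κ y hy i hi
    constructor
    · intro hk
      refine hb.2.trans ?_
      unfold c5aRho
      rw [hk]
      simp
    · intro _
      refine ⟨?_, hb.2⟩
      refine lt_of_eq_of_lt ?_ hb.1
      unfold c5aRho
      rw [Real.rpow_sub_one two_ne_zero]
      ring

theorem lbox_vol (hd : ∀ i, 1 ≤ d i) (θ : ℝ) (hθ : 0 < θ) (hθ' : θ ≤ 1 / 2) (o : Ix d) :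
    ∃ c : ℝ, 0 < c ∧ ∀ κ : Fin m → ℕ, (∀ i, κ i ≤ κ o.1) →
      ENNReal.ofReal (c * (2 : ℝ) ^ (-(κ o.1 : ℝ) + ∑ i ∈ Finset.univ.erase o.1, (d i : ℝ) * ((κ i : ℝ) - κ o.1))) ≤
        volume (Lbox θ o κ) := by
  classical
  have hdi : ∀ i, (0 : ℝ) < d i := fun i => by exact_mod_cast hd i
  have hsq : ∀ i, 0 < Real.sqrt (d i) := fun i => Real.sqrt_pos.mpr (hdi i)
  refine ⟨θ / 2 * ∏ i ∈ Finset.univ.erase o.1, (2 / 5 * (θ / Real.sqrt (d i))) ^ (d i), ?_, ?_⟩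
  · have : ∀ i, 0 < 2 / 5 * (θ / Real.sqrt (d i)) := fun i => by have := hsq i; positivity
    have h2 := Finset.prod_pos (s := Finset.univ.erase o.1) fun i _ => pow_pos (this i) (d i)
    positivity
  intro κ hκ
  have hmp := (volume_preserving_piEquivPiSubtypeProd (fun _ : Ix d => ℝ) (fun l => l = o)).symm
  rw [← hmp.measure_preimage_equiv (Lbox θ o κ)]
  have hmeas : MeasurableSet ((MeasurableEquiv.piEquivPiSubtypeProd (fun _ : Ix d => ℝ) (fun l => l = o)).symm ⁻¹'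
    (Lbox θ o κ)) := (MeasurableEquiv.measurable _) (lbox_meas θ o κ)
  have hfinal : ∫⁻ v, (volume : Measure ({l : Ix d // l = o} → ℝ)) ((fun u => (u, v)) ⁻¹'
        ((MeasurableEquiv.piEquivPiSubtypeProd (fun _ : Ix d => ℝ) (fun l => l = o)).symm ⁻¹' (Lbox θ o κ)))
        ∂(volume : Measure ({l : Ix d // ¬ l = o} → ℝ)) ≤
      volume ((MeasurableEquiv.piEquivPiSubtypeProd (fun _ : Ix d => ℝ) (fun l => l = o)).symm ⁻¹' (Lbox θ o κ)) :=
    (Measure.prod_apply_symm (μ := (volume : Measure ({l : Ix d // l = o} → ℝ)))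
      (ν := (volume : Measure ({l : Ix d // ¬ l = o} → ℝ))) hmeas).ge
  -- the box
  let lo : {l : Ix d // ¬ l = o} → ℝ := fun l => c5aLo θ o κ l.1.1
  let hi : {l : Ix d // ¬ l = o} → ℝ := fun l => c5aHi θ o κ l.1.1
  let ℓ : ℝ := θ * (2 : ℝ) ^ (-(κ o.1 : ℝ)) / 2
  have hfib : ∀ v ∈ Set.Icc lo hi, ENNReal.ofReal ℓ ≤
      (volume : Measure ({l : Ix d // l = o} → ℝ)) ((fun u => (u, v)) ⁻¹'
        ((MeasurableEquiv.piEquivPiSubtypeProd (fun _ : Ix d => ℝ) (fun l => l = o)).symm ⁻¹' (Lbox θ o κ))) := by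
    intro v hv
    let y0 : ({l : Ix d // l = o} → ℝ) → Ix d → ℝ := fun u =>
      (MeasurableEquiv.piEquivPiSubtypeProd (fun _ : Ix d => ℝ) (fun l => l = o)).symm (u, v)
    have hyo : ∀ u, y0 u o = u ⟨o, rfl⟩ := by
      intro u
      change (if h : o = o then u ⟨o, h⟩ else v ⟨o, h⟩) = _
      rw [dif_pos rfl]
    have hyl : ∀ u l (hl : ¬ l = o), y0 u l = v ⟨l, hl⟩ := by
      intro u l hl
      change (if h : l = o then u ⟨l, h⟩ else v ⟨l, h⟩) = _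
      rw [dif_neg hl]
    have hN : ∀ u u', Nv o (y0 u) = Nv o (y0 u') := by
      intro u u'
      funext l
      unfold Nv
      by_cases hl : l = o
      · rw [if_pos hl, if_pos hl]
      · rw [if_neg hl, if_neg hl, hyl u l hl, hyl u' l hl]
    let S0 : ℝ := ∑ i, sN (Nv o (y0 0)) i
    have hsub : (Set.univ.pi fun _ : {l : Ix d // l = o} =>
        Set.Ico (S0 - θ * (2 : ℝ) ^ (-(κ o.1 : ℝ))) (S0 - θ * (2 : ℝ) ^ (-(κ o.1 : ℝ) - 1))) ⊆
        (fun u => (u, v)) ⁻¹' ((MeasurableEquiv.piEquivPiSubtypeProd (fun _ : Ix d => ℝ)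
          (fun l => l = o)).symm ⁻¹' (Lbox θ o κ)) := by
      intro u hu
      have huo := hu ⟨o, rfl⟩ (Set.mem_univ _)
      change y0 u ∈ Lbox θ o κ
      apply c5a_mem hd θ hθ hθ' o κ
      · intro l hl
        rw [hyl u l hl]
        exact ⟨hv.1 ⟨l, hl⟩, hv.2 ⟨l, hl⟩⟩
      · rw [hN u 0, hyo]
        exact huo.1
      · rw [hN u 0, hyo]
        exact huo.2
    refine le_trans ?_ (measure_mono hsub)
    rw [Real.volume_pi_Ico, Finset.prod_const, Finset.card_univ, Fintype.card_unique, pow_one]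
    apply ENNReal.ofReal_le_ofReal
    rw [Real.rpow_sub_one two_ne_zero]
    simp only [ℓ]
    apply le_of_eq
    ring
  have hvol : (volume : Measure ({l : Ix d // ¬ l = o} → ℝ)) (Set.Icc lo hi) =
      ENNReal.ofReal (∏ i ∈ Finset.univ.erase o.1, (2 / 5 * (c5aRho θ o κ i / Real.sqrt (d i))) ^ (d i)) := by
    let g : Ix d → ℝ := fun l => if l.1 = o.1 then 1 else 2 / 5 * (c5aRho θ o κ l.1 / Real.sqrt (d l.1))
    have hg : ∀ l : {l : Ix d // ¬ l = o}, hi l - lo l = g l.1 := by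
      intro l
      simp only [hi, lo, g]
      unfold c5aHi c5aLo
      split_ifs
      · ring
      · ring
    have hg0 : ∀ l, 0 ≤ g l := by
      intro l
      simp only [g]
      split_ifs
      · exact zero_le_one
      · have h1 := c5aRho_pos θ hθ o κ l.1
        have h2 := hsq l.1
        positivity
    rw [Real.volume_Icc_pi]
    simp only [hg]
    rw [← ENNReal.ofReal_prod_of_nonneg (fun l _ => hg0 l.1)]
    congr 1
    rw [← Finset.prod_subtype (Finset.univ.erase o) (p := fun l => ¬ l = o) (f := g) (by intro x; simp)]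
    rw [Finset.prod_erase _ (by simp [g])]
    rw [Fintype.prod_sigma]
    have h1 : ∀ i : Fin m, ∏ k : Fin (d i), g ⟨i, k⟩ =
        if i = o.1 then 1 else (2 / 5 * (c5aRho θ o κ i / Real.sqrt (d i))) ^ (d i) := by
      intro i
      simp only [g]
      rw [Finset.prod_const, Finset.card_univ, Fintype.card_fin]
      split_ifs
      · exact one_pow _
      · rfl
    simp only [h1]
    rw [← Finset.prod_erase (f := fun i => if i = o.1 then (1 : ℝ) else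
      (2 / 5 * (c5aRho θ o κ i / Real.sqrt (d i))) ^ (d i)) (s := Finset.univ) (a := o.1) (by simp)]
    apply Finset.prod_congr rfl
    intro i hi
    rw [if_neg (Finset.ne_of_mem_erase hi)]
  have hfinal' := hfinal
  rw [Subsingleton.elim (Fintype.subtypeEq o : Fintype {l : Ix d // l = o}) (Subtype.fintype fun l => l = o)] at hfinal'
  refine le_trans ?_ hfinal'
  rw [← Subsingleton.elim (Fintype.subtypeEq o : Fintype {l : Ix d // l = o}) (Subtype.fintype fun l => l = o)]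
  calc _ = ENNReal.ofReal ℓ * ENNReal.ofReal (∏ i ∈ Finset.univ.erase o.1,
          (2 / 5 * (c5aRho θ o κ i / Real.sqrt (d i))) ^ (d i)) := by
        rw [← ENNReal.ofReal_mul (by positivity)]
        congr 1
        have h1 : ∀ i, (2 / 5 * (c5aRho θ o κ i / Real.sqrt (d i))) ^ (d i) =
            (2 / 5 * (θ / Real.sqrt (d i))) ^ (d i) * (2 : ℝ) ^ ((d i : ℝ) * ((κ i : ℝ) - κ o.1)) := by
          intro i
          rw [mul_comm (d i : ℝ), Real.rpow_mul two_pos.le, Real.rpow_natCast, ← mul_pow]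
          congr 1
          unfold c5aRho
          ring
        simp only [h1]
        rw [Finset.prod_mul_distrib, Real.rpow_add two_pos, Real.rpow_sum_of_pos two_pos]
        simp only [ℓ]
        ring
    _ = ∫⁻ v in Set.Icc lo hi, ENNReal.ofReal ℓ := by
        rw [setLIntegral_const, hvol]
    _ ≤ ∫⁻ v in Set.Icc lo hi, (volume : Measure ({l : Ix d // l = o} → ℝ)) ((fun u => (u, v)) ⁻¹'
        ((MeasurableEquiv.piEquivPiSubtypeProd (fun _ : Ix d => ℝ) (fun l => l = o)).symm ⁻¹' (Lbox θ o κ))) :=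
        setLIntegral_mono' measurableSet_Icc hfib
    _ ≤ _ := setLIntegral_le_lintegral _ _

end RP
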