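import Mathlib

/-! C6: a large family of dyadic scales with `X` of order one.

Proof.  `Z = univ \ {j} \ A \ B`, `Γ = γ_j + ∑_{i∈B} γ_i`, `λ = log n / log 2`, `ε = 1/(4 (1 + Γ + ∑ γ_i))` or similar.  For every
`f : Z → {0, …, ⌊ε λ⌋}` let `κ_i = f_i` on `Z`, `0` on `A`, `κ_i = κ_j = k := ⌊(λ - ∑_{i∈Z} γ_i f_i)/Γ⌋` on `B ∪ {j}`.  Then
`0 ≤ λ - ∑ γ_i κ_i < Γ`, so `X = n 2^{-∑γκ} ∈ [1, 2^Γ)`, and `k ≥ (λ (1 - ε ∑γ))/Γ - 1 ≥ ε λ ≥ f_i` for large `n`.  The number of `f` is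
`(⌊ελ⌋ + 1)^{|Z|} ≥ (ε λ)^{|Z|}`, and `f ↦ κ` is injective. -/

open scoped ENNReal

namespace RP

open Classical in
theorem c6_family {m : ℕ} (Z A W : Finset (Fin m)) (hZA : Disjoint Z A) (hZW : Disjoint Z W) (hAW : Disjoint A W)
    (hun : ∀ i, i ∈ Z ∨ i ∈ A ∨ i ∈ W) (γ : Fin m → ℝ) (hγ : ∀ i, 0 < γ i)
    (lam G : ℝ) (hG0 : 0 < G) (hG : G = ∑ i ∈ W, γ i) (M : ℕ)
    (hM : G * M + (∑ i ∈ Z, γ i) * M + G ≤ lam) :
    ∃ K : Finset (Fin m → ℕ),
      (∀ κ ∈ K, (∀ i, ∀ j ∈ W, κ i ≤ κ j) ∧ (∀ i ∈ A, κ i = 0) ∧ (∀ i ∈ W, ∀ j ∈ W, κ i = κ j) ∧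
        0 ≤ lam - (∑ i, γ i * κ i) ∧ lam - (∑ i, γ i * κ i) ≤ G) ∧
      K.card = (M + 1) ^ Z.card := by
  obtain ⟨kf, hkf⟩ : ∃ kf : (Fin m → ℕ) → ℕ,
      kf = fun f => ⌊(lam - ∑ i ∈ Z, γ i * (f i : ℝ)) / G⌋₊ := ⟨_, rfl⟩
  obtain ⟨Φ, hΦ⟩ : ∃ Φ : (Fin m → ℕ) → (Fin m → ℕ),
      Φ = fun f i => if i ∈ Z then f i else if i ∈ A then 0 else kf f := ⟨_, rfl⟩
  obtain ⟨F, hF⟩ : ∃ F : Finset (Fin m → ℕ),
      F = Fintype.piFinset (fun i : Fin m => if i ∈ Z then Finset.range (M + 1) else {0}) := ⟨_, rfl⟩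
  have hFm : ∀ f ∈ F, (∀ i ∈ Z, f i ≤ M) ∧ ∀ i ∉ Z, f i = 0 := by
    intro f hf
    rw [hF, Fintype.mem_piFinset] at hf
    constructor
    · intro i hi
      have h1 := hf i
      rw [if_pos hi, Finset.mem_range] at h1
      omega
    · intro i hi
      have h1 := hf i
      rw [if_neg hi, Finset.mem_singleton] at h1
      exact h1
  have hinj : Set.InjOn Φ (F : Set (Fin m → ℕ)) := by
    intro f hf g hg hfg
    funext i
    by_cases hi : i ∈ Z
    · have h1 := congrFun hfg i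
      rw [hΦ] at h1
      simp only [if_pos hi] at h1
      exact h1
    · rw [(hFm f hf).2 i hi, (hFm g hg).2 i hi]
  refine ⟨F.image Φ, ?_, ?_⟩
  · intro κ hκ
    rw [Finset.mem_image] at hκ
    obtain ⟨f, hf, rfl⟩ := hκ
    obtain ⟨hf1, hf2⟩ := hFm f hf
    have hW : ∀ i ∈ W, Φ f i = kf f := by
      intro i hi
      rw [hΦ]
      have h1 : i ∉ Z := fun h => (Finset.disjoint_left.mp hZW h) hi
      have h2 : i ∉ A := fun h => (Finset.disjoint_left.mp hAW h) hi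
      simp only [if_neg h1, if_neg h2]
    have hA : ∀ i ∈ A, Φ f i = 0 := by
      intro i hi
      rw [hΦ]
      have h1 : i ∉ Z := fun h => (Finset.disjoint_left.mp hZA h) hi
      simp only [if_neg h1, if_pos hi]
    have hZ : ∀ i ∈ Z, Φ f i = f i := by
      intro i hi
      rw [hΦ]
      simp only [if_pos hi]
    have hsf : ∑ i ∈ Z, γ i * (f i : ℝ) ≤ (∑ i ∈ Z, γ i) * M := by
      rw [Finset.sum_mul]
      refine Finset.sum_le_sum fun i hi => ?_
      have : (f i : ℝ) ≤ M := by exact_mod_cast hf1 i hi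
      exact mul_le_mul_of_nonneg_left this (hγ i).le
    have hnn : 0 ≤ (lam - ∑ i ∈ Z, γ i * (f i : ℝ)) / G := by
      apply div_nonneg _ hG0.le
      have : 0 ≤ G * (M : ℝ) := by positivity
      linarith
    have hk1 : (kf f : ℝ) ≤ (lam - ∑ i ∈ Z, γ i * (f i : ℝ)) / G := by
      rw [hkf]
      exact Nat.floor_le hnn
    have hk2 : (lam - ∑ i ∈ Z, γ i * (f i : ℝ)) / G < (kf f : ℝ) + 1 := by
      rw [hkf]
      exact Nat.lt_floor_add_one _
    rw [le_div_iff₀ hG0] at hk1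
    rw [div_lt_iff₀ hG0] at hk2
    have hkM : M ≤ kf f := by
      have h1 : (M : ℝ) * G < ((kf f : ℝ) + 1) * G := by
        refine lt_of_le_of_lt ?_ hk2
        nlinarith
      have h2 : (M : ℝ) < (kf f : ℝ) + 1 := lt_of_mul_lt_mul_right h1 hG0.le
      have h3 : M < kf f + 1 := by exact_mod_cast h2
      omega
    have hsum : ∑ i, γ i * (Φ f i : ℝ) = ∑ i ∈ Z, γ i * (f i : ℝ) + G * kf f := by
      have h1 : ∀ i, γ i * (Φ f i : ℝ) =
          (if i ∈ Z then γ i * (f i : ℝ) else 0) + (if i ∈ W then γ i * (kf f : ℝ) else 0) := by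
        intro i
        rcases hun i with h2 | h2 | h2
        · have h3 : i ∉ W := fun h => (Finset.disjoint_left.mp hZW h2) h
          rw [if_pos h2, if_neg h3, hZ i h2, add_zero]
        · have h3 : i ∉ W := fun h => (Finset.disjoint_left.mp hAW h2) h
          have h4 : i ∉ Z := fun h => (Finset.disjoint_left.mp hZA h) h2
          rw [if_neg h3, if_neg h4, hA i h2]
          simp
        · have h3 : i ∉ Z := fun h => (Finset.disjoint_left.mp hZW h) h2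
          rw [if_neg h3, if_pos h2, hW i h2, zero_add]
      rw [Finset.sum_congr rfl fun i _ => h1 i, Finset.sum_add_distrib, Finset.sum_ite_mem,
        Finset.sum_ite_mem, Finset.univ_inter, Finset.univ_inter, hG, Finset.sum_mul]
    refine ⟨?_, hA, ?_, ?_, ?_⟩
    · intro i j hj
      rw [hW j hj]
      rcases hun i with h2 | h2 | h2
      · rw [hZ i h2]
        exact (hf1 i h2).trans hkM
      · rw [hA i h2]
        exact Nat.zero_le _
      · rw [hW i h2]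
    · intro i hi j hj
      rw [hW i hi, hW j hj]
    · rw [hsum]
      linarith
    · rw [hsum]
      linarith
  · rw [Finset.card_image_of_injOn hinj, hF, Fintype.card_piFinset]
    have h1 : ∀ i : Fin m, (if i ∈ Z then Finset.range (M + 1) else {0}).card =
        if i ∈ Z then M + 1 else 1 := by
      intro i
      by_cases hi : i ∈ Z
      · rw [if_pos hi, if_pos hi, Finset.card_range]
      · rw [if_neg hi, if_neg hi, Finset.card_singleton]
    rw [Finset.prod_congr rfl fun i _ => h1 i, Finset.prod_ite_mem, Finset.univ_inter,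
      Finset.prod_const]

open Classical in
theorem low_sum {m : ℕ} (j : Fin m) (A B : Finset (Fin m)) (hAj : j ∉ A) (hBj : j ∉ B) (hAB : Disjoint A B)
    (γ : Fin m → ℝ) (hγ : ∀ i, 0 < γ i) :
    ∃ c Γ : ℝ, 0 < c ∧ 1 ≤ Γ ∧ ∀ᶠ n : ℕ in Filter.atTop, ∃ K : Finset (Fin m → ℕ),
      (∀ κ ∈ K, (∀ i, κ i ≤ κ j) ∧ (∀ i ∈ A, κ i = 0) ∧ (∀ i ∈ B, κ i = κ j) ∧
        1 ≤ (n : ℝ) * (2 : ℝ) ^ (-(∑ i, γ i * κ i)) ∧ (n : ℝ) * (2 : ℝ) ^ (-(∑ i, γ i * κ i)) ≤ Γ) ∧
      c * (Real.log n) ^ (((Finset.univ.erase j) \ A) \ B).card ≤ (K.card : ℝ) := by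
  obtain ⟨Z, hZ⟩ : ∃ Z : Finset (Fin m), Z = ((Finset.univ.erase j) \ A) \ B := ⟨_, rfl⟩
  rw [← hZ]
  have hZm : ∀ i, i ∈ Z ↔ (i ≠ j ∧ i ∉ A) ∧ i ∉ B := by
    intro i
    rw [hZ]
    simp
  have hlog2 : 0 < Real.log 2 := Real.log_pos (by norm_num)
  obtain ⟨G, hG⟩ : ∃ G : ℝ, G = ∑ i ∈ insert j B, γ i := ⟨_, rfl⟩
  obtain ⟨S, hS⟩ : ∃ S : ℝ, S = ∑ i ∈ Z, γ i := ⟨_, rfl⟩
  have hG0 : 0 < G := by
    rw [hG]
    exact Finset.sum_pos (fun i _ => hγ i) ⟨j, Finset.mem_insert_self _ _⟩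
  have hS0 : 0 ≤ S := by
    rw [hS]
    exact Finset.sum_nonneg fun i _ => (hγ i).le
  obtain ⟨ε, hε⟩ : ∃ ε : ℝ, ε = 1 / (2 * (1 + S + G)) := ⟨_, rfl⟩
  have hε0 : 0 < ε := by
    rw [hε]
    positivity
  have hε1 : ε * (S + G) ≤ 1 / 2 := by
    rw [hε, one_div_mul_eq_div, div_le_iff₀ (by positivity)]
    linarith
  have hlim : Filter.Tendsto (fun n : ℕ => Real.log n / Real.log 2) Filter.atTop Filter.atTop :=
    (Real.tendsto_log_atTop.comp tendsto_natCast_atTop_atTop).atTop_div_const hlog2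
  refine ⟨(ε / Real.log 2) ^ Z.card, (2 : ℝ) ^ G, by positivity,
    Real.one_le_rpow (by norm_num) hG0.le, ?_⟩
  filter_upwards [hlim.eventually_ge_atTop (2 * G), Filter.eventually_ge_atTop 1] with n hn hn1
  have hn0 : (0 : ℝ) < n := by exact_mod_cast hn1
  have hlam0 : 0 ≤ Real.log n / Real.log 2 := le_trans (by positivity) hn
  obtain ⟨lam, hlam⟩ : ∃ lam : ℝ, lam = Real.log n / Real.log 2 := ⟨_, rfl⟩
  rw [← hlam] at hn hlam0
  have hnpow : (n : ℝ) = (2 : ℝ) ^ lam := by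
    rw [Real.rpow_def_of_pos (by norm_num), hlam, mul_div_cancel₀ _ hlog2.ne', Real.exp_log hn0]
  have hMle : ((⌊ε * lam⌋₊ : ℕ) : ℝ) ≤ ε * lam := Nat.floor_le (by positivity)
  obtain ⟨K, hK1, hK2⟩ := c6_family Z A (insert j B)
    (by
      rw [Finset.disjoint_left]
      intro i hi
      exact ((hZm i).mp hi).1.2)
    (by
      rw [Finset.disjoint_left]
      intro i hi h2
      rcases Finset.mem_insert.mp h2 with h3 | h3
      · exact ((hZm i).mp hi).1.1 h3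
      · exact ((hZm i).mp hi).2 h3)
    (by
      rw [Finset.disjoint_left]
      intro i hi h2
      rcases Finset.mem_insert.mp h2 with h3 | h3
      · exact hAj (h3 ▸ hi)
      · exact (Finset.disjoint_left.mp hAB hi) h3)
    (by
      intro i
      by_cases h1 : i ∈ A
      · exact Or.inr (Or.inl h1)
      · by_cases h2 : i ∈ insert j B
        · exact Or.inr (Or.inr h2)
        · rw [Finset.mem_insert, not_or] at h2
          exact Or.inl ((hZm i).mpr ⟨⟨h2.1, h1⟩, h2.2⟩))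
    γ hγ lam G hG0 hG ⌊ε * lam⌋₊
    (by
      rw [← hS]
      have h1 : (S + G) * ((⌊ε * lam⌋₊ : ℕ) : ℝ) ≤ (S + G) * (ε * lam) :=
        mul_le_mul_of_nonneg_left hMle (by positivity)
      have h2 : (S + G) * (ε * lam) = (ε * (S + G)) * lam := by ring
      have h3 : (ε * (S + G)) * lam ≤ 1 / 2 * lam := mul_le_mul_of_nonneg_right hε1 hlam0
      nlinarith)
  refine ⟨K, ?_, ?_⟩
  · intro κ hκ
    obtain ⟨h1, h2, h3, h4, h5⟩ := hK1 κ hκ
    have hjW : j ∈ insert j B := Finset.mem_insert_self _ _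
    have hX : (n : ℝ) * (2 : ℝ) ^ (-(∑ i, γ i * κ i)) = (2 : ℝ) ^ (lam - ∑ i, γ i * κ i) := by
      rw [hnpow, ← Real.rpow_add (by norm_num)]
      rfl
    refine ⟨fun i => h1 i j hjW, h2, fun i hi => h3 i (Finset.mem_insert_of_mem hi) j hjW, ?_, ?_⟩
    · rw [hX]
      exact Real.one_le_rpow (by norm_num) h4
    · rw [hX]
      exact Real.rpow_le_rpow_of_exponent_le (by norm_num) h5
  · rw [hK2]
    push_cast
    rw [← mul_pow]
    refine pow_le_pow_left₀ ?_ ?_ _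
    · have : 0 ≤ Real.log n := Real.log_nonneg (by exact_mod_cast hn1)
      positivity
    · have h1 : ε / Real.log 2 * Real.log n = ε * lam := by
        rw [hlam]
        ring
      rw [h1]
      exact (Nat.lt_floor_add_one _).le

end RP
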