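import Pool.Agent.H6.RP.C4
import Pool.Agent.H6.RP.C5
import Pool.Agent.H6.RP.C6

/-! C7: the lower bound. -/

open MeasureTheory
open scoped ENNReal

namespace RP

variable {m : ℕ} {d : Fin m → ℕ} {β : Fin m → ℝ}

theorem termS_low (b : ℝ) (j : Fin m) (c : ℝ) (Γ : ℝ) (hc : 0 ≤ c) (hΓ : 1 ≤ Γ) {n : ℕ} (hn : 1 ≤ n) (κ : Fin m → ℕ)
    (h : b * κ j + ∑ i, al d b i * κ i = expo d β b * (∑ i, ga d β i * κ i))
    (h1 : 1 ≤ XX d β n κ) (h2 : XX d β n κ ≤ Γ) :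
    (n : ℝ) ^ (expo d β b) *
      (min 1 (Γ ^ (((∑ i, d i : ℕ) : ℝ) - expo d β b)) * Real.exp (-(c * Γ))) ≤ termS d β b j c n κ := by
  have hX := XX_pos (d := d) (β := β) hn κ
  have hΓ0 : 0 < Γ := by linarith
  have e1 : termS d β b j c n κ = (n : ℝ) ^ (expo d β b) *
      ((XX d β n κ) ^ (((∑ i, d i : ℕ) : ℝ) - expo d β b) * Real.exp (-(c * XX d β n κ))) := by
    unfold termS
    rw [h]
    calc (XX d β n κ) ^ ((∑ i, d i : ℕ) : ℝ) * Real.exp (-(c * XX d β n κ)) *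
          (2 : ℝ) ^ (expo d β b * (∑ i, ga d β i * κ i))
        = ((XX d β n κ) ^ ((∑ i, d i : ℕ) : ℝ) * (2 : ℝ) ^ (expo d β b * (∑ i, ga d β i * κ i))) *
            Real.exp (-(c * XX d β n κ)) := by ring
      _ = _ := by rw [XX_pow hn]; ring
  rw [e1]
  apply mul_le_mul_of_nonneg_left _ (by positivity)
  apply mul_le_mul
  · by_cases hp : 0 ≤ ((∑ i, d i : ℕ) : ℝ) - expo d β b
    · exact (min_le_left _ _).trans (Real.one_le_rpow h1 hp)
    · refine (min_le_right _ _).trans ?_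
      exact Real.rpow_le_rpow_of_nonpos hX h2 (not_le.mp hp).le
  · apply Real.exp_le_exp.mpr
    have := mul_le_mul_of_nonneg_left h2 hc
    linarith
  · positivity
  · positivity

theorem ET_low (hm : 0 < m) (hd : ∀ i, 1 ≤ d i) (hβ : ∀ i, 0 ≤ β i) (a b : ℝ) :
    ∃ c : ℝ, 0 < c ∧ ∀ᶠ n : ℕ in Filter.atTop, ENNReal.ofReal (c * gro d β b n) ≤ ET d β a b n := by
  classical
  have hD : 1 ≤ ∑ i, d i := by
    have h0 : d ⟨0, hm⟩ ≤ ∑ i, d i := Finset.single_le_sum (f := d) (fun i _ => Nat.zero_le _) (Finset.mem_univ _)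
    exact (hd _).trans h0
  obtain ⟨j, A, B, hAj, hBj, hAB, hcard, hexp⟩ := exp_low (d := d) (β := β) hm hd hβ b
  set o : Ix d := ⟨j, ⟨0, hd j⟩⟩ with ho
  obtain ⟨c₀, hc₀, h0⟩ := star_lower (d := d) (β := β) hβ hD a b o
  obtain ⟨c₁, C₁, hc₁, hC₁, h1⟩ := low_box (d := d) (β := β) hm hd hβ a b o
  have hγ : ∀ i, 0 < ga d β i := by
    intro i
    unfold ga
    have := hβ i
    positivity
  obtain ⟨c₂, Γ, hc₂, hΓ, h2⟩ := low_sum j A B hAj hBj hAB (ga d β) hγ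
  have hΓ0 : 0 < Γ := by linarith
  set q : ℝ := min 1 (Γ ^ (((∑ i, d i : ℕ) : ℝ) - expo d β b)) * Real.exp (-(C₁ * Γ)) with hq
  have hq0 : 0 < q := by
    have h3 : 0 < min 1 (Γ ^ (((∑ i, d i : ℕ) : ℝ) - expo d β b)) := lt_min one_pos (by positivity)
    have h4 := Real.exp_pos (-(C₁ * Γ))
    positivity
  refine ⟨c₀ * (c₁ * (q * c₂)), by positivity, ?_⟩
  filter_upwards [h2, Filter.eventually_ge_atTop ((∑ i, d i) + 1)] with n hn hnD
  obtain ⟨K, hK, hKc⟩ := hn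
  have hn1 : 1 ≤ n := by omega
  have hn0 : (0 : ℝ) < n := by exact_mod_cast hn1
  have hlog : 0 ≤ Real.log n := Real.log_natCast_nonneg n
  have hbox := h1 n hnD K (fun κ hκ => (hK κ hκ).1)
  have hterm : ∀ κ ∈ K, (n : ℝ) ^ (expo d β b) * q ≤ termS d β b j C₁ n κ := by
    intro κ hκ
    obtain ⟨_, hA, hB, hX1, hX2⟩ := hK κ hκ
    exact termS_low b j C₁ Γ hC₁.le hΓ hn1 κ (hexp κ hA hB) hX1 hX2
  have hsum : ENNReal.ofReal ((n : ℝ) ^ (expo d β b) * q * K.card) ≤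
      ∑ κ ∈ K, ENNReal.ofReal (termS d β b o.1 C₁ n κ) := by
    calc ENNReal.ofReal ((n : ℝ) ^ (expo d β b) * q * K.card)
        = ∑ κ ∈ K, ENNReal.ofReal ((n : ℝ) ^ (expo d β b) * q) := by
          rw [Finset.sum_const, nsmul_eq_mul, mul_comm ((n : ℝ) ^ (expo d β b) * q),
            ENNReal.ofReal_mul (by positivity)]
          simp
      _ ≤ _ := Finset.sum_le_sum fun κ hκ => ENNReal.ofReal_le_ofReal (hterm κ hκ)
  calc ENNReal.ofReal (c₀ * (c₁ * (q * c₂)) * gro d β b n)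
      ≤ ENNReal.ofReal (c₀ * (c₁ * ((n : ℝ) ^ (expo d β b) * q * K.card))) := by
        apply ENNReal.ofReal_le_ofReal
        unfold gro
        rw [hcard] at hKc
        have h5 : 0 ≤ c₀ * (c₁ * (q * (n : ℝ) ^ (expo d β b))) := by positivity
        have h6 := mul_le_mul_of_nonneg_left hKc h5
        calc _ = c₀ * (c₁ * (q * (n : ℝ) ^ (expo d β b))) * (c₂ * Real.log n ^ lexp d β b) := by ring
          _ ≤ _ := h6
          _ = _ := by ring
    _ = ENNReal.ofReal c₀ * (ENNReal.ofReal c₁ * ENNReal.ofReal ((n : ℝ) ^ (expo d β b) * q * K.card)) := by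
        rw [ENNReal.ofReal_mul hc₀.le, ENNReal.ofReal_mul hc₁.le]
    _ ≤ ENNReal.ofReal c₀ * (ENNReal.ofReal c₁ * ∑ κ ∈ K, ENNReal.ofReal (termS d β b o.1 C₁ n κ)) := by
        gcongr
    _ ≤ ENNReal.ofReal c₀ * (ENNReal.ofReal ((n : ℝ) ^ (∑ i, d i)) * Fint β a b n o) := by
        gcongr
    _ = ENNReal.ofReal (c₀ * (n : ℝ) ^ (∑ i, d i)) * Fint β a b n o := by
        rw [ENNReal.ofReal_mul hc₀.le, mul_assoc]
    _ ≤ _ := h0 n hnD

end RP
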