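import Pool.Agent.H6.RP.A9
import Pool.Agent.H6.RP.B4
import Pool.Agent.H6.RP.B8

/-! C8: divergence outside the range.

Proof.  Fix any `o`.  For `δ` small all `y` with `|y l| ≤ δ` lie in `Yreg o` (`δ ≤ 1/D` is enough: `bsq (Nv o y) i ≤ D δ² ≤ 1 ≤ bsq (Nv o y) o.1` for `i ≠ o.1`), and on this cube
`Qn ≥ c` (`q_pos`), `Sec ≥ c'` (`sec_center`).
`a ≤ -1`: `Fint ≥ c c' ∫_{|y l| ≤ δ} |y o|^a = ∞` (Fubini; `∫_{|u|≤δ} |u|^a du = ∞`).
`b ≤ -2`, `D ≥ 2`: `Sec = ⊤` on the cube, `Qn > 0`, `|y o|^a > 0` (for `y o ≠ 0`, `a > 0` allowed), the cube has positive volume, so `Fint = ⊤`.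
Then `star_lower`. -/

open MeasureTheory
open scoped ENNReal

namespace RP

variable {m : ℕ} {d : Fin m → ℕ} {β : Fin m → ℝ}

theorem C8_cube_sub (o : Ix d) (δ : ℝ) (hδ : 0 < δ) (hδ' : δ * ((∑ i, d i : ℕ) : ℝ) ≤ 1) (hδ1 : δ ≤ 1) :
    Set.pi Set.univ (fun _ : Ix d => Set.Ioc (0 : ℝ) δ) ⊆ Yreg o := by
  intro y hy
  have hy' : ∀ l, 0 < y l ∧ y l ≤ δ := fun l => hy l (Set.mem_univ l)
  have hone : ∀ l, |Nv o y l| ≤ 1 := by
    intro l
    unfold Nv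
    by_cases h : l = o
    · simp [h]
    · rw [if_neg h, abs_neg, abs_of_pos (hy' l).1]
      exact (hy' l).2.trans hδ1
  have hbig : 1 ≤ bsq (Nv o y) o.1 := by
    unfold bsq
    have h1 := Finset.single_le_sum (f := fun j : Fin (d o.1) => (Nv o y ⟨o.1, j⟩) ^ 2)
      (fun j _ => sq_nonneg _) (Finset.mem_univ o.2)
    have h2 : Nv o y ⟨o.1, o.2⟩ = 1 := by simp [Nv]
    simp only [h2, one_pow] at h1
    exact h1
  refine ⟨fun j => hone _, ?_⟩
  intro i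
  by_cases hi : i = o.1
  · rw [hi]
  · refine le_trans ?_ hbig
    unfold bsq
    have h3 : ∀ j : Fin (d i), (Nv o y ⟨i, j⟩) ^ 2 ≤ δ := by
      intro j
      have hne : (⟨i, j⟩ : Ix d) ≠ o := by
        intro h
        apply hi
        rw [← h]
      have h4 : Nv o y ⟨i, j⟩ = - y ⟨i, j⟩ := by simp [Nv, hne]
      rw [h4]
      obtain ⟨h5, h6⟩ := hy' ⟨i, j⟩
      nlinarith
    calc ∑ j : Fin (d i), (Nv o y ⟨i, j⟩) ^ 2 ≤ ∑ _j : Fin (d i), δ := Finset.sum_le_sum fun j _ => h3 j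
      _ = d i * δ := by simp
      _ ≤ ((∑ i, d i : ℕ) : ℝ) * δ := by
          apply mul_le_mul_of_nonneg_right _ hδ.le
          exact_mod_cast Finset.single_le_sum (f := d) (fun i _ => Nat.zero_le _) (Finset.mem_univ i)
      _ ≤ 1 := by linarith

theorem C8_rpow_top (a δ : ℝ) (ha : a ≤ -1) (hδ : 0 < δ) :
    ∫⁻ u in Set.Ioc (0 : ℝ) δ, ENNReal.ofReal |u| ^ a = ⊤ := by
  by_contra hne
  have hlt : ∫⁻ u in Set.Ioc (0 : ℝ) δ, ENNReal.ofReal |u| ^ a < ⊤ := lt_top_iff_ne_top.mpr hne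
  have h1 : ¬ IntegrableOn (fun x : ℝ => x ^ a) (Set.Ioo 0 δ) := by
    rw [intervalIntegral.integrableOn_Ioo_rpow_iff hδ]
    linarith
  apply h1
  refine ⟨?_, ?_⟩
  · exact (measurable_id.pow_const a).aestronglyMeasurable
  · unfold HasFiniteIntegral
    refine lt_of_le_of_lt ?_ hlt
    calc ∫⁻ u in Set.Ioo (0 : ℝ) δ, ‖u ^ a‖ₑ ≤ ∫⁻ u in Set.Ioo (0 : ℝ) δ, ENNReal.ofReal |u| ^ a := by
          apply setLIntegral_mono' measurableSet_Ioo
          intro u hu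
          rw [abs_of_pos hu.1, ENNReal.ofReal_rpow_of_pos hu.1, Real.enorm_eq_ofReal (by
            have := hu.1
            positivity)]
      _ ≤ _ := lintegral_mono_set Set.Ioo_subset_Ioc_self

theorem C8_cube_top {ι : Type*} [Fintype ι] [DecidableEq ι] (o : ι) (a δ : ℝ) (ha : a ≤ -1) (hδ : 0 < δ) :
    ∫⁻ y in Set.pi Set.univ (fun _ : ι => Set.Ioc (0 : ℝ) δ), ENNReal.ofReal |y o| ^ a = ⊤ := by
  have h1 : (volume : Measure (ι → ℝ)).restrict (Set.pi Set.univ fun _ : ι => Set.Ioc (0 : ℝ) δ) =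
      Measure.pi fun _ : ι => (volume : Measure ℝ).restrict (Set.Ioc (0 : ℝ) δ) := by
    rw [volume_pi, Measure.restrict_pi_pi]
  have hf : Measurable fun u : ℝ => ENNReal.ofReal |u| ^ a :=
    (ENNReal.measurable_ofReal.comp measurable_id.abs).pow_const a
  rw [h1]
  have h2 : ∫⁻ y, ENNReal.ofReal |y o| ^ a ∂(Measure.pi fun _ : ι => (volume : Measure ℝ).restrict (Set.Ioc (0 : ℝ) δ)) =
      ∫⁻ u, ENNReal.ofReal |u| ^ a
        ∂((Measure.pi fun _ : ι => (volume : Measure ℝ).restrict (Set.Ioc (0 : ℝ) δ)).map (Function.eval o)) := by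
    rw [lintegral_map hf (measurable_pi_apply o)]
  rw [h2, Measure.pi_map_eval, lintegral_smul_measure, C8_rpow_top a δ ha hδ]
  apply ENNReal.mul_top
  rw [Finset.prod_ne_zero_iff]
  intro j _
  simp [hδ]

theorem C8_common (hm : 0 < m) (hd : ∀ i, 1 ≤ d i) (hβ : ∀ i, 0 ≤ β i) (a b : ℝ) (n : ℕ)
    (hn : (∑ i, d i) + 1 ≤ n) (h : ∀ o : Ix d, Fint β a b n o = ⊤) : ET d β a b n = ⊤ := by
  have hD : 1 ≤ ∑ i, d i := by
    have h0 : d ⟨0, hm⟩ ≤ ∑ i, d i := Finset.single_le_sum (f := d) (fun i _ => Nat.zero_le _) (Finset.mem_univ _)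
    exact (hd _).trans h0
  let o : Ix d := ⟨⟨0, hm⟩, ⟨0, hd _⟩⟩
  obtain ⟨c, hc, h1⟩ := star_lower (d := d) (β := β) hβ hD a b o
  have h2 := h1 n hn
  rw [h o, ENNReal.mul_top] at h2
  · exact top_le_iff.mp h2
  · have hn0 : (0 : ℝ) < n := by exact_mod_cast (by omega : 0 < n)
    simp only [ne_eq, ENNReal.ofReal_eq_zero, not_le]
    positivity

theorem ET_top_a (hm : 0 < m) (hd : ∀ i, 1 ≤ d i) (hβ : ∀ i, 0 ≤ β i) (a b : ℝ) (ha : a ≤ -1) (n : ℕ)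
    (hn : (∑ i, d i) + 1 ≤ n) : ET d β a b n = ⊤ := by
  apply C8_common hm hd hβ a b n hn
  intro o
  have hD : 1 ≤ ∑ i, d i := by
    have h0 : d o.1 ≤ ∑ i, d i := Finset.single_le_sum (f := d) (fun i _ => Nat.zero_le _) (Finset.mem_univ _)
    exact (hd _).trans h0
  have hD0 : (0 : ℝ) < ((∑ i, d i : ℕ) : ℝ) := by exact_mod_cast hD
  have hD1 : (1 : ℝ) ≤ ((∑ i, d i : ℕ) : ℝ) := by exact_mod_cast hD
  obtain ⟨δ₁, hδ₁, hq⟩ := q_pos (d := d) (β := β) hm hd hβ o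
  obtain ⟨c₁, hc₁, hq'⟩ := hq n hn
  obtain ⟨δ₂, c₂, hδ₂, hc₂, hs, _⟩ := sec_center (d := d) (β := β) hβ b o
  set δ : ℝ := min (min δ₁ δ₂) (1 / ((∑ i, d i : ℕ) : ℝ)) with hδdef
  have hδ : 0 < δ := by
    rw [hδdef]
    exact lt_min (lt_min hδ₁ hδ₂) (by positivity)
  have hδ' : δ * ((∑ i, d i : ℕ) : ℝ) ≤ 1 := by
    have h1 : δ ≤ 1 / ((∑ i, d i : ℕ) : ℝ) := min_le_right _ _
    calc δ * ((∑ i, d i : ℕ) : ℝ) ≤ 1 / ((∑ i, d i : ℕ) : ℝ) * ((∑ i, d i : ℕ) : ℝ) :=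
          mul_le_mul_of_nonneg_right h1 hD0.le
      _ = 1 := by field_simp
  have hδ1 : δ ≤ 1 := by nlinarith
  have hsub := C8_cube_sub (d := d) o δ hδ hδ' hδ1
  have hle1 : δ ≤ δ₁ := (min_le_left _ _).trans (min_le_left _ _)
  have hle2 : δ ≤ δ₂ := (min_le_left _ _).trans (min_le_right _ _)
  rw [← top_le_iff]
  have hcube : MeasurableSet (Set.pi Set.univ (fun _ : Ix d => Set.Ioc (0 : ℝ) δ)) :=
    MeasurableSet.univ_pi fun _ => measurableSet_Ioc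
  calc (⊤ : ℝ≥0∞) = ENNReal.ofReal (c₁ * c₂) *
        ∫⁻ y in Set.pi Set.univ (fun _ : Ix d => Set.Ioc (0 : ℝ) δ), ENNReal.ofReal |y o| ^ a := by
        rw [C8_cube_top o a δ ha hδ, ENNReal.mul_top]
        simp only [ne_eq, ENNReal.ofReal_eq_zero, not_le]
        positivity
    _ = ∫⁻ y in Set.pi Set.univ (fun _ : Ix d => Set.Ioc (0 : ℝ) δ),
          ENNReal.ofReal (c₁ * c₂) * ENNReal.ofReal |y o| ^ a := by
        rw [lintegral_const_mul' _ _ ENNReal.ofReal_ne_top]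
    _ ≤ ∫⁻ y in Set.pi Set.univ (fun _ : Ix d => Set.Ioc (0 : ℝ) δ),
          Qn β n o y * ENNReal.ofReal |y o| ^ a * Sec β b o y := by
        apply setLIntegral_mono' hcube
        intro y hy
        have hy' : ∀ l, |y l| ≤ δ := by
          intro l
          have h1 := hy l (Set.mem_univ l)
          rw [abs_of_pos h1.1]
          exact h1.2
        have h1 := hq' y (fun l => (hy' l).trans hle1)
        have h2 := hs y (fun l => (hy' l).trans hle2)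
        calc ENNReal.ofReal (c₁ * c₂) * ENNReal.ofReal |y o| ^ a
            = ENNReal.ofReal c₁ * ENNReal.ofReal |y o| ^ a * ENNReal.ofReal c₂ := by
              rw [ENNReal.ofReal_mul hc₁.le]; ring
          _ ≤ _ := by gcongr
    _ ≤ _ := by
        unfold Fint
        exact lintegral_mono_set hsub

theorem ET_top_b (hm : 0 < m) (hd : ∀ i, 1 ≤ d i) (hβ : ∀ i, 0 ≤ β i) (a b : ℝ) (hb : b ≤ -2) (hD : 2 ≤ ∑ i, d i)
    (n : ℕ) (hn : (∑ i, d i) + 1 ≤ n) : ET d β a b n = ⊤ := by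
  apply C8_common hm hd hβ a b n hn
  intro o
  have hD0 : (0 : ℝ) < ((∑ i, d i : ℕ) : ℝ) := by exact_mod_cast (by omega : 0 < ∑ i, d i)
  have hD1 : (1 : ℝ) ≤ ((∑ i, d i : ℕ) : ℝ) := by exact_mod_cast (by omega : 1 ≤ ∑ i, d i)
  obtain ⟨δ₁, hδ₁, hq⟩ := q_pos (d := d) (β := β) hm hd hβ o
  obtain ⟨c₁, hc₁, hq'⟩ := hq n hn
  obtain ⟨δ₂, c₂, hδ₂, hc₂, _, hs⟩ := sec_center (d := d) (β := β) hβ b o
  set δ : ℝ := min (min δ₁ δ₂) (1 / ((∑ i, d i : ℕ) : ℝ)) with hδdef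
  have hδ : 0 < δ := by
    rw [hδdef]
    exact lt_min (lt_min hδ₁ hδ₂) (by positivity)
  have hδ' : δ * ((∑ i, d i : ℕ) : ℝ) ≤ 1 := by
    have h1 : δ ≤ 1 / ((∑ i, d i : ℕ) : ℝ) := min_le_right _ _
    calc δ * ((∑ i, d i : ℕ) : ℝ) ≤ 1 / ((∑ i, d i : ℕ) : ℝ) * ((∑ i, d i : ℕ) : ℝ) :=
          mul_le_mul_of_nonneg_right h1 hD0.le
      _ = 1 := by field_simp
  have hδ1 : δ ≤ 1 := by nlinarith
  have hsub := C8_cube_sub (d := d) o δ hδ hδ' hδ1
  have hle1 : δ ≤ δ₁ := (min_le_left _ _).trans (min_le_left _ _)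
  have hle2 : δ ≤ δ₂ := (min_le_left _ _).trans (min_le_right _ _)
  rw [← top_le_iff]
  have hcube : MeasurableSet (Set.pi Set.univ (fun _ : Ix d => Set.Ioc (0 : ℝ) δ)) :=
    MeasurableSet.univ_pi fun _ => measurableSet_Ioc
  calc (⊤ : ℝ≥0∞) = ⊤ * volume (Set.pi Set.univ (fun _ : Ix d => Set.Ioc (0 : ℝ) δ)) := by
        rw [ENNReal.top_mul]
        rw [Real.volume_pi_Ioc]
        rw [Finset.prod_ne_zero_iff]
        intro i _
        simp [hδ]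
    _ = ∫⁻ y in Set.pi Set.univ (fun _ : Ix d => Set.Ioc (0 : ℝ) δ), (⊤ : ℝ≥0∞) := by
        rw [setLIntegral_const]
    _ ≤ ∫⁻ y in Set.pi Set.univ (fun _ : Ix d => Set.Ioc (0 : ℝ) δ),
          Qn β n o y * ENNReal.ofReal |y o| ^ a * Sec β b o y := by
        apply setLIntegral_mono' hcube
        intro y hy
        have hy' : ∀ l, |y l| ≤ δ := by
          intro l
          have h1 := hy l (Set.mem_univ l)
          rw [abs_of_pos h1.1]
          exact h1.2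
        have h1 := hq' y (fun l => (hy' l).trans hle1)
        rw [hs hD hb y (fun l => (hy' l).trans hle2), ENNReal.mul_top]
        have hyo := (hy o (Set.mem_univ o)).1
        apply mul_ne_zero
        · intro h0
          rw [h0] at h1
          have : 0 < ENNReal.ofReal c₁ := ENNReal.ofReal_pos.mpr hc₁
          exact absurd h1 (not_le.mpr this)
        · rw [abs_of_pos hyo, ENNReal.ofReal_rpow_of_pos hyo]
          simp only [ne_eq, ENNReal.ofReal_eq_zero, not_le]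
          positivity
    _ ≤ _ := by
        unfold Fint
        exact lintegral_mono_set hsub

end RP
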