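import Pool.Agent.H6.RP.Defs

/-! MP_52e2a0_pr: working definitions (raw coordinates `ι → ℝ`). -/

open MeasureTheory
open scoped ENNReal

namespace RP

section General

variable {ι : Type*} [Fintype ι] [DecidableEq ι]

/-- rows `x k`, column `o` replaced by ones -/
def Mt (o : ι) (x : ι → ι → ℝ) : Matrix ι ι ℝ := fun k l => if l = o then 1 else x k l

noncomputable def Dt (o : ι) (x : ι → ι → ℝ) : ℝ := (Mt o x).det

/-- the hyperplane through the points `x k`, written as `x o = y o + ∑_{l ≠ o} y l * x l` -/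
noncomputable def Yof (o : ι) (x : ι → ι → ℝ) : ι → ℝ := (Mt o x)⁻¹.mulVec fun k => x k o

/-- graph point: coordinate `o` of `x` replaced by `y o + ∑_{l ≠ o} y l * x l` -/
noncomputable def gp (o : ι) (x y : ι → ℝ) : ι → ℝ :=
  Function.update x o (∑ l, (if l = o then 1 else x l) * y l)

/-- extension by `0` in coordinate `o` -/
noncomputable def ext0 (o : ι) (x : {l // l ≠ o} → ℝ) : ι → ℝ := fun l => if h : l = o then 0 else x ⟨l, h⟩

/-- normal vector of the hyperplane `x o = y o + ∑_{l ≠ o} y l * x l`, i.e. `dotProduct (Nv o y) x = y o` -/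
def Nv (o : ι) (y : ι → ℝ) : ι → ℝ := fun l => if l = o then 1 else - y l

theorem Mt_mulVec (o : ι) (x : ι → ι → ℝ) (y : ι → ℝ) (k : ι) :
    (Mt o x).mulVec y k = gp o (x k) y o := by
  simp [Mt, Matrix.mulVec, dotProduct, gp]

theorem Nv_gp (o : ι) (x y : ι → ℝ) : dotProduct (Nv o y) (gp o x y) = y o := by
  classical
  have h1 : dotProduct (Nv o y) (gp o x y) = gp o x y o + ∑ l ∈ Finset.univ.erase o, - y l * x l := by
    unfold dotProduct
    rw [← Finset.add_sum_erase _ _ (Finset.mem_univ o)]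
    congr 1
    · simp [Nv]
    · apply Finset.sum_congr rfl
      intro l hl
      have hne : l ≠ o := Finset.ne_of_mem_erase hl
      simp [Nv, gp, hne]
  have h2 : gp o x y o = y o + ∑ l ∈ Finset.univ.erase o, x l * y l := by
    unfold gp
    rw [Function.update_self, ← Finset.add_sum_erase _ _ (Finset.mem_univ o)]
    congr 1
    · simp
    · apply Finset.sum_congr rfl
      intro l hl
      have hne : l ≠ o := Finset.ne_of_mem_erase hl
      simp [hne]
  rw [h1, h2, add_assoc, ← Finset.sum_add_distrib]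
  have : ∀ l ∈ Finset.univ.erase o, (x l * y l + -y l * x l) = 0 := by intro l _; ring
  rw [Finset.sum_eq_zero this, add_zero]

end General

variable {m : ℕ} {d : Fin m → ℕ}

/-- block norms -/
noncomputable def sN (N : Ix d → ℝ) (i : Fin m) : ℝ := Real.sqrt (bsq N i)

/-- depth of the hyperplane `dotProduct N x = r` in the product of balls -/
noncomputable def tN (N : Ix d → ℝ) (r : ℝ) : ℝ := (∑ i, sN N i) - |r|

/-- relative depth in block `i`: `min 1 (t / s_i)` -/
noncomputable def pN (N : Ix d → ℝ) (r : ℝ) (i : Fin m) : ℝ := tN N r / max (sN N i) (tN N r)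

/-- size of the section -/
noncomputable def SS (N : Ix d → ℝ) (r : ℝ) : ℝ :=
  (∏ i, (pN N r i) ^ ((((d i : ℕ) : ℝ) + 1) / 2)) / tN N r

/-- the block-beta distribution in raw coordinates -/
noncomputable def muw (d : Fin m → ℕ) (β : Fin m → ℝ) : Measure (Ix d → ℝ) :=
  (∫⁻ x : Ix d → ℝ, wt β x)⁻¹ • (volume.withDensity fun x : Ix d → ℝ => wt β x)

/-- hyperplanes whose normal vector has its largest block at `o.1` and the largest entry of that block at `o` -/
def Yreg (o : Ix d) : Set (Ix d → ℝ) :=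
  {y | (∀ j, |Nv o y ⟨o.1, j⟩| ≤ 1) ∧ ∀ i, bsq (Nv o y) i ≤ bsq (Nv o y) o.1}

/-- probability that `n - D` points lie on one side of the hyperplane `y` -/
noncomputable def Qn (β : Fin m → ℝ) (n : ℕ) (o : Ix d) (y : Ix d → ℝ) : ℝ≥0∞ :=
  (muw d β {x | y o < dotProduct (Nv o y) x}) ^ (n - ∑ i, d i) +
    (muw d β {x | dotProduct (Nv o y) x < y o}) ^ (n - ∑ i, d i)

/-- section integral -/
noncomputable def Sec (β : Fin m → ℝ) (b : ℝ) (o : Ix d) (y : Ix d → ℝ) : ℝ≥0∞ :=
  ∫⁻ x : Ix d → {l // l ≠ o} → ℝ, ENNReal.ofReal |Dt o fun k => ext0 o (x k)| ^ (1 + b) *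
    ∏ k, wt β (gp o (ext0 o (x k)) y)

/-- the facet integral for the class `o` -/
noncomputable def Fint (β : Fin m → ℝ) (a b : ℝ) (n : ℕ) (o : Ix d) : ℝ≥0∞ :=
  ∫⁻ y in Yreg o, Qn β n o y * ENNReal.ofReal |y o| ^ a * Sec β b o y

/-- scale `X = n 2^{-γ·κ}` -/
noncomputable def XX (d : Fin m → ℕ) (β : Fin m → ℝ) (n : ℕ) (κ : Fin m → ℕ) : ℝ :=
  n * (2 : ℝ) ^ (-(∑ i, ga d β i * κ i))

/-- the dyadic terms -/
noncomputable def termS (d : Fin m → ℕ) (β : Fin m → ℝ) (b : ℝ) (j : Fin m) (c : ℝ) (n : ℕ) (κ : Fin m → ℕ) : ℝ :=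
  (XX d β n κ) ^ ((∑ i, d i : ℕ) : ℝ) * Real.exp (-(c * XX d β n κ)) *
    (2 : ℝ) ^ (b * κ j + ∑ i, al d b i * κ i)

end RP
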