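import Mathlib

/-! MP_52e2a0_pr: expected T-functional of block-beta random polytopes.  Definitions used by the statement. -/

open MeasureTheory
open scoped ENNReal

namespace RP

/-- The coordinates of `ℝ^d`, grouped in `m` blocks of sizes `d 0, …, d (m-1)`. -/
abbrev Ix {m : ℕ} (d : Fin m → ℕ) := Σ i : Fin m, Fin (d i)

/-- Euclidean space `ℝ^d`, `d = d 0 + … + d (m-1)`, with block coordinates. -/
abbrev Sp {m : ℕ} (d : Fin m → ℕ) := EuclideanSpace ℝ (Ix d)

variable {m : ℕ} {d : Fin m → ℕ}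

/-- The squared Euclidean norm of the `i`-th block of `x`. -/
def bsq (x : Ix d → ℝ) (i : Fin m) : ℝ := ∑ j : Fin (d i), (x ⟨i, j⟩) ^ 2

open Classical in
/-- The unnormalised block-beta density: `∏_i (1 - ‖x^(i)‖²)^{β_i}` on the product of the unit balls, `0` outside. -/
noncomputable def wt (β : Fin m → ℝ) (x : Ix d → ℝ) : ℝ≥0∞ :=
  if ∀ i, bsq x i ≤ 1 then ENNReal.ofReal (∏ i, (1 - bsq x i) ^ (β i)) else 0

/-- The block-beta distribution on `ℝ^d`: density `wt` divided by its integral. -/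
noncomputable def blockBeta (d : Fin m → ℕ) (β : Fin m → ℝ) : Measure (Sp d) :=
  (∫⁻ x : Sp d, wt β x.ofLp)⁻¹ • (volume.withDensity fun x : Sp d => wt β x.ofLp)

/-- `F` is a facet of `P ⊆ ℝ^d`: a nonempty exposed face of dimension `d - 1`. -/
def IsFacet (P F : Set (Sp d)) : Prop :=
  IsExposed ℝ P F ∧ F.Nonempty ∧ Module.finrank ℝ (vectorSpan ℝ F) + 1 = ∑ i, d i

/-- `k`-dimensional volume of subsets of `ℝ^d`: the `k`-dimensional Hausdorff measure, normalised so that the unit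
cube of `ℝ^k` has measure `1`. -/
noncomputable def kvol (k : ℕ) (F : Set (Sp d)) : ℝ≥0∞ :=
  Measure.hausdorffMeasure (k : ℝ) F /
    Measure.hausdorffMeasure (k : ℝ) {x : EuclideanSpace ℝ (Fin k) | ∀ i, x i ∈ Set.Icc (0 : ℝ) 1}

/-- The T-functional: sum over the facets `F` of `P` of `h(F)^a Vol_{d-1}(F)^b`, `h(F)` the distance from the origin
to the affine hull of `F`. -/
noncomputable def Tfun (a b : ℝ) (P : Set (Sp d)) : ℝ≥0∞ :=
  ∑' F : {F : Set (Sp d) // IsFacet P F},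
    ENNReal.ofReal (Metric.infDist 0 (affineSpan ℝ (F : Set (Sp d)) : Set (Sp d))) ^ a *
      (kvol ((∑ i, d i) - 1) (F : Set (Sp d))) ^ b

/-- The expected T-functional of the convex hull of `n` independent block-beta points. -/
noncomputable def ET (d : Fin m → ℕ) (β : Fin m → ℝ) (a b : ℝ) (n : ℕ) : ℝ≥0∞ :=
  ∫⁻ x : Fin n → Sp d, Tfun a b (convexHull ℝ (Set.range x)) ∂(Measure.pi fun _ => blockBeta d β)

/-- The beta-adjusted dimension `k_i = (d_i + β_i) / (1 + β_i)`. -/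
noncomputable def kk (d : Fin m → ℕ) (β : Fin m → ℝ) (i : Fin m) : ℝ := (d i + β i) / (1 + β i)

/-- `ρ_i = (k_i - 1) / (k_i + 1)`. -/
noncomputable def rho (d : Fin m → ℕ) (β : Fin m → ℝ) (i : Fin m) : ℝ := (kk d β i - 1) / (kk d β i + 1)

/-- `γ_i = (d_i + 1)/2 + β_i`. -/
noncomputable def ga (d : Fin m → ℕ) (β : Fin m → ℝ) (i : Fin m) : ℝ := ((d i : ℝ) + 1) / 2 + β i

/-- `α_i = ((d_i - 1) - b (d_i + 1))/2`. -/
noncomputable def al (d : Fin m → ℕ) (b : ℝ) (i : Fin m) : ℝ := (((d i : ℝ) - 1) - b * ((d i : ℝ) + 1)) / 2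

/-- The exponent `e(b)` of `n`: for `b ≥ 0` it is `max_i (1 - b) ρ_i`; for `b < 0` it is the maximum over the
nonempty sets `J` of blocks of `(∑_{i ∈ J} α_i + b) / ∑_{i ∈ J} γ_i`. -/
noncomputable def expo (d : Fin m → ℕ) (β : Fin m → ℝ) (b : ℝ) : ℝ :=
  if 0 ≤ b then ⨆ i, (1 - b) * rho d β i
  else ⨆ J : {J : Finset (Fin m) // J.Nonempty}, ((∑ i ∈ J.1, al d b i) + b) / ∑ i ∈ J.1, ga d β i

open Classical in
/-- The exponent `ℓ(b)` of `log n`: `0` for `b > 0`, one less than the number of blocks with `ρ_i` maximal for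
`b = 0`, and the number of blocks with `α_i = e(b) γ_i` for `b < 0`. -/
noncomputable def lexp (d : Fin m → ℕ) (β : Fin m → ℝ) (b : ℝ) : ℕ :=
  if 0 < b then 0
  else if b = 0 then (Finset.univ.filter fun i => rho d β i = expo d β 0).card - 1
  else (Finset.univ.filter fun i => al d b i = expo d β b * ga d β i).card

end RP
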